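import Pool.Agent.H77.Z3.Mov

/-!
# No gain for a coordinate over the coordinates after it

Let `c` be an order of the coordinates, without relations, and `l < r`. Suppose that the coordinates
after `c l` have labels over the coordinates before them without `c l`, as precise as in the chain.
Then no label of `c l` over all the other coordinates is better than the one over the coordinates
before `c l` (`z3_det`, `z3_fam`).
-/

set_option autoImplicit false

namespace Pool.Z3

open Finset Real MvPolynomial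
open Pool.Agent.H49.Ent Pool.Agent.H32.Dense Pool.STK Pool.KA Pool.KSAT Pool.K2S Pool.PB Pool.S6C
open Pool.GEN Pool.CHT
open Pool.ISO (relvF_exp)

variable {m J : ℕ}

/-- The order without the coordinate `l`, which is put at the end. -/
structure Mv {m : ℕ} (c c' : ℕ → Fin m) (l r : ℕ) : Prop where
  lt : l < r
  inj : Set.InjOn c (Set.Iio r)
  lo : ∀ j < l, c' j = c j
  hi : ∀ j, l ≤ j → j + 1 < r → c' j = c (j + 1)
  top : c' (r - 1) = c l

/-- The other coordinates are before, without `c l`. -/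
theorem Mv.ex {c c' : ℕ → Fin m} {l r : ℕ} (h : Mv c c' l r) {j k : ℕ} (hk : k < r) (hj : j < k)
    (hjk : l ≤ j → j + 1 < k) : ∃ i < k, i ≠ l ∧ c' j = c i := by
  rcases Nat.lt_or_ge j l with h1 | h1
  · exact ⟨j, hj, by omega, h.lo j h1⟩
  · exact ⟨j + 1, hjk h1, by omega, h.hi j h1 (by have := hjk h1; omega)⟩

theorem Mv.mem {c c' : ℕ → Fin m} {l r : ℕ} (h : Mv c c' l r) :
    ∀ j < r, ∃ i < r, c' j = c i := by
  intro j hj
  have hl := h.lt
  rcases Nat.lt_or_ge j l with h1 | h1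
  · exact ⟨j, hj, h.lo j h1⟩
  · rcases Nat.lt_or_ge (j + 1) r with h2 | h2
    · exact ⟨j + 1, h2, h.hi j h1 h2⟩
    · refine ⟨l, hl, ?_⟩
      have : j = r - 1 := by omega
      rw [this]
      exact h.top

theorem Mv.inj' {c c' : ℕ → Fin m} {l r : ℕ} (h : Mv c c' l r) : Set.InjOn c' (Set.Iio r) := by
  have hl := h.lt
  obtain ⟨f, hf⟩ : ∃ f : ℕ → ℕ, f = fun j => if j < l then j else if j + 1 < r then j + 1 else l :=
    ⟨_, rfl⟩
  have h1 : ∀ j < r, c' j = c (f j) ∧ f j < r := by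
    intro j hj
    rw [hf]
    dsimp only
    split_ifs with h2 h3
    · exact ⟨h.lo j h2, hj⟩
    · exact ⟨h.hi j (by omega) h3, h3⟩
    · have : j = r - 1 := by omega
      rw [this]
      exact ⟨h.top, hl⟩
  intro x hx y hy hxy
  have hx' : x < r := hx
  have hy' : y < r := hy
  rw [(h1 x hx').1, (h1 y hy').1] at hxy
  have h2 := h.inj (Set.mem_Iio.2 (h1 x hx').2) (Set.mem_Iio.2 (h1 y hy').2) hxy
  rw [hf] at h2
  dsimp only at h2
  split_ifs at h2 <;> omega

/-- **No gain for a coordinate over the coordinates after it**, at one point. -/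
theorem z3_det (D r : ℕ) (hD : 1 ≤ D) : ∃ C : ℕ, ∀ {m : ℕ} {c c' : ℕ → Fin m} {l a q L : ℕ} {t : ℝ}
    {T G' : ℕ → MvPolynomial (Option (Fin m)) ℝ} {g g' : ℕ → ℕ} {x : Option (Fin m) → ℝ},
    Mv c c' l r → (∀ j, (T j).totalDegree ≤ D) → (∀ j, (G' j).totalDegree ≤ D) →
    (∀ j, DepC c j (T j)) → (∀ j, DepC c' j (G' j)) → NBx c T g a t r x →
    (∀ b, NBx c T g a t r b → ∀ j < r, |b (some (c' j)) - eval b (G' j)| ≤ 2 ^ L / 2 ^ g' j) →
    (∀ j, l ≤ j → j + 1 < r → g (j + 1) ≤ g' j + q) → g' (r - 1) ≤ g l + C * (L + q + 1) := by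
  obtain ⟨c₀, D₁, hD₁, hdil⟩ := nbx_dil (r + 1) (fun _ => D)
  refine ⟨(c₀ + 3) * (1 + D₁) ^ (r + 1) * (D₁ + 1) + c₀ + 1, ?_⟩
  intro m c c' l a q L t T G' g g' x hmv hdT hdG hpT hpG hx hnear hg
  have hl := hmv.lt
  have hc := hmv.inj
  obtain ⟨h, hh⟩ : ∃ h, h = L + q + 3 := ⟨_, rfl⟩
  obtain ⟨y, hy⟩ : ∃ y : Option (Fin m) → ℝ, y = Function.update x (some (c l))
      (x (some (c l)) + 1 / 2 ^ g l) := ⟨_, rfl⟩
  have hyl : y (some (c l)) = x (some (c l)) + 1 / 2 ^ g l := by
    rw [hy]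
    exact Function.update_self _ _ _
  have hyn : y none = x none := by
    rw [hy]
    exact Function.update_of_ne (by simp) _ _
  have hyj : ∀ j < r, j ≠ l → y (some (c j)) = x (some (c j)) := by
    intro j hj hjl
    rw [hy]
    refine Function.update_of_ne (fun he => hjl ?_) _ _
    exact hc (Set.mem_Iio.2 hj) (Set.mem_Iio.2 hl) (Option.some_injective _ he)
  have hTlo : ∀ j ≤ l, eval y (T j) = eval x (T j) := fun j hj =>
    hpT j y x hyn fun i hi => hyj i (by omega) (by omega)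
  -- the labels without `c l` do not change
  have hGk : ∀ k, l < k → k < r → eval y (G' (k - 1)) = eval x (G' (k - 1)) := by
    intro k hk hkr
    refine hpG (k - 1) y x hyn fun j hj => ?_
    obtain ⟨i, hi, hil, he⟩ := hmv.ex (j := j) (k := k) hkr (by omega) (fun _ => by omega)
    rw [he]
    exact hyj i (by omega) hil
  have hGt : eval y (G' (r - 1)) = eval x (G' (r - 1)) := by
    refine hpG (r - 1) y x hyn fun j hj => ?_
    rcases Nat.lt_or_ge j l with h1 | h1
    · rw [hmv.lo j h1]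
      exact hyj j (by omega) (by omega)
    · rw [hmv.hi j h1 (by omega)]
      exact hyj (j + 1) (by omega) (by omega)
  have hdG' : ∀ k, l < k → k < r → DepC c k (G' (k - 1)) := by
    intro k hk hkr b b' hn hb
    refine hpG (k - 1) b b' hn fun j hj => ?_
    obtain ⟨i, hi, hil, he⟩ := hmv.ex (j := j) (k := k) hkr (by omega) (fun _ => by omega)
    rw [he]
    exact hb i hi
  have hdGt : DepC c r (X (some (c l)) - G' (r - 1)) := by
    intro b b' hn hb
    rw [map_sub, map_sub, eval_X, eval_X, hb l hl]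
    congr 1
    refine hpG (r - 1) b b' hn fun j hj => ?_
    obtain ⟨i, hi, he⟩ := hmv.mem j (by omega)
    rw [he]
    exact hb i hi
  -- the shifted point is in a larger box
  have key : ∀ k ≤ r, ∀ j < k,
      |y (some (c j)) - eval y (T j)| ≤ 2 ^ lex h c₀ D₁ k / 2 ^ g j := by
    intro k
    induction k with
    | zero => intro _ j hj; omega
    | succ k ih =>
      intro hk j hj
      rcases Nat.lt_or_ge j k with h1 | h1
      · refine (ih (by omega) j h1).trans (div_le_div_of_nonneg_right ?_ (by positivity))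
        exact pow_le_pow_right₀ (by norm_num) (lex_mono hD₁)
      have hjk : j = k := by omega
      subst hjk
      have hxj := hx.2 j (by omega)
      have e0 : lex h c₀ D₁ (j + 1) = h + c₀ + lex h c₀ D₁ j * D₁ := rfl
      have e1 : (2 : ℝ) ≤ 2 ^ lex h c₀ D₁ (j + 1) := by
        calc (2 : ℝ) = 2 ^ 1 := (pow_one _).symm
          _ ≤ _ := pow_le_pow_right₀ (by norm_num) (by rw [e0, hh]; omega)
      rcases Nat.lt_trichotomy j l with h2 | h2 | h2
      · rw [hyj j (by omega) (by omega), hTlo j (by omega)]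
        exact hxj.trans (div_le_div_of_nonneg_right (by linarith) (by positivity))
      · rw [hTlo j (by omega)]
        rw [h2] at hxj e1 ⊢
        rw [hyl]
        have h3 : (2 : ℝ) / 2 ^ g l ≤ 2 ^ lex h c₀ D₁ (l + 1) / 2 ^ g l :=
          div_le_div_of_nonneg_right e1 (by positivity)
        have h4 : (2 : ℝ) / 2 ^ g l = 1 / 2 ^ g l + 1 / 2 ^ g l := by ring
        have h5 : (0 : ℝ) < 1 / 2 ^ g l := by positivity
        rw [abs_le] at hxj ⊢
        constructor <;> linarith [hxj.1, hxj.2]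
      · have hcj : c' (j - 1) = c j := by
          have := hmv.hi (j - 1) (by omega) (by omega)
          rw [this]
          congr 1
          omega
        have hgj : g j ≤ g' (j - 1) + q := by
          have := hg (j - 1) (by omega) (by omega)
          rw [show j - 1 + 1 = j by omega] at this
          exact this
        have hL : (2 : ℝ) ^ L / 2 ^ g' (j - 1) ≤ 2 ^ (L + q) / 2 ^ g j := by
          rw [div_le_div_iff₀ (by positivity) (by positivity), ← pow_add, ← pow_add]
          exact pow_le_pow_right₀ (by norm_num) (by omega)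
        have h3 := hdil (c := c) (i := j) (G := T) (Q := T j - G' (j - 1)) (g := g) (a := a)
          (t := t) (M := 2 ^ (L + q + 1) / 2 ^ g j) (lex h c₀ D₁ j) (by omega)
          (hc.mono fun x hx => by rw [Set.mem_Iio] at hx ⊢; omega) hdT hpT
          (fun b b' hn hb => by
            rw [map_sub, map_sub, hpT j b b' hn hb, hdG' j h2 (by omega) b b' hn hb])
          ((totalDegree_sub _ _).trans (max_le (hdT j) (hdG _))) (by positivity)
          (fun b hb => by
            obtain ⟨b', k1, k2, k3, k4⟩ := Pool.ISO.nbx_ext hc hpT (show j ≤ r by omega) hb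
            have k5 := k1.2 j (by omega)
            have k6 := (hnear b' k1 (j - 1) (by omega)).trans hL
            rw [hcj] at k6
            rw [map_sub, ← hpT j b' b k2 k3, ← hdG' j h2 (by omega) b' b k2 k3]
            have e2 : (2 : ℝ) ^ (L + q + 1) / 2 ^ g j = 2 ^ (L + q) / 2 ^ g j +
                2 ^ (L + q) / 2 ^ g j := by rw [pow_succ]; ring
            have e3 : (1 : ℝ) / 2 ^ g j ≤ 2 ^ (L + q) / 2 ^ g j :=
              div_le_div_of_nonneg_right (one_le_pow₀ (by norm_num)) (by positivity)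
            rw [e2]
            rw [abs_le] at k5 k6 ⊢
            constructor <;> linarith [k5.1, k5.2, k6.1, k6.2]) y
          (by rw [hyn]; exact hx.1) (fun i hi => ih (by omega) i hi)
        rw [map_sub, hGk j h2 (by omega)] at h3
        have h4 := (hnear x hx (j - 1) (by omega)).trans hL
        rw [hcj] at h4
        rw [hyj j (by omega) (by omega)]
        have e4 : (2 : ℝ) ^ (c₀ + lex h c₀ D₁ j * D₁) * (2 ^ (L + q + 1) / 2 ^ g j) =
            2 ^ (c₀ + lex h c₀ D₁ j * D₁ + (L + q + 1)) / 2 ^ g j := by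
          rw [pow_add _ _ (L + q + 1)]
          ring
        have e5 : (2 : ℝ) ^ (L + q) / 2 ^ g j ≤
            2 ^ (c₀ + lex h c₀ D₁ j * D₁ + (L + q + 1)) / 2 ^ g j :=
          div_le_div_of_nonneg_right (pow_le_pow_right₀ (by norm_num) (by omega)) (by positivity)
        have e6 : (2 : ℝ) ^ (c₀ + lex h c₀ D₁ j * D₁ + (L + q + 1)) / 2 ^ g j +
            2 ^ (c₀ + lex h c₀ D₁ j * D₁ + (L + q + 1)) / 2 ^ g j ≤
            2 ^ lex h c₀ D₁ (j + 1) / 2 ^ g j := by
          rw [← add_div]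
          refine div_le_div_of_nonneg_right ?_ (by positivity)
          calc (2 : ℝ) ^ (c₀ + lex h c₀ D₁ j * D₁ + (L + q + 1)) +
              2 ^ (c₀ + lex h c₀ D₁ j * D₁ + (L + q + 1)) =
                2 ^ (c₀ + lex h c₀ D₁ j * D₁ + (L + q + 1) + 1) := by rw [pow_succ]; ring
            _ ≤ _ := pow_le_pow_right₀ (by norm_num) (by rw [e0, hh]; omega)
        rw [e4] at h3
        rw [abs_le] at h3 h4 ⊢
        constructor <;> linarith [h3.1, h3.2, h4.1, h4.2]
  -- the label of `c l`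
  have h1 := hdil (c := c) (i := r) (G := T) (Q := X (some (c l)) - G' (r - 1)) (g := g) (a := a)
    (t := t) (M := 2 ^ L / 2 ^ g' (r - 1)) (lex h c₀ D₁ r) (by omega) hc hdT hpT hdGt
    ((totalDegree_sub _ _).trans (max_le (by rw [totalDegree_X]; exact hD) (hdG _)))
    (by positivity) (fun b hb => by
      have := hnear b hb (r - 1) (by omega)
      rw [hmv.top] at this
      rw [map_sub, eval_X]
      exact this) y (by rw [hyn]; exact hx.1) (key r le_rfl)
  rw [map_sub, eval_X, hyl, hGt] at h1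
  have h2 := hnear x hx (r - 1) (by omega)
  rw [hmv.top] at h2
  have h3 : (1 : ℝ) / 2 ^ g l ≤ 2 ^ (c₀ + lex h c₀ D₁ r * D₁ + L + 1) / 2 ^ g' (r - 1) := by
    have e1 : (2 : ℝ) ^ (c₀ + lex h c₀ D₁ r * D₁) * (2 ^ L / 2 ^ g' (r - 1)) =
        2 ^ (c₀ + lex h c₀ D₁ r * D₁ + L) / 2 ^ g' (r - 1) := by
      rw [pow_add _ _ L]
      ring
    have e2 : (2 : ℝ) ^ L / 2 ^ g' (r - 1) ≤
        2 ^ (c₀ + lex h c₀ D₁ r * D₁ + L) / 2 ^ g' (r - 1) :=
      div_le_div_of_nonneg_right (pow_le_pow_right₀ (by norm_num) (by omega)) (by positivity)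
    have e3 : (2 : ℝ) ^ (c₀ + lex h c₀ D₁ r * D₁ + L + 1) / 2 ^ g' (r - 1) =
        2 ^ (c₀ + lex h c₀ D₁ r * D₁ + L) / 2 ^ g' (r - 1) +
        2 ^ (c₀ + lex h c₀ D₁ r * D₁ + L) / 2 ^ g' (r - 1) := by
      rw [pow_succ]
      ring
    rw [e1] at h1
    rw [abs_le] at h1 h2
    linarith [h1.1, h1.2, h2.1, h2.2]
  rw [div_le_div_iff₀ (by positivity) (by positivity), one_mul, ← pow_add] at h3
  have h4 : g' (r - 1) ≤ c₀ + lex h c₀ D₁ r * D₁ + L + 1 + g l := by
    by_contra hcon
    push Not at hcon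
    have : (2 : ℝ) ^ (c₀ + lex h c₀ D₁ r * D₁ + L + 1 + g l) < 2 ^ g' (r - 1) :=
      pow_lt_pow_right₀ (by norm_num) hcon
    linarith
  have h5 : lex h c₀ D₁ r ≤ (c₀ + 3) * (1 + D₁) ^ (r + 1) * (L + q + 1) := by
    refine (lex_le h c₀ D₁ r).trans ?_
    have h6 : (1 + D₁) ^ r ≤ (1 + D₁) ^ (r + 1) := Nat.pow_le_pow_right (by omega) (by omega)
    calc (h + c₀) * (1 + D₁) ^ r ≤ ((c₀ + 3) * (L + q + 1)) * (1 + D₁) ^ (r + 1) :=
          Nat.mul_le_mul (by rw [hh]; nlinarith) h6
      _ = _ := by ring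
  have h6 : lex h c₀ D₁ r * D₁ ≤ (c₀ + 3) * (1 + D₁) ^ (r + 1) * (L + q + 1) * (D₁ + 1) :=
    Nat.mul_le_mul h5 (Nat.le_succ _)
  have h7 : ((c₀ + 3) * (1 + D₁) ^ (r + 1) * (D₁ + 1) + c₀ + 1) * (L + q + 1) =
      (c₀ + 3) * (1 + D₁) ^ (r + 1) * (L + q + 1) * (D₁ + 1) + c₀ * (L + q + 1) + (L + q + 1) := by
    ring
  have h8 : c₀ ≤ c₀ * (L + q + 1) := Nat.le_mul_of_pos_right _ (by omega)
  rw [h7]
  omega

/-- **No gain for a coordinate over the coordinates after it**, for a family: `T` is a chain without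
relations over all the coordinates in the order `c`, and `G'` a chain in the order without `c l`,
whose last target is `c l`. -/
theorem z3_fam (D r : ℕ) (hD : 1 ≤ D) : ∃ C : ℕ, ∀ {m J : ℕ} {F : Fam m J} {c c' : ℕ → Fin m}
    {l a w e e' h q : ℕ} {g g' : ℕ → ℕ} {κ κ' : ℝ} {B B' : F.Ω → Prop}
    {T G' : PtT F → ℕ → MvPolynomial (Option (Fin m)) ℝ}
    {TH H' : LnT F → ℕ → MvPolynomial (Option (Fin m)) ℝ}, Mv c c' l r →
    RelvF F c r a w g D h κ B T → ChOK F c r (fun _ => D) a w e g B T TH → Sub B' B →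
    κ' * Pe F.p B ≤ Pe F.p B' → κ * 2 ^ r ≤ κ' → 0 < Pe F.p B' →
    ChOK F c' r (fun _ => D) a w e' g' B' G' H' →
    (∀ j, l ≤ j → j + 1 < r → g (j + 1) ≤ g' j + q) → g' (r - 1) ≤ g l + C * (h + q + 1) := by
  obtain ⟨C₁, hmv⟩ := move_any D r hD
  obtain ⟨C₂, hdet⟩ := z3_det D r hD
  refine ⟨C₂ * (C₁ + 1), ?_⟩
  intro m J F c c' l a w e e' h q g g' κ κ' B B' T G' TH H' hM hR hT hB hP hκ hPe hL hg
  obtain ⟨B'', k1, k2, k3⟩ := hmv (c := c) (c' := c') (i := r) (s := r) le_rfl hM.mem hM.inj' hR hB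
    hP hκ hL
  have h1 : 0 < Pe F.p B'' := lt_of_lt_of_le (by positivity) k2
  obtain ⟨ω, hω⟩ : ∃ ω, B'' ω := by
    by_contra hcon
    push Not at hcon
    have : Pe F.p B'' = 0 := by
      unfold Pe
      refine Finset.sum_eq_zero fun ω _ => ?_
      exact if_neg (by simpa using hcon ω)
    linarith
  have h2 := hdet (c := c) (c' := c') (l := l) (a := a) (q := q) (L := C₁ * (h + 1)) (t := F.t ω)
    (T := T (ptr F J ω)) (G' := G' (ptr F J ω)) (g := g) (g' := g') (x := bt F ω) hM
    (hT.degG _) (hL.degG _) (hT.depG _) (hL.depG _)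
    ⟨by
      show |bt F ω none - F.t ω| ≤ _
      have : bt F ω none = F.t ω := rfl
      rw [this, sub_self, abs_zero]
      positivity, fun i hi => by
      have := hT.pos ω (hB ω (k1 ω hω)) i hi
      exact this⟩ (fun b hb j hj => k3 ω hω b hb j hj) hg
  refine h2.trans (Nat.add_le_add_left ?_ _)
  calc C₂ * (C₁ * (h + 1) + q + 1) ≤ C₂ * ((C₁ + 1) * (h + q + 1)) :=
        Nat.mul_le_mul_left _ (by nlinarith)
    _ = _ := by ring

end Pool.Z3
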