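import Pool.Agent.H2.GEN.EvL
import Pool.Agent.H77.Z3.Det

/-!
# No gain for a coordinate over the coordinates after it, in a class

`z3_cls`: the order `c` has no relations at `(a, w)`; the coordinates after `c l` have over the
coordinates before them, without `c l`, the same numbers as with `c l`. Then the number of `c l` over
all the other coordinates is at most its number over the coordinates before it.
-/

set_option autoImplicit false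

namespace Pool.Z3

open Finset Real MvPolynomial
open Pool.Agent.H49.Ent Pool.Agent.H32.Dense Pool.STK Pool.KA Pool.KSAT Pool.K2S Pool.PB Pool.S6C
open Pool.GEN Pool.CHT Pool.ISO
open Pool.LBT (ThrOf bas_false)
open Pool.LEV (Law)

/-- **The data of a path of points** `(a - κ, w - κ)`, `κ ∈ Q`, `κ ≤ ρ`, which ends at `(a, w)`, for
the chains of `r` coordinates. -/
structure PtC {m : ℕ} (S : PCl m) (P : List (Fin m) × Fin m → ℝ → ℝ → ℝ) (θ : ℝ) (c : ℕ → Fin m)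
    (r : ℕ) (a w ρ : ℝ) (S₀ : ℕ) (vs e₀ : ℝ → ℝ) (Q : Set ℝ) : Prop where
  ρ0 : 0 < ρ
  ρw : ρ < w
  wa : w ≤ a
  a1 : a < 1
  q0 : (0 : ℝ) ∈ Q
  den : ∀ x y : ℝ, 0 ≤ x → x < y → y ≤ ρ → ∃ κ ∈ Q, x < κ ∧ κ < y
  vs0 : ∀ κ ∈ Q, 0 ≤ vs κ
  pt : ∀ κ ∈ Q, 0 ≤ κ → κ ≤ ρ →
    Pts S P θ c r 1 (fun _ => a - κ) (fun _ => w - κ) (vs κ) (e₀ κ) ∧ Csl r r * vs κ < e₀ κ ∧
    ∀ l < r, bet P c l a w ≤ bet P c l (a - κ) (w - κ) + S₀ * κ
  sr : 2 ≤ S₀ * ρ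

/-- **The chain with small exponents**, of universal degree, and no relation for it. -/
theorem thin_one (r S₀ : ℕ) (hr : 1 ≤ r) (hS₀ : 1 ≤ S₀) : ∃ D : ℕ, 1 ≤ D ∧
    ∀ {m : ℕ} {S : PCl m} {P : List (Fin m) × Fin m → ℝ → ℝ → ℝ} {θ : ℝ} {c : ℕ → Fin m}
    {a w ρ : ℝ} {vs e₀ : ℝ → ℝ} {Q : Set ℝ}, ThrOf (chsys m θ) S P →
    0 < θ → TmH S → Set.InjOn c (Set.Iio r) →
    PtC S P θ c r a w ρ S₀ vs e₀ Q → ∀ (Dr : ℕ) (η σ : ℝ), 0 < η → 0 < σ →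
    ∃ (K₁ : ℝ) (dT : ℕ → ℝ), 0 < K₁ ∧ (∀ l < r, 0 < dT l ∧ dT l ≤ σ ∧ dT l < a) ∧
      Bas S (fun J F A => ∃ B : F.Ω → Prop, Sub B A ∧ Pe F.p A ≤ K₁ * Pe F.p B ∧
        Chn c r (fun _ => D) a w (e₀ 0) (fun l => bet P c l a w - dT l) J F B) ∧
      ∀ κ κ₁ : ℝ, 0 < κ → 0 < κ₁ → Bas S (fun J F A => ∀ (B : F.Ω → Prop)
        (T : PtT F → ℕ → MvPolynomial (Option (Fin m)) ℝ)
        (TH : LnT F → ℕ → MvPolynomial (Option (Fin m)) ℝ), Sub B A →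
        κ₁ * Pe F.p A ≤ Pe F.p B →
        ChOK F c r (fun _ => D) ⌊a * J⌋₊ ⌊w * J⌋₊ ⌊e₀ 0 * J⌋₊
          (fun l => ⌊(bet P c l a w - dT l) * J⌋₊) B T TH →
        RelvF F c r ⌊a * J⌋₊ ⌊w * J⌋₊ (fun l => ⌊(bet P c l a w - dT l) * J⌋₊) Dr ⌊η * J⌋₊ κ B
          T) := by
  obtain ⟨D₁, C₁, hC₁, hT⟩ := Pool.STAT.CLO.lab2q r S₀ hr hS₀
  obtain ⟨D, hD⟩ : ∃ D, D = max D₁ 1 := ⟨_, rfl⟩
  have hD1 : D₁ ≤ D := by rw [hD]; exact le_max_left _ _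
  refine ⟨D, by rw [hD]; exact le_max_right _ _, ?_⟩
  intro m S P θ c a w ρ vs e₀ Q hP hθ hS hinj hd Dr η σ hη hσ
  obtain ⟨hpts, hcs, -⟩ := hd.pt 0 hd.q0 le_rfl hd.ρ0.le
  rw [sub_zero, sub_zero] at hpts
  have ha0 : 0 < a := (hd.ρ0.trans hd.ρw).trans_le hd.wa
  have hρ := hd.ρ0
  have hρw := hd.ρw
  obtain ⟨φ, hφ, hrel⟩ := hpts.rel 0 one_pos Dr η hη
  obtain ⟨em, hem⟩ : ∃ em : ℝ, em = (Csl r r * vs 0 + e₀ 0) / 2 := ⟨_, rfl⟩
  have hem1 : Csl r r * vs 0 < em := by rw [hem]; linarith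
  have hem2 : em < e₀ 0 := by rw [hem]; linarith
  obtain ⟨dT, dT0, dT1, dT2, dT3⟩ := loss_ex r hC₁ (ψ := fun l => min (min (σ) (a / 2))
    (min ((e₀ 0 - em) / C₁) (φ l (∑ l' ∈ Finset.Ioo l r, D)))) fun l _ =>
      lt_min (lt_min hσ (by positivity)) (lt_min (div_pos (by linarith) (by linarith)) (hφ _ _))
  have t1 : ∀ l ≤ r, dT l ≤ σ := fun l hl =>
    (dT3 l hl).trans ((min_le_left _ _).trans (min_le_left _ _))
  have t2 : ∀ l ≤ r, dT l < a := fun l hl => by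
    have := (dT3 l hl).trans ((min_le_left _ _).trans (min_le_right _ _))
    linarith
  have t3 : ∀ l ≤ r, C₁ * dT l ≤ e₀ 0 - em := fun l hl => by
    have := (dT3 l hl).trans ((min_le_right _ _).trans (min_le_left _ _))
    rw [le_div_iff₀ (by linarith)] at this
    linarith
  have t4 : ∀ l ≤ r, dT l ≤ φ l (∑ l' ∈ Finset.Ioo l r, D) := fun l hl =>
    (dT3 l hl).trans ((min_le_right _ _).trans (min_le_right _ _))
  obtain ⟨K₁, hK₁, hbT⟩ := hT (Sc := S) (P := P) (θ := θ) (c := c) (a := a) (w := w)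
    (v := w - ρ) (ε := 0) (vs := vs) (e₀ := e₀) (Q := {κ | κ ∈ Q ∧ 0 ≤ κ ∧ κ ≤ ρ}) hP hθ hS hinj
    (by linarith) (by linarith) hd.wa hd.a1 (fun κ hκ => hd.vs0 κ hκ.1) le_rfl
    ⟨hd.q0, le_rfl, hρ.le⟩
    (fun x y h1 h2 h3 => by
      rw [sub_sub_cancel] at h3
      obtain ⟨κ, k1, k2, k3⟩ := hd.den x y h1 h2 h3
      exact ⟨κ, ⟨k1, by linarith, by linarith⟩, k2, k3⟩)
    (fun κ hκ _ _ => by
      obtain ⟨h1, h2, h3⟩ := hd.pt κ hκ.1 hκ.2.1 hκ.2.2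
      exact ⟨h1, h2, fun l hl => by have := h3 l hl; linarith⟩)
    (by rw [sub_sub_cancel]; exact hd.sr) dT dT0 (by rw [mul_zero]; exact dT0)
    (fun l _ => dT1 l) (fun l hl => t2 l hl.le) em hem1 hem2.le
  refine ⟨K₁, dT, hK₁, fun l hl => ⟨dT2 l, t1 l hl.le, t2 l hl.le⟩, ?_, fun κ κ₁ hκ hκ₁ => ?_⟩
  · refine Bas.mono 0 hbT ?_
    rintro J - F A ⟨B, h1, h2, h3⟩
    have hJ0 : (0 : ℝ) ≤ J := Nat.cast_nonneg J
    refine ⟨B, h1, h2, ?_⟩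
    obtain ⟨G, H, h7⟩ := h3
    refine ⟨G, H, h7.mono le_rfl (fun _ => hD1) le_rfl ?_⟩
    refine Nat.floor_le_floor (mul_le_mul_of_nonneg_right ?_ hJ0)
    have := t3 (r - 1) (by omega)
    linarith
  · have h1 : Hie φ r (fun _ => D) dT := fun l hl => ⟨dT2 l, t4 l hl.le⟩
    have h2 := relvF_of (hrel r le_rfl (fun _ => D) dT h1 (1 / 2) (by norm_num)) hκ hκ₁
    refine Bas.mono 0 h2 ?_
    rintro J - F A hA B T TH hB hP' hL
    exact hA B T TH _ hB hP' le_rfl hL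

/-- **Chains with the target on the top**, of universal degree, with small losses. -/
theorem thin_top (r S₀ : ℕ) (hS₀ : 1 ≤ S₀) : ∃ D : ℕ, 1 ≤ D ∧
    ∀ {m : ℕ} {S : PCl m} {P : List (Fin m) × Fin m → ℝ → ℝ → ℝ} {θ : ℝ} {c : ℕ → Fin m}
    {Pt : ℝ → ℝ → ℝ} {a w ρ : ℝ} {vs e e₀ E sg : ℝ → ℝ} {Q : Set ℝ}, ThrOf (chsys m θ) S P →
    0 < θ → TmH S → Set.InjOn c (Set.Iio (r + 1)) → Law Pt →
    PtD S P θ c r Pt a w ρ S₀ vs e e₀ E sg Q → ∀ σ : ℝ, 0 < σ →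
    ∃ (K₁ : ℝ) (dN : ℕ → ℝ), 0 < K₁ ∧ (∀ l ≤ r, 0 < dN l ∧ dN l ≤ σ ∧ dN l < a) ∧
      Bas S (fun J F A => ∃ B : F.Ω → Prop, Sub B A ∧ Pe F.p A ≤ K₁ * Pe F.p B ∧
        Chn c (r + 1) (fun _ => D) a w (E 0 + σ) (fun l => lvN P c r Pt l a w - dN l) J F B) := by
  obtain ⟨D₂, C₂, hC₂, hN⟩ := labN r S₀ hS₀
  obtain ⟨D, hD⟩ : ∃ D, D = max D₂ 1 := ⟨_, rfl⟩
  have hD2 : D₂ ≤ D := by rw [hD]; exact le_max_left _ _
  refine ⟨D, by rw [hD]; exact le_max_right _ _, ?_⟩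
  intro m S P θ c Pt a w ρ vs e e₀ E sg Q hP hθ hS hinj hPt hd σ hσ
  have ha0 := hd.a0
  have hρ := hd.ρ0
  have hρw := hd.ρw
  obtain ⟨dN, dN0, dN1, dN2, dN3⟩ := loss_ex r hC₂ (ψ := fun _ => min (min (σ) (a / 2))
    (σ / C₂)) fun l _ => lt_min (lt_min hσ (by positivity)) (div_pos hσ (by linarith))
  have n1 : ∀ l ≤ r, dN l ≤ σ := fun l hl =>
    (dN3 l hl).trans ((min_le_left _ _).trans (min_le_left _ _))
  have n2 : ∀ l ≤ r, dN l < a := fun l hl => by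
    have := (dN3 l hl).trans ((min_le_left _ _).trans (min_le_right _ _))
    linarith
  have n3 : ∀ l ≤ r, C₂ * dN l ≤ σ := fun l hl => by
    have := (dN3 l hl).trans (min_le_right _ _)
    rw [le_div_iff₀ (by linarith)] at this
    linarith
  obtain ⟨K₂, hK₂, hbN⟩ := hN (Sc := S) (P := P) (θ := θ) (c := c) (Pt := Pt) (a := a) (w := w)
    (v := w - ρ) (ε := 0) (vs := vs) (e := e) (e₀ := e₀) (E := E) (sg := sg)
    (Q := {κ | κ ∈ Q ∧ 0 ≤ κ ∧ κ ≤ ρ}) hP hθ hS hinj hPt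
    (by linarith) (by linarith) hd.wa hd.a1 le_rfl ⟨hd.q0, le_rfl, hρ.le⟩
    (fun x y h1 h2 h3 => by
      rw [sub_sub_cancel] at h3
      obtain ⟨κ, k1, k2, k3⟩ := hd.den x y h1 h2 h3
      exact ⟨κ, ⟨k1, by linarith, by linarith⟩, k2, k3⟩)
    (fun κ hκ _ _ => ⟨hd.pt κ hκ.1 hκ.2.1 hκ.2.2, fun l hl => by
      have h2 := hd.grw κ hκ.1 hκ.2.1 hκ.2.2 l hl
      linarith⟩)
    (by rw [sub_sub_cancel]; exact hd.sr) dN dN0 (by rw [mul_zero]; exact dN0)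
    (fun l _ => dN1 l) (fun l hl => n2 l hl)
  refine ⟨K₂, dN, hK₂, fun l hl => ⟨dN2 l, n1 l hl, n2 l hl⟩, ?_⟩
  refine Bas.mono 0 hbN ?_
  rintro J - F A ⟨B, h1, h2, h3⟩
  have hJ0 : (0 : ℝ) ≤ J := Nat.cast_nonneg J
  refine ⟨B, h1, h2, ?_⟩
  obtain ⟨G, H, h7⟩ := h3
  refine ⟨G, H, h7.mono le_rfl (fun _ => hD2) le_rfl ?_⟩
  refine Nat.floor_le_floor (mul_le_mul_of_nonneg_right ?_ hJ0)
  have := n3 r le_rfl
  linarith

/-- **No gain for a coordinate over the coordinates after it**, in a class: `c` is an order without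
relations at `(a, w)`, `c'` the order with `c l` at the end; `Pt` is the number of `c l` over all the
others. -/
theorem z3_cls {m : ℕ} {S : PCl m} {P : List (Fin m) × Fin m → ℝ → ℝ → ℝ} {θ : ℝ}
    {c c' : ℕ → Fin m} {l r S₁ S₂ : ℕ} {Pt : ℝ → ℝ → ℝ} {a w ρ ρ' : ℝ} {vs e₀ : ℝ → ℝ}
    {vs' e' e₀' E' sg' : ℝ → ℝ} {Q Q' : Set ℝ} (hne : S.Ne) (hP : ThrOf (chsys m θ) S P)
    (hθ : 0 < θ) (hS : TmH S) (hM : Mv c c' l r) (hPt : Law Pt)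
    (h1 : PtC S P θ c r a w ρ S₁ vs e₀ Q)
    (h2 : PtD S P θ c' (r - 1) Pt a w ρ' S₂ vs' e' e₀' E' sg' Q')
    (hst : ∀ j, l ≤ j → j + 1 < r → bet P c (j + 1) a w ≤ bet P c' j a w) :
    Pt a w ≤ bet P c l a w := by
  by_contra hcon
  push Not at hcon
  have hl := hM.lt
  have hr1 : r - 1 + 1 = r := by omega
  have hS₁ : 1 ≤ S₁ := by
    by_contra h
    have h3 : S₁ = 0 := by omega
    have h4 := h1.sr
    rw [h3, Nat.cast_zero, zero_mul] at h4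
    linarith
  obtain ⟨D₁, hD₁, hT⟩ := thin_one r S₁ (by omega) hS₁
  obtain ⟨D₂, hD₂, hN⟩ := thin_top (r - 1) S₂ h2.s1
  obtain ⟨D, hD⟩ : ∃ D, D = max D₁ D₂ := ⟨_, rfl⟩
  obtain ⟨C, hz⟩ := z3_fam D r (by rw [hD]; exact hD₁.trans (le_max_left _ _))
  obtain ⟨γ, hγ⟩ : ∃ γ, γ = Pt a w - bet P c l a w := ⟨_, rfl⟩
  have hγ0 : 0 < γ := by rw [hγ]; linarith
  obtain ⟨σ, hσ⟩ : ∃ σ, σ = γ / (4 * (C + 1)) := ⟨_, rfl⟩
  have hC0 : (0 : ℝ) ≤ C := Nat.cast_nonneg C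
  have hσ0 : 0 < σ := by rw [hσ]; positivity
  have hσC : (C + 1) * σ = γ / 4 := by
    rw [hσ]
    field_simp
  obtain ⟨K₁, dT, hK₁, hdT, bT, rT⟩ := hT hP hθ hS hM.inj h1 D σ σ hσ0 hσ0
  obtain ⟨K₂, dN, hK₂, hdN, bN⟩ := hN hP hθ hS (by rw [hr1]; exact hM.inj') hPt h2 σ hσ0
  have hrel := rT (1 / (2 ^ r * K₂)) (1 / K₁) (by positivity) (by positivity)
  refine bas_false hne (Φ := fun J F A => ∃ B B' : F.Ω → Prop, Sub B A ∧ Sub B' B ∧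
    Pe F.p A ≤ K₁ * Pe F.p B ∧ Pe F.p B ≤ K₂ * Pe F.p B' ∧
    Chn c r (fun _ => D₁) a w (e₀ 0) (fun l => bet P c l a w - dT l) J F B ∧
    Chn c' (r - 1 + 1) (fun _ => D₂) a w (E' 0 + σ) (fun l => lvN P c' (r - 1) Pt l a w - dN l)
      J F B') ?_ ?_
  · refine Bas.mono 0 (bas_then hK₁ bT bN) ?_
    rintro J - F A ⟨B, k1, k2, k3, B', k4, k5, k6⟩
    exact ⟨B, B', k1, k4, k2, k5, k3, k6⟩
  · obtain ⟨J₁, hJ₁⟩ := exists_nat_gt ((5 * C + 2) / (γ / 4))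
    have hpos : Bas S (fun J F A => 0 < Pe F.p A) := ⟨1, one_pos, 0, fun J _ F A hA => hS.1 _ J F A hA⟩
    refine Bas.mono (J₁ + 1) (hrel.and hpos) ?_
    rintro J hJ F A ⟨hrel, hA0⟩ ⟨B, B', k1, k2, k3, k4, ⟨T, TH, k5⟩, G', H', k6⟩
    have hJ1 : 1 ≤ J := by omega
    have hJ0 : (0 : ℝ) < J := by exact_mod_cast (by omega : 0 < J)
    have hJJ : (5 * C + 2) < γ / 4 * J := by
      have h3 : ((5 : ℝ) * C + 2) / (γ / 4) < J := hJ₁.trans_le (by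
        exact_mod_cast (by omega : J₁ ≤ J))
      rw [div_lt_iff₀ (by positivity)] at h3
      linarith
    have hB0 : 0 < Pe F.p B := by
      by_contra h
      push Not at h
      have := mul_nonpos_of_nonneg_of_nonpos hK₁.le h
      linarith
    have hB'0 : 0 < Pe F.p B' := by
      by_contra h
      push Not at h
      have := mul_nonpos_of_nonneg_of_nonpos hK₂.le h
      linarith
    have hR := hrel B T TH k1 (by
      rw [one_div, inv_mul_le_iff₀ hK₁]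
      exact k3) k5
    rw [hr1] at k6
    have h3 := hz (q := ⌊σ * J⌋₊ + 1) (g' := fun j => ⌊(lvN P c' (r - 1) Pt j a w - dN j) * J⌋₊)
      hM hR (k5.mono le_rfl (fun _ => by rw [hD]; exact le_max_left _ _) le_rfl le_rfl) k2
      (κ' := 1 / K₂) (by
        rw [one_div, inv_mul_le_iff₀ hK₂]
        exact k4) (by
        refine le_of_eq ?_
        field_simp) hB'0
      (k6.mono le_rfl (fun _ => by rw [hD]; exact le_max_right _ _) le_rfl le_rfl) (by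
      intro j hj1 hj2
      have e1 : lvN P c' (r - 1) Pt j a w = bet P c' j a w := if_pos (by omega)
      rw [e1]
      have e2 := hst j hj1 hj2
      have e3 := (hdN j (by omega)).2.1
      have e4 := (hdT (j + 1) hj2).1
      have e5 : (bet P c (j + 1) a w - dT (j + 1)) * J ≤ (bet P c' j a w - dN j) * J + σ * J := by
        rw [← add_mul]
        refine mul_le_mul_of_nonneg_right ?_ hJ0.le
        linarith
      have e6 := Nat.lt_floor_add_one ((bet P c' j a w - dN j) * (J : ℝ))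
      have e7 := Nat.lt_floor_add_one (σ * (J : ℝ))
      rcases Nat.eq_zero_or_pos ⌊(bet P c (j + 1) a w - dT (j + 1)) * (J : ℝ)⌋₊ with e8 | e8
      · omega
      · have e9 : ((⌊(bet P c (j + 1) a w - dT (j + 1)) * (J : ℝ)⌋₊ : ℕ) : ℝ) ≤
            (bet P c (j + 1) a w - dT (j + 1)) * J := by
          refine Nat.floor_le ?_
          by_contra h
          push Not at h
          rw [Nat.floor_of_nonpos h.le] at e8
          omega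
        have e10 : ((⌊(bet P c (j + 1) a w - dT (j + 1)) * (J : ℝ)⌋₊ : ℕ) : ℝ) <
            ((⌊(bet P c' j a w - dN j) * (J : ℝ)⌋₊ + (⌊σ * (J : ℝ)⌋₊ + 1) + 1 : ℕ) : ℝ) := by
          push_cast
          linarith
        have e11 : ⌊(bet P c (j + 1) a w - dT (j + 1)) * (J : ℝ)⌋₊ <
            ⌊(bet P c' j a w - dN j) * (J : ℝ)⌋₊ + (⌊σ * (J : ℝ)⌋₊ + 1) + 1 := by
          exact_mod_cast e10
        omega)
    have e1 : lvN P c' (r - 1) Pt (r - 1) a w = Pt a w := if_neg (lt_irrefl _)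
    simp only [e1] at h3
    have h4 : ((⌊(Pt a w - dN (r - 1)) * (J : ℝ)⌋₊ : ℕ) : ℝ) ≤
        (⌊(bet P c l a w - dT l) * (J : ℝ)⌋₊ : ℕ) + C * (⌊σ * (J : ℝ)⌋₊ + (⌊σ * (J : ℝ)⌋₊ + 1) + 1) := by
      exact_mod_cast h3
    have e2 := Nat.lt_floor_add_one ((Pt a w - dN (r - 1)) * (J : ℝ))
    have e3 : ((⌊(bet P c l a w - dT l) * (J : ℝ)⌋₊ : ℕ) : ℝ) ≤ bet P c l a w * J := by
      have h5 : 0 ≤ bet P c l a w := by
        have h6 := hP.low ((List.range l).map c, c l) a w (h1.ρ0.trans h1.ρw).le h1.wa h1.a1.le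
        have h7 : 0 < a := (h1.ρ0.trans h1.ρw).trans_le h1.wa
        exact h7.le.trans h6
      have h8 : ⌊(bet P c l a w - dT l) * (J : ℝ)⌋₊ ≤ ⌊bet P c l a w * (J : ℝ)⌋₊ :=
        Nat.floor_le_floor (mul_le_mul_of_nonneg_right (by linarith [(hdT l hl).1]) hJ0.le)
      have h9 : ((⌊(bet P c l a w - dT l) * (J : ℝ)⌋₊ : ℕ) : ℝ) ≤
          ((⌊bet P c l a w * (J : ℝ)⌋₊ : ℕ) : ℝ) := by exact_mod_cast h8
      exact h9.trans (Nat.floor_le (mul_nonneg h5 hJ0.le))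
    have e4 : ((⌊σ * (J : ℝ)⌋₊ : ℕ) : ℝ) ≤ σ * J := Nat.floor_le (by positivity)
    have e5 := (hdN (r - 1) le_rfl).2.1
    have e6 : (Pt a w - σ) * J ≤ (Pt a w - dN (r - 1)) * J :=
      mul_le_mul_of_nonneg_right (by linarith) hJ0.le
    have e7 : C * ((⌊σ * (J : ℝ)⌋₊ : ℝ) + ((⌊σ * (J : ℝ)⌋₊ : ℝ) + 1) + 1) ≤ C * (2 * (σ * J) + 2) :=
      mul_le_mul_of_nonneg_left (by linarith) hC0
    have e8 : Pt a w * J = γ * J + bet P c l a w * J := by rw [hγ]; ring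
    have e9 : (C + 1) * σ * J = γ / 4 * J := by rw [hσC]
    nlinarith
end Pool.Z3
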