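import Pool.Agent.H77.Z3.Join
import Pool.Agent.H77.Z3.Cls

/-!
# Nodes

`Nod`: a chain of labels of all the coordinates, the target on the top, with small gradients for the
list and without relations. `nod_one`: such a chain at one point of a class. `bas_all`: finitely
many properties on one event. `nod_all`: finitely many nodes on one event.
-/

set_option autoImplicit false

namespace Pool.Z3

open Finset Real MvPolynomial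
open Pool.Agent.H49.Ent Pool.Agent.H32.Dense Pool.STK Pool.KA Pool.KSAT Pool.K2S Pool.PB Pool.S6C
open Pool.GEN Pool.CHT Pool.CHX Pool.ISO
open Pool.LBT (ThrOf bas_false)
open Pool.LEV (Law)
open Pool.ONE (tgs)

variable {m J : ℕ}

/-- Constant shares are large. -/
theorem share_ex {ψ κ : ℝ} (hψ : 0 < ψ) (hκ : 0 < κ) :
    ∃ J₀ : ℕ, ∀ J : ℕ, J₀ ≤ J → Real.exp (-(ψ * J)) ≤ κ := by
  obtain ⟨J₀, hJ₀⟩ := exists_nat_ge (-Real.log κ / ψ)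
  refine ⟨J₀, fun J hJ => ?_⟩
  have h1 : -Real.log κ / ψ ≤ J := hJ₀.trans (by exact_mod_cast hJ)
  rw [div_le_iff₀ hψ] at h1
  have h2 : -(ψ * (J : ℝ)) ≤ Real.log κ := by linarith
  exact (Real.exp_le_exp.2 h2).trans (Real.exp_log hκ).le

/-- From the class to the large events of its members. -/
theorem relvY_F {S : PCl m} {c : ℕ → Fin m} {j : ℕ} {K : ℕ → ℕ} {β d : ℕ → ℝ}
    {a w e₀ E₀ μ μT : ℝ} {D : ℕ} {η : ℝ}
    (h : Bas S (RelYS c j K β d a w e₀ E₀ μ μT D η (1 / 2))) : ∃ ψ : ℝ, 0 < ψ ∧ ∀ κ₁ : ℝ, 0 < κ₁ →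
    Bas S (fun J F A => ∀ (B₀ : F.Ω → Prop) (G : PtT F → ℕ → MvPolynomial (Option (Fin m)) ℝ)
      (H : LnT F → ℕ → MvPolynomial (Option (Fin m)) ℝ), Sub B₀ A →
      κ₁ * Pe F.p A ≤ Pe F.p B₀ →
      ChOK F c j K ⌊a * J⌋₊ ⌊w * J⌋₊ ⌊e₀ * J⌋₊ (fun l => ⌊(β l - d l) * J⌋₊) B₀ G H →
      ChOK F c (j + 1) K ⌊a * J⌋₊ ⌊w * J⌋₊ ⌊E₀ * J⌋₊ (fun l => ⌊(β l - d l) * J⌋₊) B₀ G H →
      RelvY F c j ⌊a * J⌋₊ ⌊w * J⌋₊ (fun l => ⌊(β l - d l) * J⌋₊) D ⌊η * J⌋₊ ⌊(1 - μ) * J⌋₊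
        ⌊(1 - μT) * J⌋₊ (Real.exp (-(ψ * J))) B₀ G) := by
  obtain ⟨τ, hτ, J₀, h⟩ := h
  refine ⟨τ / 4, by positivity, fun κ₁ hκ₁ => ?_⟩
  obtain ⟨J₁, hJ₁⟩ := share_ex (ψ := τ / 4) (by positivity) hκ₁
  refine ⟨τ / 4, by positivity, max J₀ J₁, ?_⟩
  intro J hJ F A hA B₀ G H hB₀ hP hL hT B' hB' hP' Dx Dl M h1 h2 h3 h4 hM h5 h6
  have hS := S.res (τ' := τ / 2) (by positivity) hA (fun ω h => hB₀ ω (hB' ω h)) (by
    calc Real.exp (-(τ / 2 * J)) * Pe F.p A =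
          Real.exp (-(τ / 4 * J)) * (Real.exp (-(τ / 4 * J)) * Pe F.p A) := by
          rw [← mul_assoc, ← Real.exp_add]
          congr 2
          ring
      _ ≤ Real.exp (-(τ / 4 * J)) * (κ₁ * Pe F.p A) :=
          mul_le_mul_of_nonneg_left (mul_le_mul_of_nonneg_right
            (hJ₁ J ((le_max_right _ _).trans hJ)) (Pe_nonneg F.isLaw A)) (Real.exp_pos _).le
      _ ≤ Real.exp (-(τ / 4 * J)) * Pe F.p B₀ := mul_le_mul_of_nonneg_left hP (Real.exp_pos _).le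
      _ ≤ _ := hP')
  obtain ⟨B, l1, l2, l3⟩ := h J ((le_max_left _ _).trans hJ) F B' (S.mono (by linarith) hS) G H
    (hL.sub hB') (hT.sub hB') Dx Dl M h1 h2 h3 h4 hM h5 h6
  exact ⟨B, l1, by linarith, l3⟩

/-- **A node**: one chain for the list and the target, small gradients for the list, no relation. -/
structure Nod (F : Fam m J) (c : ℕ → Fin m) (r D Dr a w e E : ℕ) (g : ℕ → ℕ) (h Y Z : ℕ) (κ : ℝ)
    (B : F.Ω → Prop) (T : PtT F → ℕ → MvPolynomial (Option (Fin m)) ℝ)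
    (TH : LnT F → ℕ → MvPolynomial (Option (Fin m)) ℝ) : Prop where
  lst : ChOK F c r (fun _ => D) a w e g B T TH
  top : ChOK F c (r + 1) (fun _ => D) a w E g B T TH
  rlY : RelvY F c r a w g Dr h Y Z κ B T

section

variable {F : Fam m J} {c : ℕ → Fin m} {r D Dr a w e E : ℕ} {g : ℕ → ℕ} {h Y Z : ℕ} {κ : ℝ}
  {B : F.Ω → Prop} {T : PtT F → ℕ → MvPolynomial (Option (Fin m)) ℝ}
  {TH : LnT F → ℕ → MvPolynomial (Option (Fin m)) ℝ}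

theorem Nod.rlF (N : Nod F c r D Dr a w e E g h Y Z κ B T TH) :
    RelvF F c (r + 1) a w g Dr h κ B T := N.rlY.relvF

theorem Nod.sub (N : Nod F c r D Dr a w e E g h Y Z κ B T TH) {κ₁ κ₂ : ℝ} {B' : F.Ω → Prop}
    (hB : Sub B' B) (hP : κ₁ * Pe F.p B ≤ Pe F.p B') (h2 : 0 ≤ κ₂) (hκ : κ ≤ κ₂ * κ₁) :
    Nod F c r D Dr a w e E g h Y Z κ₂ B' T TH :=
  ⟨N.lst.sub hB, N.top.sub hB, N.rlY.sub hB hP h2 hκ⟩

end

/-- **A node** of a class, real numbers in units of `J`. -/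
def NodS (c : ℕ → Fin m) (r D Dr : ℕ) (β d : ℕ → ℝ) (a w e E η μ μT ψ : ℝ) : Stat m :=
  fun J F B => ∃ (T : PtT F → ℕ → MvPolynomial (Option (Fin m)) ℝ)
    (TH : LnT F → ℕ → MvPolynomial (Option (Fin m)) ℝ),
    Nod F c r D Dr ⌊a * J⌋₊ ⌊w * J⌋₊ ⌊e * J⌋₊ ⌊E * J⌋₊ (fun l => ⌊(β l - d l) * J⌋₊) ⌊η * J⌋₊
      ⌊(1 - μ) * J⌋₊ ⌊(1 - μT) * J⌋₊ (Real.exp (-(ψ * J))) B T TH

/-- Smaller events. -/
theorem NodS.sub {c : ℕ → Fin m} {r D Dr : ℕ} {β d : ℕ → ℝ} {a w e E η μ μT ψ ψ' κ₁ : ℝ} {J : ℕ}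
    {F : Fam m J} {B B' : F.Ω → Prop} (h : NodS c r D Dr β d a w e E η μ μT ψ J F B)
    (hB : Sub B' B) (hP : κ₁ * Pe F.p B ≤ Pe F.p B') (hκ : Real.exp (-((ψ - ψ') * J)) ≤ κ₁) :
    NodS c r D Dr β d a w e E η μ μT ψ' J F B' := by
  obtain ⟨T, TH, h⟩ := h
  refine ⟨T, TH, h.sub hB hP (Real.exp_pos _).le ?_⟩
  calc Real.exp (-(ψ * J)) = Real.exp (-(ψ' * J)) * Real.exp (-((ψ - ψ') * J)) := by
        rw [← Real.exp_add]
        congr 1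
        ring
    _ ≤ _ := mul_le_mul_of_nonneg_left hκ (Real.exp_pos _).le

/-- **A node at one point of a class.** -/
theorem nod_one (r S₀ : ℕ) (hr : 1 ≤ r) (hS₀ : 1 ≤ S₀) : ∃ D : ℕ, 1 ≤ D ∧
    ∀ {m : ℕ} {S : PCl m} {P : List (Fin m) × Fin m → ℝ → ℝ → ℝ} {θ : ℝ} {c : ℕ → Fin m}
    {Pt : ℝ → ℝ → ℝ} {a w ρ : ℝ} {vs e e₀ E sg : ℝ → ℝ} {Q : Set ℝ}, ThrOf (chsys m θ) S P →
    ThrOf (tgs (c r)) S (fun _ => Pt) → 0 < θ → TmH S → Set.InjOn c (Set.Iio (r + 1)) →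
    PtD S P θ c r Pt a w ρ S₀ vs e e₀ E sg Q → (∀ l < r, Up1 (bet P c l) a w) → Up1 Pt a w →
    ∀ {σ μ μT vT : ℝ}, 0 < σ → 0 ≤ μ → 0 ≤ vT → (∀ l < r, bet P c l a w ≤ Pt a w + vT) →
    e₀ 0 ≤ E 0 → e₀ 0 + 2 * vs 0 < θ * w → (∀ l < r, bet P c l a w + (θ * w + μ) < 1) →
    Pt a w + (E 0 + σ + (vT + vs 0) + μ) < 1 → Pt a w + μT < 1 →
    ∀ (Dr : ℕ) (η : ℝ), 0 < η →
    ∃ (K₁ : ℝ) (d : ℕ → ℝ) (ψ : ℝ), 0 < K₁ ∧ 0 < ψ ∧ (∀ l ≤ r, 0 < d l ∧ d l ≤ σ ∧ d l < a) ∧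
      Bas S (fun J F A => ∃ B : F.Ω → Prop, Sub B A ∧
        Pe F.p A ≤ K₁ * Pe F.p B ∧ NodS c r D Dr (fun l => lvN P c r Pt l a w) d a w (e₀ 0)
          (E 0 + σ) η μ μT ψ J F B) := by
  obtain ⟨D, hD, hth⟩ := thin_labs r S₀ hr hS₀
  obtain ⟨C, hjn⟩ := join_top D r hD
  refine ⟨D, hD, ?_⟩
  intro m S P θ c Pt a w ρ vs e e₀ E sg Q hP hPT hθ hS hinj hd hup hupT σ μ μT vT hσ hμ hvT hsrtT
    heE he hμV hμE hμT Dr η hη
  have h0 := hd.self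
  have ha0 := hd.a0
  have hw0 := hd.w0
  have hPt : Law Pt := hPT.law ()
  have hvs := h0.vs0
  have hE0 := hd.E0
  have he0 : 0 ≤ e₀ 0 := by
    have h1 : 0 ≤ (Csl r r : ℝ) * vs 0 := mul_nonneg (Nat.cast_nonneg _) hvs
    linarith [h0.e1, h0.e2]
  have hC0 : (0 : ℝ) ≤ C := Nat.cast_nonneg C
  obtain ⟨φ, hφ, hrel⟩ := relvY_of (PT := fun _ => Pt) (c := c) (jt := r) (a := a) (w := w)
    (vs := vs 0) (e₀ := e₀ 0) (vT := vT) (E₀ := E 0 + σ) (μ := μ) (μT := μT) hP hPT hθ hS hinj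
    hw0 hd.wa hd.a1 hup hupT hvs (fun i hi l hl => h0.pts.srt 0 one_pos i hi l hl) hvT hsrtT he0
    (by linarith) he hμ hμV hμE hμT Dr η hη
  obtain ⟨μ', hμ', hμφ⟩ := fin_pos (r + 1) (f := fun l => φ l (∑ l' ∈ Finset.Ioo l (r + 1), D))
    fun l _ => hφ _ _
  obtain ⟨δ, hδ⟩ : ∃ δ : ℝ, δ = min (min μ' (σ / 4)) (a / 2) := ⟨_, rfl⟩
  have hδ0 : 0 < δ := by
    rw [hδ]
    exact lt_min (lt_min hμ' (by positivity)) (by positivity)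
  have hδ1 : δ ≤ μ' := by rw [hδ]; exact (min_le_left _ _).trans (min_le_left _ _)
  have hδ2 : δ ≤ σ / 4 := by rw [hδ]; exact (min_le_left _ _).trans (min_le_right _ _)
  have hδ3 : δ ≤ a / 2 := by rw [hδ]; exact min_le_right _ _
  obtain ⟨η₁, hη₁⟩ : ∃ η₁ : ℝ, η₁ = δ / (8 * (C + 1)) := ⟨_, rfl⟩
  have hη0 : 0 < η₁ := by rw [hη₁]; positivity
  have hηC : (C + 1) * η₁ = δ / 8 := by
    rw [hη₁]
    field_simp
  obtain ⟨K₁, dT, dN, hK₁, hdT, hdN, bTN, bR⟩ := hth hP hθ hS hinj hPt hd D η₁ (δ / 4) hη0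
    (by positivity)
  obtain ⟨d, hd'⟩ : ∃ d : ℕ → ℝ, d = jn r dT (fun _ => δ) := ⟨_, rfl⟩
  have hdl : ∀ l < r, d l = dT l := fun l hl => by rw [hd', jn_lt hl]
  have hdr : d r = δ := by rw [hd', jn_self]
  have hdd : ∀ l ≤ r, 0 < d l ∧ d l ≤ δ := fun l hl => by
    rcases Nat.lt_or_ge l r with h1 | h1
    · rw [hdl l h1]
      exact ⟨(hdT l h1).1, by linarith [(hdT l h1).2.1]⟩
    · have h2 : l = r := by omega
      subst h2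
      rw [hdr]
      exact ⟨hδ0, le_rfl⟩
  have hHie : Hie φ (r + 1) (fun _ => D) d := fun l hl =>
    ⟨(hdd l (by omega)).1, (hdd l (by omega)).2.trans (hδ1.trans (hμφ l hl))⟩
  obtain ⟨ψ, hψ, bY'⟩ := relvY_F (hrel (fun _ => D) d hHie (1 / 2) (by norm_num))
  refine ⟨K₁ * 2 ^ r, d, ψ, by positivity, hψ, fun l hl => ⟨(hdd l hl).1,
    by linarith [(hdd l hl).2], by linarith [(hdd l hl).2]⟩, ?_⟩
  have bY := bY' (1 / (K₁ * 2 ^ r)) (by positivity)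
  have bR' := bR (1 / 2 ^ r) (1 / K₁) (by positivity) (by positivity)
  obtain ⟨J₁, hJ₁⟩ := exists_nat_gt ((2 * C + 8) / (δ / 2))
  refine Bas.mono (J₁ + 1) ((bTN.and bR').and bY) ?_
  rintro J hJ F A ⟨⟨⟨B, k1, k2, ⟨T, TH, k3⟩, N, NH, k4⟩, hRF⟩, hRY⟩
  have hJ1 : 1 ≤ J := by omega
  have hJ0 : (0 : ℝ) < J := by exact_mod_cast (by omega : 0 < J)
  have hJJ : 2 * C + 8 < δ / 2 * J := by
    have h3 : (2 * (C : ℝ) + 8) / (δ / 2) < J := hJ₁.trans_le (by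
      exact_mod_cast (by omega : J₁ ≤ J))
    rw [div_lt_iff₀ (by positivity)] at h3
    linarith
  have hR := hRF B T TH k1 (by
    rw [one_div, inv_mul_le_iff₀ hK₁]
    exact k2) k3
  -- the sides
  have hη2 : ((⌊η₁ * (J : ℝ)⌋₊ : ℕ) : ℝ) ≤ η₁ * J := Nat.floor_le (by positivity)
  have hηJ : (C + 1) * η₁ * J = δ / 8 * J := by rw [hηC]
  have hηJ0 : 0 ≤ η₁ * J := by positivity
  have hCη : C * ((⌊η₁ * (J : ℝ)⌋₊ : ℝ) + 1) ≤ δ / 8 * J + C := by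
    have h3 : C * ((⌊η₁ * (J : ℝ)⌋₊ : ℝ) + 1) ≤ C * (η₁ * J + 1) :=
      mul_le_mul_of_nonneg_left (by linarith) hC0
    linarith
  obtain ⟨x, hx⟩ : ∃ x : ℕ, x = ⌊δ * (J : ℝ)⌋₊ + 2 := ⟨_, rfl⟩
  have hx1 : δ * J + 1 < x := by
    rw [hx]
    push_cast
    linarith [Nat.lt_floor_add_one (δ * (J : ℝ))]
  have hx2 : (x : ℝ) ≤ δ * J + 2 := by
    rw [hx]
    push_cast
    linarith [Nat.floor_le (show 0 ≤ δ * (J : ℝ) by positivity)]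
  have hfl : ∀ u v z : ℝ, u ≤ v + z → ((⌊u⌋₊ : ℕ) : ℝ) ≤ max 0 (v + z) := by
    intro u v z h
    rcases le_or_gt 0 u with h1 | h1
    · exact ((Nat.floor_le h1).trans h).trans (le_max_right _ _)
    · rw [Nat.floor_of_nonpos h1.le, Nat.cast_zero]
      exact le_max_left _ _
  have hge0 : ∀ (u v : ℝ) (k : ℕ), u + k ≤ v → 0 ≤ v → ⌊u⌋₊ + k ≤ ⌊v⌋₊ + if 0 ≤ u then 0 else k := by
    intro u v k h hv
    split_ifs with h1
    · rw [add_zero, Nat.le_floor_iff hv]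
      push_cast
      linarith [Nat.floor_le h1]
    · push Not at h1
      rw [Nat.floor_of_nonpos h1.le]
      omega
  have hle : ∀ (u v : ℝ) (k : ℕ), u ≤ v + (k - 1) → ⌊u⌋₊ ≤ ⌊v⌋₊ + k := by
    intro u v k h
    rcases Nat.eq_zero_or_pos ⌊u⌋₊ with h1 | h1
    · omega
    · have h2 : ((⌊u⌋₊ : ℕ) : ℝ) ≤ u := Nat.floor_le (by
        by_contra h3
        push Not at h3
        rw [Nat.floor_of_nonpos h3.le] at h1
        omega)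
      have h3 := Nat.lt_floor_add_one v
      have h4 : ((⌊u⌋₊ : ℕ) : ℝ) < ((⌊v⌋₊ + k : ℕ) : ℝ) := by
        push_cast
        linarith
      exact (by exact_mod_cast h4 : ⌊u⌋₊ < ⌊v⌋₊ + k).le
  have hbr : lvN P c r Pt r a w = Pt a w := if_neg (lt_irrefl r)
  have hbl : ∀ l < r, lvN P c r Pt l a w = bet P c l a w := fun l hl => if_pos hl
  have hPa : a ≤ Pt a w := h0.low
  obtain ⟨g', hg'⟩ : ∃ g' : ℕ → ℕ, g' = fun _ => ⌊(Pt a w - δ) * (J : ℝ)⌋₊ := ⟨_, rfl⟩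
  obtain ⟨gT, hgT⟩ : ∃ gT : ℕ → ℕ, gT = fun l => ⌊(bet P c l a w - dT l) * (J : ℝ)⌋₊ := ⟨_, rfl⟩
  obtain ⟨gN, hgN⟩ : ∃ gN : ℕ → ℕ, gN = fun l => ⌊(lvN P c r Pt l a w - dN l) * (J : ℝ)⌋₊ :=
    ⟨_, rfl⟩
  have hPd0 : 0 ≤ (Pt a w - δ) * J := mul_nonneg (by linarith) hJ0.le
  have hj1 : g' r + C * (⌊η₁ * (J : ℝ)⌋₊ + 1) ≤ gN r := by
    rw [hg', hgN]
    simp only [hbr]
    have h3 := (hdN r le_rfl).2.1
    have h4 : 0 ≤ Pt a w - dN r := by linarith [(hdN r le_rfl).2.2]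
    have h5 := hge0 ((Pt a w - δ) * J) ((Pt a w - dN r) * J) (C * (⌊η₁ * (J : ℝ)⌋₊ + 1)) (by
      push_cast
      have h6 : (Pt a w - δ) * J + 3 / 4 * δ * J ≤ (Pt a w - dN r) * J := by
        rw [← add_mul]
        exact mul_le_mul_of_nonneg_right (by linarith) hJ0.le
      have h7 : C + 0 ≤ δ / 2 * J := by linarith
      nlinarith) (mul_nonneg h4 hJ0.le)
    rw [if_pos hPd0] at h5
    exact h5
  have hj2 : gN r ≤ g' r + (x + C * (⌊η₁ * (J : ℝ)⌋₊ + 1)) := by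
    rw [hg', hgN]
    simp only [hbr]
    have h5 := hle ((Pt a w - dN r) * J) ((Pt a w - δ) * J) x (by
      have h6 : (Pt a w - dN r) * J ≤ (Pt a w - δ) * J + δ * J := by
        rw [← add_mul]
        exact mul_le_mul_of_nonneg_right (by linarith [(hdN r le_rfl).1]) hJ0.le
      linarith)
    exact h5.trans (by omega)
  have hj3 : ∀ l < r, gN l ≤ gT l + x := by
    intro l hl
    rw [hgT, hgN]
    simp only [hbl l hl]
    refine hle _ _ x ?_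
    have h6 : (bet P c l a w - dN l) * J ≤ (bet P c l a w - dT l) * J + δ / 4 * J := by
      rw [← add_mul]
      exact mul_le_mul_of_nonneg_right (by linarith [(hdN l hl.le).1, (hdT l hl).2.1]) hJ0.le
    have h7 : 0 ≤ δ * J := by positivity
    linarith
  have hj4 : ⌊e₀ 0 * (J : ℝ)⌋₊ ≤ ⌊(E 0 + δ / 4) * (J : ℝ)⌋₊ :=
    Nat.floor_le_floor (mul_le_mul_of_nonneg_right (by linarith) hJ0.le)
  rw [← hgT] at k3 hR
  rw [← hgN] at k4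
  obtain ⟨B', l1, l2, l3, l4⟩ := hjn (g' := g') (x := x) hinj hR (by
    rw [one_div, inv_mul_cancel₀ (by positivity)]) k3 k4 hj3 hj4 hj1 hj2
  have hsd : jn r gT g' = fun l => ⌊(lvN P c r Pt l a w - d l) * (J : ℝ)⌋₊ := by
    funext l
    rcases Nat.lt_or_ge l r with h3 | h3
    · rw [jn_lt h3, hgT, hbl l h3, hdl l h3]
    · have e1 : jn r gT g' l = g' l := if_neg (by omega)
      have e2 : lvN P c r Pt l a w = Pt a w := if_neg (by omega)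
      have e3 : d l = δ := by
        rw [hd']
        exact if_neg (by omega)
      rw [e1, hg', e2, e3]
  rw [hsd] at l3 l4
  have l5 : ⌊(E 0 + δ / 4) * (J : ℝ)⌋₊ + 2 * C * (⌊η₁ * (J : ℝ)⌋₊ + 1) + x ≤
      ⌊(E 0 + σ) * (J : ℝ)⌋₊ := by
    rw [Nat.le_floor_iff (by positivity)]
    push_cast
    have h3 : ((⌊(E 0 + δ / 4) * (J : ℝ)⌋₊ : ℕ) : ℝ) ≤ (E 0 + δ / 4) * J :=
      Nat.floor_le (by positivity)
    have h4 : σ * J ≥ 4 * δ * J := by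
      have := mul_le_mul_of_nonneg_right (show 4 * δ ≤ σ by linarith) hJ0.le
      linarith
    nlinarith
  have l6 := l4.mono le_rfl (fun _ => le_rfl) le_rfl l5
  refine ⟨B', fun ω h => k1 ω (l1 ω h), ?_, fun y => jn r (T y) (N y),
    fun s => jn r (TH s) (NH s), l3, l6, ?_⟩
  · rw [div_le_iff₀ (by positivity)] at l2
    calc Pe F.p A ≤ K₁ * Pe F.p B := k2
      _ ≤ K₁ * (Pe F.p B' * 2 ^ r) := mul_le_mul_of_nonneg_left l2 hK₁.le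
      _ = _ := by ring
  · refine hRY B' _ _ (fun ω h => k1 ω (l1 ω h)) ?_ l3 l6
    rw [div_le_iff₀ (by positivity)] at l2
    rw [one_div, inv_mul_le_iff₀ (by positivity)]
    calc Pe F.p A ≤ K₁ * Pe F.p B := k2
      _ ≤ K₁ * (Pe F.p B' * 2 ^ r) := mul_le_mul_of_nonneg_left l2 hK₁.le
      _ = _ := by ring

/-- **Finitely many properties on one event**; `Φ'` is stable for large subevents if `Φ` holds. -/
theorem bas_all {S : PCl m} {Φ Φ' : ℕ → Stat m}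
    (hΦ : ∀ i, ∀ κ : ℝ, 0 < κ → ∃ J₀ : ℕ, ∀ J : ℕ, J₀ ≤ J → ∀ (F : Fam m J) (B B' : F.Ω → Prop),
      Φ i J F B → Sub B' B → κ * Pe F.p B ≤ Pe F.p B' → Φ' i J F B') : ∀ (N : ℕ),
    (∀ i < N, ∃ K : ℝ, 0 < K ∧ Bas S (fun J F A => ∃ B : F.Ω → Prop, Sub B A ∧
      Pe F.p A ≤ K * Pe F.p B ∧ Φ i J F B)) →
    ∃ K : ℝ, 0 < K ∧ Bas S (fun J F A => ∃ B : F.Ω → Prop, Sub B A ∧
      Pe F.p A ≤ K * Pe F.p B ∧ ∀ i < N, Φ' i J F B) := by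
  intro N
  induction N with
  | zero =>
    exact fun _ => ⟨1, one_pos, 1, one_pos, 0, fun J _ F A _ => ⟨A, fun _ h => h,
      by rw [one_mul], fun i hi => absurd hi (Nat.not_lt_zero i)⟩⟩
  | succ N ih =>
    intro h
    obtain ⟨K, hK, h1⟩ := ih fun i hi => h i (by omega)
    obtain ⟨K', hK', h2⟩ := h N (Nat.lt_succ_self N)
    obtain ⟨J₀, hJ₀⟩ := hΦ N (1 / K) (by positivity)
    refine ⟨K' * K, mul_pos hK' hK, ?_⟩
    refine Bas.mono J₀ (bas_then hK' h2 h1) ?_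
    rintro J hJ F A ⟨B, k1, k2, k3, B', k4, k5, k6⟩
    refine ⟨B', fun ω hω => k1 ω (k4 ω hω), ?_, fun i hi => ?_⟩
    · calc Pe F.p A ≤ K' * Pe F.p B := k2
        _ ≤ K' * (K * Pe F.p B') := mul_le_mul_of_nonneg_left k5 hK'.le
        _ = _ := by ring
    · rcases Nat.lt_or_ge i N with h3 | h3
      · exact k6 i h3
      · have h4 : i = N := by omega
        subst h4
        refine hJ₀ J hJ F B B' k3 k4 ?_
        rw [one_div, inv_mul_le_iff₀ hK]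
        exact k5

/-- **Finitely many nodes on one event**; the exponents `ψ` of the shares decrease a little. -/
theorem nods_all {S : PCl m} {c : ℕ → Fin m} {r : ℕ} {D Dr : ℕ → ℕ} {β d : ℕ → ℕ → ℝ}
    {a w e E η μ μT ψ ψ' : ℕ → ℝ} (N : ℕ) (hψ : ∀ i < N, ψ' i < ψ i)
    (h : ∀ i < N, ∃ K : ℝ, 0 < K ∧ Bas S (fun J F A => ∃ B : F.Ω → Prop, Sub B A ∧
      Pe F.p A ≤ K * Pe F.p B ∧
      NodS c r (D i) (Dr i) (β i) (d i) (a i) (w i) (e i) (E i) (η i) (μ i) (μT i) (ψ i) J F B)) :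
    ∃ K : ℝ, 0 < K ∧ Bas S (fun J F A => ∃ B : F.Ω → Prop, Sub B A ∧
      Pe F.p A ≤ K * Pe F.p B ∧ ∀ i < N,
      NodS c r (D i) (Dr i) (β i) (d i) (a i) (w i) (e i) (E i) (η i) (μ i) (μT i) (ψ' i) J F
        B) := by
  obtain ⟨K, hK, h1⟩ := bas_all (S := S)
    (Φ := fun i J F B => i < N ∧ NodS c r (D i) (Dr i) (β i) (d i) (a i) (w i) (e i) (E i) (η i)
      (μ i) (μT i) (ψ i) J F B)
    (Φ' := fun i J F B => NodS c r (D i) (Dr i) (β i) (d i) (a i) (w i) (e i) (E i) (η i)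
      (μ i) (μT i) (ψ' i) J F B) (fun i κ hκ => by
      by_cases hi : i < N
      · obtain ⟨J₀, hJ₀⟩ := share_ex (sub_pos.2 (hψ i hi)) hκ
        exact ⟨J₀, fun J hJ F B B' h1 h2 h3 => h1.2.sub h2 h3 (hJ₀ J hJ)⟩
      · exact ⟨0, fun J _ F B B' h1 => absurd h1.1 hi⟩) N (fun i hi => by
      obtain ⟨K, hK, h1⟩ := h i hi
      refine ⟨K, hK, Bas.mono 0 h1 ?_⟩
      rintro J - F A ⟨B, k1, k2, k3⟩
      exact ⟨B, k1, k2, hi, k3⟩)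
  exact ⟨K, hK, h1⟩

end Pool.Z3
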