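import Pool.Agent.H2.GEN.Swp

/-!
# Chains of the same coordinates in other orders

`move_any`: every chain of labels whose coordinates are among those of a chain without relations
(in any order, with any sides) is near the natural boxes of this chain.
-/

set_option autoImplicit false

namespace Pool.Z3

open Finset Real MvPolynomial
open Pool.Agent.H49.Ent Pool.Agent.H32.Dense Pool.STK Pool.KA Pool.KSAT Pool.K2S Pool.PB Pool.S6C
open Pool.GEN Pool.CHT
open Pool.ISO (relvF_exp)

variable {m J : ℕ}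

/-- The two sides of a label on the boxes near its natural box, and no relation for the label:
auxiliary constants. -/
theorem dep_any {c c' : ℕ → Fin m} {i j : ℕ} {Q : MvPolynomial (Option (Fin m)) ℝ}
    (hσ : ∀ j' < j, ∃ l < i, c' j' = c l) (h : DepC c' j Q) : DepC c i Q := by
  intro b b' hn hb
  refine h b b' hn fun j' hj' => ?_
  obtain ⟨l, hl, he⟩ := hσ j' hj'
  rw [he]
  exact hb l hl

/-- **Moving a chain** of coordinates of the list, in any order and with any sides, to the natural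
boxes of a chain without relations. -/
theorem move_any (D r : ℕ) (hD : 1 ≤ D) : ∃ C : ℕ, ∀ {m J : ℕ} {F : Fam m J}
    {c c' : ℕ → Fin m} {i s a w e' h : ℕ} {g g' : ℕ → ℕ} {κ κ' : ℝ} {B₀ B' : F.Ω → Prop}
    {G G' : PtT F → ℕ → MvPolynomial (Option (Fin m)) ℝ}
    {H' : LnT F → ℕ → MvPolynomial (Option (Fin m)) ℝ}, s ≤ r →
    (∀ j < s, ∃ l < i, c' j = c l) → Set.InjOn c' (Set.Iio s) →
    RelvF F c i a w g D h κ B₀ G → Sub B' B₀ →
    κ' * Pe F.p B₀ ≤ Pe F.p B' → κ * 2 ^ r ≤ κ' →
    ChOK F c' s (fun _ => D) a w e' g' B' G' H' →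
    ∃ B : F.Ω → Prop, Sub B B' ∧ Pe F.p B' / 2 ^ s ≤ Pe F.p B ∧ ∀ ω, B ω →
      ∀ b, NBx c (G (ptr F J ω)) g a (F.t ω) i b →
        ∀ j < s, |b (some (c' j)) - eval b (G' (ptr F J ω) j)| ≤ 2 ^ (C * (h + 1)) / 2 ^ g' j := by
  obtain ⟨c₀, D₁, hD₁, hdil⟩ := nbx_dil (r + 1) (fun _ => D)
  refine ⟨(c₀ + 1) * (1 + D₁) ^ (r + 1), ?_⟩
  intro m J F c c' i s a w e' h g g' κ κ' B₀ B' G G' H' hs hσ hc hR hB' hP' hκ hL
  have hlexC : ∀ j ≤ r + 1, lex h c₀ D₁ j ≤ (c₀ + 1) * (1 + D₁) ^ (r + 1) * (h + 1) := by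
    intro j hj
    refine (lex_le h c₀ D₁ j).trans ?_
    have h1 : (1 + D₁) ^ j ≤ (1 + D₁) ^ (r + 1) := Nat.pow_le_pow_right (by omega) hj
    calc (h + c₀) * (1 + D₁) ^ j ≤ ((c₀ + 1) * (h + 1)) * (1 + D₁) ^ (r + 1) :=
          Nat.mul_le_mul (by nlinarith) h1
      _ = _ := by ring
  have hσ' : ∀ j < s, ∀ j' < j, ∃ l < i, c' j' = c l := fun j hj j' hj' => hσ j' (hj'.trans hj)
  -- the two sides on the natural boxes
  have htwo : ∀ j < s, ∀ ω, B' ω → ∀ b, NBx c (G (ptr F J ω)) g a (F.t ω) i b →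
      (∀ j' < j, |b (some (c' j')) - eval b (G' (ptr F J ω) j')| ≤
        2 ^ lex h c₀ D₁ j / 2 ^ g' j') →
      |eval b (G' (ptr F J ω) j) - eval b (H' (slam F w ω) j)| ≤
        2 ^ (c₀ + lex h c₀ D₁ j * D₁) * (1 / 2 ^ g' j) := by
    intro j hj ω hω b hb hbj
    have h1 := hdil (c := c') (i := j) (G := G' (ptr F J ω))
      (Q := G' (ptr F J ω) j - H' (slam F w ω) j) (g := g') (a := a) (t := F.t ω)
      (M := 1 / 2 ^ g' j) (lex h c₀ D₁ j) (by omega) (hc.mono fun x hx => lt_trans hx hj)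
      (hL.degG _) (hL.depG _)
      (fun y y' hn hy => by rw [map_sub, map_sub, hL.depG _ j y y' hn hy, hL.depH _ j y y' hn hy])
      ((totalDegree_sub _ _).trans (max_le (hL.degG _ j) (hL.degH _ j))) (by positivity)
      (fun b hb => by rw [map_sub]; exact hL.agr ω hω j (by omega) b hb) b hb.1
      (fun j' hj' => hbj j' hj')
    rw [map_sub] at h1
    exact h1
  have key : ∀ j ≤ s, ∃ B : F.Ω → Prop, Sub B B' ∧ Pe F.p B' / 2 ^ j ≤ Pe F.p B ∧ ∀ ω, B ω →
      ∀ b, NBx c (G (ptr F J ω)) g a (F.t ω) i b → ∀ j' < j,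
        |b (some (c' j')) - eval b (G' (ptr F J ω) j')| ≤ 2 ^ lex h c₀ D₁ j / 2 ^ g' j' := by
    intro j
    induction j with
    | zero => exact fun _ => ⟨B', fun _ h => h, by simp, fun ω _ b _ j' hj' => by omega⟩
    | succ j ih =>
      intro hj
      obtain ⟨B, k1, k2, k3⟩ := ih (by omega)
      obtain ⟨M, hM⟩ : ∃ M : ℝ, M = 2 ^ (c₀ + lex h c₀ D₁ j * D₁) * (1 / 2 ^ g' j) := ⟨_, rfl⟩
      have hM0 : 0 < M := by rw [hM]; positivity
      have hM1 : (1 : ℝ) / 2 ^ g' j ≤ M := by
        rw [hM]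
        exact le_mul_of_one_le_left (by positivity) (one_le_pow₀ (by norm_num))
      obtain ⟨lj, hlj, hcj⟩ := hσ j (by omega)
      have hdG : ∀ y, DepC c i (G' y j) := fun y => dep_any (hσ' j (by omega)) (hL.depG y j)
      have hdH : ∀ y, DepC c i (H' y j) := fun y => dep_any (hσ' j (by omega)) (hL.depH y j)
      obtain ⟨B'', l1, l2, l3⟩ := hR B (fun ω h => hB' ω (k1 ω h)) (by
          have h1 : κ * 2 ^ r * Pe F.p B₀ ≤ κ' * Pe F.p B₀ :=
            mul_le_mul_of_nonneg_right hκ (Pe_nonneg F.isLaw B₀)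
          have h2 : κ * Pe F.p B₀ * 2 ^ r ≤ Pe F.p B' := by linarith [h1, hP']
          have h3 : (2 : ℝ) ^ j ≤ 2 ^ r := pow_le_pow_right₀ (by norm_num) (by omega)
          rw [div_le_iff₀ (by positivity)] at k2
          rcases le_or_gt (κ * Pe F.p B₀) 0 with h4 | h4
          · exact h4.trans (Pe_nonneg F.isLaw B)
          · have h5 : κ * Pe F.p B₀ * 2 ^ j ≤ Pe F.p B * 2 ^ j :=
              (mul_le_mul_of_nonneg_left h3 h4.le).trans (h2.trans k2)
            exact le_of_mul_le_mul_right h5 (by positivity))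
        (fun y => X (some (c' j)) - G' y j) (fun s => X (some (c' j)) - H' s j) M
        (fun y => (totalDegree_sub _ _).trans (max_le (by rw [totalDegree_X]; exact hD)
          (hL.degG y j))) (fun s => (totalDegree_sub _ _).trans (max_le (by
            rw [totalDegree_X]; exact hD) (hL.degH s j))) (fun y b b' hn hb => by
          rw [map_sub, map_sub, eval_X, eval_X, hcj, hb lj hlj, hdG y b b' hn hb])
        (fun s b b' hn hb => by
          rw [map_sub, map_sub, eval_X, eval_X, hcj, hb lj hlj, hdH s b b' hn hb]) hM0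
        (fun ω hω => by
          rw [map_sub, eval_X]
          exact (hL.pos ω (k1 ω hω) j (by omega)).trans hM1) (fun ω hω b hb => by
          rw [map_sub, map_sub, eval_X]
          have := htwo j (by omega) ω (k1 ω hω) b hb (k3 ω hω b hb)
          rw [← hM] at this
          have e1 : b (some (c' j)) - eval b (G' (ptr F J ω) j) - (b (some (c' j)) -
              eval b (H' (slam F w ω) j)) = -(eval b (G' (ptr F J ω) j) -
                eval b (H' (slam F w ω) j)) := by ring
          rw [e1, abs_neg]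
          exact this)
      refine ⟨B'', fun ω h => k1 ω (l1 ω h), ?_, fun ω hω b hb j' hj' => ?_⟩
      · refine le_trans (le_of_eq ?_) ((div_le_div_of_nonneg_right k2 (by norm_num)).trans l2)
        rw [pow_succ]
        field_simp
      · rcases Nat.lt_or_ge j' j with h7 | h7
        · refine (k3 ω (l1 ω hω) b hb j' h7).trans (div_le_div_of_nonneg_right ?_ (by positivity))
          exact pow_le_pow_right₀ (by norm_num) (lex_mono hD₁)
        · have : j' = j := by omega
          subst this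
          have h8 := l3 ω hω b hb
          rw [map_sub, eval_X, hM] at h8
          refine h8.trans (le_of_eq ?_)
          show _ = 2 ^ (h + c₀ + lex h c₀ D₁ j' * D₁) / 2 ^ g' j'
          rw [add_assoc h, pow_add]
          ring
  obtain ⟨B, k1, k2, k3⟩ := key s le_rfl
  refine ⟨B, k1, k2, fun ω hω b hb j hj => ?_⟩
  refine (k3 ω hω b hb j hj).trans (div_le_div_of_nonneg_right ?_ (by positivity))
  exact pow_le_pow_right₀ (by norm_num) (hlexC s (by omega))

end Pool.Z3
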