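import Pool.Agent.H77.Z3.RelX
import Pool.Agent.H77.Z3.Mov
import Pool.Agent.H2.GEN.Mix

/-!
# The label of the target over a chain without relations

`RelvY`: no relation between the coordinates of the list and the target, for polynomials which are
small at points near the own points. `join_top`: the label of the target of one chain over the
labels of the list of another chain, which has no relation.
-/

set_option autoImplicit false

namespace Pool.Z3

open Finset Real MvPolynomial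
open Pool.Agent.H49.Ent Pool.Agent.H32.Dense Pool.STK Pool.KA Pool.KSAT Pool.K2S Pool.PB Pool.S6C
open Pool.GEN Pool.CHT Pool.CHX
open Pool.ISO (nlp_cmp)

variable {m J : ℕ}

/-- **No relation** between the coordinates `c 0, …, c j`, on large parts of the event: two-sided
polynomials which are small at points near the own points (up to `2 ^ (-Y)` for the list and
`2 ^ (-Z)` for the last coordinate) are small on the natural boxes. The bounds depend on the sample. -/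
def RelvY (F : Fam m J) (c : ℕ → Fin m) (j a w : ℕ) (g : ℕ → ℕ) (D h Y Z : ℕ) (κ : ℝ)
    (B₀ : F.Ω → Prop) (G : PtT F → ℕ → MvPolynomial (Option (Fin m)) ℝ) : Prop :=
  ∀ B' : F.Ω → Prop, Sub B' B₀ → κ * Pe F.p B₀ ≤ Pe F.p B' →
    ∀ (Dx : PtT F → MvPolynomial (Option (Fin m)) ℝ) (Dl : LnT F → MvPolynomial (Option (Fin m)) ℝ)
      (M : F.Ω → ℝ), (∀ y, (Dx y).totalDegree ≤ D) → (∀ s, (Dl s).totalDegree ≤ D) →
    (∀ y, DepC c (j + 1) (Dx y)) → (∀ s, DepC c (j + 1) (Dl s)) → (∀ ω, B' ω → 0 < M ω) →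
    (∀ ω, B' ω → ∃ x : Option (Fin m) → ℝ, x none = F.t ω ∧
      (∀ l < j, |x (some (c l)) - F.x ω (c l)| ≤ 1 / 2 ^ Y) ∧
      |x (some (c j)) - F.x ω (c j)| ≤ 1 / 2 ^ Z ∧ |eval x (Dx (ptr F J ω))| ≤ M ω) →
    (∀ ω, B' ω → ∀ b, NBx c (G (ptr F J ω)) g a (F.t ω) (j + 1) b →
      |eval b (Dx (ptr F J ω)) - eval b (Dl (slam F w ω))| ≤ M ω) →
    ∃ B'' : F.Ω → Prop, Sub B'' B' ∧ Pe F.p B' / 2 ≤ Pe F.p B'' ∧ ∀ ω, B'' ω →
      ∀ b, NBx c (G (ptr F J ω)) g a (F.t ω) (j + 1) b →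
        |eval b (Dx (ptr F J ω))| ≤ 2 ^ h * M ω

theorem RelvY.mono {F : Fam m J} {c : ℕ → Fin m} {j a w : ℕ} {g : ℕ → ℕ} {D D' h h' Y Z : ℕ}
    {κ κ' : ℝ} {B₀ : F.Ω → Prop} {G : PtT F → ℕ → MvPolynomial (Option (Fin m)) ℝ}
    (hR : RelvY F c j a w g D h Y Z κ B₀ G) (hD : D' ≤ D) (hh : h ≤ h') (hκ : κ ≤ κ') :
    RelvY F c j a w g D' h' Y Z κ' B₀ G := by
  intro B' hB hP Dx Dl M h1 h2 h3 h4 h5 h6 h7
  obtain ⟨B'', k1, k2, k3⟩ := hR B' hB ((mul_le_mul_of_nonneg_right hκ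
    (Pe_nonneg F.isLaw B₀)).trans hP) Dx Dl M (fun y => (h1 y).trans hD)
    (fun s => (h2 s).trans hD) h3 h4 h5 h6 h7
  exact ⟨B'', k1, k2, fun ω hω b hb => (k3 ω hω b hb).trans
    (mul_le_mul_of_nonneg_right (pow_le_pow_right₀ (by norm_num) hh) (h5 ω (k1 ω hω)).le)⟩

/-- Smaller events. -/
theorem RelvY.sub {F : Fam m J} {c : ℕ → Fin m} {j a w : ℕ} {g : ℕ → ℕ} {D h Y Z : ℕ}
    {κ κ₁ κ₂ : ℝ} {B₀ B₁ : F.Ω → Prop} {G : PtT F → ℕ → MvPolynomial (Option (Fin m)) ℝ}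
    (hR : RelvY F c j a w g D h Y Z κ B₀ G) (hB : Sub B₁ B₀) (hP : κ₁ * Pe F.p B₀ ≤ Pe F.p B₁)
    (h2 : 0 ≤ κ₂) (hκ : κ ≤ κ₂ * κ₁) : RelvY F c j a w g D h Y Z κ₂ B₁ G := by
  intro B' hB' hP'
  refine hR B' (fun ω h => hB ω (hB' ω h)) ?_
  calc κ * Pe F.p B₀ ≤ κ₂ * κ₁ * Pe F.p B₀ := mul_le_mul_of_nonneg_right hκ (Pe_nonneg F.isLaw B₀)
    _ = κ₂ * (κ₁ * Pe F.p B₀) := by ring
    _ ≤ κ₂ * Pe F.p B₁ := mul_le_mul_of_nonneg_left hP h2
    _ ≤ _ := hP'

/-- The polynomials which are small at the own points. -/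
theorem RelvY.relvF {F : Fam m J} {c : ℕ → Fin m} {j a w : ℕ} {g : ℕ → ℕ} {D h Y Z : ℕ}
    {κ : ℝ} {B₀ : F.Ω → Prop} {G : PtT F → ℕ → MvPolynomial (Option (Fin m)) ℝ}
    (hR : RelvY F c j a w g D h Y Z κ B₀ G) : RelvF F c (j + 1) a w g D h κ B₀ G := by
  intro B' hB hP Dx Dl M h1 h2 h3 h4 hM h5 h6
  exact hR B' hB hP Dx Dl (fun _ => M) h1 h2 h3 h4 (fun _ _ => hM) (fun ω hω =>
    ⟨bt F ω, rfl, fun l _ => by
      show |F.x ω (c l) - F.x ω (c l)| ≤ _
      rw [sub_self, abs_zero]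
      positivity, by
      show |F.x ω (c j) - F.x ω (c j)| ≤ _
      rw [sub_self, abs_zero]
      positivity, h5 ω hω⟩) h6

/-- The labels of the list of one chain, the label of the target of another. -/
def jn {α : Type*} (r : ℕ) (T N : ℕ → α) (l : ℕ) : α := if l < r then T l else N l

theorem jn_lt {α : Type*} {r : ℕ} {T N : ℕ → α} {l : ℕ} (h : l < r) : jn r T N l = T l := if_pos h

theorem jn_self {α : Type*} {r : ℕ} {T N : ℕ → α} : jn r T N r = N r := if_neg (lt_irrefl r)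

theorem nbx_jn {c : ℕ → Fin m} {T N : ℕ → MvPolynomial (Option (Fin m)) ℝ} {g g' : ℕ → ℕ}
    {a r i : ℕ} {t : ℝ} {b : Option (Fin m) → ℝ} (hi : i ≤ r) :
    NBx c (jn r T N) (jn r g g') a t i b ↔ NBx c T g a t i b := by
  constructor
  · rintro ⟨h1, h2⟩
    refine ⟨h1, fun l hl => ?_⟩
    have h3 := h2 l hl
    rwa [jn_lt (by omega), jn_lt (by omega)] at h3
  · rintro ⟨h1, h2⟩
    refine ⟨h1, fun l hl => ?_⟩
    rw [jn_lt (by omega), jn_lt (by omega)]
    exact h2 l hl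

/-- The chain of the list, in the joined chain. -/
theorem chOK_jn {F : Fam m J} {c : ℕ → Fin m} {r D a w e : ℕ} {g g' : ℕ → ℕ} {B : F.Ω → Prop}
    {T N : PtT F → ℕ → MvPolynomial (Option (Fin m)) ℝ}
    {TH NH : LnT F → ℕ → MvPolynomial (Option (Fin m)) ℝ}
    (hT : ChOK F c r (fun _ => D) a w e g B T TH) (h1 : ∀ y i, (N y i).totalDegree ≤ D)
    (h2 : ∀ s i, (NH s i).totalDegree ≤ D) (h3 : ∀ y i, DepC c i (N y i))
    (h4 : ∀ s i, DepC c i (NH s i)) :
    ChOK F c r (fun _ => D) a w e (jn r g g') B (fun y => jn r (T y) (N y))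
      (fun s => jn r (TH s) (NH s)) := by
  refine ⟨fun y i => ?_, fun y i => ?_, fun y i => ?_, fun y i => ?_, fun ω hω i hi => ?_,
    fun ω hω i hi b hb => ?_, fun ω hω i hi b hb l hl => ?_⟩
  · show (jn r (T y) (N y) i).totalDegree ≤ D
    unfold jn
    split_ifs
    · exact hT.degG y i
    · exact h1 y i
  · show (jn r (TH y) (NH y) i).totalDegree ≤ D
    unfold jn
    split_ifs
    · exact hT.degH y i
    · exact h2 y i
  · show DepC c i (jn r (T y) (N y) i)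
    unfold jn
    split_ifs
    · exact hT.depG y i
    · exact h3 y i
  · show DepC c i (jn r (TH y) (NH y) i)
    unfold jn
    split_ifs
    · exact hT.depH y i
    · exact h4 y i
  · show |F.x ω (c i) - eval (bt F ω) (jn r (T (ptr F J ω)) (N (ptr F J ω)) i)| ≤
      1 / 2 ^ (jn r g g' i)
    rw [jn_lt hi, jn_lt hi]
    exact hT.pos ω hω i hi
  · show |eval b (jn r (T (ptr F J ω)) (N (ptr F J ω)) i) -
      eval b (jn r (TH (slam F w ω)) (NH (slam F w ω)) i)| ≤ 1 / 2 ^ (jn r g g' i)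
    rw [jn_lt hi, jn_lt hi, jn_lt hi]
    exact hT.agr ω hω i hi b ((nbx_jn hi.le).1 hb)
  · show |eval b (pderiv (some (c l)) (jn r (T (ptr F J ω)) (N (ptr F J ω)) i))| ≤
      2 ^ (e + nlp (jn r g g') l i)
    rw [jn_lt hi]
    have e1 : nlp (jn r g g') l i = nlp g l i := by
      unfold nlp
      rw [jn_lt hi, Finset.sup_congr rfl fun j hj => jn_lt (lt_of_le_of_lt (Finset.mem_Icc.1 hj).2 hi)]
    rw [e1]
    exact hT.lip ω hω i hi b ((nbx_jn hi.le).1 hb) l hl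

/-- **The label of the target over a chain without relations.** -/
theorem join_top (D r : ℕ) (hD : 1 ≤ D) : ∃ C : ℕ, ∀ {m J : ℕ} {F : Fam m J} {c : ℕ → Fin m}
    {a w e E h x : ℕ} {κ : ℝ} {gT gN g' : ℕ → ℕ} {B : F.Ω → Prop}
    {T N : PtT F → ℕ → MvPolynomial (Option (Fin m)) ℝ}
    {TH NH : LnT F → ℕ → MvPolynomial (Option (Fin m)) ℝ}, Set.InjOn c (Set.Iio (r + 1)) →
    RelvF F c r a w gT D h κ B T → κ * 2 ^ r ≤ 1 → ChOK F c r (fun _ => D) a w e gT B T TH →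
    ChOK F c (r + 1) (fun _ => D) a w E gN B N NH → (∀ l < r, gN l ≤ gT l + x) → e ≤ E →
    g' r + C * (h + 1) ≤ gN r → gN r ≤ g' r + (x + C * (h + 1)) →
    ∃ B' : F.Ω → Prop, Sub B' B ∧ Pe F.p B / 2 ^ r ≤ Pe F.p B' ∧
      ChOK F c r (fun _ => D) a w e (jn r gT g') B' (fun y => jn r (T y) (N y))
        (fun s => jn r (TH s) (NH s)) ∧
      ChOK F c (r + 1) (fun _ => D) a w (E + 2 * C * (h + 1) + x) (jn r gT g') B'
        (fun y => jn r (T y) (N y)) (fun s => jn r (TH s) (NH s)) := by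
  obtain ⟨C₁, hmv⟩ := move_any D r hD
  obtain ⟨c₀, D₁, hD₁, hdil⟩ := nbx_dil (r + 1) (fun _ => D)
  refine ⟨c₀ + C₁ * D₁ + C₁, ?_⟩
  intro m J F c a w e E h x κ gT gN g' B T N TH NH hc hR hκ hT hN hx heE hg1 hg2
  obtain ⟨C, hC⟩ : ∃ C, C = c₀ + C₁ * D₁ + C₁ := ⟨_, rfl⟩
  rw [← hC] at hg1 hg2 ⊢
  have hcr : Set.InjOn c (Set.Iio r) := hc.mono fun x hx => by
    rw [Set.mem_Iio] at hx ⊢
    omega
  have hNr : ChOK F c r (fun _ => D) a w E gN B N NH :=
    hN.mono (Nat.le_succ r) (fun _ => le_rfl) le_rfl le_rfl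
  obtain ⟨B', k1, k2, k3⟩ := hmv (s := r) (κ' := 1) le_rfl (fun j hj => ⟨j, hj, rfl⟩) hcr hR
    (fun ω h => h) (by rw [one_mul]) hκ hNr
  have hT' := hT.sub k1
  have hlist := chOK_jn (g' := g') hT' hN.degG hN.degH hN.depG hN.depH
  refine ⟨B', k1, k2, hlist, ?_⟩
  have hdl : ∀ ω, B' ω → ∀ (Q : MvPolynomial (Option (Fin m)) ℝ) (M : ℝ), DepC c r Q →
      Q.totalDegree ≤ D → 0 ≤ M →
      (∀ b, NBx c (N (ptr F J ω)) gN a (F.t ω) r b → |eval b Q| ≤ M) →
      ∀ b, NBx c (T (ptr F J ω)) gT a (F.t ω) r b → |eval b Q| ≤ 2 ^ (C * (h + 1)) * M := by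
    intro ω hω Q M h1 h2 h3 h4 b hb
    have h5 := hdil (c := c) (i := r) (G := N (ptr F J ω)) (Q := Q) (g := gN) (a := a)
      (t := F.t ω) (M := M) (C₁ * (h + 1)) (by omega) hcr (hN.degG _) (hN.depG _) h1 h2 h3 h4 b
      hb.1 fun l hl => k3 ω hω b hb l hl
    refine h5.trans (mul_le_mul_of_nonneg_right (pow_le_pow_right₀ (by norm_num) ?_) h3)
    rw [hC]
    nlinarith [Nat.zero_le (c₀ * h), Nat.zero_le (C₁ * (h + 1))]
  refine ⟨hlist.degG, hlist.degH, hlist.depG, hlist.depH, fun ω hω i hi => ?_,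
    fun ω hω i hi b hb => ?_, fun ω hω i hi b hb l hl => ?_⟩
  · rcases Nat.lt_or_ge i r with h1 | h1
    · exact hlist.pos ω hω i h1
    · have h2 : i = r := by omega
      subst h2
      show |F.x ω (c i) - eval (bt F ω) (jn i (T (ptr F J ω)) (N (ptr F J ω)) i)| ≤
        1 / 2 ^ (jn i gT g' i)
      rw [jn_self, jn_self]
      exact (hN.pos ω (k1 ω hω) i (Nat.lt_succ_self i)).trans (one_div_le_one_div_of_le
        (by positivity) (pow_le_pow_right₀ (by norm_num) (by omega)))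
  · rcases Nat.lt_or_ge i r with h1 | h1
    · exact hlist.agr ω hω i h1 b hb
    · have h2 : i = r := by omega
      subst h2
      show |eval b (jn i (T (ptr F J ω)) (N (ptr F J ω)) i) -
        eval b (jn i (TH (slam F w ω)) (NH (slam F w ω)) i)| ≤ 1 / 2 ^ (jn i gT g' i)
      rw [jn_self, jn_self, jn_self]
      have h3 := hdl ω hω (N (ptr F J ω) i - NH (slam F w ω) i) (1 / 2 ^ gN i)
        (fun y y' hn hy => by
          rw [map_sub, map_sub, hN.depG _ i y y' hn hy, hN.depH _ i y y' hn hy])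
        ((totalDegree_sub _ _).trans (max_le (hN.degG _ i) (hN.degH _ i))) (by positivity)
        (fun b hb => by
          rw [map_sub]
          exact hN.agr ω (k1 ω hω) i (Nat.lt_succ_self i) b hb) b ((nbx_jn le_rfl).1 hb)
      rw [map_sub] at h3
      refine h3.trans ?_
      rw [mul_one_div, div_le_div_iff₀ (by positivity) (by positivity), one_mul, ← pow_add]
      exact pow_le_pow_right₀ (by norm_num) (by omega)
  · rcases Nat.lt_or_ge i r with h1 | h1
    · refine (hlist.lip ω hω i h1 b hb l hl).trans (pow_le_pow_right₀ (by norm_num) ?_)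
      omega
    · have h2 : i = r := by omega
      subst h2
      show |eval b (pderiv (some (c l)) (jn i (T (ptr F J ω)) (N (ptr F J ω)) i))| ≤
        2 ^ (E + 2 * C * (h + 1) + x + nlp (jn i gT g') l i)
      rw [jn_self]
      have h3 := hdl ω hω (pderiv (some (c l)) (N (ptr F J ω) i)) (2 ^ (E + nlp gN l i))
        (DepC.pderiv (hN.depG _ i) l) (totalDegree_pdσ (hN.degG _ i) _) (by positivity)
        (fun b hb => hN.lip ω (k1 ω hω) i (Nat.lt_succ_self i) b hb l hl) b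
        ((nbx_jn le_rfl).1 hb)
      refine h3.trans ?_
      rw [← pow_add]
      refine pow_le_pow_right₀ (by norm_num) ?_
      have h4 := nlp_cmp (g := gN) (g' := jn i gT g') (l := l) (i := i) (k := x + C * (h + 1))
        (fun j _ hj => by
          rcases Nat.lt_or_ge j i with h5 | h5
          · rw [jn_lt h5]
            have := hx j h5
            omega
          · have h6 : j = i := by omega
            subst h6
            rw [jn_self]
            exact hg2) (by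
          rw [jn_self]
          omega)
      have e1 : 2 * C * (h + 1) = C * (h + 1) + C * (h + 1) := by ring
      omega

end Pool.Z3
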