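import Pool.Agent.H77.Z3.Nod
import Pool.Agent.H2.GEN.EvC

/-!
# Nodes near a good window

`NodQ`: the statement that nodes exist at a pair, in a class. `Att3`: the good pairs; almost every
point is the origin of a grid of good pairs. `Fac.nod`: nodes exist at all the good pairs near a
good window, with one exponent `E` of the gradients of the target, and room `ϱ`.
-/

set_option autoImplicit false

namespace Pool.Z3

open MeasureTheory Set Filter Topology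
open Pool.Agent.H49.Ent Pool.Agent.H32.Dense Pool.STK Pool.KA Pool.KSAT Pool.K2S Pool.PB
open Pool.GEN Pool.S6C Pool.STAT Pool.CHT Pool.GRW Pool.ONE Pool.STA Pool.PKG
open Pool.LBT (LSys ThrOf)
open Pool.LEV (Law)
open Pool.TOP (TopS)
open Pool.FRN (AttC UpA Wgd attN_attC)
open Pool.JTN (TgP Cen mod_all)
open Pool.ISO (PtN PtD Att2 lvN ptN_near ptD_near att2_ae bk_ae)
open Pool.STR (AttN)

variable {m n : ℕ}

/-- **Nodes exist at `(a, w)`** in the class: the degree is universal, the losses are small. -/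
def NodQ (S : PCl m) (c : ℕ → Fin m) (r : ℕ) (β : ℕ → ℝ → ℝ → ℝ) (e E ϱ a w : ℝ) : Prop :=
  ∃ D : ℕ, 1 ≤ D ∧ ∀ (Dr : ℕ) (η σ : ℝ), 0 < η → 0 < σ → σ ≤ ϱ →
    ∃ (K₁ : ℝ) (d : ℕ → ℝ) (ψ : ℝ), 0 < K₁ ∧ 0 < ψ ∧ (∀ l ≤ r, 0 < d l ∧ d l ≤ σ ∧ d l < a) ∧
      Bas S (fun J F A => ∃ B : F.Ω → Prop, Sub B A ∧ Pe F.p A ≤ K₁ * Pe F.p B ∧
        NodS c r D Dr (fun l => β l a w) d a w e (E + σ) η ϱ (E + ϱ) ψ J F B)

/-- **The good pairs.** -/
def Att3 (P : List (Fin m) × Fin m → ℝ → ℝ → ℝ) (Pt : ℝ → ℝ → ℝ) : Set (ℝ × ℝ) :=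
  {q : ℝ × ℝ | q ∈ Att2 P Pt ∧ Up1 Pt q.1 q.2}

/-- Growth forwards at almost all pairs of a line. -/
theorem up_ae {ι : Type*} [Countable ι] {f : ι → ℝ → ℝ → ℝ} (hf : ∀ i, Law (f i)) {d : ℝ}
    (hd : 0 ≤ d) : ∀ᵐ w : ℝ, 0 < w → w + d < 1 → ∀ i, Up1 (f i) (w + d) w := by
  have h2 := Upd.upd (fun i t => f i (d + t) t) 0 (1 - d) fun i x hx y hy hxy =>
    (hf i).mono (by linarith [hx.1]) (by linarith) (by linarith) (by linarith)
      (by linarith) (by linarith [hy.2])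
  rw [ae_restrict_iff' measurableSet_Ioo] at h2
  filter_upwards [h2] with w h3 hw hw1 i
  obtain ⟨V, o₀, k1, k2, k3⟩ := h3 ⟨hw, by linarith⟩ i
  refine ⟨V, o₀, k1, k2, fun κ hκ hκ' => ?_⟩
  have h4 := k3 κ (by rw [abs_of_pos hκ]; exact hκ')
  rw [abs_of_pos hκ] at h4
  have h5 := (abs_le.1 h4).2
  have e1 : d + (w + κ) = w + d + κ := by ring
  have e3 : d + w = w + d := by ring
  simp only [e1, e3] at h5
  linarith

/-- **Almost all pairs** of every line of direction `(1, 1)` are good. -/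
theorem att3_line {θ : ℝ} {S : PCl m} {P : List (Fin m) × Fin m → ℝ → ℝ → ℝ} {Pt : ℝ → ℝ → ℝ}
    (hP : ThrOf (chsys m θ) S P) (hPt : Law Pt) : AttN (Att3 P Pt) := by
  intro x y hxy
  have hd : 0 ≤ x - y := by linarith
  have h2 := attN_attC hP x y hxy
  have h3 := Pool.FRN.ae_shift (bk_ae (f := P) (fun i => hP.law i) hd) y
  have h4 := Pool.FRN.ae_shift (bk_ae (ι := Unit) (f := fun _ => Pt) (fun _ => hPt) hd) y
  have h5 := Pool.FRN.ae_shift (up_ae (ι := Unit) (f := fun _ => Pt) (fun _ => hPt) hd) y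
  filter_upwards [h2, h3, h4, h5] with t k1 k2 k3 k4 hw hw1
  have e1 : y + t + (x - y) = x + t := by ring
  rw [e1] at k2 k3 k4
  exact ⟨⟨k1 hw hw1, k2 hw hw1, k3 hw hw1 ()⟩, k4 hw hw1 ()⟩

/-- **Almost every point** is the origin of a grid of good pairs. -/
theorem att3_grid {ι : Type*} [Countable ι] {Att : ι → Set (ℝ × ℝ)} (hA : ∀ i, AttN (Att i)) :
    ∀ᵐ t : ℝ, ∀ i, ∀ p q : ℚ, (q : ℝ) ≤ p → 0 < q + t → p + t < 1 →
      ((p : ℝ) + t, (q : ℝ) + t) ∈ Att i := by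
  have h1 : ∀ᵐ t : ℝ, ∀ i, ∀ p q : ℚ, (q : ℝ) ≤ p → 0 < q + t → p + t < 1 →
      ((p : ℝ) + t, (q : ℝ) + t) ∈ Att i := by
    refine ae_all_iff.2 fun i => ae_all_iff.2 fun p => ae_all_iff.2 fun q => ?_
    by_cases hq : (q : ℝ) ≤ p
    · filter_upwards [hA i p q hq] with t k1 _ hw hw1
      exact k1 hw hw1
    · exact Filter.Eventually.of_forall fun w h => absurd h hq
  exact h1

variable {hn : 2 ≤ n} {S : PCl n} {P : ℝ → ℝ → ℝ} {r : ℝ → ℝ}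
  {P' : ℕ → List (Fin n) × Fin n → ℝ → ℝ → ℝ} {Λ : Finset (Fin n) → Fin n → ℝ → ℝ → ℝ}
  {o : Od n} {g α Q c : ℝ}

/-- **Nodes near a good window.** -/
theorem nod_fac (F : Fac hn S P r P' o g α Q c) (H : Pk hn S P r P' Λ) :
    ∃ E ϱ : ℝ, 0 < E ∧ 0 < ϱ ∧
      (∀ l ≤ n - 1, lvN (P' o.2) (cc hn o.1.1) (n - 1) P l g g + E + 8 * ϱ < 1) ∧
      ∀ e' : ℝ, 0 < e' → ∃ ρ₀ : ℝ, 0 < ρ₀ ∧ ∀ a w : ℝ,
        (a, w) ∈ Att3 (P' o.2) P → w ≤ a → |a - g| ≤ ρ₀ → |w - g| ≤ ρ₀ →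
        NodQ S (cc hn o.1.1) (n - 1) (lvN (P' o.2) (cc hn o.1.1) (n - 1) P) e' E ϱ a w := by
  obtain ⟨E, hE, hlE, h3⟩ := F.ptD H
  have hθ : 0 < tht o.2 := tht_pos _
  have hθc := F.thc
  have hg0 := F.g0
  have hg1 := F.g1
  obtain ⟨s, hs, hsl⟩ := fin_pos n
    (f := fun l => 1 - (lvN (P' o.2) (cc hn o.1.1) (n - 1) P l g g + E)) fun l hl => by
      have := hlE l (by omega)
      linarith
  obtain ⟨ϱ, hϱ⟩ : ∃ ϱ : ℝ, ϱ = min (s / 10) ((c - tht o.2) / 2) := ⟨_, rfl⟩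
  have hϱ0 : 0 < ϱ := by rw [hϱ]; exact lt_min (by linarith) (by linarith)
  have hϱs : ϱ ≤ s / 10 := by rw [hϱ]; exact min_le_left _ _
  have hϱc : ϱ ≤ (c - tht o.2) / 2 := by rw [hϱ]; exact min_le_right _ _
  have hlE' : ∀ l ≤ n - 1, lvN (P' o.2) (cc hn o.1.1) (n - 1) P l g g + E + 8 * ϱ < 1 :=
    fun l hl => by
      have := hsl l (by omega)
      linarith
  refine ⟨E, ϱ, hE, hϱ0, hlE', fun e' he' => ?_⟩
  obtain ⟨e₁, he₁⟩ : ∃ e₁ : ℝ, e₁ = min (min e' (E / 2)) (min (tht o.2 * g / 8) (ϱ / 2)) := ⟨_, rfl⟩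
  have he₁0 : 0 < e₁ := by
    rw [he₁]
    exact lt_min (lt_min he' (by linarith)) (lt_min (by positivity) (by linarith))
  have he₁1 : e₁ ≤ e' := by rw [he₁]; exact (min_le_left _ _).trans (min_le_left _ _)
  have he₁2 : e₁ ≤ E / 2 := by rw [he₁]; exact (min_le_left _ _).trans (min_le_right _ _)
  have he₁3 : e₁ ≤ tht o.2 * g / 8 := by rw [he₁]; exact (min_le_right _ _).trans (min_le_left _ _)
  have he₁4 : e₁ ≤ ϱ / 2 := by rw [he₁]; exact (min_le_right _ _).trans (min_le_right _ _)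
  obtain ⟨vs, e, ρ₁, he0, hee, hρ₁, h4⟩ := h3 e₁ he₁0
  have hcen := F.cen' (E := 2) two_pos (Or.inl (by
    have h5 := (H.tgs.low () g g hg0.le le_rfl hg1.le)
    have h6 := hθ.trans hθc
    linarith))
  obtain ⟨ρ₂, hρ₂, hmod⟩ := mod_all (H.cht o.2) (H.tgs.law ()) hcen hϱ0
  obtain ⟨ρ₀, hρ₀⟩ : ∃ ρ₀ : ℝ, ρ₀ = min (min ρ₁ ρ₂) (min ((α - g) / 2) (min (g / 2)
    ((1 - g) / 2))) := ⟨_, rfl⟩
  have hα := F.gα
  have hρ0 : 0 < ρ₀ := by
    rw [hρ₀]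
    exact lt_min (lt_min hρ₁ hρ₂) (lt_min (by linarith) (lt_min (by linarith) (by linarith)))
  have r1 : ρ₀ ≤ ρ₁ := by rw [hρ₀]; exact (min_le_left _ _).trans (min_le_left _ _)
  have r2 : ρ₀ ≤ ρ₂ := by rw [hρ₀]; exact (min_le_left _ _).trans (min_le_right _ _)
  have r3 : ρ₀ ≤ (α - g) / 2 := by rw [hρ₀]; exact (min_le_right _ _).trans (min_le_left _ _)
  have r4 : ρ₀ ≤ g / 2 := by
    rw [hρ₀]; exact (min_le_right _ _).trans ((min_le_right _ _).trans (min_le_left _ _))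
  have r5 : ρ₀ ≤ (1 - g) / 2 := by
    rw [hρ₀]; exact (min_le_right _ _).trans ((min_le_right _ _).trans (min_le_right _ _))
  refine ⟨ρ₀, hρ0, fun a w haw hwa ha hw => ?_⟩
  obtain ⟨ρ, S₀, Q', hS₀, hd⟩ := h4 a w haw.1 hwa (ha.trans r1) (hw.trans r1)
  have hw0 := hd.w0
  have ha1 := hd.a1
  have h0 := hd.self
  obtain ⟨hn1, hn2⟩ := hmod a w hw0.le hwa ha1.le (ha.trans r2) (hw.trans r2)
  have ha' := abs_le.1 ha
  have hw' := abs_le.1 hw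
  have haα : a < α := by linarith [ha'.2]
  have hn2' := abs_le.1 hn2
  have hbl : ∀ l < n - 1, bet (P' o.2) (cc hn o.1.1) l a w ≤ bet (P' o.2) (cc hn o.1.1) l g g + ϱ :=
    fun l hl => by
      have h5 := (abs_le.1 (hn1 l hl l le_rfl)).2
      have e1 : tau (P' o.2) (cc hn o.1.1) l l a w = bet (P' o.2) (cc hn o.1.1) l a w := rfl
      have e2 : tau (P' o.2) (cc hn o.1.1) l l g g = bet (P' o.2) (cc hn o.1.1) l g g := rfl
      rw [e1, e2] at h5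
      linarith
  have hlv1 : ∀ l < n - 1, bet (P' o.2) (cc hn o.1.1) l g g + E + 8 * ϱ < 1 := fun l hl => by
    have h5 := hlE' l hl.le
    have e1 : lvN (P' o.2) (cc hn o.1.1) (n - 1) P l g g = bet (P' o.2) (cc hn o.1.1) l g g :=
      if_pos hl
    rwa [e1] at h5
  have hlv2 : P g g + E + 8 * ϱ < 1 := by
    have h5 := hlE' (n - 1) le_rfl
    have e1 : lvN (P' o.2) (cc hn o.1.1) (n - 1) P (n - 1) g g = P g g := if_neg (lt_irrefl _)
    rwa [e1] at h5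
  have hvs0 := h0.vs0
  have hCs : (1 : ℝ) ≤ Csl (n - 1) (n - 1) := by
    have h5 : 1 ≤ Csl (n - 1) (n - 1) := by
      obtain ⟨k, hk⟩ : ∃ k, n - 1 = k + 1 := ⟨n - 2, by omega⟩
      rw [hk]
      show 1 ≤ 1 + (k + 1) * (Csl (k + 1) k + 1)
      omega
    exact_mod_cast h5
  have hvse : vs ≤ e := by
    have h5 := h0.e1
    have h6 := mul_le_mul_of_nonneg_right hCs hvs0
    linarith
  have hθw : tht o.2 * g / 2 ≤ tht o.2 * w := by
    have := mul_le_mul_of_nonneg_left (show g / 2 ≤ w by linarith [hw'.1]) hθ.le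
    linarith
  have hθw1 : tht o.2 * w < tht o.2 := by
    have := mul_lt_mul_of_pos_left (hwa.trans_lt ha1) hθ
    linarith
  obtain ⟨vT, hvT⟩ : ∃ vT : ℝ, vT = 1 - E - 6 * ϱ - P a w := ⟨_, rfl⟩
  obtain ⟨D, hD, hnod⟩ := nod_one (n - 1) S₀ (by omega) hS₀
  refine ⟨D, hD, fun Dr η σ hη hσ hσϱ => ?_⟩
  obtain ⟨K₁, d, ψ, k1, k2, k3, k4⟩ := hnod (σ := σ) (μ := ϱ) (μT := E + ϱ) (vT := vT)
    (H.cht o.2) (by rw [cc_top]; exact H.tgs) hθ H.tmh (by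
      have h5 := cc_inj hn o.1.1
      have e1 : n - 1 + 1 = n := by omega
      rw [e1]
      exact h5) hd (fun l _ => haw.1.1.1.up _ l) haw.2 hσ hϱ0.le (by
      rw [hvT]
      linarith [hn2'.2]) (fun l hl => by
      rw [hvT]
      have h5 := hbl l hl
      have h6 := hlv1 l hl
      linarith) (by linarith) (by linarith) (fun l hl => by
      have h5 := F.le l hl a w hw0 hwa haα
      linarith) (by
      rw [hvT]
      linarith) (by linarith [hn2'.2]) Dr η hη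
  refine ⟨K₁, d, ψ, k1, k2, k3, Bas.mono 0 k4 ?_⟩
  rintro J - F' A ⟨B, l1, l2, T, TH, l3⟩
  refine ⟨B, l1, l2, T, TH, l3.lst.mono le_rfl (fun _ => le_rfl) le_rfl ?_, l3.top, l3.rlY⟩
  exact Nat.floor_le_floor (mul_le_mul_of_nonneg_right (hee.trans he₁1) (Nat.cast_nonneg J))

end Pool.Z3
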