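import Pool.Agent.H95.GN.Rle
import Pool.Agent.H2.GEN.AttF

/-!
# Relations in a family: a target with large gradients on the top

`rel_newT`: `Pool.RLV.rel_new` where the exponent `e₁` of the gradients of the last label is
different from the exponent `e` of the labels before.
-/

set_option autoImplicit false

namespace Pool.Z3

open Finset Real MvPolynomial
open Pool.Agent.H49.Ent Pool.Agent.H32.Dense Pool.STK Pool.KA Pool.KSAT Pool.K2S Pool.PB Pool.S6C
open Pool.GEN Pool.RLV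

section
variable {m : ℕ} {c : ℕ → Fin m} {j : ℕ} {K : ℕ → ℕ}
  {G H : ℕ → MvPolynomial (Option (Fin m)) ℝ} {q p : ℕ → ℕ} {a e : ℕ}
  {b₀ : Option (Fin m) → ℝ} {δ : ℝ}

/-- **The rounding**: points near the own point are in the natural box, and the labels at these
points are near the labels at the own point. -/
theorem rndf (hD : NwD c j K G H q p a e b₀) {f : ℕ → ℕ}
    (hlip : ∀ l ≤ j, ∀ b, NBx c G q a (b₀ none) l b → ∀ l' < l,
      |eval b (pderiv (some (c l')) (G l))| ≤ 2 ^ f l) (hgap : ∀ l ≤ j, q l + 2 ≤ p l) (hδ0 : 0 ≤ δ)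
    (hδ : ∀ l ≤ j, (1 + 2 ^ f l * j) * δ ≤ 1 / 2 / 2 ^ q l) :
    ∀ l ≤ j + 1, ∀ y : Option (Fin m) → ℝ, y none = b₀ none →
      (∀ l' < l, |y (some (c l')) - b₀ (some (c l'))| ≤ δ) →
      NBx c G q a (b₀ none) l y ∧ (l ≤ j → |eval y (G l) - eval b₀ (G l)| ≤ 2 ^ f l * (j * δ)) := by
  intro l
  have hown := hD.own hgap
  induction l with
  | zero =>
    intro _ y hy _
    refine ⟨⟨?_, fun l' hl' => absurd hl' (Nat.not_lt_zero l')⟩, fun _ => ?_⟩
    · rw [hy, sub_self, abs_zero]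
      positivity
    · rw [hD.depG 0 y b₀ hy fun l' hl' => absurd hl' (Nat.not_lt_zero l'), sub_self, abs_zero]
      positivity
  | succ l ih =>
    intro hl y hy hyd
    have box : ∀ y : Option (Fin m) → ℝ, y none = b₀ none →
        (∀ l' < l + 1, |y (some (c l')) - b₀ (some (c l'))| ≤ δ) →
        NBx c G q a (b₀ none) (l + 1) y := by
      intro y hy hyd
      obtain ⟨k1, k2⟩ := ih (by omega) y hy fun l' hl' => hyd l' (by omega)
      refine ⟨k1.1, fun l' hl' => ?_⟩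
      rcases Nat.lt_or_ge l' l with h1 | h1
      · exact k1.2 l' h1
      · have hll : l' = l := by omega
        subst hll
        have h2 := k2 (by omega)
        have h3 := hown l' (by omega)
        have h4 := hyd l' (Nat.lt_succ_self l')
        have h5 := hδ l' (by omega)
        have e1 : y (some (c l')) - eval y (G l') = (y (some (c l')) - b₀ (some (c l'))) +
            (b₀ (some (c l')) - eval b₀ (G l')) + (eval b₀ (G l') - eval y (G l')) := by ring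
        rw [e1]
        refine (abs_add_le _ _).trans ?_
        have h6 := abs_add_le (y (some (c l')) - b₀ (some (c l')))
          (b₀ (some (c l')) - eval b₀ (G l'))
        rw [abs_sub_comm (eval b₀ (G l')) (eval y (G l'))]
        have h7 : (1 : ℝ) / 2 / 2 ^ q l' + 1 / 4 / 2 ^ q l' ≤ 1 / 2 ^ q l' := by
          have : (0 : ℝ) < 1 / 2 ^ q l' := by positivity
          have e2 : (1 : ℝ) / 2 / 2 ^ q l' = 1 / 2 * (1 / 2 ^ q l') := by ring
          have e3 : (1 : ℝ) / 4 / 2 ^ q l' = 1 / 4 * (1 / 2 ^ q l') := by ring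
          rw [e2, e3]
          linarith only [this]
        have h8 : (1 + 2 ^ f l' * (j : ℝ)) * δ = δ + 2 ^ f l' * (j * δ) := by ring
        rw [h8] at h5
        linarith only [h2, h3, h4, h5, h6, h7]
    refine ⟨box y hy hyd, fun hj => ?_⟩
    have h1 := Pool.CHT.mv_chain (hD.depG (l + 1)) (b := b₀) (b' := y) (L := 2 ^ f (l + 1)) (δ := δ)
      (by positivity) hδ0 hy hyd fun z hz hzd l' hl' =>
        hlip (l + 1) hj z (box z hz hzd) l' hl'
    refine h1.trans (mul_le_mul_of_nonneg_left ?_ (by positivity))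
    refine mul_le_mul_of_nonneg_right ?_ hδ0
    exact_mod_cast hj

/-- The natural coordinates of the rounded point. -/
theorem rnbf (hD : NwD c j K G H q p a e b₀) {f : ℕ → ℕ}
    (hlip : ∀ l ≤ j, ∀ b, NBx c G q a (b₀ none) l b → ∀ l' < l,
      |eval b (pderiv (some (c l')) (G l))| ≤ 2 ^ f l) (hgap : ∀ l ≤ j, q l + 2 ≤ p l) (hδ0 : 0 ≤ δ)
    (hδ : ∀ l ≤ j, (1 + 2 ^ f l * j) * δ ≤ 1 / 2 / 2 ^ q l) {y : Option (Fin m) → ℝ}
    (hy : y none = b₀ none) (hyd : ∀ l ≤ j, |y (some (c l)) - b₀ (some (c l))| ≤ δ) :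
    ∀ l ≤ j, |(y (some (c l)) - eval y (G l)) - (b₀ (some (c l)) - eval b₀ (G l))| ≤
      (1 + 2 ^ f l * j) * δ := by
  intro l hl
  have h1 := (rndf hD hlip hgap hδ0 hδ l (by omega) y hy fun l' hl' => hyd l' (by omega)).2 hl
  have h2 := hyd l hl
  have e1 : (y (some (c l)) - eval y (G l)) - (b₀ (some (c l)) - eval b₀ (G l)) =
      (y (some (c l)) - b₀ (some (c l))) - (eval y (G l) - eval b₀ (G l)) := by ring
  rw [e1]
  refine (abs_sub _ _).trans ?_
  have h8 : (1 + 2 ^ f l * (j : ℝ)) * δ = δ + 2 ^ f l * (j * δ) := by ring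
  rw [h8]
  linarith only [h1, h2]


end

/-- **The offsets**: the exact distance at the rounded point, and the polynomial of the line. -/
theorem ofsf (j D : ℕ) : ∃ κ : ℕ, 2 ≤ κ ∧ ∀ {m : ℕ} {c : ℕ → Fin m} {K : ℕ → ℕ}
    {G H : ℕ → MvPolynomial (Option (Fin m)) ℝ} {q p : ℕ → ℕ} {a e o w E J : ℕ}
    {b₀ bh : Option (Fin m) → ℝ} {ox : ℕ → ℝ} {ol : ℕ → Polynomial ℝ} {f : ℕ → ℕ},
    NwD c j K G H q p a e b₀ → (∀ l ≤ j, ∀ b, NBx c G q a (b₀ none) l b → ∀ l' < l,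
      |eval b (pderiv (some (c l')) (G l))| ≤ 2 ^ f l) → w ≤ a → (∀ l ≤ j, q l + E + κ ≤ p l) →
    (∀ l ≤ j, q l + f l + o + κ ≤ J) → bh none = b₀ none →
    (∀ l ≤ j, |bh (some (c l)) - b₀ (some (c l))| ≤ 1 / 2 ^ J) →
    (∀ l ≤ j, ox l = bh (some (c l)) - eval bh (G l)) → (∀ l ≤ j, (ol l).natDegree ≤ D) →
    (∀ l ≤ j, (ol l).eval (b₀ none) = b₀ (some (c l)) - eval b₀ (H l)) →
    (∀ l ≤ j, ∀ s, |s - b₀ none| ≤ 1 / 2 ^ w →
      |(ol l).eval s| ≤ 2 ^ E * |(ol l).eval (b₀ none)|) →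
    Ofs c j G H q a o b₀ ox ol := by
  obtain ⟨κ₁, hκ₁⟩ := rnd_num j
  obtain ⟨C, hC, hw⟩ := wvar D
  obtain ⟨κ₂, hκ₂⟩ := pow_unbounded_of_one_lt C (one_lt_two (α := ℝ))
  refine ⟨κ₁ + κ₂ + 3, by omega, ?_⟩
  intro m c K G H q p a e o w E J b₀ bh ox ol f hD hlip hwa hgap hJ hb0 hbd hox hdeg hl0 hrt
  have hgap2 : ∀ l ≤ j, q l + 2 ≤ p l := fun l hl => by have := hgap l hl; omega
  refine ⟨fun l hl => ?_, hl0, fun l hl t' ht' => ?_⟩
  · rw [hox l hl]
    refine (rnbf hD hlip hgap2 (by positivity) (fun l hl => ?_) hb0 hbd l hl).trans ?_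
    · have h1 := hκ₁ (e := f l) (x := 1) (n := q l) (J := J) (by have := hJ l hl; omega)
      rw [pow_one] at h1
      exact h1
    · refine (hκ₁ (e := f l) (x := o + 2) (n := q l) (J := J) (by have := hJ l hl; omega)).trans
        (le_of_eq ?_)
      rw [div_div, ← pow_add]
      congr 2
      omega
  · have hS : |(ol l).eval (b₀ none)| ≤ 2 / 2 ^ p l := by
      rw [hl0 l hl]
      have h1 := hD.pos l hl
      have h2 := hD.agr l hl b₀ ⟨by rw [sub_self, abs_zero]; positivity, fun l' hl' => ?_⟩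
      · have h4 : (2 : ℝ) / 2 ^ p l = 1 / 2 ^ p l + 1 / 2 ^ p l := by ring
        rw [h4]
        rw [abs_le] at h1 h2 ⊢
        constructor <;> linarith only [h1.1, h1.2, h2.1, h2.2]
      · refine (hD.pos l' (by omega)).trans (p2le ?_)
        have := hgap l' (by omega)
        omega
    have h1 := hw (ol l) (2 ^ E * (2 / 2 ^ p l)) (b₀ none) t' w (hdeg l hl)
      (fun s hs => (hrt l hl s hs).trans (mul_le_mul_of_nonneg_left hS (by positivity)))
      (ht'.trans (p2le (by omega)))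
    refine h1.trans ?_
    have h2 : 2 ^ w * |t' - b₀ none| ≤ 1 / 2 ^ o := by
      calc 2 ^ w * |t' - b₀ none| ≤ 2 ^ w * (1 / 2 ^ (a + o)) :=
            mul_le_mul_of_nonneg_left ht' (by positivity)
        _ ≤ 2 ^ a * (1 / 2 ^ (a + o)) := mul_le_mul_of_nonneg_right
            (pow_le_pow_right₀ (by norm_num) hwa) (by positivity)
        _ = 1 / 2 ^ o := by
            rw [pow_add]
            field_simp
    calc C * (2 ^ E * (2 / 2 ^ p l)) * (2 ^ w * |t' - b₀ none|)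
        ≤ 2 ^ κ₂ * (2 ^ E * (2 / 2 ^ p l)) * (1 / 2 ^ o) :=
          mul_le_mul (mul_le_mul_of_nonneg_right hκ₂.le (by positivity)) h2 (by positivity)
            (by positivity)
      _ = 2 ^ (κ₂ + E + 1) / 2 ^ (p l + o) := by
          rw [pow_add (2 : ℝ) (p l), pow_succ, pow_add]
          field_simp
      _ ≤ 1 / 2 ^ (q l + o + 2) := by
          rw [div_le_div_iff₀ (by positivity) (by positivity), one_mul, ← pow_add]
          refine pow_le_pow_right₀ (by norm_num) ?_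
          have := hgap l hl
          omega

/-- **The derivative at the rounded point.** -/
theorem axf (j Kd : ℕ) (K : ℕ → ℕ) : ∃ κ : ℕ, 6 ≤ κ ∧ ∀ {m : ℕ} {c : ℕ → Fin m}
    {G H : ℕ → MvPolynomial (Option (Fin m)) ℝ} {q p : ℕ → ℕ} {a e μ ν J : ℕ} {M : ℝ}
    {b₀ bh : Option (Fin m) → ℝ} {Rx Rl : MvPolynomial (Option (Fin m)) ℝ} {f : ℕ → ℕ},
    NwD c j K G H q p a e b₀ → (∀ l ≤ j, ∀ b, NBx c G q a (b₀ none) l b → ∀ l' < l,
      |eval b (pderiv (some (c l')) (G l))| ≤ 2 ^ f l) → NwR c j G q a Kd b₀ M μ ν Rx Rl → (∀ l ≤ j, q l + 2 ≤ p l) →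
    (∀ l ≤ j, q l + f l + 2 * μ + κ ≤ J) → bh none = b₀ none →
    (∀ l ≤ j, |bh (some (c l)) - b₀ (some (c l))| ≤ 1 / 2 ^ J) →
    |eval bh (pderiv (some (c j)) Rx) - eval b₀ (pderiv (some (c j)) Rx)| ≤
      |eval b₀ (pderiv (some (c j)) Rx)| / 2 ^ (μ + 4) := by
  obtain ⟨κ₁, hκ₁⟩ := rnd_num j
  obtain ⟨C₁, hC₁, h₁⟩ := ntop Kd
  obtain ⟨C₂, hC₂, h₂⟩ := var_own (Kd * dg K (j + 1))
  obtain ⟨κ₂, hκ₂⟩ := pow_unbounded_of_one_lt (C₁ * C₂) (one_lt_two (α := ℝ))
  refine ⟨κ₁ + κ₂ + 6, by omega, ?_⟩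
  intro m c G H q p a e μ ν J M b₀ bh Rx Rl f hD hlip hR hgap hJ hb0 hbd
  have hown := hD.own hgap
  have hbound : ∀ b, NBx c G q a (b₀ none) (j + 1) b →
      |eval b (pderiv (some (c j)) Rx)| ≤ C₁ * M * 2 ^ q j := by
    intro b hb
    have h3 := h₁ hD.inj hD.depG hR.degx hR.up b hb 1
    rw [pow_one] at h3
    exact h3
  have hnr : Nrb c G q a (j + 1) b₀ (1 / 2 ^ (2 * μ + κ₂ + 4)) bh := by
    refine ⟨by rw [hb0, sub_self, abs_zero]; positivity, fun l hl => ?_⟩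
    refine (rnbf hD hlip hgap (by positivity) (fun l hl => ?_) hb0 hbd l (by omega)).trans ?_
    · have h3 := hκ₁ (e := f l) (x := 1) (n := q l) (J := J) (by have := hJ l hl; omega)
      rw [pow_one] at h3
      exact h3
    · exact hκ₁ (e := f l) (x := 2 * μ + κ₂ + 4) (n := q l) (J := J)
        (by have := hJ l (by omega); omega)
  have h4 := h₂ (i := j + 1) (Q := pderiv (some (c j)) Rx) (D₀ := Kd)
    (M := C₁ * M * 2 ^ q j) (δ := 1 / 2 ^ (2 * μ + κ₂ + 4)) (b := bh) (b₀ := b₀)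
    hD.inj hD.degG hD.depG (hR.depx.pderiv j) (totalDegree_pdσ hR.degx _) le_rfl
    hbound (by positivity) (by
      calc (1 : ℝ) / 2 ^ (2 * μ + κ₂ + 4) ≤ 1 / 2 ^ 2 := p2le (by omega)
        _ = 1 / 4 := by norm_num) (fun l hl => hown l (by omega)) hnr
  refine h4.trans ?_
  have hM := hR.M0
  have hder := hR.der
  have h5 : C₂ * (C₁ * M * 2 ^ q j) * (1 / 2 ^ (2 * μ + κ₂ + 4)) ≤
      (M / 2 ^ μ * 2 ^ q j) / 2 ^ (μ + 4) := by
    have e1 : C₂ * (C₁ * M * 2 ^ q j) * (1 / 2 ^ (2 * μ + κ₂ + 4)) =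
        (C₁ * C₂) * (M * 2 ^ q j / 2 ^ (2 * μ + κ₂ + 4)) := by ring
    have e2 : (M / 2 ^ μ * 2 ^ q j) / 2 ^ (μ + 4) =
        2 ^ κ₂ * (M * 2 ^ q j / 2 ^ (2 * μ + κ₂ + 4)) := by
      have : (2 : ℝ) ^ (2 * μ + κ₂ + 4) = 2 ^ μ * 2 ^ (μ + 4) * 2 ^ κ₂ := by ring
      rw [this]
      field_simp
    rw [e1, e2]
    exact mul_le_mul_of_nonneg_right hκ₂.le (by positivity)
  exact h5.trans (div_le_div_of_nonneg_right hder (by positivity))

/-- **The new label.** -/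
theorem rel_newT (j Kd n : ℕ) (K : ℕ → ℕ) : ∃ κ N Kn : ℕ, 6 ≤ κ ∧ ∀ {m J : ℕ} {F : Fam m J}
    {c : ℕ → Fin m} {a w e e₁ e' e₀ o μ ν : ℕ} {q p g' : ℕ → ℕ} {A : F.Ω → Prop}
    {G : PtT F → ℕ → MvPolynomial (Option (Fin m)) ℝ}
    {H : LnT F → ℕ → MvPolynomial (Option (Fin m)) ℝ}
    {Rx : PtT F → MvPolynomial (Option (Fin m)) ℝ} {Rl : LnT F → MvPolynomial (Option (Fin m)) ℝ}
    {M : F.Ω → ℝ}, 0 < Pe F.p A → w ≤ a → CBx F c j K a w e q p A G H →
    CBx F c (j + 1) K a w e₁ q p A G H →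
    (∀ y, (Rx y).totalDegree ≤ Kd) → (∀ s, (Rl s).totalDegree ≤ Kd) →
    (∀ y, DepC c (j + 1) (Rx y)) → (∀ s, DepC c (j + 1) (Rl s)) →
    (∀ ω, A ω → NwR c j (G (ptr F J ω)) q a Kd (bt F ω) (M ω) μ ν (Rx (ptr F J ω))
      (Rl (slam F w ω))) → TmN F N e₀ A →
    (∀ l ≤ j, q l + κ * (e₀ + 1) ≤ p l) → κ * (e₀ + 1) ≤ μ → 3 * μ + 2 * κ ≤ o →
    3 * μ + 2 * κ ≤ ν → ν ≤ n * μ → (∀ l < j, q l + e + o + 2 * μ + κ ≤ J) →
    q j + e₁ + o + 2 * μ + κ ≤ J → w + o ≤ J →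
    (∀ l < j, g' l = q l + o) → g' j + μ + κ ≤ q j + ν →
    (∀ l ≤ j, q l + e₁ + μ + κ ≤ q j + e') →
    ∃ B : F.Ω → Prop, Sub B A ∧ Pe F.p A ≤ 2 * Pe F.p B ∧
      ChN F c (j + 1) (fun _ => Kn) (a + o) (w + o) e' g' B := by
  classical
  obtain ⟨Ks, hKs⟩ : ∃ Ks, Ks = (range (j + 1)).sup K + 1 := ⟨_, rfl⟩
  have hKs1 : 1 ≤ Ks := by omega
  have hKsl : ∀ l ≤ j, K l ≤ Ks := fun l hl => by
    have : K l ≤ (range (j + 1)).sup K :=
      Finset.le_sup (f := K) (mem_range.2 (Nat.lt_succ_of_le hl))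
    omega
  obtain ⟨C₀, hC₀, hrt⟩ := Pool.GEN.Rt.rt (max Ks Kd)
  obtain ⟨κE, hκE⟩ := exp_le_two C₀
  obtain ⟨κ₁, hκ₁, h₁⟩ := ofsf j Ks
  obtain ⟨κ₂, hκ₂, h₂⟩ := axf j Kd K
  obtain ⟨κ₃, hκ₃, h₃⟩ := al_near j Kd K
  obtain ⟨κ₄, hκ₄, h₄⟩ := newt j Kd n K
  refine ⟨κE + κ₁ + κ₂ + κ₃ + κ₄, 2 * (j + 2), Ks * (Kd + 1) ^ n, by omega, ?_⟩
  intro m J F c a w e e₁ e' e₀ o μ ν q p g' A G H Rx Rl M hA hwa hLV hL hRxd hRld hRxp hRlp hR hT
    hgap hμ ho hν hn hJV hJT hwJ hg1 hg2 he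
  obtain ⟨κ, hκ⟩ : ∃ κ, κ = κE + κ₁ + κ₂ + κ₃ + κ₄ := ⟨_, rfl⟩
  rw [← hκ] at hgap hμ ho hν hJV hJT hg2 he
  have hJ : ∀ l ≤ j, q l + (if l < j then e else e₁) + o + 2 * μ + κ ≤ J := by
    intro l hl
    split_ifs with h1
    · exact hJV l h1
    · have h2 : l = j := by omega
      rw [h2]
      exact hJT
  obtain ⟨E, hE⟩ : ∃ E, E = κE * (e₀ + 1) := ⟨_, rfl⟩
  have hκsplit : κ * (e₀ + 1) = E + (κ₁ + κ₂ + κ₃ + κ₄) * (e₀ + 1) := by
    rw [hκ, hE]
    ring
  have hκe : κ₁ + κ₂ + κ₃ + κ₄ ≤ (κ₁ + κ₂ + κ₃ + κ₄) * (e₀ + 1) :=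
    Nat.le_mul_of_pos_right _ (Nat.succ_pos e₀)
  have hJJ : w ≤ J := by omega
  -- the polynomials of the lines
  obtain ⟨f, hf⟩ : ∃ f : Fin (j + 2) → LnT F → Polynomial ℝ, f = fun (i : Fin (j + 2)) s =>
      if (i : ℕ) = j + 1 then alg s (pderiv (some (c j)) (Rl s)) else ofl c (H s) s i := ⟨_, rfl⟩
  have hfd : ∀ i s, (f i s).natDegree ≤ max Ks Kd := by
    intro i s
    rw [hf]
    simp only
    split_ifs with hi
    · exact (alg_deg s (totalDegree_pdσ (hRld s) _)).trans (le_max_right _ _)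
    · have : (i : ℕ) ≤ j := by
        have := i.2
        omega
      exact (ofl_deg c s ((hL.degH s i).trans (hKsl i this)) hKs1).trans (le_max_left _ _)
  have hN2 : (0 : ℝ) < 1 / (2 * (j + 2)) := by positivity
  obtain ⟨B, hBA, hBP, hB⟩ := hrt m J F A w o e₀ (1 / (2 * (j + 2))) (j + 2) f F.isLaw hA hfd
    hwJ (Nat.cast_nonneg _) hN2 (fun B hB h => hT B hB (by
      rw [one_div_mul_eq_div, div_le_iff₀ (by positivity)] at h
      push_cast
      linarith only [h])) (by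
      refine (hκE e₀).2.trans (mul_le_mul_of_nonneg_right ?_ (Real.log_nonneg (by norm_num)))
      have : κE * (e₀ + 1) ≤ o := by omega
      exact_mod_cast this)
  have hBP' : Pe F.p A ≤ 2 * Pe F.p B := by
    have h5 : (1 - ((j + 2 : ℕ) : ℝ) * (1 / (2 * (j + 2)))) = 1 / 2 := by
      push_cast
      have : (j : ℝ) + 2 ≠ 0 := by positivity
      field_simp
      ring
    rw [h5] at hBP
    linarith only [hBP]
  have hB' : ∀ ω, B ω → ∀ (i : Fin (j + 2)) (s : ℝ), |s - F.t ω| ≤ 1 / 2 ^ w →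
      |(f i (slam F w ω)).eval s| ≤ 2 ^ E * |(f i (slam F w ω)).eval (F.t ω)| := by
    intro ω hω i s hs
    refine (hB ω hω i s (hs.trans ?_)).trans (mul_le_mul_of_nonneg_right ?_ (abs_nonneg _))
    · exact div_le_div_of_nonneg_right (by norm_num) (by positivity)
    · rw [hE]
      exact (hκE e₀).1
  -- the new labels
  obtain ⟨ox, hox⟩ : ∃ ox : PtT F → ℕ → ℝ, ox = fun y l =>
      bho J J y (some (c l)) - eval (bho J J y) (G y l) := ⟨_, rfl⟩
  obtain ⟨cs, hcs⟩ : ∃ cs : LnT F → LnT F, cs = fun s => (s.1, s.2.1, s.2.2 / 2 ^ o) := ⟨_, rfl⟩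
  have hslam : ∀ ω, cs (slam F (w + o) ω) = slam F w ω := by
    intro ω
    rw [slam_coarse F (Nat.le_add_right w o) hwJ ω, hcs, Nat.add_sub_cancel_left]
  obtain ⟨Ax, hAx⟩ : ∃ Ax : PtT F → ℝ, Ax = fun y =>
      eval (bho J J y) (pderiv (some (c j)) (Rx y)) := ⟨_, rfl⟩
  obtain ⟨Al, hAl⟩ : ∃ Al : LnT F → ℝ, Al = fun s =>
      (alg (cs s) (pderiv (some (c j)) (Rl (cs s)))).eval ((s.2.2 : ℝ) / 2 ^ (w + o)) := ⟨_, rfl⟩
  obtain ⟨G', hG'⟩ : ∃ G' : PtT F → ℕ → MvPolynomial (Option (Fin m)) ℝ, G' = fun y l =>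
      if l < j then G y l + C (ox y l) else if l = j then
        nw (some (c j)) (Ax y) (G y j + C (ox y j)) (Rx y) n else 0 := ⟨_, rfl⟩
  obtain ⟨H', hH'⟩ : ∃ H' : LnT F → ℕ → MvPolynomial (Option (Fin m)) ℝ, H' = fun s l =>
      if l < j then H (cs s) l + toN m (ofl c (H (cs s)) (cs s) l) else if l = j then
        nw (some (c j)) (Al s) (H (cs s) j + toN m (ofl c (H (cs s)) (cs s) j)) (Rl (cs s)) n
      else 0 := ⟨_, rfl⟩
  have key : ∀ ω, B ω →
      (∀ l ≤ j, |bt F ω (some (c l)) - eval (bt F ω) (G' (ptr F J ω) l)| ≤ 1 / 2 ^ g' l) ∧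
      (∀ l ≤ j, ∀ b, NBx c (G' (ptr F J ω)) g' (a + o) (F.t ω) l b →
        |eval b (G' (ptr F J ω) l) - eval b (H' (slam F (w + o) ω) l)| ≤ 1 / 2 ^ g' l) ∧
      (∀ l ≤ j, ∀ b, NBx c (G' (ptr F J ω)) g' (a + o) (F.t ω) l b → ∀ l' < l,
        |eval b (pderiv (some (c l')) (G' (ptr F J ω) l))| ≤ 2 ^ e') := by
    intro ω hω
    have hAω := hBA ω hω
    have hD := hL.at hAω
    have hlip : ∀ l ≤ j, ∀ b, NBx c (G (ptr F J ω)) q a (bt F ω none) l b → ∀ l' < l,
        |eval b (pderiv (some (c l')) (G (ptr F J ω) l))| ≤ 2 ^ (if l < j then e else e₁) := by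
      intro l hl b hb l' hl'
      split_ifs with h1
      · exact hLV.lip ω hAω l h1 b hb l' hl'
      · exact hL.lip ω hAω l (by omega) b hb l' hl'
    have hRω := hR ω hAω
    have hgap2 : ∀ l ≤ j, q l + 2 ≤ p l := fun l hl => by have := hgap l hl; omega
    have hbn : bho J J (ptr F J ω) none = bt F ω none := rfl
    have hbd : ∀ l ≤ j, |bho J J (ptr F J ω) (some (c l)) - bt F ω (some (c l))| ≤
        1 / 2 ^ J := fun l _ => Pool.PB.Trl.x_near F J ω (c l)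
    have hfl : ∀ l ≤ j, ∀ s, |s - bt F ω none| ≤ 1 / 2 ^ w →
        |(ofl c (H (slam F w ω)) (slam F w ω) l).eval s| ≤
          2 ^ E * |(ofl c (H (slam F w ω)) (slam F w ω) l).eval (bt F ω none)| := by
      intro l hl s hs
      have h5 := hB' ω hω ⟨l, by omega⟩ s hs
      rw [hf] at h5
      simp only at h5
      rw [if_neg (by omega : ¬ l = j + 1)] at h5
      exact h5
    have hofs : Ofs c j (G (ptr F J ω)) (H (slam F w ω)) q a o (bt F ω) (ox (ptr F J ω))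
        (ofl c (H (slam F w ω)) (slam F w ω)) :=
      h₁ (bh := bho J J (ptr F J ω)) (w := w) (E := E) (J := J)
        (f := fun l => if l < j then e else e₁) hD hlip hwa
        (fun l hl => by have := hgap l hl; omega) (fun l hl => by have := hJ l hl; omega) hbn hbd
        (fun l _ => by rw [hox]) (fun l hl => ofl_deg c _ ((hL.degH _ l).trans (hKsl l hl)) hKs1)
        (fun l _ => ofl_own F c _ w ω l) hfl
    have hAx' : |Ax (ptr F J ω) - eval (bt F ω) (pderiv (some (c j)) (Rx (ptr F J ω)))| ≤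
        |eval (bt F ω) (pderiv (some (c j)) (Rx (ptr F J ω)))| / 2 ^ (μ + 4) := by
      rw [hAx]
      exact h₂ (J := J) (f := fun l => if l < j then e else e₁) hD hlip hRω hgap2 (fun l hl => by have := hJ l hl; omega) hbn hbd
    have hAl' : |Al (slam F (w + o) ω) -
        eval (bt F ω) (pderiv (some (c j)) (Rx (ptr F J ω)))| ≤
        |eval (bt F ω) (pderiv (some (c j)) (Rx (ptr F J ω)))| / 2 ^ (μ + 4) := by
      refine h₃ (w := w) (o := o) (E := E) (T := ((slam F (w + o) ω).2.2 : ℝ) / 2 ^ (w + o))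
        (f := alg (slam F w ω) (pderiv (some (c j)) (Rl (slam F w ω)))) hD hRω hgap2
        (alg_deg _ (totalDegree_pdσ (hRld _) _)) (alg_own F w ω _) ?_ (win_time F hwJ ω)
        (by omega) (by omega) ?_
      · intro s hs
        have h5 := hB' ω hω ⟨j + 1, by omega⟩ s hs
        rw [hf] at h5
        simp only [if_true] at h5
        exact h5
      · rw [hAl]
        simp only
        rw [hslam]
    have h5 := h₄ (G' := G' (ptr F J ω)) (H' := H' (slam F (w + o) ω)) (g' := g') (e' := e') hD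
      hofs hRω (fun l hl => by have := hgap l hl; omega) (by omega) (by omega) hn hAx' hAl'
      (fun l hl => by
        rw [hG']
        simp only
        rw [if_pos hl]) (by
        rw [hG']
        simp only
        rw [if_neg (lt_irrefl j)]
        simp only [if_true]) (fun l hl => by
        rw [hH']
        simp only
        rw [if_pos hl, hslam]) (by
        rw [hH']
        simp only
        rw [if_neg (lt_irrefl j)]
        simp only [if_true]
        rw [hslam]) hg1 (by omega) fun l hl => by have := he l hl; omega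
    exact h5
  have hKn : Ks ≤ Ks * (Kd + 1) ^ n := Nat.le_mul_of_pos_right _ (by positivity)
  refine ⟨B, hBA, hBP', G', H', fun y l => ?_, fun s l => ?_, fun y l => ?_, fun s l => ?_,
    fun ω hω l hl => (key ω hω).1 l (by omega), fun ω hω l hl => (key ω hω).2.1 l (by omega),
    fun ω hω l hl b hb l' hl' => ((key ω hω).2.2 l (by omega) b hb l' hl').trans
      (pow_le_pow_right₀ (by norm_num) (Nat.le_add_right _ _))⟩
  · rw [hG']
    simp only
    split_ifs with h5 h6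
    · refine (totalDegree_add _ _).trans (max_le ?_ ?_)
      · exact (hL.degG y l).trans ((hKsl l h5.le).trans hKn)
      · rw [totalDegree_C]
        exact Nat.zero_le _
    · refine nw_deg _ _ (hRxd y) hKs1 ((totalDegree_add _ _).trans (max_le ?_ ?_)) n
      · exact (hL.degG y j).trans (hKsl j le_rfl)
      · rw [totalDegree_C]
        exact Nat.zero_le _
    · rw [totalDegree_zero]
      exact Nat.zero_le _
  · rw [hH']
    simp only
    split_ifs with h5 h6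
    · refine (totalDegree_add _ _).trans (max_le ?_ ?_)
      · exact (hL.degH _ l).trans ((hKsl l h5.le).trans hKn)
      · exact (toN_deg (ofl_deg c _ ((hL.degH _ l).trans (hKsl l h5.le)) hKs1)).trans hKn
    · refine nw_deg _ _ (hRld _) hKs1 ((totalDegree_add _ _).trans (max_le ?_ ?_)) n
      · exact (hL.degH _ j).trans (hKsl j le_rfl)
      · exact toN_deg (ofl_deg c _ ((hL.degH _ j).trans (hKsl j le_rfl)) hKs1)
    · rw [totalDegree_zero]
      exact Nat.zero_le _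
  · rw [hG']
    simp only
    split_ifs with h5 h6
    · exact dep_add (hL.depG y l) (dep_C _)
    · subst h6
      exact nw_dep _ (dep_add (hL.depG y l) (dep_C _)) (hRxp y) n
    · exact dep_zero c l
  · rw [hH']
    simp only
    split_ifs with h5 h6
    · exact dep_add (hL.depH _ l) (toN_dep c l _)
    · subst h6
      exact nw_dep _ (dep_add (hL.depH _ l) (toN_dep c l _)) (hRlp _) n
    · exact dep_zero c l


end Pool.Z3
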