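import Pool.Agent.H77.Z3.RelT

/-!
# Relations in a family: chains with the target on the top

`relv_top`: `Pool.RLV.relv_fam` for a chain with a target on the top: the gradients of the label of
the target may be large.
-/

set_option autoImplicit false

namespace Pool.Z3

open Finset Real MvPolynomial
open Pool.Agent.H49.Ent Pool.Agent.H32.Dense Pool.STK Pool.KA Pool.KSAT Pool.K2S Pool.PB Pool.S6C
open Pool.GEN Pool.RLV
open Pool.CHT (dgp dgp_self dgp_succ gls nbx_grow)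

/-- **No relations** over chains of two-sided labels with a target on the top, if there are no better
labels. `E 0` bounds the defect of the time, `E (l + 1)` is the distance between the precision and
the coarse side of `c l`, `E (j + 2)` is the depth of the relation. -/
theorem relv_top (V D j : ℕ) (K : ℕ → ℕ) : ∃ κ N Kn : ℕ, 1 ≤ κ ∧ ∀ {m J : ℕ} {F : Fam m J}
    {c : ℕ → Fin m} {a w e e₁ e' eT f₁ f' e₀ y N₀ : ℕ} {g q E : ℕ → ℕ} {A : F.Ω → Prop}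
    {G : PtT F → ℕ → MvPolynomial (Option (Fin m)) ℝ}
    {H : LnT F → ℕ → MvPolynomial (Option (Fin m)) ℝ}
    {Dx : PtT F → MvPolynomial (Option (Fin m)) ℝ}
    {Dl : LnT F → MvPolynomial (Option (Fin m)) ℝ},
    0 < Pe F.p A → w ≤ a → Set.InjOn c (Set.Iio (j + 1)) → ChOK F c j K a w e g A G H →
    ChOK F c (j + 1) K a w eT g A G H →
    (∀ y, (Dx y).totalDegree ≤ D) → (∀ s, (Dl s).totalDegree ≤ D) →
    (∀ y, DepC c (j + 1) (Dx y)) → (∀ s, DepC c (j + 1) (Dl s)) →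
    (∀ ω, A ω → |eval (bt F ω) (Dx (ptr F J ω))| ≤ 1 / 2 ^ N₀) →
    (∀ ω, A ω → ∀ b, NBx c (G (ptr F J ω)) g a (F.t ω) (j + 1) b →
      |eval b (Dx (ptr F J ω)) - eval b (Dl (slam F w ω))| ≤ 1 / 2 ^ N₀) →
    (∀ ω, A ω → ∃ b, NBx c (G (ptr F J ω)) g a (F.t ω) (j + 1) b ∧
      2 ^ y / 2 ^ N₀ ≤ |eval b (Dx (ptr F J ω))|) →
    TmN F N e₀ A → e₀ + 1 ≤ E 0 → (∀ l ≤ j + 1, κ * E 0 ≤ E (l + 1)) →
    (∀ l < j + 1, (V + 4) ^ (D * dgp K l (j + 1) + 1) * E (l + 1) ≤ E (l + 2)) →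
    (∀ l < j + 1, q l ≤ g l) → (∀ l < j + 1, q l + E (l + 1) + κ + gls K g q l ≤ g l) →
    (E (j + 1 + 1) + κ + ∑ l ∈ range (j + 1), (g l - q l) * (D * dgp K l (j + 1)) ≤ y) →
    (∀ l < j, ∀ l' < l, e + nlp g l' l + κ + gls K g q l ≤ e₁) →
    (∀ l < j + 1, ∀ l' < l, eT + nlp g l' l + κ + gls K g q l ≤ f₁) →
    (∀ l < j, ∀ l' ≤ l, q l' + e₁ + E (j + 1 + 1) ≤ q l + e') →
    (∀ l' ≤ j, q l' + f₁ + E (j + 1 + 1) ≤ q j + f') →
    (∀ l < j, q l + e₁ + 7 * E (j + 1 + 1) ≤ J) → q j + f₁ + 7 * E (j + 1 + 1) ≤ J →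
    w + 4 * E (j + 1 + 1) ≤ J →
    (∀ l < j, ∀ μ, E (l + 1) ≤ μ → μ ≤ E (j + 1 + 1) → ∀ B : F.Ω → Prop, Sub B A →
      Pe F.p A ≤ N * Pe F.p B → ¬ ChN F c (l + 1) (fun _ => Kn) (a + 4 * μ) (w + 4 * μ) e'
        (fun l' => if l' < l then q l' + 4 * μ else q l + E (l + 1) + V * μ) B) →
    (∀ μ, E (j + 1) ≤ μ → μ ≤ E (j + 1 + 1) → ∀ B : F.Ω → Prop, Sub B A →
      Pe F.p A ≤ N * Pe F.p B → ¬ ChN F c (j + 1) (fun _ => Kn) (a + 4 * μ) (w + 4 * μ) f'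
        (fun l' => if l' < j then q l' + 4 * μ else q j + E (j + 1) + V * μ) B) → False := by
  classical
  obtain ⟨i, hi⟩ : ∃ i, i = j + 1 := ⟨_, rfl⟩
  obtain ⟨κ₁, N, Kn, hκ₁, hcore⟩ := rel_top V K j D 0
  obtain ⟨κ₂, hcbx⟩ := cbx_of j K
  obtain ⟨κ₄, hcbx'⟩ := cbx_of (j + 1) K
  rw [← hi] at hcore hcbx' ⊢
  obtain ⟨Dg, hDg⟩ : ∃ Dg, Dg = ∑ j ∈ range i, D * dgp K j i := ⟨_, rfl⟩
  obtain ⟨C₃, hC₃, hgrow⟩ := nbx_grow Dg i
  obtain ⟨κ₃, hκ₃⟩ := pow_unbounded_of_one_lt C₃ (one_lt_two (α := ℝ))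
  refine ⟨κ₁ + κ₂ + κ₃ + κ₄, N, Kn, by omega, ?_⟩
  intro m J F c a w e e₁ e' eT f₁ f' e₀ y N₀ g q E A G H Dx Dl hA hwa hc hchV hch hdx hdl hpx hpl
    hown htwo hlow hT hE0 hEt hE hq hp hy he1 hf1 he' hf' hJ hJT hwJ hno hnoT
  have hji : j < i := by omega
  have hsum : ∀ j < i, D * dgp K j i ≤ Dg := fun j hj => by
    rw [hDg]
    exact Finset.single_le_sum (f := fun j => D * dgp K j i) (fun _ _ => Nat.zero_le _)
      (mem_range.2 hj)
  -- the maxima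
  have hmax : ∀ ω, ∃ b, NBx c (G (ptr F J ω)) q a (F.t ω) i b ∧
      ∀ b', NBx c (G (ptr F J ω)) q a (F.t ω) i b' →
        |eval b' (Dx (ptr F J ω))| ≤ |eval b (Dx (ptr F J ω))| := fun ω =>
    nmax hc (hch.depG _) (hpx _)
  choose bm hbm hbm' using hmax
  obtain ⟨M, hM⟩ : ∃ M : F.Ω → ℝ, M = fun ω => |eval (bm ω) (Dx (ptr F J ω))| := ⟨_, rfl⟩
  have hMlow : ∀ ω, A ω → 2 ^ y / 2 ^ N₀ ≤ M ω := by
    intro ω hω
    obtain ⟨b, hb, hbl⟩ := hlow ω hω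
    rw [hM]
    refine hbl.trans (hbm' ω b ⟨hb.1, fun l hl => (hb.2 l hl).trans (p2le (hq l hl))⟩)
  have hbase : ∀ ω, A ω → 2 ^ (κ₃ + ∑ j ∈ range i, (g j - q j) * (D * dgp K j i)) *
      (1 / 2 ^ N₀) ≤ M ω / 2 ^ E (i + 1) := by
    intro ω hω
    rw [le_div_iff₀ (by positivity)]
    refine le_trans ?_ (hMlow ω hω)
    rw [mul_one_div, div_mul_eq_mul_div, ← pow_add]
    refine div_le_div_of_nonneg_right (pow_le_pow_right₀ (by norm_num) ?_) (by positivity)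
    omega
  refine hcore (e := e₁) (e' := e') (e₁ := f₁) (e₁' := f') (q := q)
    (p := fun l => q l + E (l + 1)) (E := E) (Dx := Dx) (Dl := Dl) (M := M) hA hwa
    (hcbx (hc.mono fun x hx => by rw [Set.mem_Iio] at hx ⊢; omega) hchV
      (fun l hl => hq l (by omega)) (fun l hl => ?_) fun l hl l' hl' => ?_)
    (hcbx' hc hch hq (fun l hl => ?_) fun l hl l' hl' => ?_)
    ⟨hdx, hdl, hpx, hpl, fun ω hω => ?_, fun ω hω => ?_, fun ω hω b hb => ?_,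
      fun ω hω b hb => ?_, fun ω hω => ?_⟩ hT hE0 (fun l _ => rfl)
    (fun l hl => (Nat.mul_le_mul_right _ (by omega)).trans (hEt l hl)) hE hJ hJT hwJ he' hf' hno
    (by rw [hi] at hnoT ⊢; exact hnoT)
  · have := hp l (by omega)
    show q l + E (l + 1) + κ₂ + gls K g q l ≤ g l
    omega
  · have := he1 l hl l' hl'
    omega
  · have := hp l hl
    show q l + E (l + 1) + κ₄ + gls K g q l ≤ g l
    omega
  · have := hf1 l hl l' hl'
    omega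
  · exact lt_of_lt_of_le (by positivity) (hMlow ω hω)
  · refine (hown ω hω).trans (le_trans ?_ (hbase ω hω))
    exact le_mul_of_one_le_left (by positivity) (one_le_pow₀ (by norm_num))
  · have h1 := hgrow (K := K) (G := G (ptr F J ω)) (Q := Dx (ptr F J ω) - Dl (slam F w ω))
      (g := g) (g' := q) (a := a) (D₀ := D) (t := F.t ω) (M := 1 / 2 ^ N₀) le_rfl hc (hch.degG _)
      (hch.depG _) (dep_sub (hpx _) (hpl _))
      ((totalDegree_sub _ _).trans (max_le (hdx _) (hdl _))) hsum hq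
      (fun b hb => by rw [map_sub]; exact htwo ω hω b hb) b hb
    rw [map_sub] at h1
    refine h1.trans (le_trans ?_ (hbase ω hω))
    refine mul_le_mul_of_nonneg_right ?_ (by positivity)
    rw [pow_add]
    exact mul_le_mul_of_nonneg_right hκ₃.le (by positivity)
  · rw [hM]
    exact hbm' ω b hb
  · refine ⟨bm ω, hbm ω, ?_⟩
    rw [pow_zero, one_mul, hM]

end Pool.Z3
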