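import Pool.Agent.H77.Z3.RelU
import Pool.Agent.H2.GEN.Rlv
import Pool.Agent.H1.GEN.One

/-!
# No relation in a class, with a target on the top

`relvT_of`: at a point where the precisions of the coordinates of the list and of the target grow at
most linearly along the diagonal, are nearly sorted (for the target: up to `vT`) and visible, there
is no relation between the coordinates and the target: `RelT`. The gradients of the label of the
target may be large.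
-/

set_option autoImplicit false

namespace Pool.Z3

open Finset Real MvPolynomial
open Pool.Agent.H49.Ent Pool.Agent.H32.Dense Pool.STK Pool.KA Pool.KSAT Pool.K2S Pool.PB Pool.S6C
open Pool.GEN Pool.CHT
open Pool.LBT (LSys Slo Tri ThrOf)
open Pool.LEV (Law)
open Pool.LBN (Tch cof cof_lt chn_congr)
open Pool.ONE (tgs)

variable {m J : ℕ} {θ : ℝ} {S : PCl m} {P : List (Fin m) × Fin m → ℝ → ℝ → ℝ}

/-- The levels of the list and of the target. -/
noncomputable def lvT {m : ℕ} (P : List (Fin m) × Fin m → ℝ → ℝ → ℝ) (c : ℕ → Fin m) (j : ℕ)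
    (Pt : ℝ → ℝ → ℝ) (l : ℕ) (a w : ℝ) : ℝ := if l < j then bet P c l a w else Pt a w

/-- **No relation** between the coordinates of the list and the target. -/
def RelTS (c : ℕ → Fin m) (j : ℕ) (K : ℕ → ℕ) (β d : ℕ → ℝ) (a w e₀ E₀ : ℝ) (D : ℕ)
    (η η' : ℝ) : Stat m := fun J F A =>
  ∀ (G : PtT F → ℕ → MvPolynomial (Option (Fin m)) ℝ)
    (H : LnT F → ℕ → MvPolynomial (Option (Fin m)) ℝ),
    ChOK F c j K ⌊a * J⌋₊ ⌊w * J⌋₊ ⌊e₀ * J⌋₊ (fun l => ⌊(β l - d l) * J⌋₊) A G H →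
    ChOK F c (j + 1) K ⌊a * J⌋₊ ⌊w * J⌋₊ ⌊E₀ * J⌋₊ (fun l => ⌊(β l - d l) * J⌋₊) A G H →
    ∀ (Dx : PtT F → MvPolynomial (Option (Fin m)) ℝ)
      (Dl : LnT F → MvPolynomial (Option (Fin m)) ℝ) (N : ℕ),
      (∀ y, (Dx y).totalDegree ≤ D) → (∀ s, (Dl s).totalDegree ≤ D) →
      (∀ y, DepC c (j + 1) (Dx y)) → (∀ s, DepC c (j + 1) (Dl s)) →
      (∀ ω, A ω → |eval (bt F ω) (Dx (ptr F J ω))| ≤ 1 / 2 ^ N) →
      (∀ ω, A ω → ∀ b, NBx c (G (ptr F J ω)) (fun l => ⌊(β l - d l) * J⌋₊) ⌊a * J⌋₊ (F.t ω)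
        (j + 1) b → |eval b (Dx (ptr F J ω)) - eval b (Dl (slam F ⌊w * J⌋₊ ω))| ≤ 1 / 2 ^ N) →
      ∃ B : F.Ω → Prop, Sub B A ∧ (1 - η') * Pe F.p A ≤ Pe F.p B ∧ ∀ ω, B ω →
        ∀ b, NBx c (G (ptr F J ω)) (fun l => ⌊(β l - d l) * J⌋₊) ⌊a * J⌋₊ (F.t ω) (j + 1) b →
          |eval b (Dx (ptr F J ω))| ≤ 2 ^ ⌊η * J⌋₊ / 2 ^ N

/-- **No better label of the target**, uniformly. -/
theorem no_unifT {PT : Unit → ℝ → ℝ → ℝ} {c : ℕ → Fin m} {j : ℕ}
    (hT : ThrOf (tgs (c j)) S PT) (hc : Set.InjOn c (Set.Iio (j + 1))) (K : ℕ) (a w : ℚ) (h : ℝ)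
    (hw : 0 ≤ w) (hwa : w ≤ a) (ha : a ≤ 1) (hh : 0 < h) (h1 : PT () a w + h ≤ 1) :
    Bas S (fun J F A => ∀ (a₀ w₀ e₀ : ℕ) (g : ℕ → ℕ), w₀ ≤ a₀ → a₀ ≤ ⌊(a : ℝ) * J⌋₊ →
      w₀ ≤ ⌊(w : ℝ) * J⌋₊ → (∀ l ≤ j, g l ≤ J) →
      ⌊(PT () a w + h) * J⌋₊ + a₀ ≤ g j + ⌊(a : ℝ) * J⌋₊ →
      ¬ ChN F c (j + 1) (fun _ => K) a₀ w₀ e₀ g A) := by
  refine Bas.mono 0 (hT.no () K a w h hw hwa ha hh h1) ?_
  rintro J - F A hn a₀ w₀ e₀ g k1 k2 k3 k5 k6 k7
  refine hn ⟨(List.range j).map c, ?_, ?_, a₀, w₀, e₀, g, k1, k2, k3, ?_, ?_, ?_⟩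
  · refine (List.nodup_map_iff_inj_on List.nodup_range).2 fun x hx y hy hxy => ?_
    rw [List.mem_range] at hx hy
    exact hc (Set.mem_Iio.2 (by omega)) (Set.mem_Iio.2 (by omega)) hxy
  · intro hmem
    obtain ⟨x, hx, hxy⟩ := List.mem_map.1 hmem
    rw [List.mem_range] at hx
    have := hc (Set.mem_Iio.2 (show x < j + 1 by omega)) (Set.mem_Iio.2 (Nat.lt_succ_self j)) hxy
    omega
  · simpa using k6
  · simpa using k5
  · have e1 : ((List.range j).map c).length = j := by simp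
    rw [e1]
    refine chn_congr k7 (fun i hi => ?_) (fun _ _ => le_rfl) fun _ _ => rfl
    rcases Nat.lt_or_ge i j with h2 | h2
    · rw [cof_lt (by simpa using h2)]
      simp
    · have h3 : i = j := by omega
      subst h3
      unfold cof
      simp

/-- **No relation in a class, with a target on the top.** -/
theorem relvT_of {PT : Unit → ℝ → ℝ → ℝ} {c : ℕ → Fin m} {jt : ℕ}
    (hP : ThrOf (chsys m θ) S P) (hPT : ThrOf (tgs (c jt)) S PT) (hθ : 0 < θ) (hS : TmH S)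
    (hc : Set.InjOn c (Set.Iio (jt + 1))) {a w vs e₀ vT E₀ : ℝ} (hw : 0 < w) (hwa : w ≤ a)
    (ha : a < 1) (hup : ∀ l < jt, Up1 (bet P c l) a w) (hupT : Up1 (PT ()) a w)
    (hvis : ∀ l < jt, bet P c l a w + θ * w < 1) (hvisT : PT () a w + (E₀ + (vT + vs)) < 1)
    (hvs : 0 ≤ vs) (hsrt : ∀ i < jt, ∀ l < i, bet P c l a w ≤ bet P c i a w + vs)
    (hvT : 0 ≤ vT) (hsrtT : ∀ l < jt, bet P c l a w ≤ PT () a w + vT)
    (he₀ : 0 ≤ e₀) (hE₀ : 0 ≤ E₀) (he : e₀ + 2 * vs < θ * w) :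
    ∀ (D : ℕ) (η : ℝ), 0 < η → ∃ φ : ℕ → ℕ → ℝ, (∀ l n, 0 < φ l n) ∧
      ∀ (K : ℕ → ℕ) (d : ℕ → ℝ), Hie φ (jt + 1) K d → ∀ η' : ℝ, 0 < η' →
        Bas S (RelTS c jt K (fun l => lvT P c jt (PT ()) l a w) d a w e₀ E₀ D η η') := by
  classical
  intro D η hη
  obtain ⟨r, hr⟩ : ∃ r, r = jt + 1 := ⟨_, rfl⟩
  obtain ⟨β₀, hβ₀⟩ : ∃ β₀ : ℕ → ℝ → ℝ → ℝ, β₀ = fun l => if l < jt then bet P c l else PT () :=
    ⟨_, rfl⟩
  have hβV : ∀ l < jt, β₀ l = bet P c l := fun l hl => by rw [hβ₀]; exact if_pos hl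
  have hβT : β₀ jt = PT () := by rw [hβ₀]; exact if_neg (lt_irrefl jt)
  have hlaw : ∀ l, Law (β₀ l) := fun l => by
    rw [hβ₀]
    dsimp only
    split_ifs
    · exact hP.law _
    · exact hPT.law ()
  have hlow : ∀ (l : ℕ) (x y : ℝ), 0 ≤ y → y ≤ x → x ≤ 1 → x ≤ β₀ l x y := fun l x y h1 h2 h3 => by
    rw [hβ₀]
    dsimp only
    split_ifs
    · exact hP.low _ x y h1 h2 h3
    · exact hPT.low () x y h1 h2 h3
  have hupp : ∀ (l : ℕ) (x y : ℝ), 0 ≤ y → y ≤ x → x ≤ 1 → β₀ l x y ≤ 1 := fun l x y h1 h2 h3 => by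
    rw [hβ₀]
    dsimp only
    split_ifs
    · exact hP.up _ x y h1 h2 h3
    · exact hPT.up () x y h1 h2 h3
  have hup₀ : ∀ l < r, Up1 (β₀ l) a w := fun l hl => by
    rcases Nat.lt_or_ge l jt with h | h
    · rw [hβV l h]
      exact hup l h
    · have h' : l = jt := by omega
      rw [h', hβT]
      exact hupT
  obtain ⟨X, hX⟩ : ∃ X : ℕ → ℝ, X = fun l => if l < jt then θ * w else E₀ + (vT + vs) := ⟨_, rfl⟩
  have hXV : ∀ l < jt, X l = θ * w := fun l hl => by rw [hX]; exact if_pos hl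
  have hXT : X jt = E₀ + (vT + vs) := by rw [hX]; exact if_neg (lt_irrefl jt)
  have hX0 : ∀ l, 0 ≤ X l := fun l => by
    rw [hX]
    dsimp only
    split_ifs
    · positivity
    · linarith
  have hvis₀ : ∀ l < r, β₀ l a w + X l < 1 := fun l hl => by
    rcases Nat.lt_or_ge l jt with h | h
    · rw [hβV l h, hXV l h]
      exact hvis l h
    · have h' : l = jt := by omega
      rw [h', hβT, hXT]
      exact hvisT
  have hw1 : w < 1 := hwa.trans_lt ha
  have ha0 : 0 < a := hw.trans_le hwa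
  -- the constants of the growth
  have hup' : ∀ l, ∃ V o₀ : ℝ, 0 ≤ V ∧ 0 < o₀ ∧ (l < r → ∀ o : ℝ, 0 < o → o < o₀ →
      β₀ l (a + o) (w + o) ≤ β₀ l a w + V * o) := by
    intro l
    by_cases hl : l < r
    · obtain ⟨V, o₀, h1, h2, h3⟩ := hup₀ l hl
      exact ⟨V, o₀, h1, h2, fun _ => h3⟩
    · exact ⟨0, 1, le_rfl, one_pos, fun h => absurd h hl⟩
  choose Vl ol hV0 ho0 hup' using hup'
  obtain ⟨o₀, ho₀, ho₁⟩ := fin_pos r (f := ol) fun k _ => ho0 k
  obtain ⟨V₀, hV₀⟩ : ∃ V₀, V₀ = ∑ l ∈ range r, Vl l := ⟨_, rfl⟩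
  have hV₀0 : 0 ≤ V₀ := by rw [hV₀]; exact Finset.sum_nonneg fun l _ => hV0 l
  have hVl : ∀ l < r, Vl l ≤ V₀ := fun l hl => by
    rw [hV₀]
    exact Finset.single_le_sum (f := Vl) (fun l _ => hV0 l) (mem_range.2 hl)
  have hgr : ∀ l < r, ∀ o : ℝ, 0 < o → o < o₀ →
      β₀ l (a + o) (w + o) ≤ β₀ l a w + V₀ * o := fun l hl o h1 h2 => by
    have h3 := hup' l hl o h1 (h2.trans_le (ho₁ l hl))
    have h4 := mul_le_mul_of_nonneg_right (hVl l hl) h1.le
    linarith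
  obtain ⟨σ, hσ, hσl⟩ := fin_pos r (f := fun l => 1 - (β₀ l a w + X l)) fun l hl => by
    linarith [hvis₀ l hl]
  obtain ⟨V, hV⟩ : ∃ V : ℕ, V = ⌈16 * V₀⌉₊ + 4 := ⟨_, rfl⟩
  have hVr : 16 * V₀ + 4 ≤ (V : ℝ) := by
    rw [hV]
    push_cast
    have := Nat.le_ceil (16 * V₀)
    linarith
  obtain ⟨o', ho'⟩ : ∃ o' : ℝ, o' = min (o₀ / 4) (min ((1 - a) / 4) (σ / (8 * (V₀ + 1)))) :=
    ⟨_, rfl⟩
  have ho'0 : 0 < o' := by
    rw [ho']
    exact lt_min (by positivity) (lt_min (by linarith) (by positivity))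
  have ho'1 : o' ≤ o₀ / 4 := by rw [ho']; exact min_le_left _ _
  have ho'2 : o' ≤ (1 - a) / 4 := by rw [ho']; exact (min_le_right _ _).trans (min_le_left _ _)
  have ho'3 : 8 * V₀ * o' ≤ σ := by
    have h1 : o' ≤ σ / (8 * (V₀ + 1)) := by
      rw [ho']; exact (min_le_right _ _).trans (min_le_right _ _)
    rw [le_div_iff₀ (by positivity)] at h1
    nlinarith
  obtain ⟨σ₂, hσ₂⟩ : ∃ σ₂, σ₂ = θ * w - e₀ - 2 * vs := ⟨_, rfl⟩
  have hσ₂0 : 0 < σ₂ := by rw [hσ₂]; linarith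
  obtain ⟨εh, hεh⟩ : ∃ εh : ℝ, εh = min (η / 8) (min (o' / 8) (min (σ / (8 * (V + 10)))
    (min (σ₂ / 32) (a / 32)))) := ⟨_, rfl⟩
  have hε0 : 0 < εh := by
    rw [hεh]
    exact lt_min (by positivity) (lt_min (by positivity) (lt_min (by positivity)
      (lt_min (by positivity) (by positivity))))
  have hε1 : εh ≤ η / 8 := by rw [hεh]; exact min_le_left _ _
  have hε2 : εh ≤ o' / 8 := by rw [hεh]; exact (min_le_right _ _).trans (min_le_left _ _)
  have hε3 : 8 * (V + 10) * εh ≤ σ := by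
    have h1 : εh ≤ σ / (8 * (V + 10)) := by
      rw [hεh]
      exact (min_le_right _ _).trans ((min_le_right _ _).trans (min_le_left _ _))
    rw [le_div_iff₀ (by positivity)] at h1
    linarith
  have hε4 : εh ≤ σ₂ / 32 := by
    rw [hεh]
    exact (min_le_right _ _).trans ((min_le_right _ _).trans ((min_le_right _ _).trans
      (min_le_left _ _)))
  have hε5 : εh ≤ a / 32 := by
    rw [hεh]
    exact (min_le_right _ _).trans ((min_le_right _ _).trans ((min_le_right _ _).trans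
      (min_le_right _ _)))
  have hV0' : (0 : ℝ) ≤ V := Nat.cast_nonneg V
  have hZ1 : ∀ T : ℕ, (1 : ℝ) ≤ Zf V D r T := fun T => by exact_mod_cast one_le_Zf V D r T
  refine ⟨fun _ n => εh / (Zf V D r (r + D + 1 + n) : ℝ) ^ r, fun _ n => by
    have := hZ1 (r + D + 1 + n)
    positivity, ?_⟩
  intro K d hd η' hη'
  have hi : jt + 1 ≤ r := hr.ge
  obtain ⟨eps, heps⟩ : ∃ eps : ℕ → ℝ, eps = epf V D r (jt + 1) K εh := ⟨_, rfl⟩
  obtain ⟨T, hT⟩ : ∃ T : ℕ → ℕ, T = fun j => r + D + 1 + ∑ l' ∈ Finset.Ioo j (jt + 1), K l' := ⟨_, rfl⟩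
  have hep0 : ∀ j, 0 < eps j := fun j => by rw [heps]; exact epf_pos hε0 j
  have hepi : eps (jt + 1) = εh := by rw [heps]; exact epf_self
  have heple : ∀ j ≤ jt + 1, eps j ≤ εh := fun j hj => by rw [heps]; exact epf_le hε0 hj
  have hepm : ∀ j l, j < l → l ≤ jt + 1 → eps j * Zf V D r (T j) ≤ eps l := fun j l h1 h2 => by
    rw [heps, hT]; exact epf_mul hε0 h1 h2
  have hd0 : ∀ l < jt + 1, 0 < d l := fun l hl => (hd l hl).1
  have hdle : ∀ l < jt + 1, d l ≤ eps l := by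
    intro l hl
    refine (hd l hl).2.trans ?_
    rw [heps]
    unfold epf
    refine div_le_div_of_nonneg_left hε0.le (by
      have := hZ1 (r + D + 1 + ∑ l' ∈ Finset.Ioo l (jt + 1), K l')
      positivity) (pow_le_pow_right₀ (hZ1 _) (by omega))
  have hT1 : ∀ j, 1 ≤ T j := fun j => by rw [hT]; show 1 ≤ r + D + 1 + _; omega
  have hdg : ∀ j l, j < l → l ≤ jt + 1 → dgp K j l ≤ T j ^ r := fun j l _ hl =>
    dgp_le' K hl hi (by rw [hT]; show _ ≤ r + D + 1 + _; omega)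
  have hKT : ∀ j l, j < l → l < jt + 1 → K l ≤ T j := fun j l h1 h2 => by
    have : K l ≤ ∑ l' ∈ Finset.Ioo j (jt + 1), K l' :=
      Finset.single_le_sum (f := K) (fun _ _ => Nat.zero_le _) (Finset.mem_Ioo.2 ⟨h1, h2⟩)
    rw [hT]
    show K l ≤ r + D + 1 + _
    omega
  have hDT : ∀ j, D ≤ T j := fun j => by rw [hT]; show D ≤ r + D + 1 + _; omega
  -- the sums of the losses
  have hloss : ∀ j l k, j < l → l ≤ jt + 1 → k ≤ T j →
      12 * (r + 1) * (eps j * (k * dgp K j l : ℕ)) ≤ eps l := by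
    intro j l k h1 h2 h3
    have h4 : k * dgp K j l ≤ T j ^ (r + 1) := by
      calc k * dgp K j l ≤ T j * T j ^ r := Nat.mul_le_mul h3 (hdg j l h1 h2)
        _ = _ := by rw [pow_succ]; ring
    have h5 : 12 * (r + 1) * (k * dgp K j l) ≤ Zf V D r (T j) := by
      unfold Zf
      calc 12 * (r + 1) * (k * dgp K j l) ≤ 12 * (r + 1) * T j ^ (r + 1) :=
            Nat.mul_le_mul_left _ h4
        _ ≤ _ := Nat.le_add_left _ _
    have h6 : 12 * ((r : ℝ) + 1) * ((k * dgp K j l : ℕ) : ℝ) ≤ Zf V D r (T j) := by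
      exact_mod_cast h5
    refine le_trans ?_ (hepm j l h1 h2)
    calc 12 * ((r : ℝ) + 1) * (eps j * ((k * dgp K j l : ℕ) : ℝ)) =
          eps j * (12 * (r + 1) * ((k * dgp K j l : ℕ) : ℝ)) := by ring
      _ ≤ _ := mul_le_mul_of_nonneg_left h6 (hep0 j).le
  obtain ⟨κ, N, Kn, hκ1, hrel⟩ := relv_top V D jt K
  obtain ⟨εm, hεm, hεml⟩ := fin_pos ((jt + 1) + 1) (f := eps) fun k _ => hep0 k
  obtain ⟨εt, hεt⟩ : ∃ εt : ℝ, εt = εm / (4 * (κ + 1)) := ⟨_, rfl⟩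
  have hεt0 : 0 < εt := by rw [hεt]; positivity
  have hεtκ : κ * εt ≤ εm / 4 := by
    have h1 : 4 * (κ + 1) * εt = εm := by rw [hεt]; field_simp
    linarith
  -- the grid
  obtain ⟨km, hkm⟩ := exists_pow_lt_of_lt_one (show 0 < 2 * εm / o' by positivity)
    (show (1 / 2 : ℝ) < 1 by norm_num)
  have hgrid : ∀ k : ℕ, ∃ a' w' : ℚ, w + o' * (1 / 2) ^ k < w' ∧
      (w' : ℝ) < w + 3 / 2 * (o' * (1 / 2) ^ k) ∧ a + 3 / 2 * (o' * (1 / 2) ^ k) < a' ∧
      (a' : ℝ) < a + 2 * (o' * (1 / 2) ^ k) := by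
    intro k
    have h1 : 0 < o' * (1 / 2 : ℝ) ^ k := by positivity
    obtain ⟨w', h2, h3⟩ := exists_rat_btwn (show w + o' * (1 / 2) ^ k <
      w + 3 / 2 * (o' * (1 / 2) ^ k) by linarith)
    obtain ⟨a', h4, h5⟩ := exists_rat_btwn (show a + 3 / 2 * (o' * (1 / 2) ^ k) <
      a + 2 * (o' * (1 / 2) ^ k) by linarith)
    exact ⟨a', w', h2, h3, h4, h5⟩
  choose a' w' hw'1 hw'2 ha'1 ha'2 using hgrid
  have hok : ∀ k, 0 < o' * (1 / 2 : ℝ) ^ k ∧ o' * (1 / 2 : ℝ) ^ k ≤ o' := fun k =>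
    ⟨by positivity, mul_le_of_le_one_right ho'0.le (pow_le_one₀ (by norm_num) (by norm_num))⟩
  have hbk : ∀ k, ∀ l < r, β₀ l (a' k) (w' k) ≤
      β₀ l a w + V₀ * (2 * (o' * (1 / 2) ^ k)) := by
    intro k l hl
    obtain ⟨h1, h2⟩ := hok k
    refine le_trans ?_ (hgr l hl (2 * (o' * (1 / 2) ^ k)) (by linarith) (by linarith))
    exact (hlaw l).mono (by linarith [hw'1 k]) (by linarith [hw'2 k, ha'1 k])
      (ha'2 k).le (by linarith [hw'2 k]) (by linarith) (by linarith)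
  have hκ' : 0 < η' / ((N : ℝ) + 1) := by positivity
  have hno := Bas.all (S := S) km (Φ := fun k J F A => ∀ l < jt + 1, ∀ B : F.Ω → Prop, Sub B A →
      η' / ((N : ℝ) + 1) * Pe F.p A ≤ Pe F.p B → ∀ (a₀ w₀ e₁ : ℕ) (g : ℕ → ℕ), w₀ ≤ a₀ →
      a₀ ≤ ⌊(a' k : ℝ) * J⌋₊ → w₀ ≤ ⌊(w' k : ℝ) * J⌋₊ → (l < jt → e₁ ≤ ⌊θ * w * J⌋₊) → (∀ l' ≤ l, g l' ≤ J) →
      ⌊(β₀ l (a' k) (w' k) + eps l) * J⌋₊ + a₀ ≤ g l + ⌊(a' k : ℝ) * J⌋₊ →
      ¬ ChN F c (l + 1) (fun _ => Kn) a₀ w₀ e₁ g B) fun k _ =>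
    Bas.all (S := S) (jt + 1) (Φ := fun l J F A => ∀ B : F.Ω → Prop, Sub B A →
      η' / ((N : ℝ) + 1) * Pe F.p A ≤ Pe F.p B → ∀ (a₀ w₀ e₁ : ℕ) (g : ℕ → ℕ), w₀ ≤ a₀ →
      a₀ ≤ ⌊(a' k : ℝ) * J⌋₊ → w₀ ≤ ⌊(w' k : ℝ) * J⌋₊ → (l < jt → e₁ ≤ ⌊θ * w * J⌋₊) → (∀ l' ≤ l, g l' ≤ J) →
      ⌊(β₀ l (a' k) (w' k) + eps l) * J⌋₊ + a₀ ≤ g l + ⌊(a' k : ℝ) * J⌋₊ →
      ¬ ChN F c (l + 1) (fun _ => Kn) a₀ w₀ e₁ g B) fun l hl => by
    obtain ⟨h1, h2⟩ := hok k
    have h3 : (0 : ℝ) ≤ w' k := by linarith [hw'1 k]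
    have h4 : (w' k : ℝ) ≤ a' k := by linarith [hw'2 k, ha'1 k]
    have h5 : (a' k : ℝ) ≤ 1 := by linarith [ha'2 k]
    have hb1 : β₀ l (a' k) (w' k) + eps l ≤ 1 := ?_
    · rcases Nat.lt_or_ge l jt with hlt | hlt
      · have e1 : bet P c l (a' k) (w' k) = β₀ l (a' k) (w' k) := by rw [hβV l hlt]
        refine Bas.mono 0 (bas_ev (no_unif hP c l (fun _ => Kn) (a' k) (w' k) (θ * w) (eps l)
          (by exact_mod_cast h3) (by exact_mod_cast h4) (by exact_mod_cast h5)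
          (mul_lt_mul_of_pos_left (by linarith [hw'1 k]) hθ) (hep0 l)
          (by rw [e1]; exact hb1)) hκ') ?_
        rintro J - F A hA B q1 q2 a₀ w₀ e₁ g q3 q4 q5 q6 q7 q8
        rw [e1] at hA
        exact hA B q1 q2 a₀ w₀ e₁ g q3 q4 q5 (q6 hlt) q7 q8
      · have e0 : l = jt := by omega
        subst e0
        have e1 : PT () (a' k) (w' k) = β₀ l (a' k) (w' k) := by rw [hβT]
        refine Bas.mono 0 (bas_ev (no_unifT hPT hc Kn (a' k) (w' k) (eps l)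
          (by exact_mod_cast h3) (by exact_mod_cast h4) (by exact_mod_cast h5) (hep0 l)
          (by rw [e1]; exact hb1)) hκ') ?_
        rintro J - F A hA B q1 q2 a₀ w₀ e₁ g q3 q4 q5 q6 q7 q8
        rw [e1] at hA
        exact hA B q1 q2 a₀ w₀ e₁ g q3 q4 q5 q7 q8
    have h6 := hbk k l (by omega)
    have h7 := hσl l (by omega)
    have h8 := heple l hl.le
    have h9 : V₀ * (2 * (o' * (1 / 2) ^ k)) ≤ σ / 4 := by
      have := mul_le_mul_of_nonneg_left h2 hV₀0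
      linarith
    have h10 := hX0 l
    have h11 : 0 ≤ V * εh := by positivity
    linarith
  have htm := bas_ev (hS.2 (εt / 4) (by positivity)) hκ'
  obtain ⟨J₁, hJ₁⟩ := big ((κ : ℝ) + 10) (show 0 < εm / 8 by positivity)
  obtain ⟨J₂, hJ₂⟩ := big (8 : ℝ) (show 0 < εt / 4 by positivity)
  refine Bas.mono (max J₁ J₂) (hno.and htm) ?_
  rintro J hJ F A ⟨hnoJ, htmJ⟩ G H hLV hL Dx Dl N₀ k1 k2 k3 k4 k5 k6
  have hJ1 := hJ₁ J (le_trans (le_max_left _ _) hJ)
  have hJ2 := hJ₂ J (le_trans (le_max_right _ _) hJ)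
  have hJ0 : (0 : ℝ) ≤ J := Nat.cast_nonneg J
  have hJp : (0 : ℝ) < J := by
    rcases hJ0.lt_or_eq with h | h
    · exact h
    · rw [← h] at hJ2; norm_num at hJ2
  have hκr : (1 : ℝ) ≤ κ := by exact_mod_cast hκ1
  have hJm : ∀ j ≤ jt + 1, (κ : ℝ) + 10 ≤ eps j / 8 * J := fun j hj =>
    hJ1.trans (mul_le_mul_of_nonneg_right (by linarith [hεml j (by omega)]) hJ0)
  obtain ⟨β, hβ⟩ : ∃ β : ℕ → ℝ, β = fun l => β₀ l a w := ⟨_, rfl⟩
  obtain ⟨g, hg⟩ : ∃ g : ℕ → ℕ, g = fun l => ⌊(β₀ l a w - d l) * J⌋₊ := ⟨_, rfl⟩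
  have hgg : (fun l => ⌊(lvT P c jt (PT ()) l a w - d l) * (J : ℝ)⌋₊) = g := by
    rw [hg, hβ₀]
    funext l
    unfold lvT
    dsimp only
    split_ifs <;> rfl
  rw [hgg] at hLV hL k6
  rw [hgg]
  obtain ⟨E, hE⟩ : ∃ E : ℕ → ℕ, E = fun n => if n = 0 then ⌊εt * J⌋₊ else ⌊eps (n - 1) * J⌋₊ :=
    ⟨_, rfl⟩
  have hE0 : E 0 = ⌊εt * J⌋₊ := by rw [hE]; simp
  have hEs : ∀ n, E (n + 1) = ⌊eps n * J⌋₊ := fun n => by rw [hE]; simp
  have hEle : ∀ n, (E (n + 1) : ℝ) ≤ eps n * J := fun n => by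
    rw [hEs]
    exact Nat.floor_le (mul_nonneg (hep0 n).le hJ0)
  have hEge : ∀ n, eps n * J - 1 ≤ (E (n + 1) : ℝ) := fun n => by
    rw [hEs]
    linarith [Nat.lt_floor_add_one (eps n * J)]
  obtain ⟨x, hx⟩ := rec_sum (fun l => E (l + 1) + κ) (fun j l => K l * dgp K j l) (jt + 1)
  have hxle : ∀ l < jt + 1, (x l : ℝ) ≤ 2 * eps l * J := by
    intro l
    induction l using Nat.strong_induction_on with
    | _ l ih =>
      intro hl
      have h1 : (x l : ℝ) = E (l + 1) + κ + ∑ j ∈ range l, (x j : ℝ) * (K l * dgp K j l : ℕ) := by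
        rw [hx l hl]
        push_cast
        ring
      have h2 : ∀ j ∈ range l, (x j : ℝ) * (K l * dgp K j l : ℕ) ≤ eps l * J / (6 * (r + 1)) := by
        intro j hj
        rw [mem_range] at hj
        have h3 := ih j hj (hj.trans hl)
        have h4 := hloss j l (K l) hj hl.le (hKT j l hj hl)
        rw [le_div_iff₀ (by positivity)]
        have h5 := mul_le_mul_of_nonneg_right h4 hJ0
        have h6 := mul_le_mul_of_nonneg_right h3
          (show (0 : ℝ) ≤ ((K l * dgp K j l : ℕ) : ℝ) * (6 * (r + 1)) by positivity)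
        linarith
      have h3 := Finset.sum_le_sum h2
      rw [Finset.sum_const, card_range, nsmul_eq_mul] at h3
      have h4 : (l : ℝ) * (eps l * J / (6 * (r + 1))) ≤ eps l * J / 6 := by
        rw [mul_div_assoc', div_le_div_iff₀ (by positivity) (by norm_num)]
        have h5 : (l : ℝ) ≤ r + 1 := by
          have : l ≤ r + 1 := by omega
          exact_mod_cast this
        have h6 : 0 ≤ eps l * J := mul_nonneg (hep0 l).le hJ0
        have := mul_le_mul_of_nonneg_right h5 h6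
        linarith
      have h5 := hEle l
      have h6 := hJm l hl.le
      have h7 : 0 ≤ eps l * J := mul_nonneg (hep0 l).le hJ0
      rw [h1]
      linarith
  have hβa : ∀ l, a ≤ β l := fun l => by rw [hβ]; exact hlow l a w hw.le hwa ha.le
  have hβ1 : ∀ l, β l ≤ 1 := fun l => by rw [hβ]; exact hupp l a w hw.le hwa ha.le
  have hgβ : ∀ l, g l = ⌊(β l - d l) * J⌋₊ := fun l => by rw [hg, hβ]
  have hglb : ∀ l, (β l - d l) * J - 1 ≤ (g l : ℝ) := fun l => by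
    rw [hgβ]
    linarith [Nat.lt_floor_add_one ((β l - d l) * J)]
  have hgub : ∀ l < jt + 1, (g l : ℝ) ≤ (β l - d l) * J := fun l hl => by
    rw [hgβ]
    refine Nat.floor_le (mul_nonneg ?_ hJ0)
    linarith [hβa l, hdle l hl, heple l hl.le]
  have hxg : ∀ l < jt + 1, x l ≤ g l := by
    intro l hl
    have h1 := hxle l hl
    have h2 := hglb l
    have h3 := hdle l hl
    have h4 := heple l hl.le
    have h5 := hJm l hl.le
    have h6 := hβa l
    have h7 : (a - 1 / 32 * a) * J ≤ (β l - d l) * J :=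
      mul_le_mul_of_nonneg_right (by linarith) hJ0
    have h8 : eps l * J ≤ a / 32 * J := mul_le_mul_of_nonneg_right (by linarith) hJ0
    have h9 : 0 ≤ a * J := mul_nonneg ha0.le hJ0
    have h10 : (x l : ℝ) ≤ g l := by linarith
    exact_mod_cast h10
  obtain ⟨q, hq⟩ : ∃ q : ℕ → ℕ, q = fun l => g l - x l := ⟨_, rfl⟩
  have hql : ∀ l < jt + 1, q l + x l = g l := fun l hl => by
    rw [hq]
    have := hxg l hl
    show g l - x l + x l = g l
    omega
  have hgls : ∀ l < jt + 1, E (l + 1) + κ + gls K g q l = x l := by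
    intro l hl
    rw [hx l hl]
    unfold gls
    congr 1
    refine Finset.sum_congr rfl fun j hj => ?_
    have := hql j ((mem_range.1 hj).trans hl)
    congr 1
    omega
  -- the bad event
  by_contra hcon
  have hbad : ∃ B : F.Ω → Prop, B = fun ω => A ω ∧ ∀ b, NBx c (G (ptr F J ω)) g ⌊a * J⌋₊ (F.t ω) (jt + 1) b →
      |eval b (Dx (ptr F J ω))| ≤ 2 ^ ⌊η * J⌋₊ / 2 ^ N₀ := ⟨_, rfl⟩
  obtain ⟨B₀, hB₀⟩ := hbad
  have hB₀A : Sub B₀ A := fun ω hω => by rw [hB₀] at hω; exact hω.1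
  have hB₀P : Pe F.p B₀ < (1 - η') * Pe F.p A := by
    by_contra h
    push Not at h
    exact hcon ⟨B₀, hB₀A, h, fun ω hω => by rw [hB₀] at hω; exact hω.2⟩
  obtain ⟨A', hA'⟩ : ∃ A' : F.Ω → Prop, A' = fun ω => A ω ∧ ¬ B₀ ω := ⟨_, rfl⟩
  have hA'A : Sub A' A := fun ω hω => by rw [hA'] at hω; exact hω.1
  have hA'P : η' * Pe F.p A < Pe F.p A' := by
    have h1 := pe_split F.p hB₀A
    rw [← hA'] at h1
    linarith
  have hPA0 : 0 ≤ Pe F.p A := Pe_nonneg F.isLaw A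
  have hA'0 : 0 < Pe F.p A' := lt_of_le_of_lt (mul_nonneg hη'.le hPA0) hA'P
  have hlow' : ∀ ω, A' ω → ∃ b, NBx c (G (ptr F J ω)) g ⌊a * J⌋₊ (F.t ω) (jt + 1) b ∧
      2 ^ ⌊η * J⌋₊ / 2 ^ N₀ ≤ |eval b (Dx (ptr F J ω))| := by
    intro ω hω
    rw [hA'] at hω
    by_contra h
    push Not at h
    refine hω.2 ?_
    rw [hB₀]
    exact ⟨hω.1, fun b hb => (h b hb).le⟩
  have hNB : ∀ B : F.Ω → Prop, Pe F.p A' ≤ N * Pe F.p B →
      η' / ((N : ℝ) + 1) * Pe F.p A ≤ Pe F.p B := by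
    intro B hB
    rw [div_mul_eq_mul_div, div_le_iff₀ (by positivity)]
    have h1 : 0 ≤ Pe F.p B := Pe_nonneg F.isLaw B
    nlinarith
  -- the numbers
  obtain ⟨e₁, he₁⟩ : ∃ e₁ : ℕ, e₁ = ⌊e₀ * J⌋₊ + (⌊(vs + εh) * J⌋₊ + 1) + ⌊εh * J⌋₊ := ⟨_, rfl⟩
  obtain ⟨e', he'⟩ : ∃ e' : ℕ, e' = e₁ + E (jt + 1 + 1) + (⌊(vs + εh) * J⌋₊ + 1) + ⌊2 * εh * J⌋₊ :=
    ⟨_, rfl⟩
  obtain ⟨f₁, hf₁⟩ : ∃ f₁ : ℕ, f₁ = ⌊E₀ * J⌋₊ + (⌊(vT + vs + εh) * J⌋₊ + 1) + ⌊εh * J⌋₊ :=
    ⟨_, rfl⟩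
  obtain ⟨f', hf'⟩ : ∃ f' : ℕ, f' = f₁ + E (jt + 1 + 1) + (⌊(vT + vs + εh) * J⌋₊ + 1) +
      ⌊2 * εh * J⌋₊ := ⟨_, rfl⟩
  have hf1 : (⌊e₀ * J⌋₊ : ℝ) ≤ e₀ * J := Nat.floor_le (mul_nonneg he₀ hJ0)
  have hf2 : (⌊(vs + εh) * J⌋₊ : ℝ) ≤ (vs + εh) * J :=
    Nat.floor_le (mul_nonneg (by linarith) hJ0)
  have hf3 : (⌊εh * J⌋₊ : ℝ) ≤ εh * J := Nat.floor_le (mul_nonneg hε0.le hJ0)
  have hf4 : (⌊2 * εh * J⌋₊ : ℝ) ≤ 2 * εh * J := Nat.floor_le (mul_nonneg (by linarith) hJ0)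
  have hf5 : (⌊a * J⌋₊ : ℝ) ≤ a * J := Nat.floor_le (mul_nonneg ha0.le hJ0)
  have hf6 : (⌊w * J⌋₊ : ℝ) ≤ w * J := Nat.floor_le (mul_nonneg hw.le hJ0)
  have hEi := hEle (jt + 1)
  rw [hepi] at hEi
  have hJi := hJm (jt + 1) le_rfl
  rw [hepi] at hJi
  have hf7 : (⌊E₀ * J⌋₊ : ℝ) ≤ E₀ * J := Nat.floor_le (mul_nonneg hE₀ hJ0)
  have hf8 : (⌊(vT + vs + εh) * J⌋₊ : ℝ) ≤ (vT + vs + εh) * J :=
    Nat.floor_le (mul_nonneg (by linarith) hJ0)
  have hf₁r : (f₁ : ℝ) ≤ (E₀ + (vT + vs) + 2 * εh) * J + 1 := by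
    rw [hf₁]
    push_cast
    linarith
  have he₁r : (e₁ : ℝ) ≤ (e₀ + vs + 2 * εh) * J + 1 := by
    rw [he₁]
    push_cast
    linarith
  have he'r : (e' : ℝ) ≤ (e₀ + 2 * vs + 6 * εh) * J + 2 := by
    rw [he']
    push_cast
    linarith
  have hgdT : ∀ l' ≤ jt, g l' ≤ g jt + (⌊(vT + vs + εh) * J⌋₊ + 1) := by
    intro l' hl'
    rcases hl'.lt_or_eq with h | h
    · have h1 := hsrtT l' h
      have h2 := hgub l' (by omega)
      have h3 := hglb jt
      have h4 := hdle jt (Nat.lt_succ_self jt)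
      have h5 := heple jt (Nat.le_succ jt)
      have h6 : (β l' - d l') * J ≤ (β jt - d jt + (vT + vs + εh)) * J := by
        refine mul_le_mul_of_nonneg_right ?_ hJ0
        have := hd0 l' (by omega)
        rw [hβ]
        show β₀ l' a w - d l' ≤ β₀ jt a w - d jt + (vT + vs + εh)
        rw [hβV l' h, hβT]
        linarith
      have h7 : (g l' : ℝ) < (g jt : ℝ) + ⌊(vT + vs + εh) * J⌋₊ + 2 := by
        linarith [Nat.lt_floor_add_one ((vT + vs + εh) * J)]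
      have h8 : g l' < g jt + ⌊(vT + vs + εh) * J⌋₊ + 2 := by exact_mod_cast h7
      omega
    · subst h
      omega
  have hff : ⌊(vs + εh) * (J : ℝ)⌋₊ ≤ ⌊(vT + vs + εh) * (J : ℝ)⌋₊ :=
    Nat.floor_le_floor (mul_le_mul_of_nonneg_right (by linarith) hJ0)
  have hgd : ∀ l < jt, ∀ l' ≤ l, g l' ≤ g l + (⌊(vs + εh) * J⌋₊ + 1) := by
    intro l hl l' hl'
    rcases hl'.lt_or_eq with h | h
    · have h1 := hsrt l (by omega) l' h
      have h2 := hgub l' (by omega)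
      have h3 := hglb l
      have h4 := hdle l (by omega)
      have h5 := heple l (by omega)
      have h6 : (β l' - d l') * J ≤ (β l - d l + (vs + εh)) * J := by
        refine mul_le_mul_of_nonneg_right ?_ hJ0
        have := hd0 l' (by omega)
        rw [hβ]
        show β₀ l' a w - d l' ≤ β₀ l a w - d l + (vs + εh)
        rw [hβV l' (by omega), hβV l hl]
        linarith
      have h7 : (g l' : ℝ) < (g l : ℝ) + ⌊(vs + εh) * J⌋₊ + 2 := by
        linarith [Nat.lt_floor_add_one ((vs + εh) * J)]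
      have h8 : g l' < g l + ⌊(vs + εh) * J⌋₊ + 2 := by exact_mod_cast h7
      omega
    · subst h
      omega
  have hnoAll : ∀ l < jt + 1, ∀ μ, E (l + 1) ≤ μ → μ ≤ E (jt + 1 + 1) → ∀ B : F.Ω → Prop,
      Sub B A' → Pe F.p A' ≤ N * Pe F.p B → ∀ e'' : ℕ, (l < jt → e'' ≤ e') →
      ¬ ChN F c (l + 1) (fun _ => Kn) (⌊a * J⌋₊ + 4 * μ) (⌊w * J⌋₊ + 4 * μ) e''
        (fun l' => if l' < l then q l' + 4 * μ else q l + E (l + 1) + V * μ) B := by
    intro l hl μ hμ1 hμ2 B hB hPB e'' he'' hch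
    have hlr : l < r := by omega
    have hEl := hEge l
    have hJl := hJm l hl.le
    have hel : εm ≤ eps l := hεml l (by omega)
    have hμr1 : eps l * J - 1 ≤ (μ : ℝ) := hEl.trans (by exact_mod_cast hμ1)
    have hμr2 : (μ : ℝ) ≤ εh * J := (show (μ : ℝ) ≤ E (jt + 1 + 1) by exact_mod_cast hμ2).trans hEi
    have hμ0 : (0 : ℝ) < μ := by
      have : 0 ≤ eps l * J := mul_nonneg (hep0 l).le hJ0
      linarith
    obtain ⟨t, ht⟩ : ∃ t : ℝ, t = 4 * μ / (J * o') := ⟨_, rfl⟩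
    have hJo : 0 < J * o' := mul_pos hJp ho'0
    have ht' : t * (J * o') = 4 * μ := by rw [ht]; field_simp
    have ht0 : 0 < t := by rw [ht]; positivity
    have ht1 : t ≤ 1 := by
      rw [ht, div_le_one hJo]
      have h1 : εh * J ≤ o' / 8 * J := mul_le_mul_of_nonneg_right hε2 hJ0
      have h2 : 0 ≤ o' * J := by positivity
      linarith
    obtain ⟨k, hk1, hk2⟩ := exists_nat_pow_near_of_lt_one ht0 ht1
      (show (0 : ℝ) < 1 / 2 by norm_num) (by norm_num)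
    have hkm' : k < km := by
      by_contra h
      push Not at h
      have h1 : (1 / 2 : ℝ) ^ k ≤ (1 / 2) ^ km :=
        pow_le_pow_of_le_one (by norm_num) (by norm_num) h
      have h2 : 2 * εm / o' ≤ t := by
        rw [ht, div_le_div_iff₀ ho'0 hJo]
        have h3 : εm * J ≤ eps l * J := mul_le_mul_of_nonneg_right hel hJ0
        have h4 : 2 * (εm * J) ≤ 4 * μ := by linarith
        calc 2 * εm * (J * o') = 2 * (εm * J) * o' := by ring
          _ ≤ 4 * μ * o' := mul_le_mul_of_nonneg_right h4 ho'0.le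
      linarith
    obtain ⟨ok, hokd⟩ : ∃ ok : ℝ, ok = o' * (1 / 2) ^ k := ⟨_, rfl⟩
    have hk3 : 4 * (μ : ℝ) ≤ ok * J := by
      have h1 := mul_le_mul_of_nonneg_right hk2 hJo.le
      rw [ht'] at h1
      rw [hokd]
      linarith
    have hk4 : ok * J ≤ 8 * μ := by
      have h1 := mul_le_mul_of_nonneg_right hk1.le hJo.le
      rw [ht', pow_succ] at h1
      rw [hokd]
      linarith
    have h1 := hbk k l hlr
    have h2 := hw'1 k
    have h3 := ha'1 k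
    have h4 := ha'2 k
    have h5 := hw'2 k
    rw [← hokd] at h1 h2 h3 h4 h5
    have hok0 : 0 < ok := by rw [hokd]; positivity
    have hql1 := hql l hl
    have hgl := hglb l
    have hgl' := hgub l hl
    have hdl := hdle l hl
    have hxl := hxle l hl
    have hqr : (q l : ℝ) = g l - x l := by
      have : (q l : ℝ) + x l = g l := by exact_mod_cast hql1
      linarith
    refine hnoJ k hkm' l hl B (fun ω hω => hA'A ω (hB ω hω)) (hNB B hPB) _ _ _ _ ?_ ?_ ?_ ?_ ?_ ?_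
      hch
    · exact Nat.add_le_add_right (Nat.floor_mono (mul_le_mul_of_nonneg_right hwa hJ0)) _
    · refine Nat.le_floor ?_
      push_cast
      have : (a + 3 / 2 * ok) * J ≤ a' k * J := mul_le_mul_of_nonneg_right h3.le hJ0
      linarith
    · refine Nat.le_floor ?_
      push_cast
      have : (w + ok) * J ≤ w' k * J := mul_le_mul_of_nonneg_right h2.le hJ0
      linarith
    · intro hlt
      refine (he'' hlt).trans (Nat.le_floor (he'r.trans ?_))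
      have h6 : (e₀ + 2 * vs + 6 * εh + 1 * εh) * J ≤ θ * w * J := by
        refine mul_le_mul_of_nonneg_right ?_ hJ0
        linarith
      linarith
    · intro l' hl'
      have h6 : ∀ l₁ < jt + 1, (q l₁ : ℝ) ≤ (1 - σ) * J := by
        intro l₁ hl₁
        have h7 := hσl l₁ (by omega)
        have h8 := hql l₁ hl₁
        have h9 : (q l₁ : ℝ) ≤ g l₁ := by
          have : q l₁ ≤ g l₁ := by omega
          exact_mod_cast this
        have h10 := hgub l₁ hl₁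
        have h11 : (β l₁ - d l₁) * J ≤ (1 - σ) * J := by
          refine mul_le_mul_of_nonneg_right ?_ hJ0
          have := hd0 l₁ hl₁
          have h12 := hX0 l₁
          rw [hβ]
          show β₀ l₁ a w - d l₁ ≤ 1 - σ
          linarith
        linarith
      have h7 : (V + 10) * εh * J ≤ σ * J := by
        refine mul_le_mul_of_nonneg_right ?_ hJ0
        have : 0 ≤ (V + 10) * εh := by positivity
        linarith
      have h8 : (V : ℝ) * μ ≤ V * (εh * J) := mul_le_mul_of_nonneg_left hμr2 hV0'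
      have h9 : 0 ≤ V * (εh * J) := by positivity
      have h10 : (E (l + 1) : ℝ) ≤ εh * J :=
        (hEle l).trans (mul_le_mul_of_nonneg_right (heple l hl.le) hJ0)
      show (if l' < l then q l' + 4 * μ else q l + E (l + 1) + V * μ) ≤ J
      split_ifs with h
      · have h11 := h6 l' (by omega)
        have h12 : (q l' : ℝ) + 4 * μ ≤ J := by linarith
        exact_mod_cast h12
      · have h11 := h6 l hl
        have h12 : (q l : ℝ) + E (l + 1) + V * μ ≤ J := by linarith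
        exact_mod_cast h12
    · show ⌊(β₀ l (a' k) (w' k) + eps l) * J⌋₊ + (⌊a * J⌋₊ + 4 * μ) ≤
        (if l < l then q l + 4 * μ else q l + E (l + 1) + V * μ) + ⌊(a' k : ℝ) * J⌋₊
      rw [if_neg (lt_irrefl l)]
      have hb0 : 0 ≤ β₀ l (a' k) (w' k) := by
        have h6 : (0 : ℝ) ≤ w' k := by linarith
        have h7 : (w' k : ℝ) ≤ a' k := by linarith
        have h8 : (a' k : ℝ) ≤ 1 := by linarith [(hok k).2, hokd]
        exact (by linarith : (0 : ℝ) ≤ a' k).trans (hlow l _ _ h6 h7 h8)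
      have h6 : (⌊(β₀ l (a' k) (w' k) + eps l) * J⌋₊ : ℝ) ≤
          (β₀ l (a' k) (w' k) + eps l) * J :=
        Nat.floor_le (mul_nonneg (add_nonneg hb0 (hep0 l).le) hJ0)
      have h7 : (β₀ l (a' k) (w' k) + eps l) * J ≤ (β l + V₀ * (2 * ok) + eps l) * J := by
        refine mul_le_mul_of_nonneg_right ?_ hJ0
        rw [hβ]
        show _ ≤ β₀ l a w + V₀ * (2 * ok) + eps l
        linarith
      have h8 : V₀ * (ok * J) ≤ V₀ * (8 * μ) := mul_le_mul_of_nonneg_left hk4 hV₀0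
      have h9 : (16 * V₀ + 4) * (μ : ℝ) ≤ V * μ := mul_le_mul_of_nonneg_right hVr hμ0.le
      have h10 := Nat.lt_floor_add_one ((a' k : ℝ) * J)
      have h11 : (a + 3 / 2 * ok) * J ≤ a' k * J := mul_le_mul_of_nonneg_right h3.le hJ0
      have h12 : d l * J ≤ eps l * J := mul_le_mul_of_nonneg_right hdl hJ0
      have h13 : ((⌊(β₀ l (a' k) (w' k) + eps l) * J⌋₊ + (⌊a * J⌋₊ + 4 * μ) : ℕ) : ℝ) ≤
          ((q l + E (l + 1) + V * μ + ⌊(a' k : ℝ) * J⌋₊ : ℕ) : ℝ) := by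
        push_cast
        rw [hqr]
        linarith
      exact_mod_cast h13
  have hkg : ∀ l < jt + 1, κ + gls K g q l ≤ ⌊εh * J⌋₊ := by
    intro l hl
    have h2 := hgls l hl
    have h3 := hxle l hl
    have h4 := hEge l
    have h5 : eps l * 4 ≤ εh := by
      have h6 := hepm l (jt + 1) hl le_rfl
      rw [hepi] at h6
      refine le_trans (mul_le_mul_of_nonneg_left ?_ (hep0 l).le) h6
      have : 4 ≤ Zf V D r (T l) := by
        unfold Zf
        have h7 : (V + 4) ^ 1 ≤ (V + 4) ^ (D * T l ^ r + 1) :=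
          Nat.pow_le_pow_right (by omega) (by omega)
        rw [pow_one] at h7
        omega
      exact_mod_cast this
    have h6 := mul_le_mul_of_nonneg_right h5 hJ0
    have h7 := hJm l hl.le
    refine Nat.le_floor ?_
    have h9 : (E (l + 1) : ℝ) + (κ + gls K g q l : ℕ) = x l := by
      rw [← h2]
      push_cast
      ring
    linarith
  refine hrel (A := A') (e := ⌊e₀ * J⌋₊) (e₁ := e₁) (e' := e') (eT := ⌊E₀ * J⌋₊) (f₁ := f₁)
    (f' := f') (e₀ := ⌊εt / 2 * J⌋₊)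
    (y := ⌊η * J⌋₊) (N₀ := N₀) (q := q) (E := E) (G := G) (H := H) (Dx := Dx) (Dl := Dl)
    hA'0 (Nat.floor_mono (mul_le_mul_of_nonneg_right hwa hJ0))
    hc (hLV.sub hA'A) (hL.sub hA'A) k1 k2 k3 k4
    (fun ω hω => k5 ω (hA'A ω hω)) (fun ω hω => k6 ω (hA'A ω hω)) hlow' ?_ ?_ ?_ ?_ ?_ ?_ ?_ ?_ ?_
    ?_ ?_ ?_ ?_ ?_ (fun l hl μ h1 h2 B h3 h4 => hnoAll l (by omega) μ h1 h2 B h3 h4 e' fun _ => le_rfl)
    (fun μ h1 h2 B h3 h4 => hnoAll jt (Nat.lt_succ_self jt) μ h1 h2 B h3 h4 f' fun h =>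
      absurd h (lt_irrefl jt))
  · -- the time
    refine tmN_of htmJ ?_ hA'A hA'0 fun B _ hB => hNB B hB
    linarith [Nat.lt_floor_add_one (εt / 2 * J)]
  · -- `E 0`
    rw [hE0]
    refine Nat.le_floor ?_
    push_cast
    have : (⌊εt / 2 * J⌋₊ : ℝ) ≤ εt / 2 * J := Nat.floor_le (by positivity)
    linarith
  · intro l hl
    rw [hEs]
    refine Nat.le_floor ?_
    push_cast
    rw [hE0]
    have h1 : (⌊εt * J⌋₊ : ℝ) ≤ εt * J := Nat.floor_le (by positivity)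
    have h2 : (κ : ℝ) * ⌊εt * J⌋₊ ≤ κ * (εt * J) := mul_le_mul_of_nonneg_left h1 (by linarith)
    have h3 := mul_le_mul_of_nonneg_right hεtκ hJ0
    have h4 : εm * J ≤ eps l * J := mul_le_mul_of_nonneg_right (hεml l (by omega)) hJ0
    have h5 : 0 ≤ εm * J := by positivity
    linarith
  · intro l hl
    rw [hEs (l + 1)]
    refine Nat.le_floor ?_
    push_cast
    have h1 : ((V : ℝ) + 4) ^ (D * dgp K l (jt + 1) + 1) ≤ Zf V D r (T l) := by
      have h2 : (V + 4) ^ (D * dgp K l (jt + 1) + 1) ≤ Zf V D r (T l) := by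
        unfold Zf
        refine le_trans (Nat.pow_le_pow_right (by omega) ?_) (Nat.le_add_right _ _)
        exact Nat.add_le_add_right (Nat.mul_le_mul_left _ (hdg l (jt + 1) hl le_rfl)) _
      exact_mod_cast h2
    calc ((V : ℝ) + 4) ^ (D * dgp K l (jt + 1) + 1) * (E (l + 1) : ℝ) ≤
          Zf V D r (T l) * (eps l * J) :=
          mul_le_mul h1 (hEle l) (Nat.cast_nonneg _) (Nat.cast_nonneg _)
      _ = eps l * Zf V D r (T l) * J := by ring
      _ ≤ _ := mul_le_mul_of_nonneg_right (hepm l (l + 1) (by omega) (by omega)) hJ0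
  · intro l hl
    have := hql l hl
    omega
  · intro l hl
    have h1 := hql l hl
    have h2 := hgls l hl
    omega
  · have h1 : ∑ j ∈ range (jt + 1), (g j - q j) * (D * dgp K j (jt + 1)) =
        ∑ j ∈ range (jt + 1), x j * (D * dgp K j (jt + 1)) := Finset.sum_congr rfl fun j hj => by
      have := hql j (mem_range.1 hj)
      congr 1
      omega
    rw [h1]
    refine Nat.le_floor ?_
    rw [Nat.cast_add, Nat.cast_add, Nat.cast_sum]
    have h2 : ∀ j ∈ range (jt + 1), ((x j * (D * dgp K j (jt + 1)) : ℕ) : ℝ) ≤ εh * J / (6 * (r + 1)) := by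
      intro j hj
      rw [mem_range] at hj
      have h3 := hxle j hj
      have h4 := hloss j (jt + 1) D hj le_rfl (hDT j)
      rw [hepi] at h4
      rw [le_div_iff₀ (by positivity), Nat.cast_mul]
      have h5 := mul_le_mul_of_nonneg_right h4 hJ0
      have h6 := mul_le_mul_of_nonneg_right h3
        (show (0 : ℝ) ≤ ((D * dgp K j (jt + 1) : ℕ) : ℝ) * (6 * (r + 1)) by positivity)
      linarith
    have h3 := Finset.sum_le_sum h2
    rw [Finset.sum_const, card_range, nsmul_eq_mul] at h3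
    have h4 : ((jt + 1 : ℕ) : ℝ) * (εh * J / (6 * (r + 1))) ≤ εh * J / 6 := by
      rw [mul_div_assoc', div_le_div_iff₀ (by positivity) (by norm_num)]
      have h5 : ((jt + 1 : ℕ) : ℝ) ≤ r + 1 := by
        have : (jt + 1) ≤ r + 1 := by omega
        exact_mod_cast this
      have h6 : 0 ≤ εh * J := mul_nonneg hε0.le hJ0
      have := mul_le_mul_of_nonneg_right h5 h6
      linarith
    have h5 : εh * J ≤ η / 8 * J := mul_le_mul_of_nonneg_right hε1 hJ0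
    have h6 : 0 ≤ εh * J := mul_nonneg hε0.le hJ0
    linarith
  · intro l hl l' hl'
    have h1 : nlp g l' l ≤ ⌊(vs + εh) * J⌋₊ + 1 := by
      unfold nlp
      have : (Finset.Icc l' l).sup g ≤ g l + (⌊(vs + εh) * J⌋₊ + 1) :=
        Finset.sup_le fun j hj => hgd l hl j (Finset.mem_Icc.1 hj).2
      omega
    have h8 := hkg l (by omega)
    rw [he₁]
    omega
  · intro l hl l' hl'
    have h1 : nlp g l' l ≤ ⌊(vT + vs + εh) * J⌋₊ + 1 := by
      unfold nlp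
      rcases Nat.lt_or_ge l jt with h | h
      · have : (Finset.Icc l' l).sup g ≤ g l + (⌊(vs + εh) * J⌋₊ + 1) :=
          Finset.sup_le fun j hj => hgd l h j (Finset.mem_Icc.1 hj).2
        omega
      · have h' : l = jt := by omega
        subst h'
        have : (Finset.Icc l' l).sup g ≤ g l + (⌊(vT + vs + εh) * J⌋₊ + 1) :=
          Finset.sup_le fun j hj => hgdT j (Finset.mem_Icc.1 hj).2
        omega
    have h8 := hkg l hl
    rw [hf₁]
    omega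
  · intro l hl l' hl'
    have h1 := hgd l hl l' hl'
    have h2 := hql l (by omega)
    have h3 := hql l' (by omega)
    have h4 : x l ≤ ⌊2 * εh * J⌋₊ := by
      refine Nat.le_floor ((hxle l (by omega)).trans ?_)
      exact mul_le_mul_of_nonneg_right (by linarith [heple l (by omega)]) hJ0
    rw [he']
    omega
  · intro l' hl'
    have h1 := hgdT l' hl'
    have h2 := hql jt (Nat.lt_succ_self jt)
    have h3 := hql l' (by omega)
    have h4 : x jt ≤ ⌊2 * εh * J⌋₊ := by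
      refine Nat.le_floor ((hxle jt (Nat.lt_succ_self jt)).trans ?_)
      exact mul_le_mul_of_nonneg_right (by linarith [heple jt (Nat.le_succ jt)]) hJ0
    rw [hf']
    omega
  · intro l hl
    have h1 := hql l (by omega)
    have h2 := hgub l (by omega)
    have h3 : (q l : ℝ) ≤ g l := by
      have : q l ≤ g l := by omega
      exact_mod_cast this
    have h4 := hσl l (by omega)
    rw [hXV l hl] at h4
    have h5 : (q l : ℝ) + e₁ + 7 * E (jt + 1 + 1) ≤ J := by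
      have h6 : (β l - d l) * J + ((e₀ + vs + 2 * εh) * J + 1) + 7 * (εh * J) ≤ 1 * J := by
        have h7 : (β l - d l + (e₀ + vs + 2 * εh) + εh + 7 * εh) * J ≤ 1 * J := by
          refine mul_le_mul_of_nonneg_right ?_ hJ0
          have := hd0 l (by omega)
          rw [hβ]
          show β₀ l a w - d l + (e₀ + vs + 2 * εh) + εh + 7 * εh ≤ 1
          linarith
        linarith
      linarith
    exact_mod_cast h5
  · have h1 := hql jt (Nat.lt_succ_self jt)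
    have h2 := hgub jt (Nat.lt_succ_self jt)
    have h3 : (q jt : ℝ) ≤ g jt := by
      have : q jt ≤ g jt := by omega
      exact_mod_cast this
    have h4 := hσl jt (by omega)
    rw [hXT] at h4
    have h5 : (q jt : ℝ) + f₁ + 7 * E (jt + 1 + 1) ≤ J := by
      have h6 : (β jt - d jt) * J + ((E₀ + (vT + vs) + 2 * εh) * J + 1) + 7 * (εh * J) ≤ 1 * J := by
        have h7 : (β jt - d jt + (E₀ + (vT + vs) + 2 * εh) + εh + 7 * εh) * J ≤ 1 * J := by
          refine mul_le_mul_of_nonneg_right ?_ hJ0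
          have := hd0 jt (Nat.lt_succ_self jt)
          have h8 : 8 * 10 * εh ≤ 8 * (V + 10) * εh := by
            have : 0 ≤ (V : ℝ) * εh := by positivity
            linarith
          rw [hβ]
          show β₀ jt a w - d jt + (E₀ + (vT + vs) + 2 * εh) + εh + 7 * εh ≤ 1
          linarith
        linarith
      linarith
    exact_mod_cast h5
  · have h1 : (⌊w * J⌋₊ : ℝ) + 4 * E (jt + 1 + 1) ≤ J := by
      have h2 : (w + 4 * εh) * J ≤ 1 * J := mul_le_mul_of_nonneg_right (by linarith) hJ0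
      linarith
    exact_mod_cast h1

end Pool.Z3
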