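import Pool.Agent.H77.Z3.RelU

/-!
# Relations in a family: rounded own points

`relv_topY`: `Pool.Z3.relv_top` where the polynomials are small at points near the own points, with
bounds which depend on the sample.
-/

set_option autoImplicit false

namespace Pool.Z3

open Finset Real MvPolynomial
open Pool.Agent.H49.Ent Pool.Agent.H32.Dense Pool.STK Pool.KA Pool.KSAT Pool.K2S Pool.PB Pool.S6C
open Pool.GEN Pool.RLV
open Pool.CHT (dgp dgp_self dgp_succ gls nbx_grow)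

/-- **Points near the own point** are near it in the natural coordinates; the last coordinate may be
less exact than the others. -/
theorem rnd2 (j : ℕ) : ∃ κ : ℕ, ∀ {m : ℕ} {c : ℕ → Fin m} {K : ℕ → ℕ}
    {G H : ℕ → MvPolynomial (Option (Fin m)) ℝ} {q p : ℕ → ℕ} {a e x Y Z : ℕ}
    {b₀ y : Option (Fin m) → ℝ} {f : ℕ → ℕ},
    NwD c j K G H q p a e b₀ → (∀ l ≤ j, ∀ b, NBx c G q a (b₀ none) l b → ∀ l' < l,
      |eval b (pderiv (some (c l')) (G l))| ≤ 2 ^ f l) → (∀ l ≤ j, q l + 2 ≤ p l) →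
    (∀ l ≤ j, q l + f l + x + κ ≤ Y) → q j + x + κ ≤ Z → y none = b₀ none →
    (∀ l < j, |y (some (c l)) - b₀ (some (c l))| ≤ 1 / 2 ^ Y) →
    |y (some (c j)) - b₀ (some (c j))| ≤ 1 / 2 ^ Z →
    Nrb c G q a (j + 1) b₀ (1 / 2 ^ x) y := by
  obtain ⟨κ, hκ⟩ := rnd_num j
  refine ⟨κ + 2, ?_⟩
  intro m c K G H q p a e x Y Z b₀ y f hD hlip hgap hY hZ hy hyd hyj
  have hrn := rndf hD hlip hgap (δ := 1 / 2 ^ Y) (by positivity) fun l hl => by
    have h3 := hκ (e := f l) (x := 1) (n := q l) (J := Y) (by have := hY l hl; omega)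
    rw [pow_one] at h3
    exact h3
  have h1 : ∀ l ≤ j, |eval y (G l) - eval b₀ (G l)| ≤ 1 / 2 ^ (x + 1) / 2 ^ q l := by
    intro l hl
    refine ((hrn l (by omega) y hy fun l' hl' => hyd l' (by omega)).2 hl).trans ?_
    refine le_trans ?_ (hκ (e := f l) (x := x + 1) (n := q l) (J := Y)
      (by have := hY l hl; omega))
    have h2 : (0 : ℝ) < 1 / 2 ^ Y := by positivity
    nlinarith
  have p2 : ∀ n : ℕ, (1 : ℝ) / 2 ^ (x + 1) / 2 ^ n + 1 / 2 ^ (x + 1) / 2 ^ n = 1 / 2 ^ x / 2 ^ n := by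
    intro n
    rw [pow_succ]
    field_simp
    ring
  refine ⟨by rw [hy, sub_self, abs_zero]; positivity, fun l hl => ?_⟩
  have h2 := h1 l (by omega)
  have e1 : y (some (c l)) - eval y (G l) - (b₀ (some (c l)) - eval b₀ (G l)) =
      (y (some (c l)) - b₀ (some (c l))) - (eval y (G l) - eval b₀ (G l)) := by ring
  rw [e1]
  refine (abs_sub _ _).trans ?_
  rw [← p2]
  refine add_le_add ?_ h2
  rcases Nat.lt_or_ge l j with h3 | h3
  · refine (hyd l h3).trans ?_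
    rw [div_div, ← pow_add]
    exact p2le (by have := hY l (by omega); omega)
  · have h4 : l = j := by omega
    subst h4
    refine hyj.trans ?_
    rw [div_div, ← pow_add]
    exact p2le (by omega)

/-- **No relations** over chains of two-sided labels with a target on the top, if there are no better
labels, for polynomials which are small at points near the own points. -/
theorem relv_topY (V D j : ℕ) (K : ℕ → ℕ) : ∃ κ N Kn : ℕ, 1 ≤ κ ∧ ∀ {m J : ℕ} {F : Fam m J}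
    {c : ℕ → Fin m} {a w e e₁ e' eT f₁ f' e₀ y Y Z : ℕ} {g q E : ℕ → ℕ} {A : F.Ω → Prop}
    {G : PtT F → ℕ → MvPolynomial (Option (Fin m)) ℝ}
    {H : LnT F → ℕ → MvPolynomial (Option (Fin m)) ℝ}
    {Dx : PtT F → MvPolynomial (Option (Fin m)) ℝ}
    {Dl : LnT F → MvPolynomial (Option (Fin m)) ℝ} {M₀ : F.Ω → ℝ},
    0 < Pe F.p A → w ≤ a → Set.InjOn c (Set.Iio (j + 1)) → ChOK F c j K a w e g A G H →
    ChOK F c (j + 1) K a w eT g A G H →
    (∀ y, (Dx y).totalDegree ≤ D) → (∀ s, (Dl s).totalDegree ≤ D) →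
    (∀ y, DepC c (j + 1) (Dx y)) → (∀ s, DepC c (j + 1) (Dl s)) → (∀ ω, A ω → 0 < M₀ ω) →
    (∀ ω, A ω → ∃ x : Option (Fin m) → ℝ, x none = F.t ω ∧
      (∀ l < j, |x (some (c l)) - F.x ω (c l)| ≤ 1 / 2 ^ Y) ∧
      |x (some (c j)) - F.x ω (c j)| ≤ 1 / 2 ^ Z ∧ |eval x (Dx (ptr F J ω))| ≤ M₀ ω) →
    (∀ ω, A ω → ∀ b, NBx c (G (ptr F J ω)) g a (F.t ω) (j + 1) b →
      |eval b (Dx (ptr F J ω)) - eval b (Dl (slam F w ω))| ≤ M₀ ω) →
    (∀ ω, A ω → ∃ b, NBx c (G (ptr F J ω)) g a (F.t ω) (j + 1) b ∧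
      2 ^ y * M₀ ω ≤ |eval b (Dx (ptr F J ω))|) →
    TmN F N e₀ A → e₀ + 1 ≤ E 0 → (∀ l ≤ j + 1, κ * E 0 ≤ E (l + 1)) →
    (∀ l < j + 1, (V + 4) ^ (D * dgp K l (j + 1) + 1) * E (l + 1) ≤ E (l + 2)) →
    (∀ l < j + 1, q l ≤ g l) → (∀ l < j + 1, q l + E (l + 1) + κ + gls K g q l ≤ g l) →
    (E (j + 1 + 1) + κ + ∑ l ∈ range (j + 1), (g l - q l) * (D * dgp K l (j + 1)) ≤ y) →
    (∀ l < j, ∀ l' < l, e + nlp g l' l + κ + gls K g q l ≤ e₁) →
    (∀ l < j + 1, ∀ l' < l, eT + nlp g l' l + κ + gls K g q l ≤ f₁) →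
    (∀ l < j, ∀ l' ≤ l, q l' + e₁ + E (j + 1 + 1) ≤ q l + e') →
    (∀ l' ≤ j, q l' + f₁ + E (j + 1 + 1) ≤ q j + f') →
    (∀ l < j, q l + e₁ + 7 * E (j + 1 + 1) ≤ J) → q j + f₁ + 7 * E (j + 1 + 1) ≤ J →
    (∀ l < j, q l + e₁ + E (j + 1 + 1) + κ ≤ Y) → q j + f₁ + E (j + 1 + 1) + κ ≤ Y →
    q j + E (j + 1 + 1) + κ ≤ Z →
    w + 4 * E (j + 1 + 1) ≤ J →
    (∀ l < j, ∀ μ, E (l + 1) ≤ μ → μ ≤ E (j + 1 + 1) → ∀ B : F.Ω → Prop, Sub B A →
      Pe F.p A ≤ N * Pe F.p B → ¬ ChN F c (l + 1) (fun _ => Kn) (a + 4 * μ) (w + 4 * μ) e'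
        (fun l' => if l' < l then q l' + 4 * μ else q l + E (l + 1) + V * μ) B) →
    (∀ μ, E (j + 1) ≤ μ → μ ≤ E (j + 1 + 1) → ∀ B : F.Ω → Prop, Sub B A →
      Pe F.p A ≤ N * Pe F.p B → ¬ ChN F c (j + 1) (fun _ => Kn) (a + 4 * μ) (w + 4 * μ) f'
        (fun l' => if l' < j then q l' + 4 * μ else q j + E (j + 1) + V * μ) B) → False := by
  classical
  obtain ⟨i, hi⟩ : ∃ i, i = j + 1 := ⟨_, rfl⟩
  obtain ⟨κ₁, N, Kn, hκ₁, hcore⟩ := rel_top V K j D 0
  obtain ⟨κ₂, hcbx⟩ := cbx_of j K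
  obtain ⟨κ₄, hcbx'⟩ := cbx_of (j + 1) K
  obtain ⟨κ₅, hrnd⟩ := rnd2 j
  obtain ⟨C₆, hC₆, hvar⟩ := var_own (D * dg K (j + 1))
  obtain ⟨κ₆, hκ₆⟩ := pow_unbounded_of_one_lt C₆ (one_lt_two (α := ℝ))
  rw [← hi] at hcore hcbx' hrnd hvar ⊢
  obtain ⟨Dg, hDg⟩ : ∃ Dg, Dg = ∑ j ∈ range i, D * dgp K j i := ⟨_, rfl⟩
  obtain ⟨C₃, hC₃, hgrow⟩ := nbx_grow Dg i
  obtain ⟨κ₃, hκ₃⟩ := pow_unbounded_of_one_lt C₃ (one_lt_two (α := ℝ))
  refine ⟨κ₁ + κ₂ + κ₃ + κ₄ + κ₅ + κ₆ + 4, N, Kn, by omega, ?_⟩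
  intro m J F c a w e e₁ e' eT f₁ f' e₀ y Y Z g q E A G H Dx Dl M₀ hA hwa hc hchV hch hdx hdl hpx
    hpl hM₀ hown htwo hlow hT hE0 hEt hE hq hp hy he1 hf1 he' hf' hJ hJT hYV hYT hZ hwJ hno hnoT
  have hji : j < i := by omega
  have hsum : ∀ j < i, D * dgp K j i ≤ Dg := fun j hj => by
    rw [hDg]
    exact Finset.single_le_sum (f := fun j => D * dgp K j i) (fun _ _ => Nat.zero_le _)
      (mem_range.2 hj)
  -- the maxima
  have hmax : ∀ ω, ∃ b, NBx c (G (ptr F J ω)) q a (F.t ω) i b ∧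
      ∀ b', NBx c (G (ptr F J ω)) q a (F.t ω) i b' →
        |eval b' (Dx (ptr F J ω))| ≤ |eval b (Dx (ptr F J ω))| := fun ω =>
    nmax hc (hch.depG _) (hpx _)
  choose bm hbm hbm' using hmax
  obtain ⟨M, hM⟩ : ∃ M : F.Ω → ℝ, M = fun ω => |eval (bm ω) (Dx (ptr F J ω))| := ⟨_, rfl⟩
  have hMlow : ∀ ω, A ω → 2 ^ y * M₀ ω ≤ M ω := by
    intro ω hω
    obtain ⟨b, hb, hbl⟩ := hlow ω hω
    rw [hM]
    refine hbl.trans (hbm' ω b ⟨hb.1, fun l hl => (hb.2 l hl).trans (p2le (hq l hl))⟩)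
  have hbase : ∀ ω, A ω → 2 ^ (κ₃ + ∑ j ∈ range i, (g j - q j) * (D * dgp K j i)) *
      M₀ ω ≤ M ω / 2 ^ (E (i + 1) + 1) := by
    intro ω hω
    have h0 := hM₀ ω hω
    rw [le_div_iff₀ (by positivity)]
    refine le_trans ?_ (hMlow ω hω)
    rw [mul_right_comm, ← pow_add]
    refine mul_le_mul_of_nonneg_right (pow_le_pow_right₀ (by norm_num) ?_) h0.le
    omega
  have hboxV := hcbx (e₁ := e₁) (q := q) (p := fun l => q l + E (l + 1))
    (hc.mono fun x hx => by rw [Set.mem_Iio] at hx ⊢; omega) hchV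
    (fun l hl => hq l (by omega)) (fun l hl => by
      have := hp l (by omega)
      show q l + E (l + 1) + κ₂ + gls K g q l ≤ g l
      omega) fun l hl l' hl' => by
      have := he1 l hl l' hl'
      omega
  have hboxT := hcbx' (e₁ := f₁) (q := q) (p := fun l => q l + E (l + 1)) hc hch hq
    (fun l hl => by
      have := hp l hl
      show q l + E (l + 1) + κ₄ + gls K g q l ≤ g l
      omega) fun l hl l' hl' => by
      have := hf1 l hl l' hl'
      omega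
  have hE1 : ∀ l ≤ j, 2 ≤ E (l + 1) := by
    intro l hl
    have h1 := hEt l (by omega)
    have h2 : 2 * 1 ≤ (κ₁ + κ₂ + κ₃ + κ₄ + κ₅ + κ₆ + 4) * E 0 :=
      Nat.mul_le_mul (by omega) (by omega)
    omega
  have hbound : ∀ ω, A ω → |eval (bt F ω) (Dx (ptr F J ω))| ≤ M ω / 2 ^ E (i + 1) := by
    intro ω hω
    obtain ⟨x, x1, x2, x3, x4⟩ := hown ω hω
    have hD : NwD c j K (G (ptr F J ω)) (H (slam F w ω)) q (fun l => q l + E (l + 1)) a f₁ (bt F ω) := by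
      rw [hi] at hboxT
      exact hboxT.at hω
    have hnr := hrnd (x := E (i + 1) + κ₆ + 2) (Y := Y) (Z := Z) (y := x)
      (f := fun l => if l < j then e₁ else f₁) hD (fun l hl b hb l' hl' => by
        split_ifs with h1
        · exact hboxV.lip ω hω l h1 b hb l' hl'
        · exact hboxT.lip ω hω l (by omega) b hb l' hl')
      (fun l hl => by have := hE1 l hl; omega) (fun l hl => by
        split_ifs with h1
        · have := hYV l h1
          omega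
        · have h2 : l = j := by omega
          rw [h2]
          omega) (by omega) x1 (fun l hl => x2 l hl) x3
    have h4 := hvar (Q := Dx (ptr F J ω)) (D₀ := D) (M := M ω)
      (δ := 1 / 2 ^ (E (i + 1) + κ₆ + 2)) (b := x) (b₀ := bt F ω) hc (hch.degG _) (hch.depG _)
      (hpx _) (hdx _) le_rfl (fun b hb => by rw [hM]; exact hbm' ω b hb) (by positivity) (by
        calc (1 : ℝ) / 2 ^ (E (i + 1) + κ₆ + 2) ≤ 1 / 2 ^ 2 := p2le (by omega)
          _ = 1 / 4 := by norm_num) (fun l hl => hD.own (fun l hl => by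
            have := hE1 l hl
            show q l + 2 ≤ q l + E (l + 1)
            omega) l (by omega)) hnr
    have hMn : 0 ≤ M ω := by rw [hM]; exact abs_nonneg _
    have h5 : C₆ * M ω * (1 / 2 ^ (E (i + 1) + κ₆ + 2)) ≤ M ω / 2 ^ (E (i + 1) + 1) := by
      calc C₆ * M ω * (1 / 2 ^ (E (i + 1) + κ₆ + 2)) ≤
            2 ^ κ₆ * M ω * (1 / 2 ^ (E (i + 1) + κ₆ + 2)) := by gcongr
        _ = M ω / 2 ^ (E (i + 1) + 2) := by
            rw [show E (i + 1) + κ₆ + 2 = (E (i + 1) + 2) + κ₆ by ring, pow_add]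
            field_simp
        _ ≤ M ω / 2 ^ (E (i + 1) + 1) := by
            refine div_le_div_of_nonneg_left hMn (by positivity) ?_
            exact pow_le_pow_right₀ (by norm_num) (by omega)
    have h6 : M₀ ω ≤ M ω / 2 ^ (E (i + 1) + 1) := by
      refine le_trans ?_ (hbase ω hω)
      exact le_mul_of_one_le_left (hM₀ ω hω).le (one_le_pow₀ (by norm_num))
    have h7 : M ω / 2 ^ E (i + 1) = M ω / 2 ^ (E (i + 1) + 1) + M ω / 2 ^ (E (i + 1) + 1) := by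
      rw [pow_succ]
      field_simp
      ring
    rw [h7]
    have e1 : eval (bt F ω) (Dx (ptr F J ω)) = eval x (Dx (ptr F J ω)) -
        (eval x (Dx (ptr F J ω)) - eval (bt F ω) (Dx (ptr F J ω))) := by ring
    rw [e1]
    exact (abs_sub _ _).trans (add_le_add (x4.trans h6) (h4.trans h5))
  refine hcore (e := e₁) (e' := e') (e₁ := f₁) (e₁' := f') (q := q)
    (p := fun l => q l + E (l + 1)) (E := E) (Dx := Dx) (Dl := Dl) (M := M) hA hwa
    hboxV hboxT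
    ⟨hdx, hdl, hpx, hpl, fun ω hω => ?_, hbound, fun ω hω b hb => ?_,
      fun ω hω b hb => ?_, fun ω hω => ?_⟩ hT hE0 (fun l _ => rfl)
    (fun l hl => (Nat.mul_le_mul_right _ (by omega)).trans (hEt l hl)) hE hJ hJT hwJ he' hf' hno
    (by rw [hi] at hnoT ⊢; exact hnoT)
  · exact lt_of_lt_of_le (mul_pos (by positivity) (hM₀ ω hω)) (hMlow ω hω)
  · have h1 := hgrow (K := K) (G := G (ptr F J ω)) (Q := Dx (ptr F J ω) - Dl (slam F w ω))
      (g := g) (g' := q) (a := a) (D₀ := D) (t := F.t ω) (M := M₀ ω) le_rfl hc (hch.degG _)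
      (hch.depG _) (dep_sub (hpx _) (hpl _))
      ((totalDegree_sub _ _).trans (max_le (hdx _) (hdl _))) hsum hq
      (fun b hb => by rw [map_sub]; exact htwo ω hω b hb) b hb
    rw [map_sub] at h1
    refine h1.trans (le_trans ?_ ((hbase ω hω).trans ?_))
    · refine mul_le_mul_of_nonneg_right ?_ (hM₀ ω hω).le
      rw [pow_add]
      exact mul_le_mul_of_nonneg_right hκ₃.le (by positivity)
    · have hMn : 0 ≤ M ω := by rw [hM]; exact abs_nonneg _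
      exact div_le_div_of_nonneg_left hMn (by positivity)
        (pow_le_pow_right₀ (by norm_num) (by omega))
  · rw [hM]
    exact hbm' ω b hb
  · refine ⟨bm ω, hbm ω, ?_⟩
    rw [pow_zero, one_mul, hM]

end Pool.Z3
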