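import Pool.Agent.H77.Z3.RelW
import Pool.Agent.H77.Z3.RelV

/-!
# No relation in a class, with a target on the top and with rounded own points

`relvY_of`: `Pool.Z3.relvT_of` for polynomials which are small at points near the own points, with
bounds which depend on the sample: `RelYS`.
-/

set_option autoImplicit false

namespace Pool.Z3

open Finset Real MvPolynomial
open Pool.Agent.H49.Ent Pool.Agent.H32.Dense Pool.STK Pool.KA Pool.KSAT Pool.K2S Pool.PB Pool.S6C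
open Pool.GEN Pool.CHT
open Pool.LBT (LSys Slo Tri ThrOf)
open Pool.LEV (Law)
open Pool.LBN (Tch cof cof_lt chn_congr)
open Pool.ONE (tgs)

variable {m J : ℕ} {θ : ℝ} {S : PCl m} {P : List (Fin m) × Fin m → ℝ → ℝ → ℝ}

/-- **No relation** between the coordinates of the list and the target, for polynomials which are
small at points near the own points: `μ`, `μT` are the losses of the digits of these points. -/
def RelYS (c : ℕ → Fin m) (j : ℕ) (K : ℕ → ℕ) (β d : ℕ → ℝ) (a w e₀ E₀ μ μT : ℝ) (D : ℕ)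
    (η η' : ℝ) : Stat m := fun J F A =>
  ∀ (G : PtT F → ℕ → MvPolynomial (Option (Fin m)) ℝ)
    (H : LnT F → ℕ → MvPolynomial (Option (Fin m)) ℝ),
    ChOK F c j K ⌊a * J⌋₊ ⌊w * J⌋₊ ⌊e₀ * J⌋₊ (fun l => ⌊(β l - d l) * J⌋₊) A G H →
    ChOK F c (j + 1) K ⌊a * J⌋₊ ⌊w * J⌋₊ ⌊E₀ * J⌋₊ (fun l => ⌊(β l - d l) * J⌋₊) A G H →
    ∀ (Dx : PtT F → MvPolynomial (Option (Fin m)) ℝ)
      (Dl : LnT F → MvPolynomial (Option (Fin m)) ℝ) (M : F.Ω → ℝ),
      (∀ y, (Dx y).totalDegree ≤ D) → (∀ s, (Dl s).totalDegree ≤ D) →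
      (∀ y, DepC c (j + 1) (Dx y)) → (∀ s, DepC c (j + 1) (Dl s)) → (∀ ω, A ω → 0 < M ω) →
      (∀ ω, A ω → ∃ x : Option (Fin m) → ℝ, x none = F.t ω ∧
        (∀ l < j, |x (some (c l)) - F.x ω (c l)| ≤ 1 / 2 ^ ⌊(1 - μ) * J⌋₊) ∧
        |x (some (c j)) - F.x ω (c j)| ≤ 1 / 2 ^ ⌊(1 - μT) * J⌋₊ ∧
        |eval x (Dx (ptr F J ω))| ≤ M ω) →
      (∀ ω, A ω → ∀ b, NBx c (G (ptr F J ω)) (fun l => ⌊(β l - d l) * J⌋₊) ⌊a * J⌋₊ (F.t ω)
        (j + 1) b → |eval b (Dx (ptr F J ω)) - eval b (Dl (slam F ⌊w * J⌋₊ ω))| ≤ M ω) →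
      ∃ B : F.Ω → Prop, Sub B A ∧ (1 - η') * Pe F.p A ≤ Pe F.p B ∧ ∀ ω, B ω →
        ∀ b, NBx c (G (ptr F J ω)) (fun l => ⌊(β l - d l) * J⌋₊) ⌊a * J⌋₊ (F.t ω) (j + 1) b →
          |eval b (Dx (ptr F J ω))| ≤ 2 ^ ⌊η * J⌋₊ * M ω

/-- **No relation in a class, with a target on the top**, for rounded own points. -/
theorem relvY_of {PT : Unit → ℝ → ℝ → ℝ} {c : ℕ → Fin m} {jt : ℕ}
    (hP : ThrOf (chsys m θ) S P) (hPT : ThrOf (tgs (c jt)) S PT) (hθ : 0 < θ) (hS : TmH S)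
    (hc : Set.InjOn c (Set.Iio (jt + 1))) {a w vs e₀ vT E₀ μ μT : ℝ} (hw : 0 < w) (hwa : w ≤ a)
    (ha : a < 1) (hup : ∀ l < jt, Up1 (bet P c l) a w) (hupT : Up1 (PT ()) a w)
    
    (hvs : 0 ≤ vs) (hsrt : ∀ i < jt, ∀ l < i, bet P c l a w ≤ bet P c i a w + vs)
    (hvT : 0 ≤ vT) (hsrtT : ∀ l < jt, bet P c l a w ≤ PT () a w + vT)
    (he₀ : 0 ≤ e₀) (hE₀ : 0 ≤ E₀) (he : e₀ + 2 * vs < θ * w)
    (hμ : 0 ≤ μ) (hμV : ∀ l < jt, bet P c l a w + (θ * w + μ) < 1)
    (hμE : PT () a w + (E₀ + (vT + vs) + μ) < 1) (hμT : PT () a w + μT < 1) :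
    ∀ (D : ℕ) (η : ℝ), 0 < η → ∃ φ : ℕ → ℕ → ℝ, (∀ l n, 0 < φ l n) ∧
      ∀ (K : ℕ → ℕ) (d : ℕ → ℝ), Hie φ (jt + 1) K d → ∀ η' : ℝ, 0 < η' →
        Bas S (RelYS c jt K (fun l => lvT P c jt (PT ()) l a w) d a w e₀ E₀ μ μT D η η') := by
  classical
  intro D η hη
  obtain ⟨r, hr⟩ : ∃ r, r = jt + 1 := ⟨_, rfl⟩
  obtain ⟨β₀, hβ₀⟩ : ∃ β₀ : ℕ → ℝ → ℝ → ℝ, β₀ = fun l => if l < jt then bet P c l else PT () :=
    ⟨_, rfl⟩
  have hβV : ∀ l < jt, β₀ l = bet P c l := fun l hl => by rw [hβ₀]; exact if_pos hl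
  have hβT : β₀ jt = PT () := by rw [hβ₀]; exact if_neg (lt_irrefl jt)
  have hlaw : ∀ l, Law (β₀ l) := fun l => by
    rw [hβ₀]
    dsimp only
    split_ifs
    · exact hP.law _
    · exact hPT.law ()
  have hlow : ∀ (l : ℕ) (x y : ℝ), 0 ≤ y → y ≤ x → x ≤ 1 → x ≤ β₀ l x y := fun l x y h1 h2 h3 => by
    rw [hβ₀]
    dsimp only
    split_ifs
    · exact hP.low _ x y h1 h2 h3
    · exact hPT.low () x y h1 h2 h3
  have hupp : ∀ (l : ℕ) (x y : ℝ), 0 ≤ y → y ≤ x → x ≤ 1 → β₀ l x y ≤ 1 := fun l x y h1 h2 h3 => by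
    rw [hβ₀]
    dsimp only
    split_ifs
    · exact hP.up _ x y h1 h2 h3
    · exact hPT.up () x y h1 h2 h3
  have hup₀ : ∀ l < r, Up1 (β₀ l) a w := fun l hl => by
    rcases Nat.lt_or_ge l jt with h | h
    · rw [hβV l h]
      exact hup l h
    · have h' : l = jt := by omega
      rw [h', hβT]
      exact hupT
  obtain ⟨X, hX⟩ : ∃ X : ℕ → ℝ, X = fun l => if l < jt then θ * w + μ else
      max (E₀ + (vT + vs) + μ) μT := ⟨_, rfl⟩
  have hXV : ∀ l < jt, X l = θ * w + μ := fun l hl => by rw [hX]; exact if_pos hl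
  have hXT : X jt = max (E₀ + (vT + vs) + μ) μT := by rw [hX]; exact if_neg (lt_irrefl jt)
  have hXT1 : E₀ + (vT + vs) + μ ≤ X jt := by rw [hXT]; exact le_max_left _ _
  have hXT2 : μT ≤ X jt := by rw [hXT]; exact le_max_right _ _
  have hX0 : ∀ l, 0 ≤ X l := fun l => by
    rw [hX]
    dsimp only
    split_ifs
    · positivity
    · exact le_trans (by linarith) (le_max_left _ _)
  have hvis₀ : ∀ l < r, β₀ l a w + X l < 1 := fun l hl => by
    rcases Nat.lt_or_ge l jt with h | h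
    · rw [hβV l h, hXV l h]
      exact hμV l h
    · have h' : l = jt := by omega
      rw [h', hβT, hXT]
      rcases max_choice (E₀ + (vT + vs) + μ) μT with h1 | h1
      · rw [h1]
        exact hμE
      · rw [h1]
        exact hμT
  have hw1 : w < 1 := hwa.trans_lt ha
  have ha0 : 0 < a := hw.trans_le hwa
  -- the constants of the growth
  have hup' : ∀ l, ∃ V o₀ : ℝ, 0 ≤ V ∧ 0 < o₀ ∧ (l < r → ∀ o : ℝ, 0 < o → o < o₀ →
      β₀ l (a + o) (w + o) ≤ β₀ l a w + V * o) := by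
    intro l
    by_cases hl : l < r
    · obtain ⟨V, o₀, h1, h2, h3⟩ := hup₀ l hl
      exact ⟨V, o₀, h1, h2, fun _ => h3⟩
    · exact ⟨0, 1, le_rfl, one_pos, fun h => absurd h hl⟩
  choose Vl ol hV0 ho0 hup' using hup'
  obtain ⟨o₀, ho₀, ho₁⟩ := fin_pos r (f := ol) fun k _ => ho0 k
  obtain ⟨V₀, hV₀⟩ : ∃ V₀, V₀ = ∑ l ∈ range r, Vl l := ⟨_, rfl⟩
  have hV₀0 : 0 ≤ V₀ := by rw [hV₀]; exact Finset.sum_nonneg fun l _ => hV0 l
  have hVl : ∀ l < r, Vl l ≤ V₀ := fun l hl => by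
    rw [hV₀]
    exact Finset.single_le_sum (f := Vl) (fun l _ => hV0 l) (mem_range.2 hl)
  have hgr : ∀ l < r, ∀ o : ℝ, 0 < o → o < o₀ →
      β₀ l (a + o) (w + o) ≤ β₀ l a w + V₀ * o := fun l hl o h1 h2 => by
    have h3 := hup' l hl o h1 (h2.trans_le (ho₁ l hl))
    have h4 := mul_le_mul_of_nonneg_right (hVl l hl) h1.le
    linarith
  obtain ⟨σ, hσ, hσl⟩ := fin_pos r (f := fun l => 1 - (β₀ l a w + X l)) fun l hl => by
    linarith [hvis₀ l hl]
  obtain ⟨V, hV⟩ : ∃ V : ℕ, V = ⌈16 * V₀⌉₊ + 4 := ⟨_, rfl⟩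
  have hVr : 16 * V₀ + 4 ≤ (V : ℝ) := by
    rw [hV]
    push_cast
    have := Nat.le_ceil (16 * V₀)
    linarith
  obtain ⟨o', ho'⟩ : ∃ o' : ℝ, o' = min (o₀ / 4) (min ((1 - a) / 4) (σ / (8 * (V₀ + 1)))) :=
    ⟨_, rfl⟩
  have ho'0 : 0 < o' := by
    rw [ho']
    exact lt_min (by positivity) (lt_min (by linarith) (by positivity))
  have ho'1 : o' ≤ o₀ / 4 := by rw [ho']; exact min_le_left _ _
  have ho'2 : o' ≤ (1 - a) / 4 := by rw [ho']; exact (min_le_right _ _).trans (min_le_left _ _)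
  have ho'3 : 8 * V₀ * o' ≤ σ := by
    have h1 : o' ≤ σ / (8 * (V₀ + 1)) := by
      rw [ho']; exact (min_le_right _ _).trans (min_le_right _ _)
    rw [le_div_iff₀ (by positivity)] at h1
    nlinarith
  obtain ⟨σ₂, hσ₂⟩ : ∃ σ₂, σ₂ = θ * w - e₀ - 2 * vs := ⟨_, rfl⟩
  have hσ₂0 : 0 < σ₂ := by rw [hσ₂]; linarith
  obtain ⟨εh, hεh⟩ : ∃ εh : ℝ, εh = min (η / 8) (min (o' / 8) (min (σ / (8 * (V + 10)))
    (min (σ₂ / 32) (a / 32)))) := ⟨_, rfl⟩
  have hε0 : 0 < εh := by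
    rw [hεh]
    exact lt_min (by positivity) (lt_min (by positivity) (lt_min (by positivity)
      (lt_min (by positivity) (by positivity))))
  have hε1 : εh ≤ η / 8 := by rw [hεh]; exact min_le_left _ _
  have hε2 : εh ≤ o' / 8 := by rw [hεh]; exact (min_le_right _ _).trans (min_le_left _ _)
  have hε3 : 8 * (V + 10) * εh ≤ σ := by
    have h1 : εh ≤ σ / (8 * (V + 10)) := by
      rw [hεh]
      exact (min_le_right _ _).trans ((min_le_right _ _).trans (min_le_left _ _))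
    rw [le_div_iff₀ (by positivity)] at h1
    linarith
  have hε4 : εh ≤ σ₂ / 32 := by
    rw [hεh]
    exact (min_le_right _ _).trans ((min_le_right _ _).trans ((min_le_right _ _).trans
      (min_le_left _ _)))
  have hε5 : εh ≤ a / 32 := by
    rw [hεh]
    exact (min_le_right _ _).trans ((min_le_right _ _).trans ((min_le_right _ _).trans
      (min_le_right _ _)))
  have hV0' : (0 : ℝ) ≤ V := Nat.cast_nonneg V
  have hZ1 : ∀ T : ℕ, (1 : ℝ) ≤ Zf V D r T := fun T => by exact_mod_cast one_le_Zf V D r T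
  refine ⟨fun _ n => εh / (Zf V D r (r + D + 1 + n) : ℝ) ^ r, fun _ n => by
    have := hZ1 (r + D + 1 + n)
    positivity, ?_⟩
  intro K d hd η' hη'
  have hi : jt + 1 ≤ r := hr.ge
  obtain ⟨eps, heps⟩ : ∃ eps : ℕ → ℝ, eps = epf V D r (jt + 1) K εh := ⟨_, rfl⟩
  obtain ⟨T, hT⟩ : ∃ T : ℕ → ℕ, T = fun j => r + D + 1 + ∑ l' ∈ Finset.Ioo j (jt + 1), K l' := ⟨_, rfl⟩
  have hep0 : ∀ j, 0 < eps j := fun j => by rw [heps]; exact epf_pos hε0 j
  have hepi : eps (jt + 1) = εh := by rw [heps]; exact epf_self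
  have heple : ∀ j ≤ jt + 1, eps j ≤ εh := fun j hj => by rw [heps]; exact epf_le hε0 hj
  have hepm : ∀ j l, j < l → l ≤ jt + 1 → eps j * Zf V D r (T j) ≤ eps l := fun j l h1 h2 => by
    rw [heps, hT]; exact epf_mul hε0 h1 h2
  have hd0 : ∀ l < jt + 1, 0 < d l := fun l hl => (hd l hl).1
  have hdle : ∀ l < jt + 1, d l ≤ eps l := by
    intro l hl
    refine (hd l hl).2.trans ?_
    rw [heps]
    unfold epf
    refine div_le_div_of_nonneg_left hε0.le (by
      have := hZ1 (r + D + 1 + ∑ l' ∈ Finset.Ioo l (jt + 1), K l')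
      positivity) (pow_le_pow_right₀ (hZ1 _) (by omega))
  have hT1 : ∀ j, 1 ≤ T j := fun j => by rw [hT]; show 1 ≤ r + D + 1 + _; omega
  have hdg : ∀ j l, j < l → l ≤ jt + 1 → dgp K j l ≤ T j ^ r := fun j l _ hl =>
    dgp_le' K hl hi (by rw [hT]; show _ ≤ r + D + 1 + _; omega)
  have hKT : ∀ j l, j < l → l < jt + 1 → K l ≤ T j := fun j l h1 h2 => by
    have : K l ≤ ∑ l' ∈ Finset.Ioo j (jt + 1), K l' :=
      Finset.single_le_sum (f := K) (fun _ _ => Nat.zero_le _) (Finset.mem_Ioo.2 ⟨h1, h2⟩)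
    rw [hT]
    show K l ≤ r + D + 1 + _
    omega
  have hDT : ∀ j, D ≤ T j := fun j => by rw [hT]; show D ≤ r + D + 1 + _; omega
  -- the sums of the losses
  have hloss : ∀ j l k, j < l → l ≤ jt + 1 → k ≤ T j →
      12 * (r + 1) * (eps j * (k * dgp K j l : ℕ)) ≤ eps l := by
    intro j l k h1 h2 h3
    have h4 : k * dgp K j l ≤ T j ^ (r + 1) := by
      calc k * dgp K j l ≤ T j * T j ^ r := Nat.mul_le_mul h3 (hdg j l h1 h2)
        _ = _ := by rw [pow_succ]; ring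
    have h5 : 12 * (r + 1) * (k * dgp K j l) ≤ Zf V D r (T j) := by
      unfold Zf
      calc 12 * (r + 1) * (k * dgp K j l) ≤ 12 * (r + 1) * T j ^ (r + 1) :=
            Nat.mul_le_mul_left _ h4
        _ ≤ _ := Nat.le_add_left _ _
    have h6 : 12 * ((r : ℝ) + 1) * ((k * dgp K j l : ℕ) : ℝ) ≤ Zf V D r (T j) := by
      exact_mod_cast h5
    refine le_trans ?_ (hepm j l h1 h2)
    calc 12 * ((r : ℝ) + 1) * (eps j * ((k * dgp K j l : ℕ) : ℝ)) =
          eps j * (12 * (r + 1) * ((k * dgp K j l : ℕ) : ℝ)) := by ring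
      _ ≤ _ := mul_le_mul_of_nonneg_left h6 (hep0 j).le
  obtain ⟨κ, N, Kn, hκ1, hrel⟩ := relv_topY V D jt K
  obtain ⟨εm, hεm, hεml⟩ := fin_pos ((jt + 1) + 1) (f := eps) fun k _ => hep0 k
  obtain ⟨εt, hεt⟩ : ∃ εt : ℝ, εt = εm / (4 * (κ + 1)) := ⟨_, rfl⟩
  have hεt0 : 0 < εt := by rw [hεt]; positivity
  have hεtκ : κ * εt ≤ εm / 4 := by
    have h1 : 4 * (κ + 1) * εt = εm := by rw [hεt]; field_simp
    linarith
  -- the grid
  obtain ⟨km, hkm⟩ := exists_pow_lt_of_lt_one (show 0 < 2 * εm / o' by positivity)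
    (show (1 / 2 : ℝ) < 1 by norm_num)
  have hgrid : ∀ k : ℕ, ∃ a' w' : ℚ, w + o' * (1 / 2) ^ k < w' ∧
      (w' : ℝ) < w + 3 / 2 * (o' * (1 / 2) ^ k) ∧ a + 3 / 2 * (o' * (1 / 2) ^ k) < a' ∧
      (a' : ℝ) < a + 2 * (o' * (1 / 2) ^ k) := by
    intro k
    have h1 : 0 < o' * (1 / 2 : ℝ) ^ k := by positivity
    obtain ⟨w', h2, h3⟩ := exists_rat_btwn (show w + o' * (1 / 2) ^ k <
      w + 3 / 2 * (o' * (1 / 2) ^ k) by linarith)
    obtain ⟨a', h4, h5⟩ := exists_rat_btwn (show a + 3 / 2 * (o' * (1 / 2) ^ k) <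
      a + 2 * (o' * (1 / 2) ^ k) by linarith)
    exact ⟨a', w', h2, h3, h4, h5⟩
  choose a' w' hw'1 hw'2 ha'1 ha'2 using hgrid
  have hok : ∀ k, 0 < o' * (1 / 2 : ℝ) ^ k ∧ o' * (1 / 2 : ℝ) ^ k ≤ o' := fun k =>
    ⟨by positivity, mul_le_of_le_one_right ho'0.le (pow_le_one₀ (by norm_num) (by norm_num))⟩
  have hbk : ∀ k, ∀ l < r, β₀ l (a' k) (w' k) ≤
      β₀ l a w + V₀ * (2 * (o' * (1 / 2) ^ k)) := by
    intro k l hl
    obtain ⟨h1, h2⟩ := hok k
    refine le_trans ?_ (hgr l hl (2 * (o' * (1 / 2) ^ k)) (by linarith) (by linarith))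
    exact (hlaw l).mono (by linarith [hw'1 k]) (by linarith [hw'2 k, ha'1 k])
      (ha'2 k).le (by linarith [hw'2 k]) (by linarith) (by linarith)
  have hκ' : 0 < η' / ((N : ℝ) + 1) := by positivity
  have hno := Bas.all (S := S) km (Φ := fun k J F A => ∀ l < jt + 1, ∀ B : F.Ω → Prop, Sub B A →
      η' / ((N : ℝ) + 1) * Pe F.p A ≤ Pe F.p B → ∀ (a₀ w₀ e₁ : ℕ) (g : ℕ → ℕ), w₀ ≤ a₀ →
      a₀ ≤ ⌊(a' k : ℝ) * J⌋₊ → w₀ ≤ ⌊(w' k : ℝ) * J⌋₊ → (l < jt → e₁ ≤ ⌊θ * w * J⌋₊) → (∀ l' ≤ l, g l' ≤ J) →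
      ⌊(β₀ l (a' k) (w' k) + eps l) * J⌋₊ + a₀ ≤ g l + ⌊(a' k : ℝ) * J⌋₊ →
      ¬ ChN F c (l + 1) (fun _ => Kn) a₀ w₀ e₁ g B) fun k _ =>
    Bas.all (S := S) (jt + 1) (Φ := fun l J F A => ∀ B : F.Ω → Prop, Sub B A →
      η' / ((N : ℝ) + 1) * Pe F.p A ≤ Pe F.p B → ∀ (a₀ w₀ e₁ : ℕ) (g : ℕ → ℕ), w₀ ≤ a₀ →
      a₀ ≤ ⌊(a' k : ℝ) * J⌋₊ → w₀ ≤ ⌊(w' k : ℝ) * J⌋₊ → (l < jt → e₁ ≤ ⌊θ * w * J⌋₊) → (∀ l' ≤ l, g l' ≤ J) →
      ⌊(β₀ l (a' k) (w' k) + eps l) * J⌋₊ + a₀ ≤ g l + ⌊(a' k : ℝ) * J⌋₊ →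
      ¬ ChN F c (l + 1) (fun _ => Kn) a₀ w₀ e₁ g B) fun l hl => by
    obtain ⟨h1, h2⟩ := hok k
    have h3 : (0 : ℝ) ≤ w' k := by linarith [hw'1 k]
    have h4 : (w' k : ℝ) ≤ a' k := by linarith [hw'2 k, ha'1 k]
    have h5 : (a' k : ℝ) ≤ 1 := by linarith [ha'2 k]
    have hb1 : β₀ l (a' k) (w' k) + eps l ≤ 1 := ?_
    · rcases Nat.lt_or_ge l jt with hlt | hlt
      · have e1 : bet P c l (a' k) (w' k) = β₀ l (a' k) (w' k) := by rw [hβV l hlt]
        refine Bas.mono 0 (bas_ev (no_unif hP c l (fun _ => Kn) (a' k) (w' k) (θ * w) (eps l)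
          (by exact_mod_cast h3) (by exact_mod_cast h4) (by exact_mod_cast h5)
          (mul_lt_mul_of_pos_left (by linarith [hw'1 k]) hθ) (hep0 l)
          (by rw [e1]; exact hb1)) hκ') ?_
        rintro J - F A hA B q1 q2 a₀ w₀ e₁ g q3 q4 q5 q6 q7 q8
        rw [e1] at hA
        exact hA B q1 q2 a₀ w₀ e₁ g q3 q4 q5 (q6 hlt) q7 q8
      · have e0 : l = jt := by omega
        subst e0
        have e1 : PT () (a' k) (w' k) = β₀ l (a' k) (w' k) := by rw [hβT]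
        refine Bas.mono 0 (bas_ev (no_unifT hPT hc Kn (a' k) (w' k) (eps l)
          (by exact_mod_cast h3) (by exact_mod_cast h4) (by exact_mod_cast h5) (hep0 l)
          (by rw [e1]; exact hb1)) hκ') ?_
        rintro J - F A hA B q1 q2 a₀ w₀ e₁ g q3 q4 q5 q6 q7 q8
        rw [e1] at hA
        exact hA B q1 q2 a₀ w₀ e₁ g q3 q4 q5 q7 q8
    have h6 := hbk k l (by omega)
    have h7 := hσl l (by omega)
    have h8 := heple l hl.le
    have h9 : V₀ * (2 * (o' * (1 / 2) ^ k)) ≤ σ / 4 := by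
      have := mul_le_mul_of_nonneg_left h2 hV₀0
      linarith
    have h10 := hX0 l
    have h11 : 0 ≤ V * εh := by positivity
    linarith
  have htm := bas_ev (hS.2 (εt / 4) (by positivity)) hκ'
  obtain ⟨J₁, hJ₁⟩ := big ((κ : ℝ) + 10) (show 0 < εm / 8 by positivity)
  obtain ⟨J₂, hJ₂⟩ := big (8 : ℝ) (show 0 < εt / 4 by positivity)
  refine Bas.mono (max J₁ J₂) (hno.and htm) ?_
  rintro J hJ F A ⟨hnoJ, htmJ⟩ G H hLV hL Dx Dl M₀ k1 k2 k3 k4 k0 k5 k6
  have hJ1 := hJ₁ J (le_trans (le_max_left _ _) hJ)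
  have hJ2 := hJ₂ J (le_trans (le_max_right _ _) hJ)
  have hJ0 : (0 : ℝ) ≤ J := Nat.cast_nonneg J
  have hJp : (0 : ℝ) < J := by
    rcases hJ0.lt_or_eq with h | h
    · exact h
    · rw [← h] at hJ2; norm_num at hJ2
  have hκr : (1 : ℝ) ≤ κ := by exact_mod_cast hκ1
  have hJm : ∀ j ≤ jt + 1, (κ : ℝ) + 10 ≤ eps j / 8 * J := fun j hj =>
    hJ1.trans (mul_le_mul_of_nonneg_right (by linarith [hεml j (by omega)]) hJ0)
  obtain ⟨β, hβ⟩ : ∃ β : ℕ → ℝ, β = fun l => β₀ l a w := ⟨_, rfl⟩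
  obtain ⟨g, hg⟩ : ∃ g : ℕ → ℕ, g = fun l => ⌊(β₀ l a w - d l) * J⌋₊ := ⟨_, rfl⟩
  have hgg : (fun l => ⌊(lvT P c jt (PT ()) l a w - d l) * (J : ℝ)⌋₊) = g := by
    rw [hg, hβ₀]
    funext l
    unfold lvT
    dsimp only
    split_ifs <;> rfl
  rw [hgg] at hLV hL k6
  rw [hgg]
  obtain ⟨E, hE⟩ : ∃ E : ℕ → ℕ, E = fun n => if n = 0 then ⌊εt * J⌋₊ else ⌊eps (n - 1) * J⌋₊ :=
    ⟨_, rfl⟩
  have hE0 : E 0 = ⌊εt * J⌋₊ := by rw [hE]; simp
  have hEs : ∀ n, E (n + 1) = ⌊eps n * J⌋₊ := fun n => by rw [hE]; simp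
  have hEle : ∀ n, (E (n + 1) : ℝ) ≤ eps n * J := fun n => by
    rw [hEs]
    exact Nat.floor_le (mul_nonneg (hep0 n).le hJ0)
  have hEge : ∀ n, eps n * J - 1 ≤ (E (n + 1) : ℝ) := fun n => by
    rw [hEs]
    linarith [Nat.lt_floor_add_one (eps n * J)]
  obtain ⟨x, hx⟩ := rec_sum (fun l => E (l + 1) + κ) (fun j l => K l * dgp K j l) (jt + 1)
  have hxle : ∀ l < jt + 1, (x l : ℝ) ≤ 2 * eps l * J := by
    intro l
    induction l using Nat.strong_induction_on with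
    | _ l ih =>
      intro hl
      have h1 : (x l : ℝ) = E (l + 1) + κ + ∑ j ∈ range l, (x j : ℝ) * (K l * dgp K j l : ℕ) := by
        rw [hx l hl]
        push_cast
        ring
      have h2 : ∀ j ∈ range l, (x j : ℝ) * (K l * dgp K j l : ℕ) ≤ eps l * J / (6 * (r + 1)) := by
        intro j hj
        rw [mem_range] at hj
        have h3 := ih j hj (hj.trans hl)
        have h4 := hloss j l (K l) hj hl.le (hKT j l hj hl)
        rw [le_div_iff₀ (by positivity)]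
        have h5 := mul_le_mul_of_nonneg_right h4 hJ0
        have h6 := mul_le_mul_of_nonneg_right h3
          (show (0 : ℝ) ≤ ((K l * dgp K j l : ℕ) : ℝ) * (6 * (r + 1)) by positivity)
        linarith
      have h3 := Finset.sum_le_sum h2
      rw [Finset.sum_const, card_range, nsmul_eq_mul] at h3
      have h4 : (l : ℝ) * (eps l * J / (6 * (r + 1))) ≤ eps l * J / 6 := by
        rw [mul_div_assoc', div_le_div_iff₀ (by positivity) (by norm_num)]
        have h5 : (l : ℝ) ≤ r + 1 := by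
          have : l ≤ r + 1 := by omega
          exact_mod_cast this
        have h6 : 0 ≤ eps l * J := mul_nonneg (hep0 l).le hJ0
        have := mul_le_mul_of_nonneg_right h5 h6
        linarith
      have h5 := hEle l
      have h6 := hJm l hl.le
      have h7 : 0 ≤ eps l * J := mul_nonneg (hep0 l).le hJ0
      rw [h1]
      linarith
  have hβa : ∀ l, a ≤ β l := fun l => by rw [hβ]; exact hlow l a w hw.le hwa ha.le
  have hβ1 : ∀ l, β l ≤ 1 := fun l => by rw [hβ]; exact hupp l a w hw.le hwa ha.le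
  have hgβ : ∀ l, g l = ⌊(β l - d l) * J⌋₊ := fun l => by rw [hg, hβ]
  have hglb : ∀ l, (β l - d l) * J - 1 ≤ (g l : ℝ) := fun l => by
    rw [hgβ]
    linarith [Nat.lt_floor_add_one ((β l - d l) * J)]
  have hgub : ∀ l < jt + 1, (g l : ℝ) ≤ (β l - d l) * J := fun l hl => by
    rw [hgβ]
    refine Nat.floor_le (mul_nonneg ?_ hJ0)
    linarith [hβa l, hdle l hl, heple l hl.le]
  have hxg : ∀ l < jt + 1, x l ≤ g l := by
    intro l hl
    have h1 := hxle l hl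
    have h2 := hglb l
    have h3 := hdle l hl
    have h4 := heple l hl.le
    have h5 := hJm l hl.le
    have h6 := hβa l
    have h7 : (a - 1 / 32 * a) * J ≤ (β l - d l) * J :=
      mul_le_mul_of_nonneg_right (by linarith) hJ0
    have h8 : eps l * J ≤ a / 32 * J := mul_le_mul_of_nonneg_right (by linarith) hJ0
    have h9 : 0 ≤ a * J := mul_nonneg ha0.le hJ0
    have h10 : (x l : ℝ) ≤ g l := by linarith
    exact_mod_cast h10
  obtain ⟨q, hq⟩ : ∃ q : ℕ → ℕ, q = fun l => g l - x l := ⟨_, rfl⟩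
  have hql : ∀ l < jt + 1, q l + x l = g l := fun l hl => by
    rw [hq]
    have := hxg l hl
    show g l - x l + x l = g l
    omega
  have hgls : ∀ l < jt + 1, E (l + 1) + κ + gls K g q l = x l := by
    intro l hl
    rw [hx l hl]
    unfold gls
    congr 1
    refine Finset.sum_congr rfl fun j hj => ?_
    have := hql j ((mem_range.1 hj).trans hl)
    congr 1
    omega
  -- the bad event
  by_contra hcon
  have hbad : ∃ B : F.Ω → Prop, B = fun ω => A ω ∧ ∀ b, NBx c (G (ptr F J ω)) g ⌊a * J⌋₊ (F.t ω) (jt + 1) b →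
      |eval b (Dx (ptr F J ω))| ≤ 2 ^ ⌊η * J⌋₊ * M₀ ω := ⟨_, rfl⟩
  obtain ⟨B₀, hB₀⟩ := hbad
  have hB₀A : Sub B₀ A := fun ω hω => by rw [hB₀] at hω; exact hω.1
  have hB₀P : Pe F.p B₀ < (1 - η') * Pe F.p A := by
    by_contra h
    push Not at h
    exact hcon ⟨B₀, hB₀A, h, fun ω hω => by rw [hB₀] at hω; exact hω.2⟩
  obtain ⟨A', hA'⟩ : ∃ A' : F.Ω → Prop, A' = fun ω => A ω ∧ ¬ B₀ ω := ⟨_, rfl⟩
  have hA'A : Sub A' A := fun ω hω => by rw [hA'] at hω; exact hω.1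
  have hA'P : η' * Pe F.p A < Pe F.p A' := by
    have h1 := pe_split F.p hB₀A
    rw [← hA'] at h1
    linarith
  have hPA0 : 0 ≤ Pe F.p A := Pe_nonneg F.isLaw A
  have hA'0 : 0 < Pe F.p A' := lt_of_le_of_lt (mul_nonneg hη'.le hPA0) hA'P
  have hlow' : ∀ ω, A' ω → ∃ b, NBx c (G (ptr F J ω)) g ⌊a * J⌋₊ (F.t ω) (jt + 1) b ∧
      2 ^ ⌊η * J⌋₊ * M₀ ω ≤ |eval b (Dx (ptr F J ω))| := by
    intro ω hω
    rw [hA'] at hω
    by_contra h
    push Not at h
    refine hω.2 ?_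
    rw [hB₀]
    exact ⟨hω.1, fun b hb => (h b hb).le⟩
  have hNB : ∀ B : F.Ω → Prop, Pe F.p A' ≤ N * Pe F.p B →
      η' / ((N : ℝ) + 1) * Pe F.p A ≤ Pe F.p B := by
    intro B hB
    rw [div_mul_eq_mul_div, div_le_iff₀ (by positivity)]
    have h1 : 0 ≤ Pe F.p B := Pe_nonneg F.isLaw B
    nlinarith
  -- the numbers
  obtain ⟨e₁, he₁⟩ : ∃ e₁ : ℕ, e₁ = ⌊e₀ * J⌋₊ + (⌊(vs + εh) * J⌋₊ + 1) + ⌊εh * J⌋₊ := ⟨_, rfl⟩
  obtain ⟨e', he'⟩ : ∃ e' : ℕ, e' = e₁ + E (jt + 1 + 1) + (⌊(vs + εh) * J⌋₊ + 1) + ⌊2 * εh * J⌋₊ :=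
    ⟨_, rfl⟩
  obtain ⟨f₁, hf₁⟩ : ∃ f₁ : ℕ, f₁ = ⌊E₀ * J⌋₊ + (⌊(vT + vs + εh) * J⌋₊ + 1) + ⌊εh * J⌋₊ :=
    ⟨_, rfl⟩
  obtain ⟨f', hf'⟩ : ∃ f' : ℕ, f' = f₁ + E (jt + 1 + 1) + (⌊(vT + vs + εh) * J⌋₊ + 1) +
      ⌊2 * εh * J⌋₊ := ⟨_, rfl⟩
  have hf1 : (⌊e₀ * J⌋₊ : ℝ) ≤ e₀ * J := Nat.floor_le (mul_nonneg he₀ hJ0)
  have hf2 : (⌊(vs + εh) * J⌋₊ : ℝ) ≤ (vs + εh) * J :=
    Nat.floor_le (mul_nonneg (by linarith) hJ0)
  have hf3 : (⌊εh * J⌋₊ : ℝ) ≤ εh * J := Nat.floor_le (mul_nonneg hε0.le hJ0)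
  have hf4 : (⌊2 * εh * J⌋₊ : ℝ) ≤ 2 * εh * J := Nat.floor_le (mul_nonneg (by linarith) hJ0)
  have hf5 : (⌊a * J⌋₊ : ℝ) ≤ a * J := Nat.floor_le (mul_nonneg ha0.le hJ0)
  have hf6 : (⌊w * J⌋₊ : ℝ) ≤ w * J := Nat.floor_le (mul_nonneg hw.le hJ0)
  have hEi := hEle (jt + 1)
  rw [hepi] at hEi
  have hJi := hJm (jt + 1) le_rfl
  rw [hepi] at hJi
  have hf7 : (⌊E₀ * J⌋₊ : ℝ) ≤ E₀ * J := Nat.floor_le (mul_nonneg hE₀ hJ0)
  have hf8 : (⌊(vT + vs + εh) * J⌋₊ : ℝ) ≤ (vT + vs + εh) * J :=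
    Nat.floor_le (mul_nonneg (by linarith) hJ0)
  have hf₁r : (f₁ : ℝ) ≤ (E₀ + (vT + vs) + 2 * εh) * J + 1 := by
    rw [hf₁]
    push_cast
    linarith
  have he₁r : (e₁ : ℝ) ≤ (e₀ + vs + 2 * εh) * J + 1 := by
    rw [he₁]
    push_cast
    linarith
  have he'r : (e' : ℝ) ≤ (e₀ + 2 * vs + 6 * εh) * J + 2 := by
    rw [he']
    push_cast
    linarith
  have hgdT : ∀ l' ≤ jt, g l' ≤ g jt + (⌊(vT + vs + εh) * J⌋₊ + 1) := by
    intro l' hl'
    rcases hl'.lt_or_eq with h | h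
    · have h1 := hsrtT l' h
      have h2 := hgub l' (by omega)
      have h3 := hglb jt
      have h4 := hdle jt (Nat.lt_succ_self jt)
      have h5 := heple jt (Nat.le_succ jt)
      have h6 : (β l' - d l') * J ≤ (β jt - d jt + (vT + vs + εh)) * J := by
        refine mul_le_mul_of_nonneg_right ?_ hJ0
        have := hd0 l' (by omega)
        rw [hβ]
        show β₀ l' a w - d l' ≤ β₀ jt a w - d jt + (vT + vs + εh)
        rw [hβV l' h, hβT]
        linarith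
      have h7 : (g l' : ℝ) < (g jt : ℝ) + ⌊(vT + vs + εh) * J⌋₊ + 2 := by
        linarith [Nat.lt_floor_add_one ((vT + vs + εh) * J)]
      have h8 : g l' < g jt + ⌊(vT + vs + εh) * J⌋₊ + 2 := by exact_mod_cast h7
      omega
    · subst h
      omega
  have hff : ⌊(vs + εh) * (J : ℝ)⌋₊ ≤ ⌊(vT + vs + εh) * (J : ℝ)⌋₊ :=
    Nat.floor_le_floor (mul_le_mul_of_nonneg_right (by linarith) hJ0)
  have hgd : ∀ l < jt, ∀ l' ≤ l, g l' ≤ g l + (⌊(vs + εh) * J⌋₊ + 1) := by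
    intro l hl l' hl'
    rcases hl'.lt_or_eq with h | h
    · have h1 := hsrt l (by omega) l' h
      have h2 := hgub l' (by omega)
      have h3 := hglb l
      have h4 := hdle l (by omega)
      have h5 := heple l (by omega)
      have h6 : (β l' - d l') * J ≤ (β l - d l + (vs + εh)) * J := by
        refine mul_le_mul_of_nonneg_right ?_ hJ0
        have := hd0 l' (by omega)
        rw [hβ]
        show β₀ l' a w - d l' ≤ β₀ l a w - d l + (vs + εh)
        rw [hβV l' (by omega), hβV l hl]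
        linarith
      have h7 : (g l' : ℝ) < (g l : ℝ) + ⌊(vs + εh) * J⌋₊ + 2 := by
        linarith [Nat.lt_floor_add_one ((vs + εh) * J)]
      have h8 : g l' < g l + ⌊(vs + εh) * J⌋₊ + 2 := by exact_mod_cast h7
      omega
    · subst h
      omega
  have hnoAll : ∀ l < jt + 1, ∀ μ, E (l + 1) ≤ μ → μ ≤ E (jt + 1 + 1) → ∀ B : F.Ω → Prop,
      Sub B A' → Pe F.p A' ≤ N * Pe F.p B → ∀ e'' : ℕ, (l < jt → e'' ≤ e') →
      ¬ ChN F c (l + 1) (fun _ => Kn) (⌊a * J⌋₊ + 4 * μ) (⌊w * J⌋₊ + 4 * μ) e''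
        (fun l' => if l' < l then q l' + 4 * μ else q l + E (l + 1) + V * μ) B := by
    intro l hl μ hμ1 hμ2 B hB hPB e'' he'' hch
    have hlr : l < r := by omega
    have hEl := hEge l
    have hJl := hJm l hl.le
    have hel : εm ≤ eps l := hεml l (by omega)
    have hμr1 : eps l * J - 1 ≤ (μ : ℝ) := hEl.trans (by exact_mod_cast hμ1)
    have hμr2 : (μ : ℝ) ≤ εh * J := (show (μ : ℝ) ≤ E (jt + 1 + 1) by exact_mod_cast hμ2).trans hEi
    have hμ0 : (0 : ℝ) < μ := by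
      have : 0 ≤ eps l * J := mul_nonneg (hep0 l).le hJ0
      linarith
    obtain ⟨t, ht⟩ : ∃ t : ℝ, t = 4 * μ / (J * o') := ⟨_, rfl⟩
    have hJo : 0 < J * o' := mul_pos hJp ho'0
    have ht' : t * (J * o') = 4 * μ := by rw [ht]; field_simp
    have ht0 : 0 < t := by rw [ht]; positivity
    have ht1 : t ≤ 1 := by
      rw [ht, div_le_one hJo]
      have h1 : εh * J ≤ o' / 8 * J := mul_le_mul_of_nonneg_right hε2 hJ0
      have h2 : 0 ≤ o' * J := by positivity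
      linarith
    obtain ⟨k, hk1, hk2⟩ := exists_nat_pow_near_of_lt_one ht0 ht1
      (show (0 : ℝ) < 1 / 2 by norm_num) (by norm_num)
    have hkm' : k < km := by
      by_contra h
      push Not at h
      have h1 : (1 / 2 : ℝ) ^ k ≤ (1 / 2) ^ km :=
        pow_le_pow_of_le_one (by norm_num) (by norm_num) h
      have h2 : 2 * εm / o' ≤ t := by
        rw [ht, div_le_div_iff₀ ho'0 hJo]
        have h3 : εm * J ≤ eps l * J := mul_le_mul_of_nonneg_right hel hJ0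
        have h4 : 2 * (εm * J) ≤ 4 * μ := by linarith
        calc 2 * εm * (J * o') = 2 * (εm * J) * o' := by ring
          _ ≤ 4 * μ * o' := mul_le_mul_of_nonneg_right h4 ho'0.le
      linarith
    obtain ⟨ok, hokd⟩ : ∃ ok : ℝ, ok = o' * (1 / 2) ^ k := ⟨_, rfl⟩
    have hk3 : 4 * (μ : ℝ) ≤ ok * J := by
      have h1 := mul_le_mul_of_nonneg_right hk2 hJo.le
      rw [ht'] at h1
      rw [hokd]
      linarith
    have hk4 : ok * J ≤ 8 * μ := by
      have h1 := mul_le_mul_of_nonneg_right hk1.le hJo.le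
      rw [ht', pow_succ] at h1
      rw [hokd]
      linarith
    have h1 := hbk k l hlr
    have h2 := hw'1 k
    have h3 := ha'1 k
    have h4 := ha'2 k
    have h5 := hw'2 k
    rw [← hokd] at h1 h2 h3 h4 h5
    have hok0 : 0 < ok := by rw [hokd]; positivity
    have hql1 := hql l hl
    have hgl := hglb l
    have hgl' := hgub l hl
    have hdl := hdle l hl
    have hxl := hxle l hl
    have hqr : (q l : ℝ) = g l - x l := by
      have : (q l : ℝ) + x l = g l := by exact_mod_cast hql1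
      linarith
    refine hnoJ k hkm' l hl B (fun ω hω => hA'A ω (hB ω hω)) (hNB B hPB) _ _ _ _ ?_ ?_ ?_ ?_ ?_ ?_
      hch
    · exact Nat.add_le_add_right (Nat.floor_mono (mul_le_mul_of_nonneg_right hwa hJ0)) _
    · refine Nat.le_floor ?_
      push_cast
      have : (a + 3 / 2 * ok) * J ≤ a' k * J := mul_le_mul_of_nonneg_right h3.le hJ0
      linarith
    · refine Nat.le_floor ?_
      push_cast
      have : (w + ok) * J ≤ w' k * J := mul_le_mul_of_nonneg_right h2.le hJ0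
      linarith
    · intro hlt
      refine (he'' hlt).trans (Nat.le_floor (he'r.trans ?_))
      have h6 : (e₀ + 2 * vs + 6 * εh + 1 * εh) * J ≤ θ * w * J := by
        refine mul_le_mul_of_nonneg_right ?_ hJ0
        linarith
      linarith
    · intro l' hl'
      have h6 : ∀ l₁ < jt + 1, (q l₁ : ℝ) ≤ (1 - σ) * J := by
        intro l₁ hl₁
        have h7 := hσl l₁ (by omega)
        have h8 := hql l₁ hl₁
        have h9 : (q l₁ : ℝ) ≤ g l₁ := by
          have : q l₁ ≤ g l₁ := by omega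
          exact_mod_cast this
        have h10 := hgub l₁ hl₁
        have h11 : (β l₁ - d l₁) * J ≤ (1 - σ) * J := by
          refine mul_le_mul_of_nonneg_right ?_ hJ0
          have := hd0 l₁ hl₁
          have h12 := hX0 l₁
          rw [hβ]
          show β₀ l₁ a w - d l₁ ≤ 1 - σ
          linarith
        linarith
      have h7 : (V + 10) * εh * J ≤ σ * J := by
        refine mul_le_mul_of_nonneg_right ?_ hJ0
        have : 0 ≤ (V + 10) * εh := by positivity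
        linarith
      have h8 : (V : ℝ) * μ ≤ V * (εh * J) := mul_le_mul_of_nonneg_left hμr2 hV0'
      have h9 : 0 ≤ V * (εh * J) := by positivity
      have h10 : (E (l + 1) : ℝ) ≤ εh * J :=
        (hEle l).trans (mul_le_mul_of_nonneg_right (heple l hl.le) hJ0)
      show (if l' < l then q l' + 4 * μ else q l + E (l + 1) + V * μ) ≤ J
      split_ifs with h
      · have h11 := h6 l' (by omega)
        have h12 : (q l' : ℝ) + 4 * μ ≤ J := by linarith
        exact_mod_cast h12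
      · have h11 := h6 l hl
        have h12 : (q l : ℝ) + E (l + 1) + V * μ ≤ J := by linarith
        exact_mod_cast h12
    · show ⌊(β₀ l (a' k) (w' k) + eps l) * J⌋₊ + (⌊a * J⌋₊ + 4 * μ) ≤
        (if l < l then q l + 4 * μ else q l + E (l + 1) + V * μ) + ⌊(a' k : ℝ) * J⌋₊
      rw [if_neg (lt_irrefl l)]
      have hb0 : 0 ≤ β₀ l (a' k) (w' k) := by
        have h6 : (0 : ℝ) ≤ w' k := by linarith
        have h7 : (w' k : ℝ) ≤ a' k := by linarith
        have h8 : (a' k : ℝ) ≤ 1 := by linarith [(hok k).2, hokd]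
        exact (by linarith : (0 : ℝ) ≤ a' k).trans (hlow l _ _ h6 h7 h8)
      have h6 : (⌊(β₀ l (a' k) (w' k) + eps l) * J⌋₊ : ℝ) ≤
          (β₀ l (a' k) (w' k) + eps l) * J :=
        Nat.floor_le (mul_nonneg (add_nonneg hb0 (hep0 l).le) hJ0)
      have h7 : (β₀ l (a' k) (w' k) + eps l) * J ≤ (β l + V₀ * (2 * ok) + eps l) * J := by
        refine mul_le_mul_of_nonneg_right ?_ hJ0
        rw [hβ]
        show _ ≤ β₀ l a w + V₀ * (2 * ok) + eps l
        linarith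
      have h8 : V₀ * (ok * J) ≤ V₀ * (8 * μ) := mul_le_mul_of_nonneg_left hk4 hV₀0
      have h9 : (16 * V₀ + 4) * (μ : ℝ) ≤ V * μ := mul_le_mul_of_nonneg_right hVr hμ0.le
      have h10 := Nat.lt_floor_add_one ((a' k : ℝ) * J)
      have h11 : (a + 3 / 2 * ok) * J ≤ a' k * J := mul_le_mul_of_nonneg_right h3.le hJ0
      have h12 : d l * J ≤ eps l * J := mul_le_mul_of_nonneg_right hdl hJ0
      have h13 : ((⌊(β₀ l (a' k) (w' k) + eps l) * J⌋₊ + (⌊a * J⌋₊ + 4 * μ) : ℕ) : ℝ) ≤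
          ((q l + E (l + 1) + V * μ + ⌊(a' k : ℝ) * J⌋₊ : ℕ) : ℝ) := by
        push_cast
        rw [hqr]
        linarith
      exact_mod_cast h13
  have hkg : ∀ l < jt + 1, κ + gls K g q l ≤ ⌊εh * J⌋₊ := by
    intro l hl
    have h2 := hgls l hl
    have h3 := hxle l hl
    have h4 := hEge l
    have h5 : eps l * 4 ≤ εh := by
      have h6 := hepm l (jt + 1) hl le_rfl
      rw [hepi] at h6
      refine le_trans (mul_le_mul_of_nonneg_left ?_ (hep0 l).le) h6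
      have : 4 ≤ Zf V D r (T l) := by
        unfold Zf
        have h7 : (V + 4) ^ 1 ≤ (V + 4) ^ (D * T l ^ r + 1) :=
          Nat.pow_le_pow_right (by omega) (by omega)
        rw [pow_one] at h7
        omega
      exact_mod_cast this
    have h6 := mul_le_mul_of_nonneg_right h5 hJ0
    have h7 := hJm l hl.le
    refine Nat.le_floor ?_
    have h9 : (E (l + 1) : ℝ) + (κ + gls K g q l : ℕ) = x l := by
      rw [← h2]
      push_cast
      ring
    linarith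
  refine hrel (A := A') (e := ⌊e₀ * J⌋₊) (e₁ := e₁) (e' := e') (eT := ⌊E₀ * J⌋₊) (f₁ := f₁)
    (f' := f') (e₀ := ⌊εt / 2 * J⌋₊)
    (y := ⌊η * J⌋₊) (Y := ⌊(1 - μ) * J⌋₊) (Z := ⌊(1 - μT) * J⌋₊) (M₀ := M₀) (q := q) (E := E) (G := G) (H := H) (Dx := Dx) (Dl := Dl)
    hA'0 (Nat.floor_mono (mul_le_mul_of_nonneg_right hwa hJ0))
    hc (hLV.sub hA'A) (hL.sub hA'A) k1 k2 k3 k4
    (fun ω hω => k0 ω (hA'A ω hω)) (fun ω hω => k5 ω (hA'A ω hω))
    (fun ω hω => k6 ω (hA'A ω hω)) hlow' ?_ ?_ ?_ ?_ ?_ ?_ ?_ ?_ ?_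
    ?_ ?_ ?_ ?_ ?_ ?_ ?_ ?_ (fun l hl μ h1 h2 B h3 h4 => hnoAll l (by omega) μ h1 h2 B h3 h4 e' fun _ => le_rfl)
    (fun μ h1 h2 B h3 h4 => hnoAll jt (Nat.lt_succ_self jt) μ h1 h2 B h3 h4 f' fun h =>
      absurd h (lt_irrefl jt))
  · -- the time
    refine tmN_of htmJ ?_ hA'A hA'0 fun B _ hB => hNB B hB
    linarith [Nat.lt_floor_add_one (εt / 2 * J)]
  · -- `E 0`
    rw [hE0]
    refine Nat.le_floor ?_
    push_cast
    have : (⌊εt / 2 * J⌋₊ : ℝ) ≤ εt / 2 * J := Nat.floor_le (by positivity)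
    linarith
  · intro l hl
    rw [hEs]
    refine Nat.le_floor ?_
    push_cast
    rw [hE0]
    have h1 : (⌊εt * J⌋₊ : ℝ) ≤ εt * J := Nat.floor_le (by positivity)
    have h2 : (κ : ℝ) * ⌊εt * J⌋₊ ≤ κ * (εt * J) := mul_le_mul_of_nonneg_left h1 (by linarith)
    have h3 := mul_le_mul_of_nonneg_right hεtκ hJ0
    have h4 : εm * J ≤ eps l * J := mul_le_mul_of_nonneg_right (hεml l (by omega)) hJ0
    have h5 : 0 ≤ εm * J := by positivity
    linarith
  · intro l hl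
    rw [hEs (l + 1)]
    refine Nat.le_floor ?_
    push_cast
    have h1 : ((V : ℝ) + 4) ^ (D * dgp K l (jt + 1) + 1) ≤ Zf V D r (T l) := by
      have h2 : (V + 4) ^ (D * dgp K l (jt + 1) + 1) ≤ Zf V D r (T l) := by
        unfold Zf
        refine le_trans (Nat.pow_le_pow_right (by omega) ?_) (Nat.le_add_right _ _)
        exact Nat.add_le_add_right (Nat.mul_le_mul_left _ (hdg l (jt + 1) hl le_rfl)) _
      exact_mod_cast h2
    calc ((V : ℝ) + 4) ^ (D * dgp K l (jt + 1) + 1) * (E (l + 1) : ℝ) ≤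
          Zf V D r (T l) * (eps l * J) :=
          mul_le_mul h1 (hEle l) (Nat.cast_nonneg _) (Nat.cast_nonneg _)
      _ = eps l * Zf V D r (T l) * J := by ring
      _ ≤ _ := mul_le_mul_of_nonneg_right (hepm l (l + 1) (by omega) (by omega)) hJ0
  · intro l hl
    have := hql l hl
    omega
  · intro l hl
    have h1 := hql l hl
    have h2 := hgls l hl
    omega
  · have h1 : ∑ j ∈ range (jt + 1), (g j - q j) * (D * dgp K j (jt + 1)) =
        ∑ j ∈ range (jt + 1), x j * (D * dgp K j (jt + 1)) := Finset.sum_congr rfl fun j hj => by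
      have := hql j (mem_range.1 hj)
      congr 1
      omega
    rw [h1]
    refine Nat.le_floor ?_
    rw [Nat.cast_add, Nat.cast_add, Nat.cast_sum]
    have h2 : ∀ j ∈ range (jt + 1), ((x j * (D * dgp K j (jt + 1)) : ℕ) : ℝ) ≤ εh * J / (6 * (r + 1)) := by
      intro j hj
      rw [mem_range] at hj
      have h3 := hxle j hj
      have h4 := hloss j (jt + 1) D hj le_rfl (hDT j)
      rw [hepi] at h4
      rw [le_div_iff₀ (by positivity), Nat.cast_mul]
      have h5 := mul_le_mul_of_nonneg_right h4 hJ0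
      have h6 := mul_le_mul_of_nonneg_right h3
        (show (0 : ℝ) ≤ ((D * dgp K j (jt + 1) : ℕ) : ℝ) * (6 * (r + 1)) by positivity)
      linarith
    have h3 := Finset.sum_le_sum h2
    rw [Finset.sum_const, card_range, nsmul_eq_mul] at h3
    have h4 : ((jt + 1 : ℕ) : ℝ) * (εh * J / (6 * (r + 1))) ≤ εh * J / 6 := by
      rw [mul_div_assoc', div_le_div_iff₀ (by positivity) (by norm_num)]
      have h5 : ((jt + 1 : ℕ) : ℝ) ≤ r + 1 := by
        have : (jt + 1) ≤ r + 1 := by omega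
        exact_mod_cast this
      have h6 : 0 ≤ εh * J := mul_nonneg hε0.le hJ0
      have := mul_le_mul_of_nonneg_right h5 h6
      linarith
    have h5 : εh * J ≤ η / 8 * J := mul_le_mul_of_nonneg_right hε1 hJ0
    have h6 : 0 ≤ εh * J := mul_nonneg hε0.le hJ0
    linarith
  · intro l hl l' hl'
    have h1 : nlp g l' l ≤ ⌊(vs + εh) * J⌋₊ + 1 := by
      unfold nlp
      have : (Finset.Icc l' l).sup g ≤ g l + (⌊(vs + εh) * J⌋₊ + 1) :=
        Finset.sup_le fun j hj => hgd l hl j (Finset.mem_Icc.1 hj).2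
      omega
    have h8 := hkg l (by omega)
    rw [he₁]
    omega
  · intro l hl l' hl'
    have h1 : nlp g l' l ≤ ⌊(vT + vs + εh) * J⌋₊ + 1 := by
      unfold nlp
      rcases Nat.lt_or_ge l jt with h | h
      · have : (Finset.Icc l' l).sup g ≤ g l + (⌊(vs + εh) * J⌋₊ + 1) :=
          Finset.sup_le fun j hj => hgd l h j (Finset.mem_Icc.1 hj).2
        omega
      · have h' : l = jt := by omega
        subst h'
        have : (Finset.Icc l' l).sup g ≤ g l + (⌊(vT + vs + εh) * J⌋₊ + 1) :=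
          Finset.sup_le fun j hj => hgdT j (Finset.mem_Icc.1 hj).2
        omega
    have h8 := hkg l hl
    rw [hf₁]
    omega
  · intro l hl l' hl'
    have h1 := hgd l hl l' hl'
    have h2 := hql l (by omega)
    have h3 := hql l' (by omega)
    have h4 : x l ≤ ⌊2 * εh * J⌋₊ := by
      refine Nat.le_floor ((hxle l (by omega)).trans ?_)
      exact mul_le_mul_of_nonneg_right (by linarith [heple l (by omega)]) hJ0
    rw [he']
    omega
  · intro l' hl'
    have h1 := hgdT l' hl'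
    have h2 := hql jt (Nat.lt_succ_self jt)
    have h3 := hql l' (by omega)
    have h4 : x jt ≤ ⌊2 * εh * J⌋₊ := by
      refine Nat.le_floor ((hxle jt (Nat.lt_succ_self jt)).trans ?_)
      exact mul_le_mul_of_nonneg_right (by linarith [heple jt (Nat.le_succ jt)]) hJ0
    rw [hf']
    omega
  · intro l hl
    have h1 := hql l (by omega)
    have h2 := hgub l (by omega)
    have h3 : (q l : ℝ) ≤ g l := by
      have : q l ≤ g l := by omega
      exact_mod_cast this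
    have h4 := hσl l (by omega)
    rw [hXV l hl] at h4
    have h5 : (q l : ℝ) + e₁ + 7 * E (jt + 1 + 1) ≤ J := by
      have h6 : (β l - d l) * J + ((e₀ + vs + 2 * εh) * J + 1) + 7 * (εh * J) ≤ 1 * J := by
        have h7 : (β l - d l + (e₀ + vs + 2 * εh) + εh + 7 * εh) * J ≤ 1 * J := by
          refine mul_le_mul_of_nonneg_right ?_ hJ0
          have := hd0 l (by omega)
          rw [hβ]
          show β₀ l a w - d l + (e₀ + vs + 2 * εh) + εh + 7 * εh ≤ 1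
          linarith
        linarith
      linarith
    exact_mod_cast h5
  · have h1 := hql jt (Nat.lt_succ_self jt)
    have h2 := hgub jt (Nat.lt_succ_self jt)
    have h3 : (q jt : ℝ) ≤ g jt := by
      have : q jt ≤ g jt := by omega
      exact_mod_cast this
    have h4 := hσl jt (by omega)
    have h4' := hXT1
    have h5 : (q jt : ℝ) + f₁ + 7 * E (jt + 1 + 1) ≤ J := by
      have h6 : (β jt - d jt) * J + ((E₀ + (vT + vs) + 2 * εh) * J + 1) + 7 * (εh * J) ≤ 1 * J := by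
        have h7 : (β jt - d jt + (E₀ + (vT + vs) + 2 * εh) + εh + 7 * εh) * J ≤ 1 * J := by
          refine mul_le_mul_of_nonneg_right ?_ hJ0
          have := hd0 jt (Nat.lt_succ_self jt)
          have h8 : 8 * 10 * εh ≤ 8 * (V + 10) * εh := by
            have : 0 ≤ (V : ℝ) * εh := by positivity
            linarith
          rw [hβ]
          show β₀ jt a w - d jt + (E₀ + (vT + vs) + 2 * εh) + εh + 7 * εh ≤ 1
          linarith
        linarith
      linarith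
    exact_mod_cast h5
  · intro l hl
    have h1 := hql l (by omega)
    have h2 := hgub l (by omega)
    have h3 : (q l : ℝ) ≤ g l := by
      have : q l ≤ g l := by omega
      exact_mod_cast this
    have h4 := hσl l (by omega)
    rw [hXV l hl] at h4
    refine Nat.le_floor ?_
    push_cast
    have h6 : (β l - d l) * J + ((e₀ + vs + 2 * εh) * J + 1) + εh * J + κ ≤ (1 - μ) * J := by
      have h7 : (β l - d l + (e₀ + vs + 2 * εh) + εh + εh) * J ≤ (1 - μ) * J := by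
        refine mul_le_mul_of_nonneg_right ?_ hJ0
        have := hd0 l (by omega)
        rw [hβ]
        show β₀ l a w - d l + (e₀ + vs + 2 * εh) + εh + εh ≤ 1 - μ
        linarith
      have h8 : (κ : ℝ) + 10 ≤ εh / 8 * J := hJi
      have h9 : 0 ≤ εh * J := by positivity
      linarith
    linarith
  · have h1 := hql jt (Nat.lt_succ_self jt)
    have h2 := hgub jt (Nat.lt_succ_self jt)
    have h3 : (q jt : ℝ) ≤ g jt := by
      have : q jt ≤ g jt := by omega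
      exact_mod_cast this
    have h4 := hσl jt (by omega)
    have h4' := hXT1
    refine Nat.le_floor ?_
    push_cast
    have h6 : (β jt - d jt) * J + ((E₀ + (vT + vs) + 2 * εh) * J + 1) + εh * J + κ ≤
        (1 - μ) * J := by
      have h7 : (β jt - d jt + (E₀ + (vT + vs) + 2 * εh) + εh + εh) * J ≤ (1 - μ) * J := by
        refine mul_le_mul_of_nonneg_right ?_ hJ0
        have := hd0 jt (Nat.lt_succ_self jt)
        have h8 : 8 * 10 * εh ≤ 8 * (V + 10) * εh := by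
          have : 0 ≤ (V : ℝ) * εh := by positivity
          linarith
        rw [hβ]
        show β₀ jt a w - d jt + (E₀ + (vT + vs) + 2 * εh) + εh + εh ≤ 1 - μ
        linarith
      have h8 : (κ : ℝ) + 10 ≤ εh / 8 * J := hJi
      have h9 : 0 ≤ εh * J := by positivity
      linarith
    linarith
  · have h1 := hql jt (Nat.lt_succ_self jt)
    have h2 := hgub jt (Nat.lt_succ_self jt)
    have h3 : (q jt : ℝ) ≤ g jt := by
      have : q jt ≤ g jt := by omega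
      exact_mod_cast this
    have h4 := hσl jt (by omega)
    have h4' := hXT2
    refine Nat.le_floor ?_
    push_cast
    have h6 : (β jt - d jt) * J + εh * J + κ ≤ (1 - μT) * J := by
      have h7 : (β jt - d jt + εh + εh) * J ≤ (1 - μT) * J := by
        refine mul_le_mul_of_nonneg_right ?_ hJ0
        have := hd0 jt (Nat.lt_succ_self jt)
        have h8 : 8 * 10 * εh ≤ 8 * (V + 10) * εh := by
          have : 0 ≤ (V : ℝ) * εh := by positivity
          linarith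
        rw [hβ]
        show β₀ jt a w - d jt + εh + εh ≤ 1 - μT
        linarith
      have h8 : (κ : ℝ) + 10 ≤ εh / 8 * J := hJi
      have h9 : 0 ≤ εh * J := by positivity
      linarith
    linarith
  · have h1 : (⌊w * J⌋₊ : ℝ) + 4 * E (jt + 1 + 1) ≤ J := by
      have h2 : (w + 4 * εh) * J ≤ 1 * J := mul_le_mul_of_nonneg_right (by linarith) hJ0
      linarith
    exact_mod_cast h1

end Pool.Z3
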