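import Pool.Agent.H77.Z3.Join
import Pool.Agent.H9.ZC.Zpt

/-!
# Chains of the sheared zoom near the natural boxes of a chain of the family

`zsb`: the coordinates of the sheared zoom as polynomials in the coordinates of the family; `zmp`:
the corresponding map of points. `own_ex`: the own point of the zoom comes from a point near the own
point. `zb_near`: at the points of the natural boxes of a chain without relations of all the
coordinates the coordinates of the zoom are near the labels of any chain of the zoom.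
-/

set_option autoImplicit false

namespace Pool.Z3

open Finset Real MvPolynomial
open Pool.Agent.H49.Ent Pool.Agent.H32.Dense Pool.STK Pool.KA Pool.KSAT Pool.K2S Pool.PB Pool.S6C
open Pool.GEN Pool.CHT Pool.CHX Pool.ZLC Pool.ZCL

variable {m n J : ℕ} {V : Type}

/-- The coordinates of the sheared zoom with the label `(T, v, p, q)` of the box, as polynomials. -/
noncomputable def zsb (cb : V → Fin m → ℝ) (u : Fin m) (Lt : Finset (Fin m)) (M : Fin m → ℕ)
    (w : ℕ) (e : Fin n → Fin m) (T : ℕ) (v : V) (p q : Fin m → ℤ) :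
    Option (Fin n) → MvPolynomial (Option (Fin m)) ℝ
  | none => C (2 ^ w) * X none - C (T : ℝ)
  | some k => C (2 ^ w) * (if e k ∈ Lt then C (1 / 2 ^ M (e k)) * (X (some (e k)) -
      C (clp (M (e k)) (cb v (e k))) * X (some u)) else X (some (e k))) - C (p (e k) : ℝ) -
      (C (2 ^ w) * X none - C (T : ℝ)) * C (q (e k) : ℝ)

/-- The map of points. -/
noncomputable def zmp (cb : V → Fin m → ℝ) (u : Fin m) (Lt : Finset (Fin m)) (M : Fin m → ℕ)
    (w : ℕ) (e : Fin n → Fin m) (T : ℕ) (v : V) (p q : Fin m → ℤ) (b : Option (Fin m) → ℝ) :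
    Option (Fin n) → ℝ := fun o => eval b (zsb cb u Lt M w e T v p q o)

section

variable {cb : V → Fin m → ℝ} {u : Fin m} {Lt : Finset (Fin m)} {M : Fin m → ℕ} {w : ℕ}
  {e : Fin n → Fin m} {T : ℕ} {v : V} {p q : Fin m → ℤ}

theorem zmp_none (b : Option (Fin m) → ℝ) :
    zmp cb u Lt M w e T v p q b none = 2 ^ w * b none - T := by
  unfold zmp zsb
  simp only [map_sub, map_mul, eval_C, eval_X]

theorem zmp_not {k : Fin n} (hk : e k ∉ Lt) (b : Option (Fin m) → ℝ) :
    zmp cb u Lt M w e T v p q b (some k) =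
      2 ^ w * b (some (e k)) - p (e k) - (2 ^ w * b none - T) * q (e k) := by
  unfold zmp zsb
  simp only [if_neg hk, map_sub, map_mul, eval_C, eval_X]

theorem zmp_mem {k : Fin n} (hk : e k ∈ Lt) (b : Option (Fin m) → ℝ) :
    zmp cb u Lt M w e T v p q b (some k) =
      2 ^ w * (1 / 2 ^ M (e k) * (b (some (e k)) - clp (M (e k)) (cb v (e k)) * b (some u))) -
        p (e k) - (2 ^ w * b none - T) * q (e k) := by
  unfold zmp zsb
  simp only [if_pos hk, map_sub, map_mul, eval_C, eval_X]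

theorem zsb_deg (o : Option (Fin n)) : (zsb cb u Lt M w e T v p q o).totalDegree ≤ 1 := by
  have h1 : ∀ (a : ℝ) (P : MvPolynomial (Option (Fin m)) ℝ), P.totalDegree ≤ 1 →
      (C a * P).totalDegree ≤ 1 := fun a P h =>
    (totalDegree_mul _ _).trans (by rw [totalDegree_C, zero_add]; exact h)
  have h2 : ∀ P Q : MvPolynomial (Option (Fin m)) ℝ, P.totalDegree ≤ 1 → Q.totalDegree ≤ 1 →
      (P - Q).totalDegree ≤ 1 := fun P Q hP hQ => (totalDegree_sub _ _).trans (max_le hP hQ)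
  have h3 : ∀ a : ℝ, (C a : MvPolynomial (Option (Fin m)) ℝ).totalDegree ≤ 1 := fun a => by
    rw [totalDegree_C]
    exact Nat.zero_le _
  have h4 : ∀ i : Option (Fin m), (X i : MvPolynomial (Option (Fin m)) ℝ).totalDegree ≤ 1 :=
    fun i => (totalDegree_X _).le
  rcases o with _ | k
  · exact h2 _ _ (h1 _ _ (h4 _)) (h3 _)
  · unfold zsb
    refine h2 _ _ (h2 _ _ (h1 _ _ ?_) (h3 _)) ?_
    · split_ifs
      · exact h1 _ _ (h2 _ _ (h4 _) (h1 _ _ (h4 _)))
      · exact h4 _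
    · rw [mul_comm]
      exact h1 _ _ (h2 _ _ (h1 _ _ (h4 _)) (h3 _))

theorem zmp_dep {c : ℕ → Fin m} {r : ℕ} (he : ∀ k, ∃ l < r, e k = c l) (hu : ∃ l < r, u = c l)
    {b b' : Option (Fin m) → ℝ} (hn : b none = b' none)
    (hb : ∀ l < r, b (some (c l)) = b' (some (c l))) :
    zmp cb u Lt M w e T v p q b = zmp cb u Lt M w e T v p q b' := by
  funext o
  rcases o with _ | k
  · rw [zmp_none, zmp_none, hn]
  · obtain ⟨l, h1, h2⟩ := he k
    obtain ⟨l', h3, h4⟩ := hu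
    by_cases hk : e k ∈ Lt
    · rw [zmp_mem hk, zmp_mem hk, hn, h2, h4, hb l h1, hb l' h3]
    · rw [zmp_not hk, zmp_not hk, hn, h2, hb l h1]

/-- The pull back of the label of the coordinate `k`. -/
noncomputable def zpl (cb : V → Fin m → ℝ) (u : Fin m) (Lt : Finset (Fin m)) (M : Fin m → ℕ)
    (w : ℕ) (e : Fin n → Fin m) (T : ℕ) (v : V) (p q : Fin m → ℤ) (k : Fin n)
    (Q : MvPolynomial (Option (Fin n)) ℝ) : MvPolynomial (Option (Fin m)) ℝ :=
  zsb cb u Lt M w e T v p q (some k) - aeval (zsb cb u Lt M w e T v p q) Q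

theorem eval_zpl (k : Fin n) (Q : MvPolynomial (Option (Fin n)) ℝ) (b : Option (Fin m) → ℝ) :
    eval b (zpl cb u Lt M w e T v p q k Q) = zmp cb u Lt M w e T v p q b (some k) -
      eval (zmp cb u Lt M w e T v p q b) Q := by
  unfold zpl
  rw [map_sub, eval_aevalσ]
  rfl

theorem zpl_deg {k : Fin n} {Q : MvPolynomial (Option (Fin n)) ℝ} {K : ℕ} (hK : 1 ≤ K)
    (hQ : Q.totalDegree ≤ K) : (zpl cb u Lt M w e T v p q k Q).totalDegree ≤ K := by
  refine (totalDegree_sub _ _).trans (max_le ((zsb_deg _).trans hK) ?_)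
  have := totalDegree_aevalσ (g := zsb cb u Lt M w e T v p q) (fun o => zsb_deg o) hQ
  rwa [one_mul] at this

theorem zpl_dep {c : ℕ → Fin m} {r : ℕ} (he : ∀ k, ∃ l < r, e k = c l) (hu : ∃ l < r, u = c l)
    (k : Fin n) (Q : MvPolynomial (Option (Fin n)) ℝ) :
    DepC c r (zpl cb u Lt M w e T v p q k Q) := by
  intro b b' hn hb
  rw [eval_zpl, eval_zpl, zmp_dep he hu hn hb]

end

/-- The time of the zoom. -/
theorem zfc_t {κ : Type} (F : Fam m J) {w J' : ℕ} (h : w + J' = J) (C : Crd m κ) (g : F.Ω → κ)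
    (e : Fin n → Fin m) (ω : F.Ω) : (zfc F w J' h.le C g e).t ω = 2 ^ w * F.t ω - F.T1 w ω := by
  have h1 := Box.box_t F (by omega : w ≤ J) C g ω
  have h2 : (zfc F w J' h.le C g e).t ω = (F.box w C g).t ω := by
    have e1 : (zfc F w J' h.le C g e).t ω =
      (((F.box w C g).T ω / 2 ^ (J - w - J') : ℕ) : ℝ) / 2 ^ J' := rfl
    have e2 : (F.box w C g).t ω = ((F.box w C g).T ω : ℝ) / 2 ^ (J - w) := rfl
    have e3 : J - w - J' = 0 := by omega
    have e4 : (2 : ℝ) ^ (J - w) = 2 ^ J' := by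
      congr 1
      omega
    rw [e1, e2, e3, pow_zero, Nat.div_one, e4]
  rw [h2, h1]
  field_simp
  ring

/-- **The own point of the zoom** comes from a point near the own point. -/
theorem own_ex (F : Fam m J) {w J' : ℕ} (h : w + J' = J) (z' : LnT F → V) (cb : V → Fin m → ℝ)
    {u : Fin m} {Lt : Finset (Fin m)} (hu : u ∉ Lt) (M : Fin m → ℕ) {e : Fin n → Fin m}
    (he : Function.Injective e) (ω : F.Ω) :
    ∃ y : Option (Fin m) → ℝ, y none = F.t ω ∧
      (∀ i, |y (some i) - F.x ω i| ≤ 6 * 2 ^ M i / 2 ^ J) ∧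
      zmp cb u Lt M w e (F.T1 w ω) (z' (slam F w ω))
        (F.bcl w (shC cb u Lt hu M) (fun ω => z' (slam F w ω)) ω)
        (F.bvl (shC cb u Lt hu M) (fun ω => z' (slam F w ω)) ω) y =
        bt (zsh F w J' h.le z' cb u Lt hu M e) ω := by
  classical
  obtain ⟨Cr, hCr⟩ : ∃ Cr, Cr = shC cb u Lt hu M := ⟨_, rfl⟩
  obtain ⟨gg, hgg⟩ : ∃ gg : F.Ω → V, gg = fun ω => z' (slam F w ω) := ⟨_, rfl⟩
  rw [← hgg, ← hCr]
  have pw : (0 : ℝ) < 2 ^ w := by positivity
  have pJ' : (0 : ℝ) < 2 ^ J' := by positivity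
  have hJJ : (2 : ℝ) ^ J = 2 ^ w * 2 ^ J' := by rw [← pow_add, h]
  obtain ⟨G, hG⟩ : ∃ G : Fam n J', G = zsh F w J' h.le z' cb u Lt hu M e := ⟨_, rfl⟩
  obtain ⟨δ, hδ⟩ : ∃ δ : Fin n → ℝ, δ = fun k => (zsh F w J' h.le z' cb u Lt hu M e).x ω k -
    (2 ^ w * Cr.L (gg ω) (F.x ω) (e k) - F.bcl w Cr gg ω (e k) -
      tb F w ω * F.bvl Cr gg ω (e k)) := ⟨_, rfl⟩
  have hδ1 : ∀ k, |δ k| ≤ 3 / 2 ^ J' := fun k => by
    rw [hδ, hCr, hgg]
    exact zfc_x F h.le (shC cb u Lt hu M) (fun ω => z' (slam F w ω)) e ω k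
  obtain ⟨δ', hδ'⟩ : ∃ δ' : Fin m → ℝ, δ' = fun i => if h : ∃ k, e k = i then δ h.choose else 0 :=
    ⟨_, rfl⟩
  have hδe : ∀ k, δ' (e k) = δ k := fun k => by
    rw [hδ']
    have hex : ∃ k', e k' = e k := ⟨k, rfl⟩
    simp only [dif_pos hex]
    rw [he hex.choose_spec]
  have hδ'1 : ∀ i, |δ' i| ≤ 3 / 2 ^ J' := fun i => by
    rw [hδ']
    simp only
    split_ifs with h1
    · exact hδ1 _
    · rw [abs_zero]
      positivity
  have hd1 : ∀ i, |δ' i / 2 ^ w| ≤ 3 / 2 ^ J := fun i => by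
    rw [abs_div, abs_of_pos pw, div_le_iff₀ pw, hJJ]
    refine (hδ'1 i).trans (le_of_eq ?_)
    field_simp
  obtain ⟨y, hy⟩ : ∃ y : Option (Fin m) → ℝ, y = fun o => match o with
    | none => F.t ω
    | some i => if i ∈ Lt then F.x ω i + clp (M i) (cb (gg ω) i) * (δ' u / 2 ^ w) +
        2 ^ M i * (δ' i / 2 ^ w) else F.x ω i + δ' i / 2 ^ w := ⟨_, rfl⟩
  have hyn : y none = F.t ω := by rw [hy]
  have hy1 : ∀ i, i ∉ Lt → y (some i) = F.x ω i + δ' i / 2 ^ w := fun i hi => by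
    rw [hy]
    exact if_neg hi
  have hy2 : ∀ i, i ∈ Lt → y (some i) = F.x ω i + clp (M i) (cb (gg ω) i) * (δ' u / 2 ^ w) +
      2 ^ M i * (δ' i / 2 ^ w) := fun i hi => by
    rw [hy]
    exact if_pos hi
  refine ⟨y, hyn, fun i => ?_, ?_⟩
  · have p1 : (1 : ℝ) ≤ 2 ^ M i := one_le_pow₀ one_le_two
    have pJ : (0 : ℝ) < 2 ^ J := by positivity
    by_cases hi : i ∈ Lt
    · rw [hy2 i hi]
      have e1 : F.x ω i + clp (M i) (cb (gg ω) i) * (δ' u / 2 ^ w) + 2 ^ M i * (δ' i / 2 ^ w) -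
          F.x ω i = clp (M i) (cb (gg ω) i) * (δ' u / 2 ^ w) + 2 ^ M i * (δ' i / 2 ^ w) := by ring
      rw [e1]
      refine (abs_add_le _ _).trans ?_
      rw [abs_mul, abs_mul, abs_of_pos (by positivity : (0 : ℝ) < 2 ^ M i)]
      have h2 := mul_le_mul (clp_le (M i) (cb (gg ω) i)) (hd1 u) (abs_nonneg _) (by positivity)
      have h3 := mul_le_mul_of_nonneg_left (hd1 i) (by positivity : (0 : ℝ) ≤ 2 ^ M i)
      have e2 : 6 * 2 ^ M i / 2 ^ J = 2 ^ M i * (3 / 2 ^ J) + (2 : ℝ) ^ M i * (3 / 2 ^ J) := by ring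
      rw [e2]
      exact add_le_add h2 h3
    · rw [hy1 i hi, add_sub_cancel_left]
      refine (hd1 i).trans ?_
      refine div_le_div_of_nonneg_right ?_ pJ.le
      linarith
  · funext o
    rcases o with _ | k
    · rw [zmp_none, hyn]
      exact (zfc_t F h (shC cb u Lt hu M) (fun ω => z' (slam F w ω)) e ω).symm
    · show _ = (zsh F w J' h.le z' cb u Lt hu M e).x ω k
      have e3 : (zsh F w J' h.le z' cb u Lt hu M e).x ω k =
          2 ^ w * Cr.L (gg ω) (F.x ω) (e k) - F.bcl w Cr gg ω (e k) -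
            tb F w ω * F.bvl Cr gg ω (e k) + δ k := by
        rw [hδ]
        ring
      rw [e3]
      have e4 : tb F w ω = 2 ^ w * F.t ω - F.T1 w ω := rfl
      by_cases hk : e k ∈ Lt
      · rw [zmp_mem hk, hyn, hy2 _ hk, hy1 u hu, hδe, e4]
        have e5 : Cr.L (gg ω) (F.x ω) (e k) =
            (F.x ω (e k) - clp (M (e k)) (cb (gg ω) (e k)) * F.x ω u) / 2 ^ M (e k) := by
          rw [hCr]
          exact shC_mem hk _ _
        rw [e5]
        have e6 : z' (slam F w ω) = gg ω := by rw [hgg]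
        rw [e6]
        field_simp
        ring
      · rw [zmp_not hk, hyn, hy1 _ hk, hδe, e4]
        have e5 : Cr.L (gg ω) (F.x ω) (e k) = F.x ω (e k) := by
          rw [hCr]
          exact shC_not hk _ _
        rw [e5]
        field_simp
        ring

end Pool.Z3
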