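import Pool.Agent.H77.Z3.Zbb
import Pool.Agent.H87.GEN.Shr

/-!
# The number of the direction of the shear in the sheared zoom

`zb_fam`: a chain without relations of all the coordinates; the labels after the one of the
direction `u` of the shear move with the shear. Then every chain of the sheared zoom with `u` on the
top has at most the precision of the label of `u`.
-/

set_option autoImplicit false

namespace Pool.Z3

open Finset Real MvPolynomial
open Pool.Agent.H49.Ent Pool.Agent.H32.Dense Pool.STK Pool.KA Pool.KSAT Pool.K2S Pool.PB Pool.S6C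
open Pool.GEN Pool.CHT Pool.CHX Pool.ZLC Pool.ZCL Pool.SHR
open Pool.ISO (nbx_ext)

variable {m n J : ℕ} {V : Type}

/-- The direction of the shear. -/
noncomputable def shv {F : Fam m J} (z : PtT F → V) (cb : V → Fin m → ℝ) (u : Fin m)
    (Lt : Finset (Fin m)) (M : Fin m → ℕ) : PtT F → Fin m → ℝ := fun y k =>
  if k = u then 1 else if k ∈ Lt then clp (M k) (cb (z y) k) else 0

/-- A point which moves with the shear. -/
theorem zmw_mvp {F : Fam m J} {w : ℕ} {z : PtT F → V} {z' : LnT F → V} {cb : V → Fin m → ℝ}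
    {u : Fin m} {Lt : Finset (Fin m)} {hu : u ∉ Lt} {M : Fin m → ℕ} {e : Fin n → Fin m}
    (he : Function.Injective e) {lt : Fin n} (hlt : e lt = u) {ω : F.Ω}
    (hz : z (ptr F J ω) = z' (slam F w ω)) (σ : ℝ) (b : Option (Fin m) → ℝ) :
    zmw F w z' cb u Lt hu M e ω (mvp (shv z cb u Lt M (ptr F J ω)) σ b) none =
        zmw F w z' cb u Lt hu M e ω b none ∧
      (∀ k, k ≠ lt → zmw F w z' cb u Lt hu M e ω (mvp (shv z cb u Lt M (ptr F J ω)) σ b)
        (some k) = zmw F w z' cb u Lt hu M e ω b (some k)) ∧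
      zmw F w z' cb u Lt hu M e ω (mvp (shv z cb u Lt M (ptr F J ω)) σ b) (some lt) =
        zmw F w z' cb u Lt hu M e ω b (some lt) + 2 ^ w * σ := by
  have hvu : shv z cb u Lt M (ptr F J ω) u = 1 := if_pos rfl
  refine ⟨?_, fun k hk => ?_, ?_⟩
  · unfold zmw
    rw [zmp_none, zmp_none, mvp_none]
  · have hku : e k ≠ u := fun h => hk (he (h.trans hlt.symm))
    unfold zmw
    by_cases h1 : e k ∈ Lt
    · have h2 : shv z cb u Lt M (ptr F J ω) (e k) =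
          clp (M (e k)) (cb (z' (slam F w ω)) (e k)) := by
        unfold shv
        rw [if_neg hku, if_pos h1, hz]
      rw [zmp_mem h1, zmp_mem h1, mvp_none, mvp_some, mvp_some, h2, hvu]
      ring
    · have h2 : shv z cb u Lt M (ptr F J ω) (e k) = 0 := by
        unfold shv
        rw [if_neg hku, if_neg h1]
      rw [zmp_not h1, zmp_not h1, mvp_none, mvp_some, h2]
      ring
  · unfold zmw
    have h1 : e lt ∉ Lt := by
      rw [hlt]
      exact hu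
    rw [zmp_not h1, zmp_not h1, mvp_none, mvp_some, hlt, hvu]
    ring

/-- **The number of the direction of the shear** in the sheared zoom. -/
theorem zb_fam (K n R : ℕ) (hK : 1 ≤ K) : ∃ C : ℕ, ∀ {m J w J' : ℕ} {F : Fam m J}
    (hJ : w + J' = J) {V : Type} {z : PtT F → V} {z' : LnT F → V} {cb : V → Fin m → ℝ} {u : Fin m}
    {Lt : Finset (Fin m)} {hu : u ∉ Lt} {M : Fin m → ℕ} {e : Fin n → Fin m} {lt : Fin n}
    {c : ℕ → Fin m} {r l₀ a w' h x Y Z : ℕ} {g : ℕ → ℕ} {κ κ' : ℝ} {B B' : F.Ω → Prop}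
    {T : PtT F → ℕ → MvPolynomial (Option (Fin m)) ℝ}
    {c' : ℕ → Fin n} {s a₀ w₀ e' : ℕ} {g' : ℕ → ℕ}
    {G' : PtT (zsh F w J' hJ.le z' cb u Lt hu M e) → ℕ → MvPolynomial (Option (Fin n)) ℝ}
    {H' : LnT (zsh F w J' hJ.le z' cb u Lt hu M e) → ℕ → MvPolynomial (Option (Fin n)) ℝ},
    r < R → Function.Injective e → e lt = u → (∀ k, ∃ l < r + 1, e k = c l) → l₀ < r + 1 →
    c l₀ = u → (∀ i < r + 1, c i ∈ Lt ↔ l₀ < i) → Set.InjOn c (Set.Iio (r + 1)) →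
    (∀ y i, (T y i).totalDegree ≤ K) → (∀ y i, DepC c i (T y i)) →
    RelvY F c r a w' g K h Y Z κ B T → Sub B' B → κ' * Pe F.p B ≤ Pe F.p B' →
    κ * (15 ^ m * (11 ^ m * 19 ^ n) * 2 ^ n) ≤ κ' → 0 < Pe F.p B' →
    (∀ l < r, Y + M (c l) + 3 ≤ J) → Z + M (c r) + 3 ≤ J → w' ≤ J →
    (∀ ω, B' ω → z (ptr F J ω) = z' (slam F w ω)) →
    (∀ ω, B' ω → ∀ i, l₀ < i → i < r + 1 → Shr F c l₀ a g T (shv z cb u Lt M) x i ω) →
    s + 1 ≤ n → Set.InjOn c' (Set.Iio (s + 1)) → c' s = lt → w + a₀ ≤ a → w + w₀ ≤ w' →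
    ChOK (zsh F w J' hJ.le z' cb u Lt hu M e) c' (s + 1) (fun _ => K) a₀ w₀ e' g' B' G' H' →
    w + g' s ≤ g l₀ + C * (h + x + 1) := by
  obtain ⟨C₁, hnear⟩ := zb_near K n hK
  obtain ⟨c₀, D₁, hD₁, hdil⟩ := nbx_dil (R + 1) (fun _ => K)
  refine ⟨C₁ + c₀ + D₁ + 2, ?_⟩
  intro m J w J' F hJ V z z' cb u Lt hu M e lt c r l₀ a w' h x Y Z g κ κ' B B' T c' s a₀ w₀ e' g'
    G' H' hr he hlt hec hl₀ hcu hLt hc hTd hTp hR hB' hP' hκ hP0 hY hZ hw'J hz hSh hs hc' hcs ha hw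
    hL
  obtain ⟨B'', k1, k2, k3⟩ := hnear hJ he hec ⟨l₀, hl₀, hcu.symm⟩ hR hB' hP' hκ hY hZ hw'J hz hs
    hc' ha hw hL
  obtain ⟨ω, hω⟩ : ∃ ω, B'' ω := by
    by_contra hcon
    push Not at hcon
    have h1 : Pe F.p B'' = 0 := by
      unfold Pe
      refine Finset.sum_eq_zero fun ω _ => if_neg fun h => ?_
      exact hcon ω (of_eq_true h)
    rw [h1, mul_zero] at k2
    linarith
  have hB'ω := k1 ω hω
  -- a point of the natural box
  obtain ⟨b, hb, -, -, -⟩ := nbx_ext (c := c) (i := r + 1) hc (hTp (ptr F J ω)) (g := g) (a := a)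
    (t := F.t ω) (j := 0) (Nat.zero_le _) (b := fun _ => F.t ω)
    ⟨by rw [sub_self, abs_zero]; positivity, fun l hl => by omega⟩
  obtain ⟨v, hv⟩ : ∃ v, v = shv z cb u Lt M (ptr F J ω) := ⟨_, rfl⟩
  obtain ⟨σ, hσ⟩ : ∃ σ : ℝ, σ = 1 / 2 ^ g l₀ := ⟨_, rfl⟩
  have hσ0 : 0 < σ := by rw [hσ]; positivity
  have hv1 : v (c l₀) = 1 := by
    rw [hv, hcu]
    exact if_pos rfl
  have hv0 : ∀ j < l₀, v (c j) = 0 := by
    intro j hj
    rw [hv]
    unfold shv
    have h1 : c j ≠ u := by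
      rw [← hcu]
      intro h2
      have := hc (show j < r + 1 by omega) (show l₀ < r + 1 by omega) h2
      omega
    have h2 : c j ∉ Lt := fun h3 => by
      have := (hLt j (by omega)).1 h3
      omega
    rw [if_neg h1, if_neg h2]
  have hmb := mvp_box (c := c) (l := l₀) (i := r + 1) (a := a) (y := x) (g := g) (t := F.t ω)
    (s := σ) (G := T (ptr F J ω)) (v := v) (b := b) (hTp _) hv0 hv1 hb (by
      rw [abs_of_pos hσ0, hσ]) (fun j hj hlj => by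
      have h1 := hSh ω hB'ω j hlj hj b (hb.mono le_rfl hj.le) σ (by
        rw [abs_of_pos hσ0, hσ])
      rw [hv]
      exact h1)
  -- the polynomial
  obtain ⟨Q, hQ⟩ : ∃ Q, Q = zpl cb u Lt M w e (F.T1 w ω) (z' (slam F w ω))
    (F.bcl w (shC cb u Lt hu M) (fun ω => z' (slam F w ω)) ω)
    (F.bvl (shC cb u Lt hu M) (fun ω => z' (slam F w ω)) ω) (c' s)
    (G' (ptr (zsh F w J' hJ.le z' cb u Lt hu M e) J' ω) s) := ⟨_, rfl⟩
  have hQe : ∀ b, eval b Q = zmw F w z' cb u Lt hu M e ω b (some (c' s)) -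
      eval (zmw F w z' cb u Lt hu M e ω b)
        (G' (ptr (zsh F w J' hJ.le z' cb u Lt hu M e) J' ω) s) := fun b => by
    rw [hQ]
    exact eval_zpl _ _ _
  obtain ⟨M₁, hM₁⟩ : ∃ M₁ : ℝ, M₁ = 2 ^ (C₁ * (h + 1)) / 2 ^ g' s := ⟨_, rfl⟩
  have hM0 : 0 ≤ M₁ := by rw [hM₁]; positivity
  have hQ1 : ∀ b, NBx c (T (ptr F J ω)) g a (F.t ω) (r + 1) b → |eval b Q| ≤ M₁ := by
    intro b hb
    rw [hQe, hM₁]
    exact k3 ω hω b hb s (Nat.lt_succ_self s)
  have hQ2 := hdil (c := c) (i := r + 1) (G := T (ptr F J ω)) (Q := Q) (g := g) (a := a)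
    (t := F.t ω) (M := M₁) (x + 1) (by omega) hc (hTd _) (hTp _) (by
      rw [hQ]
      exact zpl_dep hec ⟨l₀, hl₀, hcu.symm⟩ _ _) (by
      rw [hQ]
      exact zpl_deg hK (hL.degG _ s)) hM0 hQ1 (mvp v σ b) hmb.1 (fun j hj => hmb.2 j hj)
  obtain ⟨m1, m2, m3⟩ := zmw_mvp (w := w) (z := z) (z' := z') (cb := cb) (hu := hu) (M := M) he
    hlt (hz ω hB'ω) σ b
  rw [← hv] at m1 m2 m3
  have hQ3 : eval (mvp v σ b) Q - eval b Q = 2 ^ w * σ := by
    rw [hQe, hQe, hcs, m3]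
    have h1 : eval (zmw F w z' cb u Lt hu M e ω (mvp v σ b))
        (G' (ptr (zsh F w J' hJ.le z' cb u Lt hu M e) J' ω) s) =
        eval (zmw F w z' cb u Lt hu M e ω b)
          (G' (ptr (zsh F w J' hJ.le z' cb u Lt hu M e) J' ω) s) := by
      refine hL.depG _ s _ _ m1 fun l hl => m2 _ fun h2 => ?_
      rw [← hcs] at h2
      have := hc' (show l < s + 1 by omega) (show s < s + 1 by omega) h2
      omega
    rw [h1]
    ring
  have hfin : 2 ^ w * σ ≤ 2 ^ (c₀ + (x + 1) * D₁ + 1) * M₁ := by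
    have h1 := abs_le.1 hQ2
    have h2 := abs_le.1 (hQ1 b hb)
    have h3 : M₁ ≤ 2 ^ (c₀ + (x + 1) * D₁) * M₁ :=
      le_mul_of_one_le_left hM0 (one_le_pow₀ (by norm_num))
    have h4 : 2 ^ (c₀ + (x + 1) * D₁ + 1) * M₁ = 2 ^ (c₀ + (x + 1) * D₁) * M₁ +
      2 ^ (c₀ + (x + 1) * D₁) * M₁ := by
      rw [pow_succ]
      ring
    linarith [h1.2, h2.1]
  have hexp : w + g' s ≤ g l₀ + (c₀ + (x + 1) * D₁ + 1 + C₁ * (h + 1)) := by
    rw [hσ, hM₁, mul_one_div, ← mul_div_assoc, div_le_div_iff₀ (by positivity) (by positivity),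
      ← pow_add, ← pow_add, ← pow_add] at hfin
    have := (pow_le_pow_iff_right₀ (one_lt_two (α := ℝ))).1 hfin
    omega
  refine hexp.trans (Nat.add_le_add_left ?_ _)
  have e1 : (C₁ + c₀ + D₁ + 2) * (h + x + 1) = C₁ * (h + 1) + c₀ * 1 + D₁ * (x + 1) + 1 * 1 +
    (C₁ * x + c₀ * (h + x) + D₁ * h + (2 * (h + x + 1) - 1)) := by
    have : 1 ≤ 2 * (h + x + 1) := by omega
    zify [this]
    ring
  rw [e1]
  have : (x + 1) * D₁ = D₁ * (x + 1) := mul_comm _ _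
  omega

end Pool.Z3
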