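import Pool.Agent.H77.Z3.Join
import Pool.Agent.H9.ZC.Zpt

/-!
# Zooms in closed linear coordinates: the map of points

`gsb`: the coordinates of the zoom `zfc` in the linear coordinates `Cr`, as polynomials in the
coordinates of the family; `gmp`, `gmw`: the corresponding maps of points. `gown_ex`: the own point
of the zoom comes from a point near the own point.
-/

set_option autoImplicit false

namespace Pool.Z3

open Finset Real MvPolynomial
open Pool.Agent.H49.Ent Pool.Agent.H32.Dense Pool.STK Pool.KA Pool.KSAT Pool.K2S Pool.PB Pool.S6C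
open Pool.GEN Pool.CHT Pool.CHX Pool.ZLC Pool.ZCL

variable {m n J : ℕ} {κ : Type}

/-! ### Linear coordinates are linear -/

theorem crd_zero (Cr : Crd m κ) (v : κ) (i : Fin m) : Cr.L v (fun _ => 0) i = 0 := by
  have h1 := Cr.lin v (fun _ => 0) (fun _ => 0) 1 i
  simp only [mul_zero, add_zero, one_mul] at h1
  linarith

theorem crd_add (Cr : Crd m κ) (v : κ) (x y : Fin m → ℝ) (i : Fin m) :
    Cr.L v (fun j => x j + y j) i = Cr.L v x i + Cr.L v y i := by
  have h1 := Cr.lin v x y 1 i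
  simp only [one_mul] at h1
  exact h1

theorem crd_smul (Cr : Crd m κ) (v : κ) (t : ℝ) (y : Fin m → ℝ) (i : Fin m) :
    Cr.L v (fun j => t * y j) i = t * Cr.L v y i := by
  have h1 := Cr.lin v (fun _ => 0) y t i
  simp only [zero_add] at h1
  rw [h1, crd_zero, zero_add]

/-- The coordinates as a linear map. -/
noncomputable def crdL (Cr : Crd m κ) (v : κ) : (Fin m → ℝ) →ₗ[ℝ] (Fin m → ℝ) where
  toFun := Cr.L v
  map_add' x y := funext fun i => crd_add Cr v x y i
  map_smul' t y := funext fun i => crd_smul Cr v t y i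

theorem crd_sum (Cr : Crd m κ) (v : κ) (x : Fin m → ℝ) (i : Fin m) :
    Cr.L v x i = ∑ j, Cr.L v (Pi.single j 1) i * x j := by
  have h1 : crdL Cr v x i = ∑ j, crdL Cr v (Pi.single j 1) i * x j := by
    conv_lhs => rw [← LinearMap.sum_single_apply (φ := fun _ : Fin m => ℝ) x]
    rw [map_sum, Finset.sum_apply]
    refine Finset.sum_congr rfl fun j _ => ?_
    have h2 : (Pi.single j (x j) : Fin m → ℝ) = x j • (Pi.single j 1 : Fin m → ℝ) := by
      rw [← Pi.single_smul, smul_eq_mul, mul_one]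
    rw [h2, map_smul, Pi.smul_apply, smul_eq_mul, mul_comm]
  exact h1

theorem crd_surj (Cr : Crd m κ) (v : κ) (y : Fin m → ℝ) : ∃ x, Cr.L v x = y := by
  have h1 : Function.Injective (crdL Cr v) := fun x y h => Cr.inj v x y h
  exact LinearMap.injective_iff_surjective.1 h1 y

/-! ### The polynomials -/

/-- The coordinates of the zoom with the label `(T, v, p, q)` of the box, as polynomials. -/
noncomputable def gsb (Cr : Crd m κ) (w : ℕ) (e : Fin n → Fin m) (T : ℕ) (v : κ)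
    (p q : Fin m → ℤ) : Option (Fin n) → MvPolynomial (Option (Fin m)) ℝ
  | none => C (2 ^ w) * X none - C (T : ℝ)
  | some k => C (2 ^ w) * (∑ j, C (Cr.L v (Pi.single j 1) (e k)) * X (some j)) -
      C (p (e k) : ℝ) - (C (2 ^ w) * X none - C (T : ℝ)) * C (q (e k) : ℝ)

/-- The map of points. -/
noncomputable def gmp (Cr : Crd m κ) (w : ℕ) (e : Fin n → Fin m) (T : ℕ) (v : κ)
    (p q : Fin m → ℤ) (b : Option (Fin m) → ℝ) : Option (Fin n) → ℝ :=
  fun o => eval b (gsb Cr w e T v p q o)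

section

variable {Cr : Crd m κ} {w : ℕ} {e : Fin n → Fin m} {T : ℕ} {v : κ} {p q : Fin m → ℤ}

theorem gmp_none (b : Option (Fin m) → ℝ) : gmp Cr w e T v p q b none = 2 ^ w * b none - T := by
  unfold gmp gsb
  simp only [map_sub, map_mul, eval_C, eval_X]

theorem gmp_some (k : Fin n) (b : Option (Fin m) → ℝ) :
    gmp Cr w e T v p q b (some k) = 2 ^ w * Cr.L v (fun j => b (some j)) (e k) - p (e k) -
      (2 ^ w * b none - T) * q (e k) := by
  unfold gmp gsb
  simp only [map_sub, map_mul, eval_C, eval_X, map_sum]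
  rw [crd_sum Cr v (fun j => b (some j)) (e k)]

theorem gsb_deg (o : Option (Fin n)) : (gsb Cr w e T v p q o).totalDegree ≤ 1 := by
  have h1 : ∀ (a : ℝ) (P : MvPolynomial (Option (Fin m)) ℝ), P.totalDegree ≤ 1 →
      (C a * P).totalDegree ≤ 1 := fun a P h =>
    (totalDegree_mul _ _).trans (by rw [totalDegree_C, zero_add]; exact h)
  have h2 : ∀ P Q : MvPolynomial (Option (Fin m)) ℝ, P.totalDegree ≤ 1 → Q.totalDegree ≤ 1 →
      (P - Q).totalDegree ≤ 1 := fun P Q hP hQ => (totalDegree_sub _ _).trans (max_le hP hQ)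
  have h3 : ∀ a : ℝ, (C a : MvPolynomial (Option (Fin m)) ℝ).totalDegree ≤ 1 := fun a => by
    rw [totalDegree_C]
    exact Nat.zero_le _
  have h4 : ∀ i : Option (Fin m), (X i : MvPolynomial (Option (Fin m)) ℝ).totalDegree ≤ 1 :=
    fun i => (totalDegree_X _).le
  rcases o with _ | k
  · exact h2 _ _ (h1 _ _ (h4 _)) (h3 _)
  · unfold gsb
    refine h2 _ _ (h2 _ _ (h1 _ _ ?_) (h3 _)) ?_
    · exact (totalDegree_finsetSum _ _).trans (Finset.sup_le fun j _ => h1 _ _ (h4 _))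
    · rw [mul_comm]
      exact h1 _ _ (h2 _ _ (h1 _ _ (h4 _)) (h3 _))

theorem gmp_dep {c : ℕ → Fin m} {r : ℕ} (hc : ∀ i, ∃ l < r, c l = i)
    {b b' : Option (Fin m) → ℝ} (hn : b none = b' none)
    (hb : ∀ l < r, b (some (c l)) = b' (some (c l))) :
    gmp Cr w e T v p q b = gmp Cr w e T v p q b' := by
  funext o
  rcases o with _ | k
  · rw [gmp_none, gmp_none, hn]
  · have h1 : (fun j => b (some j)) = fun j => b' (some j) := by
      funext j
      obtain ⟨l, h1, h2⟩ := hc j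
      rw [← h2]
      exact hb l h1
    rw [gmp_some, gmp_some, hn, h1]

/-- The pull back of the label of the coordinate `k`. -/
noncomputable def gpl (Cr : Crd m κ) (w : ℕ) (e : Fin n → Fin m) (T : ℕ) (v : κ)
    (p q : Fin m → ℤ) (k : Fin n) (Q : MvPolynomial (Option (Fin n)) ℝ) :
    MvPolynomial (Option (Fin m)) ℝ :=
  gsb Cr w e T v p q (some k) - aeval (gsb Cr w e T v p q) Q

theorem eval_gpl (k : Fin n) (Q : MvPolynomial (Option (Fin n)) ℝ) (b : Option (Fin m) → ℝ) :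
    eval b (gpl Cr w e T v p q k Q) = gmp Cr w e T v p q b (some k) -
      eval (gmp Cr w e T v p q b) Q := by
  unfold gpl
  rw [map_sub, eval_aevalσ]
  rfl

theorem gpl_deg {k : Fin n} {Q : MvPolynomial (Option (Fin n)) ℝ} {K : ℕ} (hK : 1 ≤ K)
    (hQ : Q.totalDegree ≤ K) : (gpl Cr w e T v p q k Q).totalDegree ≤ K := by
  refine (totalDegree_sub _ _).trans (max_le ((gsb_deg _).trans hK) ?_)
  have := totalDegree_aevalσ (g := gsb Cr w e T v p q) (fun o => gsb_deg o) hQ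
  rwa [one_mul] at this

theorem gpl_dep {c : ℕ → Fin m} {r : ℕ} (hc : ∀ i, ∃ l < r, c l = i)
    (k : Fin n) (Q : MvPolynomial (Option (Fin n)) ℝ) :
    DepC c r (gpl Cr w e T v p q k Q) := by
  intro b b' hn hb
  rw [eval_gpl, eval_gpl, gmp_dep hc hn hb]

end

/-- The time of the zoom. -/
theorem gfc_t (F : Fam m J) {w J' : ℕ} (h : w + J' = J) (Cr : Crd m κ) (g : F.Ω → κ)
    (e : Fin n → Fin m) (ω : F.Ω) : (zfc F w J' h.le Cr g e).t ω = 2 ^ w * F.t ω - F.T1 w ω := by
  have h1 := Box.box_t F (by omega : w ≤ J) Cr g ω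
  have h2 : (zfc F w J' h.le Cr g e).t ω = (F.box w Cr g).t ω := by
    have e1 : (zfc F w J' h.le Cr g e).t ω =
      (((F.box w Cr g).T ω / 2 ^ (J - w - J') : ℕ) : ℝ) / 2 ^ J' := rfl
    have e2 : (F.box w Cr g).t ω = ((F.box w Cr g).T ω : ℝ) / 2 ^ (J - w) := rfl
    have e3 : J - w - J' = 0 := by omega
    have e4 : (2 : ℝ) ^ (J - w) = 2 ^ J' := by
      congr 1
      omega
    rw [e1, e2, e3, pow_zero, Nat.div_one, e4]
  rw [h2, h1]
  field_simp
  ring

/-- The map from the points of the family to the points of the zoom. -/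
noncomputable def gmw (F : Fam m J) (w : ℕ) (Cr : Crd m κ) (g : F.Ω → κ) (e : Fin n → Fin m)
    (ω : F.Ω) (b : Option (Fin m) → ℝ) : Option (Fin n) → ℝ :=
  gmp Cr w e (F.T1 w ω) (g ω) (F.bcl w Cr g ω) (F.bvl Cr g ω) b

/-- **The own point of the zoom** comes from a point near the own point. -/
theorem gown_ex (F : Fam m J) {w J' : ℕ} (h : w + J' = J) (Cr : Crd m κ) (g : F.Ω → κ)
    {e : Fin n → Fin m} (he : Function.Injective e) {M : Fin m → ℕ} {ω : F.Ω}
    (hM : ∀ z : Fin m → ℝ, (∀ i, |Cr.L (g ω) z i| ≤ 1) → ∀ i, |z i| ≤ 2 ^ M i) :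
    ∃ y : Option (Fin m) → ℝ, y none = F.t ω ∧
      (∀ i, |y (some i) - F.x ω i| ≤ 3 * 2 ^ M i / 2 ^ J) ∧
      gmw F w Cr g e ω y = bt (zfc F w J' h.le Cr g e) ω := by
  classical
  have pw : (0 : ℝ) < 2 ^ w := by positivity
  have pJ' : (0 : ℝ) < 2 ^ J' := by positivity
  have pJ : (0 : ℝ) < 2 ^ J := by positivity
  have hJJ : (2 : ℝ) ^ J = 2 ^ w * 2 ^ J' := by rw [← pow_add, h]
  obtain ⟨δ, hδ⟩ : ∃ δ : Fin n → ℝ, δ = fun k => (zfc F w J' h.le Cr g e).x ω k -
    (2 ^ w * Cr.L (g ω) (F.x ω) (e k) - F.bcl w Cr g ω (e k) -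
      tb F w ω * F.bvl Cr g ω (e k)) := ⟨_, rfl⟩
  have hδ1 : ∀ k, |δ k| ≤ 3 / 2 ^ J' := fun k => by
    rw [hδ]
    exact zfc_x F h.le Cr g e ω k
  obtain ⟨δ', hδ'⟩ : ∃ δ' : Fin m → ℝ, δ' = fun i => if h : ∃ k, e k = i then δ h.choose else 0 :=
    ⟨_, rfl⟩
  have hδe : ∀ k, δ' (e k) = δ k := fun k => by
    rw [hδ']
    have hex : ∃ k', e k' = e k := ⟨k, rfl⟩
    simp only [dif_pos hex]
    rw [he hex.choose_spec]
  have hδ'1 : ∀ i, |δ' i| ≤ 3 / 2 ^ J' := fun i => by
    rw [hδ']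
    simp only
    split_ifs with h1
    · exact hδ1 _
    · rw [abs_zero]
      positivity
  obtain ⟨z, hz₀⟩ := crd_surj Cr (g ω) (fun i => δ' i / 2 ^ w)
  have hz : ∀ i, Cr.L (g ω) z i = δ' i / 2 ^ w := fun i => congrFun hz₀ i
  have hz1 : ∀ i, |z i| ≤ 3 * 2 ^ M i / 2 ^ J := by
    intro i
    have h1 := hM (fun j => 2 ^ J / 3 * z j) (fun i => by
      rw [crd_smul, hz, abs_mul, abs_of_pos (by positivity : (0 : ℝ) < 2 ^ J / 3), abs_div,
        abs_of_pos pw]
      have h2 := hδ'1 i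
      rw [le_div_iff₀ pJ'] at h2
      rw [div_mul_div_comm, div_le_one (by positivity), hJJ]
      calc 2 ^ w * 2 ^ J' * |δ' i| = (|δ' i| * 2 ^ J') * 2 ^ w := by ring
        _ ≤ 3 * 2 ^ w := mul_le_mul_of_nonneg_right h2 pw.le) i
    rw [abs_mul, abs_of_pos (by positivity : (0 : ℝ) < 2 ^ J / 3)] at h1
    rw [le_div_iff₀ pJ]
    linarith
  refine ⟨fun o => match o with
    | none => F.t ω
    | some i => F.x ω i + z i, rfl, fun i => ?_, ?_⟩
  · show |F.x ω i + z i - F.x ω i| ≤ _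
    rw [add_sub_cancel_left]
    exact hz1 i
  · unfold gmw
    funext o
    rcases o with _ | k
    · rw [gmp_none]
      exact (gfc_t F h Cr g e ω).symm
    · rw [gmp_some]
      show 2 ^ w * Cr.L (g ω) (fun j => F.x ω j + z j) (e k) - _ - (2 ^ w * F.t ω - _) * _ =
        (zfc F w J' h.le Cr g e).x ω k
      have e3 : (zfc F w J' h.le Cr g e).x ω k =
          2 ^ w * Cr.L (g ω) (F.x ω) (e k) - F.bcl w Cr g ω (e k) -
            tb F w ω * F.bvl Cr g ω (e k) + δ k := by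
        rw [hδ]
        ring
      have e4 : tb F w ω = 2 ^ w * F.t ω - F.T1 w ω := rfl
      rw [e3, e4, crd_add, hz, hδe]
      field_simp
      ring

end Pool.Z3
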