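import Pool.Agent.H77.Z3.Zga
import Pool.Agent.H2.GEN.Swp

/-!
# Chains of the zoom near the natural boxes of a chain of the family

`zg_near`: at the points of the natural boxes of a chain without relations of all the coordinates
the coordinates of the zoom in closed linear coordinates are near the labels of any chain of the
zoom.
-/

set_option autoImplicit false

namespace Pool.Z3

open Finset Real MvPolynomial
open Pool.Agent.H49.Ent Pool.Agent.H32.Dense Pool.STK Pool.KA Pool.KSAT Pool.K2S Pool.PB Pool.S6C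
open Pool.GEN Pool.CHT Pool.CHX Pool.ZLC Pool.ZCL

variable {m n J : ℕ}

/-- **The chains of the zoom** near the natural boxes of a chain without relations. -/
theorem zg_near (K n : ℕ) (hK : 1 ≤ K) : ∃ C : ℕ, ∀ {m J w J' : ℕ} {F : Fam m J} (hJ : w + J' = J)
    {V : Type} {z : PtT F → V} {z' : LnT F → V} {Cr : Crd m V} {M : Fin m → ℕ}
    {e : Fin n → Fin m}
    {c : ℕ → Fin m} {r a w' h Y Z : ℕ} {g : ℕ → ℕ} {κ κ' : ℝ} {B B' : F.Ω → Prop}
    {T : PtT F → ℕ → MvPolynomial (Option (Fin m)) ℝ}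
    {c' : ℕ → Fin n} {s a₀ w₀ e' : ℕ} {g' : ℕ → ℕ}
    {G' : PtT (zfc F w J' hJ.le Cr (fun ω => z' (slam F w ω)) e) → ℕ → MvPolynomial (Option (Fin n)) ℝ}
    {H' : LnT (zfc F w J' hJ.le Cr (fun ω => z' (slam F w ω)) e) → ℕ → MvPolynomial (Option (Fin n)) ℝ},
    Cr.Bd 0 2 → Function.Injective e → (∀ i, ∃ l < r + 1, c l = i) →
    RelvY F c r a w' g K h Y Z κ B T → Sub B' B → κ' * Pe F.p B ≤ Pe F.p B' →
    κ * (15 ^ m * (11 ^ m * 19 ^ n) * 2 ^ n) ≤ κ' →
    (∀ l < r, Y + M (c l) + 2 ≤ J) → Z + M (c r) + 2 ≤ J → w' ≤ J →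
    (∀ ω, B' ω → z (ptr F J ω) = z' (slam F w ω)) →
    (∀ ω, B' ω → ∀ y : Fin m → ℝ, (∀ i, |Cr.L (z' (slam F w ω)) y i| ≤ 1) →
      ∀ i, |y i| ≤ 2 ^ M i) → s ≤ n → Set.InjOn c' (Set.Iio s) →
    w + a₀ ≤ a → w + w₀ ≤ w' →
    ChOK (zfc F w J' hJ.le Cr (fun ω => z' (slam F w ω)) e) c' s (fun _ => K) a₀ w₀ e' g' B' G' H' →
    ∃ B'' : F.Ω → Prop, Sub B'' B' ∧
      Pe F.p B' ≤ 15 ^ m * (11 ^ m * 19 ^ n) * 2 ^ n * Pe F.p B'' ∧ ∀ ω, B'' ω →
      ∀ b, NBx c (T (ptr F J ω)) g a (F.t ω) (r + 1) b → ∀ j < s,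
        |gmw F w Cr (fun ω => z' (slam F w ω)) e ω b (some (c' j)) - eval (gmw F w Cr (fun ω => z' (slam F w ω)) e ω b)
          (G' (ptr (zfc F w J' hJ.le Cr (fun ω => z' (slam F w ω)) e) J' ω) j)| ≤
          2 ^ (C * (h + 1)) / 2 ^ g' j := by
  obtain ⟨c₀, D₁, hD₁, hdil⟩ := nbx_dil (n + 1) (fun _ => K)
  refine ⟨(c₀ + 1) * (1 + D₁) ^ (n + 1), ?_⟩
  intro m J w J' F hJ V z z' Cr M e c r a w' h Y Z g κ κ' B B' T c' s a₀ w₀ e' g' G' H'
    hBd he hcov hR hB' hP' hκ hY hZ hw'J hz hInv hs hc' ha hw hL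
  have hlexC : ∀ j ≤ n + 1, lex h c₀ D₁ j ≤ (c₀ + 1) * (1 + D₁) ^ (n + 1) * (h + 1) := by
    intro j hj
    refine (lex_le h c₀ D₁ j).trans ?_
    have h1 : (1 + D₁) ^ j ≤ (1 + D₁) ^ (n + 1) := Nat.pow_le_pow_right (by omega) hj
    calc (h + c₀) * (1 + D₁) ^ j ≤ ((c₀ + 1) * (h + 1)) * (1 + D₁) ^ (n + 1) :=
          Nat.mul_le_mul (by nlinarith) h1
      _ = _ := by ring
  obtain ⟨B₀, hB₀, hP₀, pt, ln, lp, ll, hpt, hln, hlp, hll⟩ := zfc_fun F hJ
    (C := Cr) (c := 2) (by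
      rw [Nat.cast_ofNat]
      exact hBd) e hz
  have hP₀' : Pe F.p B' ≤ 15 ^ m * (11 ^ m * 19 ^ n) * Pe F.p B₀ := by
    refine hP₀.trans (le_of_eq ?_)
    norm_num
  have hw₀ : w₀ ≤ J' := by omega
  -- the time
  have htime : ∀ ω b, |b none - F.t ω| ≤ 1 / 2 ^ a →
      |gmw F w Cr (fun ω => z' (slam F w ω)) e ω b none -
        (zfc F w J' hJ.le Cr (fun ω => z' (slam F w ω)) e).t ω| ≤ 1 / 2 ^ a₀ := by
    intro ω b hb
    have e1 : (zfc F w J' hJ.le Cr (fun ω => z' (slam F w ω)) e).t ω = 2 ^ w * F.t ω - F.T1 w ω :=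
      gfc_t F hJ Cr (fun ω => z' (slam F w ω)) e ω
    unfold gmw
    rw [gmp_none, e1]
    have e2 : 2 ^ w * b none - (F.T1 w ω : ℝ) - (2 ^ w * F.t ω - F.T1 w ω) =
      2 ^ w * (b none - F.t ω) := by ring
    rw [e2, abs_mul, abs_of_pos (by positivity : (0 : ℝ) < 2 ^ w)]
    calc 2 ^ w * |b none - F.t ω| ≤ 2 ^ w * (1 / 2 ^ a) :=
          mul_le_mul_of_nonneg_left hb (by positivity)
      _ ≤ 2 ^ w * (1 / 2 ^ (w + a₀)) := mul_le_mul_of_nonneg_left (inv_mono ha) (by positivity)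
      _ = 1 / 2 ^ a₀ := by
        rw [pow_add]
        field_simp
  -- the two sides
  have htwo : ∀ j < s, ∀ ω, B' ω → ∀ b : Option (Fin m) → ℝ, |b none - F.t ω| ≤ 1 / 2 ^ a →
      (∀ j' < j, |gmw F w Cr (fun ω => z' (slam F w ω)) e ω b (some (c' j')) -
        eval (gmw F w Cr (fun ω => z' (slam F w ω)) e ω b)
          (G' (ptr (zfc F w J' hJ.le Cr (fun ω => z' (slam F w ω)) e) J' ω) j')| ≤
        2 ^ lex h c₀ D₁ j / 2 ^ g' j') →
      |eval (gmw F w Cr (fun ω => z' (slam F w ω)) e ω b)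
          (G' (ptr (zfc F w J' hJ.le Cr (fun ω => z' (slam F w ω)) e) J' ω) j) -
        eval (gmw F w Cr (fun ω => z' (slam F w ω)) e ω b)
          (H' (slam (zfc F w J' hJ.le Cr (fun ω => z' (slam F w ω)) e) w₀ ω) j)| ≤
        2 ^ (c₀ + lex h c₀ D₁ j * D₁) * (1 / 2 ^ g' j) := by
    intro j hj ω hω b hb hbj
    have h1 := hdil (c := c') (i := j)
      (G := G' (ptr (zfc F w J' hJ.le Cr (fun ω => z' (slam F w ω)) e) J' ω))
      (Q := G' (ptr (zfc F w J' hJ.le Cr (fun ω => z' (slam F w ω)) e) J' ω) j -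
        H' (slam (zfc F w J' hJ.le Cr (fun ω => z' (slam F w ω)) e) w₀ ω) j) (g := g') (a := a₀)
      (t := (zfc F w J' hJ.le Cr (fun ω => z' (slam F w ω)) e).t ω)
      (M := 1 / 2 ^ g' j) (lex h c₀ D₁ j) (by omega) (hc'.mono fun x hx => lt_trans hx hj)
      (hL.degG _) (hL.depG _)
      (fun y y' hn hy => by rw [map_sub, map_sub, hL.depG _ j y y' hn hy, hL.depH _ j y y' hn hy])
      ((totalDegree_sub _ _).trans (max_le (hL.degG _ j) (hL.degH _ j))) (by positivity)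
      (fun b hb => by rw [map_sub]; exact hL.agr ω hω j (by omega) b hb)
      (gmw F w Cr (fun ω => z' (slam F w ω)) e ω b) (htime ω b hb) (fun j' hj' => hbj j' hj')
    rw [map_sub] at h1
    exact h1
  have key : ∀ j ≤ s, ∃ B₁ : F.Ω → Prop, Sub B₁ B₀ ∧ Pe F.p B₀ / 2 ^ j ≤ Pe F.p B₁ ∧ ∀ ω, B₁ ω →
      ∀ b, NBx c (T (ptr F J ω)) g a (F.t ω) (r + 1) b → ∀ j' < j,
        |gmw F w Cr (fun ω => z' (slam F w ω)) e ω b (some (c' j')) -
          eval (gmw F w Cr (fun ω => z' (slam F w ω)) e ω b)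
            (G' (ptr (zfc F w J' hJ.le Cr (fun ω => z' (slam F w ω)) e) J' ω) j')| ≤
          2 ^ lex h c₀ D₁ j / 2 ^ g' j' := by
    intro j
    induction j with
    | zero => exact fun _ => ⟨B₀, fun _ h => h, by simp, fun ω _ b _ j' hj' => by omega⟩
    | succ j ih =>
      intro hj
      obtain ⟨B₁, k1, k2, k3⟩ := ih (by omega)
      obtain ⟨M₁, hM₁⟩ : ∃ M₁ : ℝ, M₁ = 2 ^ (c₀ + lex h c₀ D₁ j * D₁) * (1 / 2 ^ g' j) := ⟨_, rfl⟩
      have hM0 : 0 < M₁ := by rw [hM₁]; positivity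
      have hM1 : (1 : ℝ) / 2 ^ g' j ≤ M₁ := by
        rw [hM₁]
        exact le_mul_of_one_le_left (by positivity) (one_le_pow₀ (by norm_num))
      obtain ⟨Dx, hDx⟩ : ∃ Dx : PtT F → MvPolynomial (Option (Fin m)) ℝ, Dx = fun y =>
          match pt y, lp y with
          | some y', some β => gpl Cr w e β.1.1.1 β.1.1.2 β.1.2.1 β.1.2.2 (c' j) (G' y' j)
          | _, _ => 0 := ⟨_, rfl⟩
      obtain ⟨Dl, hDl⟩ : ∃ Dl : LnT F → MvPolynomial (Option (Fin m)) ℝ, Dl = fun s =>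
          match ln w₀ (s.1, s.2.1, s.2.2 / 2 ^ (w' - (w + w₀))),
            ll (s.1, s.2.1, s.2.2 / 2 ^ (w' - w)) with
          | some s', some β => gpl Cr w e β.1.1.1 β.1.1.2 β.1.2.1 β.1.2.2 (c' j) (H' s' j)
          | _, _ => 0 := ⟨_, rfl⟩
      have hDx1 : ∀ y, (Dx y).totalDegree ≤ K ∧ DepC c (r + 1) (Dx y) := by
        intro y
        rw [hDx]
        simp only
        split
        · exact ⟨gpl_deg hK (hL.degG _ j), gpl_dep hcov _ _⟩
        · refine ⟨by rw [totalDegree_zero]; exact Nat.zero_le _, fun b b' _ _ => by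
            rw [map_zero, map_zero]⟩
      have hDl1 : ∀ s, (Dl s).totalDegree ≤ K ∧ DepC c (r + 1) (Dl s) := by
        intro y
        rw [hDl]
        simp only
        split
        · exact ⟨gpl_deg hK (hL.degH _ j), gpl_dep hcov _ _⟩
        · refine ⟨by rw [totalDegree_zero]; exact Nat.zero_le _, fun b b' _ _ => by
            rw [map_zero, map_zero]⟩
      have hDx2 : ∀ ω, B₀ ω → ∀ b, eval b (Dx (ptr F J ω)) =
          gmw F w Cr (fun ω => z' (slam F w ω)) e ω b (some (c' j)) - eval (gmw F w Cr (fun ω => z' (slam F w ω)) e ω b)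
            (G' (ptr (zfc F w J' hJ.le Cr (fun ω => z' (slam F w ω)) e) J' ω) j) := by
        intro ω hω b
        rw [hDx]
        simp only [hpt ω hω, hlp ω hω]
        exact eval_gpl _ _ _
      have hDl2 : ∀ ω, B₀ ω → ∀ b, eval b (Dl (slam F w' ω)) =
          gmw F w Cr (fun ω => z' (slam F w ω)) e ω b (some (c' j)) - eval (gmw F w Cr (fun ω => z' (slam F w ω)) e ω b)
            (H' (slam (zfc F w J' hJ.le Cr (fun ω => z' (slam F w ω)) e) w₀ ω) j) := by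
        intro ω hω b
        have e1 := slam_coarse' F hw hw'J ω
        have e2 := slam_coarse' F (show w ≤ w' by omega) hw'J ω
        have e3 := hln w₀ hw₀ ω hω
        have e4 := hll ω hω
        rw [← e1] at e3
        rw [← e2] at e4
        rw [hDl]
        simp only [e3, e4]
        exact eval_gpl _ _ _
      have hPB₁ : κ * Pe F.p B ≤ Pe F.p B₁ := by
        have h1 : κ * (15 ^ m * (11 ^ m * 19 ^ n) * 2 ^ n) * Pe F.p B ≤ κ' * Pe F.p B :=
          mul_le_mul_of_nonneg_right hκ (Pe_nonneg F.isLaw B)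
        have h2 : Pe F.p B₀ ≤ Pe F.p B₁ * 2 ^ j := by
          rwa [div_le_iff₀ (by positivity)] at k2
        have h3 : (2 : ℝ) ^ j ≤ 2 ^ n := pow_le_pow_right₀ (by norm_num) (by omega)
        have h4 : Pe F.p B₀ ≤ Pe F.p B₁ * 2 ^ n :=
          h2.trans (mul_le_mul_of_nonneg_left h3 (Pe_nonneg F.isLaw B₁))
        have h5 : κ * Pe F.p B * (15 ^ m * (11 ^ m * 19 ^ n) * 2 ^ n) ≤
            Pe F.p B₁ * (15 ^ m * (11 ^ m * 19 ^ n) * 2 ^ n) := by
          calc κ * Pe F.p B * (15 ^ m * (11 ^ m * 19 ^ n) * 2 ^ n) =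
                κ * (15 ^ m * (11 ^ m * 19 ^ n) * 2 ^ n) * Pe F.p B := by ring
            _ ≤ κ' * Pe F.p B := h1
            _ ≤ Pe F.p B' := hP'
            _ ≤ 15 ^ m * (11 ^ m * 19 ^ n) * Pe F.p B₀ := hP₀'
            _ ≤ 15 ^ m * (11 ^ m * 19 ^ n) * (Pe F.p B₁ * 2 ^ n) :=
                mul_le_mul_of_nonneg_left h4 (by positivity)
            _ = _ := by ring
        exact le_of_mul_le_mul_right h5 (by positivity)
      obtain ⟨B'', l1, l2, l3⟩ := hR B₁ (fun ω h => hB' ω (hB₀ ω (k1 ω h))) hPB₁ Dx Dl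
        (fun _ => M₁) (fun y => (hDx1 y).1) (fun s => (hDl1 s).1) (fun y => (hDx1 y).2)
        (fun s => (hDl1 s).2) (fun _ _ => hM0) (fun ω hω => by
          obtain ⟨y, y1, y2, y3⟩ := gown_ex F hJ Cr (fun ω => z' (slam F w ω)) he
            (hInv ω (hB₀ ω (k1 ω hω)))
          have hy : ∀ (i : Fin m) (N : ℕ), N + M i + 2 ≤ J →
              |y (some i) - F.x ω i| ≤ 1 / 2 ^ N := by
            intro i N hN
            refine (y2 i).trans ?_
            have p2 : (2 : ℝ) ^ (N + M i + 2) ≤ 2 ^ J := pow_le_pow_right₀ one_le_two hN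
            rw [div_le_div_iff₀ (by positivity) (by positivity), one_mul]
            calc 3 * (2 : ℝ) ^ M i * 2 ^ N ≤ 4 * 2 ^ M i * 2 ^ N := by
                  have : (0 : ℝ) < 2 ^ M i * 2 ^ N := by positivity
                  nlinarith
              _ = 2 ^ (N + M i + 2) := by ring
              _ ≤ 2 ^ J := p2
          refine ⟨y, y1, fun l hl => hy _ _ (hY l hl), hy _ _ hZ, ?_⟩
          rw [hDx2 ω (k1 ω hω) y]
          rw [y3]
          have y5 := hL.pos ω (hB₀ ω (k1 ω hω)) j (by omega)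
          exact y5.trans hM1) (fun ω hω b hb => by
          rw [hDx2 ω (k1 ω hω) b, hDl2 ω (k1 ω hω) b]
          have h6 := htwo j (by omega) ω (hB₀ ω (k1 ω hω)) b hb.1 (k3 ω hω b hb)
          rw [← hM₁] at h6
          have e1 : ∀ x y z : ℝ, x - y - (x - z) = -(y - z) := fun x y z => by ring
          rw [e1, abs_neg]
          exact h6)
      refine ⟨B'', fun ω h => k1 ω (l1 ω h), ?_, fun ω hω b hb j' hj' => ?_⟩
      · refine le_trans (le_of_eq ?_) ((div_le_div_of_nonneg_right k2 (by norm_num)).trans l2)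
        rw [pow_succ]
        field_simp
      · rcases Nat.lt_or_ge j' j with h7 | h7
        · refine (k3 ω (l1 ω hω) b hb j' h7).trans (div_le_div_of_nonneg_right ?_ (by positivity))
          exact pow_le_pow_right₀ (by norm_num) (lex_mono hD₁)
        · have : j' = j := by omega
          subst this
          have h8 := l3 ω hω b hb
          rw [hDx2 ω (k1 ω (l1 ω hω)) b, hM₁] at h8
          refine h8.trans (le_of_eq ?_)
          show _ = 2 ^ (h + c₀ + lex h c₀ D₁ j' * D₁) / 2 ^ g' j'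
          rw [add_assoc h, pow_add]
          ring
  obtain ⟨B₁, k1, k2, k3⟩ := key s le_rfl
  refine ⟨B₁, fun ω h => hB₀ ω (k1 ω h), ?_, fun ω hω b hb j hj => ?_⟩
  · rw [div_le_iff₀ (by positivity)] at k2
    have h3 : (2 : ℝ) ^ s ≤ 2 ^ n := pow_le_pow_right₀ (by norm_num) hs
    have h4 : Pe F.p B₀ ≤ Pe F.p B₁ * 2 ^ n :=
      k2.trans (mul_le_mul_of_nonneg_left h3 (Pe_nonneg F.isLaw B₁))
    calc Pe F.p B' ≤ 15 ^ m * (11 ^ m * 19 ^ n) * Pe F.p B₀ := hP₀'
      _ ≤ 15 ^ m * (11 ^ m * 19 ^ n) * (Pe F.p B₁ * 2 ^ n) :=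
          mul_le_mul_of_nonneg_left h4 (by positivity)
      _ = _ := by ring
  · refine (k3 ω hω b hb j hj).trans (div_le_div_of_nonneg_right ?_ (by positivity))
    exact pow_le_pow_right₀ (by norm_num) (hlexC s (by omega))

end Pool.Z3
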