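import Pool.Agent.H77.Z3.Zbc
import Pool.Agent.H77.Z3.Nod
import Pool.Agent.H9.GEN.Tgs3

/-!
# No label above a node in the sheared zoom

`RelvY.res`: the relations in the conditional family. `zb_tgs`: the form of `zb_fam` for the labels
`tgs` of the zoom of the conditional family.
-/

set_option autoImplicit false

namespace Pool.Z3

open Finset Real MvPolynomial
open Pool.Agent.H49.Ent Pool.Agent.H32.Dense Pool.STK Pool.KA Pool.KSAT Pool.K2S Pool.PB Pool.S6C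
open Pool.GEN Pool.CHT Pool.CHX Pool.ZLC Pool.ZCL Pool.SHR
open Pool.LBN (Tch cof cof_len)
open Pool.ONE (tgs)

variable {m n J : ℕ} {V : Type}

/-- The probabilities of the conditional family. -/
theorem pe_res {F : Fam m J} {B : F.Ω → Prop} (hl : IsLaw (cond F.p B True)) {B' : F.Ω → Prop}
    (hB : Sub B' B) : 0 < Pe F.p B ∧ Pe (F.res B True hl).p B' * Pe F.p B = Pe F.p B' := by
  have hB0 : 0 < Pe F.p B := by
    by_contra hcon
    have h2 : Pe F.p B = 0 := le_antisymm (not_lt.1 hcon) (Pe_nonneg F.isLaw B)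
    have h3 : Pe (cond F.p B True) (fun _ => True) = 1 := Pe_univ hl
    rw [Pe_cond, h2, div_zero] at h3
    exact zero_ne_one h3
  refine ⟨hB0, ?_⟩
  have h1 : Pe (F.res B True hl).p B' = Pe F.p (fun ω => B ω ∧ B' ω) / Pe F.p B := Pe_cond _
  have h2 : (fun ω => B ω ∧ B' ω) = B' := by
    funext ω
    exact propext ⟨fun h => h.2, fun h => ⟨hB ω h, h⟩⟩
  rw [h1, h2]
  field_simp

/-- The relations in the conditional family. -/
theorem RelvY.res {F : Fam m J} {c : ℕ → Fin m} {j a w : ℕ} {g : ℕ → ℕ} {D h Y Z : ℕ} {κ : ℝ}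
    {B₀ : F.Ω → Prop} {G : PtT F → ℕ → MvPolynomial (Option (Fin m)) ℝ}
    (hR : RelvY F c j a w g D h Y Z κ B₀ G) {B : F.Ω → Prop} (hl : IsLaw (cond F.p B True))
    (hB : Sub B₀ B) : RelvY (F.res B True hl) c j a w g D h Y Z κ B₀ G := by
  intro B' hB' hP Dx Dl M h1 h2 h3 h4 h5 h6 h7
  have hB'B : Sub B' B := fun ω h => hB ω (hB' ω h)
  obtain ⟨hB0, e1⟩ := pe_res hl hB
  obtain ⟨-, e2⟩ := pe_res hl hB'B
  obtain ⟨B'', k1, k2, k3⟩ := hR B' hB' (by
    rw [← e1, ← e2, ← mul_assoc]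
    exact mul_le_mul_of_nonneg_right hP hB0.le) Dx Dl M h1 h2 h3 h4 h5 h6 h7
  obtain ⟨-, e3⟩ := pe_res hl (fun ω h => hB'B ω (k1 ω h) : Sub B'' B)
  refine ⟨B'', k1, ?_, k3⟩
  rw [← e2, ← e3] at k2
  have h8 : Pe (F.res B True hl).p B' / 2 * Pe F.p B ≤
      Pe (F.res B True hl).p B'' * Pe F.p B := by
    refine le_trans (le_of_eq ?_) k2
    ring
  exact le_of_mul_le_mul_right h8 hB0

/-- **No label above a node** in the zoom of the conditional family. -/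
theorem zb_tgs (K n R : ℕ) (hK : 1 ≤ K) : ∃ C : ℕ, ∀ {m J w J' : ℕ} {F : Fam m J}
    (hJ : w + J' = J) {V : Type} {z : PtT F → V} {z' : LnT F → V} {cb : V → Fin m → ℝ} {u : Fin m}
    {Lt : Finset (Fin m)} {hu : u ∉ Lt} {M : Fin m → ℕ} {e : Fin n → Fin m} {lt : Fin n}
    {c : ℕ → Fin m} {r l₀ a w' h x Y Z : ℕ} {g : ℕ → ℕ} {κ κ' : ℝ} {B B' : F.Ω → Prop}
    (hl : IsLaw (cond F.p B True)) {T : PtT F → ℕ → MvPolynomial (Option (Fin m)) ℝ}
    {l : List (Fin n)} {a₀ w₀ e' : ℕ} {g' : ℕ → ℕ},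
    r < R → Function.Injective e → e lt = u → (∀ k, ∃ l < r + 1, e k = c l) → l₀ < r + 1 →
    c l₀ = u → (∀ i < r + 1, c i ∈ Lt ↔ l₀ < i) → Set.InjOn c (Set.Iio (r + 1)) →
    (∀ y i, (T y i).totalDegree ≤ K) → (∀ y i, DepC c i (T y i)) →
    RelvY F c r a w' g K h Y Z κ B T → Sub B' B → κ' * Pe F.p B ≤ Pe F.p B' →
    κ * (15 ^ m * (11 ^ m * 19 ^ n) * 2 ^ n) ≤ κ' → 0 < κ' →
    (∀ l < r, Y + M (c l) + 3 ≤ J) → Z + M (c r) + 3 ≤ J → w' ≤ J →
    (∀ ω, B ω → z (ptr F J ω) = z' (slam F w ω)) →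
    (∀ ω, B ω → ∀ i, l₀ < i → i < r + 1 → Shr F c l₀ a g T (shv z cb u Lt M) x i ω) →
    l.Nodup → lt ∉ l → w + a₀ ≤ a → w + w₀ ≤ w' →
    ChN (zsh (F.res B True hl) w J' hJ.le z' cb u Lt hu M e) (cof l lt) (l.length + 1)
      (fun _ => K) a₀ w₀ e' g' B' →
    w + g' l.length ≤ g l₀ + C * (h + x + 1) := by
  obtain ⟨C, hC⟩ := zb_fam K n R hK
  refine ⟨C, ?_⟩
  intro m J w J' F hJ V z z' cb u Lt hu M e lt c r l₀ a w' h x Y Z g κ κ' B B' hl T l a₀ w₀ e' g'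
    hr he hlt hec hl₀ hcu hLt hc hTd hTp hR hB' hP' hκ hκ0 hY hZ hw'J hz hSh hnd hlt' ha hw
  rintro ⟨G', H', hL⟩
  have hln : l.length + 1 ≤ n := by
    have h1 : (lt :: l).Nodup := List.nodup_cons.2 ⟨hlt', hnd⟩
    have h2 := h1.length_le_card
    rw [List.length_cons, Fintype.card_fin] at h2
    exact h2
  have hB0 := (pe_res hl hB').1
  have eB : Pe (F.res B True hl).p B * Pe F.p B = Pe F.p B := (pe_res hl fun _ h => h).2
  have eB' : Pe (F.res B True hl).p B' * Pe F.p B = Pe F.p B' := (pe_res hl hB').2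
  have hP'' : κ' * Pe (F.res B True hl).p B ≤ Pe (F.res B True hl).p B' := by
    refine le_of_mul_le_mul_right ?_ hB0
    rw [mul_assoc, eB, eB']
    exact hP'
  have hpos : 0 < Pe (F.res B True hl).p B' := by
    have h1 : 0 < Pe F.p B' := lt_of_lt_of_le (mul_pos hκ0 hB0) hP'
    rw [← eB'] at h1
    by_contra hcon
    push Not at hcon
    have := mul_nonpos_of_nonpos_of_nonneg hcon hB0.le
    linarith
  exact hC (F := F.res B True hl) (z := z) (M := M) (u := u) (hu := hu) (s := l.length) hJ hr he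
    hlt hec hl₀ hcu hLt hc hTd hTp (hR.res hl fun _ h => h) hB' hP'' hκ hpos hY hZ hw'J
    (fun ω h => hz ω (hB' ω h)) (fun ω h => hSh ω (hB' ω h)) hln (Pool.FRN.cof_inj hnd hlt')
    (cof_len l lt) ha hw hL

end Pool.Z3
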