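import Pool.Agent.H77.Z3.Zgb
import Pool.Agent.H77.Z3.Nod
import Pool.Agent.H77.Z3.Zpa
import Pool.Agent.H87.GEN.Shr

/-!
# The number of the kept direction in the zoom

`zg_fam`: a chain without relations of all the coordinates; `v` is a direction along which only the
coordinate `lt` of the zoom moves, and the labels after the one of `c l₀` move with it. Then every
chain of the zoom with `lt` on the top has at most the precision of the label of `c l₀`.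
-/

set_option autoImplicit false

namespace Pool.Z3

open Finset Real MvPolynomial
open Pool.Agent.H49.Ent Pool.Agent.H32.Dense Pool.STK Pool.KA Pool.KSAT Pool.K2S Pool.PB Pool.S6C
open Pool.GEN Pool.CHT Pool.CHX Pool.ZLC Pool.ZCL Pool.SHR
open Pool.ISO (nbx_ext)
open Pool.LBN (Tch cof cof_len)
open Pool.ONE (tgs)

variable {m n J : ℕ}

/-- A moving point. -/
theorem gmw_mvp {V : Type} {F : Fam m J} {w : ℕ} {Cr : Crd m V} {g : F.Ω → V} {e : Fin n → Fin m}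
    {ω : F.Ω} (v : Fin m → ℝ) (σ : ℝ) (b : Option (Fin m) → ℝ) :
    gmw F w Cr g e ω (mvp v σ b) none = gmw F w Cr g e ω b none ∧
      ∀ k, gmw F w Cr g e ω (mvp v σ b) (some k) =
        gmw F w Cr g e ω b (some k) + 2 ^ w * (σ * Cr.L (g ω) v (e k)) := by
  refine ⟨?_, fun k => ?_⟩
  · unfold gmw
    rw [gmp_none, gmp_none, mvp_none]
  · unfold gmw
    rw [gmp_some, gmp_some, mvp_none]
    have h1 : Cr.L (g ω) (fun j => mvp v σ b (some j)) (e k) =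
        Cr.L (g ω) (fun j => b (some j)) (e k) + σ * Cr.L (g ω) v (e k) := by
      have h2 := Cr.lin (g ω) (fun j => b (some j)) v σ (e k)
      exact h2
    rw [h1]
    ring

/-- **The number of the kept direction** in the zoom. -/
theorem zg_fam (K n R : ℕ) (hK : 1 ≤ K) : ∃ C : ℕ, ∀ {m J w J' : ℕ} {F : Fam m J}
    (hJ : w + J' = J) {V : Type} {z : PtT F → V} {z' : LnT F → V} {Cr : Crd m V} {M : Fin m → ℕ}
    {e : Fin n → Fin m} {lt : Fin n} {v : PtT F → Fin m → ℝ}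
    {c : ℕ → Fin m} {r l₀ a w' h x Y Z q : ℕ} {g : ℕ → ℕ} {κ κ' : ℝ} {B B' : F.Ω → Prop}
    {T : PtT F → ℕ → MvPolynomial (Option (Fin m)) ℝ}
    {c' : ℕ → Fin n} {s a₀ w₀ e' : ℕ} {g' : ℕ → ℕ}
    {G' : PtT (zfc F w J' hJ.le Cr (fun ω => z' (slam F w ω)) e) → ℕ →
      MvPolynomial (Option (Fin n)) ℝ}
    {H' : LnT (zfc F w J' hJ.le Cr (fun ω => z' (slam F w ω)) e) → ℕ →
      MvPolynomial (Option (Fin n)) ℝ},
    Cr.Bd 0 2 → r < R → Function.Injective e → (∀ i, ∃ l < r + 1, c l = i) → l₀ < r + 1 →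
    Set.InjOn c (Set.Iio (r + 1)) →
    (∀ y i, (T y i).totalDegree ≤ K) → (∀ y i, DepC c i (T y i)) →
    RelvY F c r a w' g K h Y Z κ B T → Sub B' B → κ' * Pe F.p B ≤ Pe F.p B' →
    κ * (15 ^ m * (11 ^ m * 19 ^ n) * 2 ^ n) ≤ κ' → 0 < Pe F.p B' →
    (∀ l < r, Y + M (c l) + 2 ≤ J) → Z + M (c r) + 2 ≤ J → w' ≤ J →
    (∀ ω, B' ω → z (ptr F J ω) = z' (slam F w ω)) →
    (∀ ω, B' ω → ∀ y : Fin m → ℝ, (∀ i, |Cr.L (z' (slam F w ω)) y i| ≤ 1) →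
      ∀ i, |y i| ≤ 2 ^ M i) →
    (∀ ω, B' ω → v (ptr F J ω) (c l₀) = 1 ∧ (∀ j < l₀, v (ptr F J ω) (c j) = 0) ∧
      (∀ k, k ≠ lt → Cr.L (z' (slam F w ω)) (v (ptr F J ω)) (e k) = 0) ∧
      2 ^ q ≤ |Cr.L (z' (slam F w ω)) (v (ptr F J ω)) (e lt)|) →
    (∀ ω, B' ω → ∀ i, l₀ < i → i < r + 1 → Shr F c l₀ a g T v x i ω) →
    s + 1 ≤ n → Set.InjOn c' (Set.Iio (s + 1)) → c' s = lt → w + a₀ ≤ a → w + w₀ ≤ w' →
    ChOK (zfc F w J' hJ.le Cr (fun ω => z' (slam F w ω)) e) c' (s + 1) (fun _ => K) a₀ w₀ e' g'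
      B' G' H' →
    w + q + g' s ≤ g l₀ + C * (h + x + 1) := by
  obtain ⟨C₁, hnear⟩ := zg_near K n hK
  obtain ⟨c₀, D₁, hD₁, hdil⟩ := nbx_dil (R + 1) (fun _ => K)
  refine ⟨C₁ + c₀ + D₁ + 2, ?_⟩
  intro m J w J' F hJ V z z' Cr M e lt v c r l₀ a w' h x Y Z q g κ κ' B B' T c' s a₀ w₀ e' g'
    G' H' hBd hr he hcov hl₀ hc hTd hTp hR hB' hP' hκ hP0 hY hZ hw'J hz hInv hv hSh hs hc' hcs ha
    hw hL
  obtain ⟨B'', k1, k2, k3⟩ := hnear hJ hBd he hcov hR hB' hP' hκ hY hZ hw'J hz hInv hs hc' ha hw hL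
  obtain ⟨ω, hω⟩ : ∃ ω, B'' ω := by
    by_contra hcon
    push Not at hcon
    have h1 : Pe F.p B'' = 0 := by
      unfold Pe
      refine Finset.sum_eq_zero fun ω _ => if_neg fun h => ?_
      exact hcon ω (of_eq_true h)
    rw [h1, mul_zero] at k2
    linarith
  have hB'ω := k1 ω hω
  obtain ⟨hv1, hv0, hvk, hvl⟩ := hv ω hB'ω
  -- a point of the natural box
  obtain ⟨b, hb, -, -, -⟩ := nbx_ext (c := c) (i := r + 1) hc (hTp (ptr F J ω)) (g := g) (a := a)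
    (t := F.t ω) (j := 0) (Nat.zero_le _) (b := fun _ => F.t ω)
    ⟨by rw [sub_self, abs_zero]; positivity, fun l hl => by omega⟩
  obtain ⟨σ, hσ⟩ : ∃ σ : ℝ, σ = 1 / 2 ^ g l₀ := ⟨_, rfl⟩
  have hσ0 : 0 < σ := by rw [hσ]; positivity
  have hmb := mvp_box (c := c) (l := l₀) (i := r + 1) (a := a) (y := x) (g := g) (t := F.t ω)
    (s := σ) (G := T (ptr F J ω)) (v := v (ptr F J ω)) (b := b) (hTp _) hv0 hv1 hb (by
      rw [abs_of_pos hσ0, hσ]) (fun j hj hlj => hSh ω hB'ω j hlj hj b (hb.mono le_rfl hj.le) σ (by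
        rw [abs_of_pos hσ0, hσ]))
  -- the polynomial
  obtain ⟨Q, hQ⟩ : ∃ Q, Q = gpl Cr w e (F.T1 w ω) (z' (slam F w ω))
    (F.bcl w Cr (fun ω => z' (slam F w ω)) ω) (F.bvl Cr (fun ω => z' (slam F w ω)) ω) (c' s)
    (G' (ptr (zfc F w J' hJ.le Cr (fun ω => z' (slam F w ω)) e) J' ω) s) := ⟨_, rfl⟩
  have hQe : ∀ b, eval b Q = gmw F w Cr (fun ω => z' (slam F w ω)) e ω b (some (c' s)) -
      eval (gmw F w Cr (fun ω => z' (slam F w ω)) e ω b)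
        (G' (ptr (zfc F w J' hJ.le Cr (fun ω => z' (slam F w ω)) e) J' ω) s) := fun b => by
    rw [hQ]
    exact eval_gpl _ _ _
  obtain ⟨M₁, hM₁⟩ : ∃ M₁ : ℝ, M₁ = 2 ^ (C₁ * (h + 1)) / 2 ^ g' s := ⟨_, rfl⟩
  have hM0 : 0 ≤ M₁ := by rw [hM₁]; positivity
  have hQ1 : ∀ b, NBx c (T (ptr F J ω)) g a (F.t ω) (r + 1) b → |eval b Q| ≤ M₁ := by
    intro b hb
    rw [hQe, hM₁]
    exact k3 ω hω b hb s (Nat.lt_succ_self s)
  have hQ2 := hdil (c := c) (i := r + 1) (G := T (ptr F J ω)) (Q := Q) (g := g) (a := a)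
    (t := F.t ω) (M := M₁) (x + 1) (by omega) hc (hTd _) (hTp _) (by
      rw [hQ]
      exact gpl_dep hcov _ _) (by
      rw [hQ]
      exact gpl_deg hK (hL.degG _ s)) hM0 hQ1 (mvp (v (ptr F J ω)) σ b) hmb.1
    (fun j hj => hmb.2 j hj)
  obtain ⟨m1, m2⟩ := gmw_mvp (F := F) (w := w) (Cr := Cr) (g := fun ω => z' (slam F w ω)) (e := e)
    (ω := ω) (v (ptr F J ω)) σ b
  obtain ⟨lam, hlam⟩ : ∃ lam, lam = Cr.L (z' (slam F w ω)) (v (ptr F J ω)) (e lt) := ⟨_, rfl⟩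
  rw [← hlam] at hvl
  have hQ3 : eval (mvp (v (ptr F J ω)) σ b) Q - eval b Q = 2 ^ w * (σ * lam) := by
    rw [hQe, hQe, hcs, m2 lt]
    have h1 : eval (gmw F w Cr (fun ω => z' (slam F w ω)) e ω (mvp (v (ptr F J ω)) σ b))
        (G' (ptr (zfc F w J' hJ.le Cr (fun ω => z' (slam F w ω)) e) J' ω) s) =
        eval (gmw F w Cr (fun ω => z' (slam F w ω)) e ω b)
          (G' (ptr (zfc F w J' hJ.le Cr (fun ω => z' (slam F w ω)) e) J' ω) s) := by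
      refine hL.depG _ s _ _ m1 fun l hl => ?_
      rw [m2, hvk _ fun h2 => ?_, mul_zero, mul_zero, add_zero]
      rw [← hcs] at h2
      have := hc' (show l < s + 1 by omega) (show s < s + 1 by omega) h2
      omega
    rw [h1, hlam]
    ring
  have hfin : 2 ^ w * (σ * 2 ^ q) ≤ 2 ^ (c₀ + (x + 1) * D₁ + 1) * M₁ := by
    have h1 := abs_le.1 hQ2
    have h2 := abs_le.1 (hQ1 b hb)
    have h3 : M₁ ≤ 2 ^ (c₀ + (x + 1) * D₁) * M₁ :=
      le_mul_of_one_le_left hM0 (one_le_pow₀ (by norm_num))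
    have h4 : 2 ^ (c₀ + (x + 1) * D₁ + 1) * M₁ = 2 ^ (c₀ + (x + 1) * D₁) * M₁ +
      2 ^ (c₀ + (x + 1) * D₁) * M₁ := by
      rw [pow_succ]
      ring
    have h5 : |2 ^ w * (σ * lam)| ≤ 2 ^ (c₀ + (x + 1) * D₁ + 1) * M₁ := by
      rw [← hQ3, abs_le]
      constructor <;> linarith [h1.1, h1.2, h2.1, h2.2]
    rw [abs_mul, abs_mul, abs_of_pos (by positivity : (0 : ℝ) < 2 ^ w), abs_of_pos hσ0] at h5
    refine le_trans ?_ h5
    exact mul_le_mul_of_nonneg_left (mul_le_mul_of_nonneg_left hvl hσ0.le) (by positivity)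
  have hexp : w + q + g' s ≤ g l₀ + (c₀ + (x + 1) * D₁ + 1 + C₁ * (h + 1)) := by
    have e1 : (2 : ℝ) ^ w * (1 / 2 ^ g l₀ * 2 ^ q) = 2 ^ (w + q) / 2 ^ g l₀ := by
      rw [pow_add]
      ring
    rw [hσ, hM₁, e1, ← mul_div_assoc, div_le_div_iff₀ (by positivity) (by positivity),
      ← pow_add, ← pow_add, ← pow_add] at hfin
    have := (pow_le_pow_iff_right₀ (one_lt_two (α := ℝ))).1 hfin
    omega
  refine hexp.trans (Nat.add_le_add_left ?_ _)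
  have e1 : (C₁ + c₀ + D₁ + 2) * (h + x + 1) = C₁ * (h + 1) + c₀ * 1 + D₁ * (x + 1) + 1 * 1 +
    (C₁ * x + c₀ * (h + x) + D₁ * h + (2 * (h + x + 1) - 1)) := by
    have : 1 ≤ 2 * (h + x + 1) := by omega
    zify [this]
    ring
  rw [e1]
  have : (x + 1) * D₁ = D₁ * (x + 1) := mul_comm _ _
  omega

/-- **No label above a node** in the zoom of the conditional family. -/
theorem zg_tgs (K n R : ℕ) (hK : 1 ≤ K) : ∃ C : ℕ, ∀ {m J w J' : ℕ} {F : Fam m J}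
    (hJ : w + J' = J) {V : Type} {z : PtT F → V} {z' : LnT F → V} {Cr : Crd m V} {M : Fin m → ℕ}
    {e : Fin n → Fin m} {lt : Fin n} {v : PtT F → Fin m → ℝ}
    {c : ℕ → Fin m} {r l₀ a w' h x Y Z q : ℕ} {g : ℕ → ℕ} {κ κ' : ℝ} {B B' : F.Ω → Prop}
    (hl : IsLaw (cond F.p B True)) {T : PtT F → ℕ → MvPolynomial (Option (Fin m)) ℝ}
    {l : List (Fin n)} {a₀ w₀ e' : ℕ} {g' : ℕ → ℕ},
    Cr.Bd 0 2 → r < R → Function.Injective e → (∀ i, ∃ l < r + 1, c l = i) → l₀ < r + 1 →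
    Set.InjOn c (Set.Iio (r + 1)) →
    (∀ y i, (T y i).totalDegree ≤ K) → (∀ y i, DepC c i (T y i)) →
    RelvY F c r a w' g K h Y Z κ B T → Sub B' B → κ' * Pe F.p B ≤ Pe F.p B' →
    κ * (15 ^ m * (11 ^ m * 19 ^ n) * 2 ^ n) ≤ κ' → 0 < κ' →
    (∀ l < r, Y + M (c l) + 2 ≤ J) → Z + M (c r) + 2 ≤ J → w' ≤ J →
    (∀ ω, B ω → z (ptr F J ω) = z' (slam F w ω)) →
    (∀ ω, B ω → ∀ y : Fin m → ℝ, (∀ i, |Cr.L (z' (slam F w ω)) y i| ≤ 1) →
      ∀ i, |y i| ≤ 2 ^ M i) →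
    (∀ ω, B ω → v (ptr F J ω) (c l₀) = 1 ∧ (∀ j < l₀, v (ptr F J ω) (c j) = 0) ∧
      (∀ k, k ≠ lt → Cr.L (z' (slam F w ω)) (v (ptr F J ω)) (e k) = 0) ∧
      2 ^ q ≤ |Cr.L (z' (slam F w ω)) (v (ptr F J ω)) (e lt)|) →
    (∀ ω, B ω → ∀ i, l₀ < i → i < r + 1 → Shr F c l₀ a g T v x i ω) →
    l.Nodup → lt ∉ l → w + a₀ ≤ a → w + w₀ ≤ w' →
    ChN (zfc (F.res B True hl) w J' hJ.le Cr (fun ω => z' (slam F w ω)) e) (cof l lt)
      (l.length + 1) (fun _ => K) a₀ w₀ e' g' B' →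
    w + q + g' l.length ≤ g l₀ + C * (h + x + 1) := by
  obtain ⟨C, hC⟩ := zg_fam K n R hK
  refine ⟨C, ?_⟩
  intro m J w J' F hJ V z z' Cr M e lt v c r l₀ a w' h x Y Z q g κ κ' B B' hl T l a₀ w₀ e' g'
    hBd hr he hcov hl₀ hc hTd hTp hR hB' hP' hκ hκ0 hY hZ hw'J hz hInv hv hSh hnd hlt' ha hw
  rintro ⟨G', H', hL⟩
  have hln : l.length + 1 ≤ n := by
    have h1 : (lt :: l).Nodup := List.nodup_cons.2 ⟨hlt', hnd⟩
    have h2 := h1.length_le_card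
    rw [List.length_cons, Fintype.card_fin] at h2
    exact h2
  have hB0 := (pe_res hl hB').1
  have eB : Pe (F.res B True hl).p B * Pe F.p B = Pe F.p B := (pe_res hl fun _ h => h).2
  have eB' : Pe (F.res B True hl).p B' * Pe F.p B = Pe F.p B' := (pe_res hl hB').2
  have hP'' : κ' * Pe (F.res B True hl).p B ≤ Pe (F.res B True hl).p B' := by
    refine le_of_mul_le_mul_right ?_ hB0
    rw [mul_assoc, eB, eB']
    exact hP'
  have hpos : 0 < Pe (F.res B True hl).p B' := by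
    have h1 : 0 < Pe F.p B' := lt_of_lt_of_le (mul_pos hκ0 hB0) hP'
    rw [← eB'] at h1
    by_contra hcon
    push Not at hcon
    have := mul_nonpos_of_nonpos_of_nonneg hcon hB0.le
    linarith
  exact hC (F := F.res B True hl) (z := z) (z' := z') (M := M) (s := l.length) hJ hBd hr he hcov
    hl₀ hc hTd hTp (hR.res hl fun _ h => h) hB' hP'' hκ hpos hY hZ hw'J (fun ω h => hz ω (hB' ω h))
    (fun ω h => hInv ω (hB' ω h)) (fun ω h => hv ω (hB' ω h)) (fun ω h => hSh ω (hB' ω h)) hln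
    (Pool.FRN.cof_inj hnd hlt') (cof_len l lt) ha hw hL

end Pool.Z3
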