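import Pool.Agent.H77.Z3.Zpa
import Pool.Agent.H77.Z3.Gnd

/-!
# No label of the direction of the shear in the sheared zoom

`NdP`: the parameters of a node; `NdOK`: the node on an event, the labels move with the shear.
`phi1_ex`: the list of nodes for a point of the zoom, and no label above the number of the direction
of the shear on all large subevents, if these nodes are given.
-/

set_option autoImplicit false

namespace Pool.Z3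

open Finset Real MvPolynomial
open Pool.Agent.H49.Ent Pool.Agent.H32.Dense Pool.STK Pool.KA Pool.KSAT Pool.K2S Pool.PB Pool.S6C
open Pool.GEN Pool.CHT Pool.CHX Pool.ZLC Pool.ZCL Pool.SHR
open Pool.LBN (Tch cof cof_len)
open Pool.ONE (tgs)
open Pool.LEV (Law)

variable {m n J : ℕ} {V : Type}

/-- **The parameters of a node.** -/
structure NdP where
  /-- the radius -/
  a : ℝ
  /-- the window -/
  w : ℝ
  /-- the degree of the labels -/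
  D : ℕ
  /-- the degree of the relations -/
  Dr : ℕ
  /-- the losses -/
  d : ℕ → ℝ
  /-- the gradients of the list -/
  e : ℝ
  /-- the gradients of the target -/
  E : ℝ
  /-- the loss of the relations and of the shear -/
  η : ℝ
  /-- the loss of the own point -/
  μ : ℝ
  /-- the loss of the own point, target -/
  μT : ℝ
  /-- the exponent of the shares -/
  ψ : ℝ

/-- **The node on an event**; the labels after the one of `c l₀` move with the shear. -/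
def NdOK (p : NdP) (c : ℕ → Fin m) (r l₀ : ℕ) (β : ℕ → ℝ → ℝ → ℝ) {F : Fam m J} (z : PtT F → V)
    (cb : V → Fin m → ℝ) (Lt : Finset (Fin m)) (M : Fin m → ℕ) (B : F.Ω → Prop) : Prop :=
  ∃ (T : PtT F → ℕ → MvPolynomial (Option (Fin m)) ℝ)
    (TH : LnT F → ℕ → MvPolynomial (Option (Fin m)) ℝ),
    Nod F c r p.D p.Dr ⌊p.a * J⌋₊ ⌊p.w * J⌋₊ ⌊p.e * J⌋₊ ⌊p.E * J⌋₊
      (fun l => ⌊(β l p.a p.w - p.d l) * J⌋₊) ⌊p.η * J⌋₊ ⌊(1 - p.μ) * J⌋₊ ⌊(1 - p.μT) * J⌋₊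
      (Real.exp (-(p.ψ * J))) B T TH ∧
    ∀ ω, B ω → ∀ i, l₀ < i → i < r + 1 → Shr F c l₀ ⌊p.a * J⌋₊
      (fun l => ⌊(β l p.a p.w - p.d l) * J⌋₊) T (shv z cb (c l₀) Lt M) ⌊p.η * J⌋₊ i ω

/-- The natural number of a nonnegative real number. -/
theorem fl_le_max (x : ℝ) : ((⌊x⌋₊ : ℕ) : ℝ) ≤ max x 0 := by
  rcases le_or_gt 0 x with h | h
  · exact (Nat.floor_le h).trans (le_max_left _ _)
  · rw [Nat.floor_of_nonpos h.le, Nat.cast_zero]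
    exact le_max_right _ _

/-- **No label of the direction of the shear** in the zoom. -/
theorem phi1_ex (n m r : ℕ) {β : ℕ → ℝ → ℝ → ℝ} {l₀ : ℕ} (hβ : Law (β l₀))
    (hβa : ∀ a w, 0 ≤ w → w ≤ a → a ≤ 1 → a ≤ β l₀ a w) {w₁ a' w' U h aₜ wₜ : ℝ} (hw0 : 0 < w₁)
    (hw1 : w₁ < 1) (h0 : 0 ≤ a') (h0' : 0 ≤ w') (hh : 0 < h) (ht1 : w₁ + (1 - w₁) * a' < aₜ)
    (ht2 : w₁ + (1 - w₁) * w' < wₜ) (ht3 : wₜ ≤ aₜ) (ht4 : aₜ < 1) (hβ1 : β l₀ aₜ wₜ < 1)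
    (hU : β l₀ aₜ wₜ - w₁ ≤ (1 - w₁) * (U + h / 2)) (K : ℕ) :
    ∃ N : ℕ, 1 ≤ N ∧ ∀ D : ℕ → ℕ, ∃ (Dr : ℕ) (η₀ : ℝ), 0 < η₀ ∧ (∀ k ≤ N, D k ≤ Dr) ∧
      ∀ p : ℕ → NdP, (∀ k ≤ N, (p k).a = w₁ + k * ((aₜ - w₁) / N) ∧ (p k).w = min wₜ (p k).a ∧
        (p k).D = D k ∧ (p k).Dr = Dr ∧ 0 ≤ (p k).η ∧ (p k).η ≤ η₀ ∧ 0 < (p k).ψ ∧
        0 ≤ (p k).d l₀ ∧ 0 < (p k).μ ∧ (p k).μ ≤ 1 ∧ (p k).μT ≤ 1) →
      ∃ ψ : ℝ, 0 < ψ ∧ ∃ J₀ : ℕ, ∀ J : ℕ, J₀ ≤ J → ∀ (F : Fam m J) (B : F.Ω → Prop) (V : Type)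
        (z : PtT F → V) (z' : LnT F → V) (cb : V → Fin m → ℝ) (Lt : Finset (Fin m))
        (c : ℕ → Fin m) (hu : c l₀ ∉ Lt) (M : Fin m → ℕ) (e : Fin n → Fin m) (lt : Fin n),
        Function.Injective e → e lt = c l₀ → (∀ k, ∃ l < r + 1, e k = c l) → l₀ < r + 1 →
        (∀ i < r + 1, c i ∈ Lt ↔ l₀ < i) → Set.InjOn c (Set.Iio (r + 1)) →
        (∀ k ≤ N, ∀ l < r, (M (c l) : ℝ) ≤ (p k).μ / 2 * J) →
        (∀ k ≤ N, (M (c r) : ℝ) ≤ ((p k).μT - (p k).μ / 2) * J) →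
        (∀ ω, B ω → z (ptr F J ω) = z' (slam F ⌊w₁ * J⌋₊ ω)) →
        (∀ k ≤ N, NdOK (p k) c r l₀ β z cb Lt M B) →
        ∀ (hl : IsLaw (cond F.p B True)) (J' : ℕ) (hJ : ⌊w₁ * J⌋₊ + J' = J) (B' : F.Ω → Prop),
          Sub B' B → Real.exp (-(3 * ψ * J')) * Pe F.p B ≤ Pe F.p B' →
          ¬ (tgs lt).T () K ⌊a' * J'⌋₊ ⌊w' * J'⌋₊ ⌊(U + h) * J'⌋₊ J'
            (zsh (F.res B True hl) ⌊w₁ * J⌋₊ J' hJ.le z' cb (c l₀) Lt hu M e) B' := by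
  have h1w : 0 < 1 - w₁ := by linarith
  have hat : w₁ < aₜ := by
    have : 0 ≤ (1 - w₁) * a' := by positivity
    linarith
  obtain ⟨N, hN⟩ := exists_nat_gt ((aₜ - w₁) / ((1 - w₁) * h / 8))
  have hN0 : (0 : ℝ) < N := lt_trans (div_pos (by linarith) (by positivity)) hN
  have hN1 : 1 ≤ N := by
    have : (0 : ℕ) < N := by exact_mod_cast hN0
    omega
  obtain ⟨me, hme⟩ : ∃ me : ℝ, me = (aₜ - w₁) / N := ⟨_, rfl⟩
  have hme0 : 0 < me := by rw [hme]; exact div_pos (by linarith) hN0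
  have hme1 : me ≤ (1 - w₁) * h / 8 := by
    rw [div_lt_iff₀ (by positivity)] at hN
    rw [hme, div_le_iff₀ hN0]
    linarith
  have hmeN : N * me = aₜ - w₁ := by
    rw [hme]
    field_simp
  refine ⟨N, hN1, fun D => ?_⟩
  obtain ⟨Dr, hDr⟩ : ∃ Dr, Dr = ∑ k ∈ range (N + 1), D k + K + 1 := ⟨_, rfl⟩
  have hDk : ∀ k ≤ N, D k ≤ Dr := fun k hk => by
    have h2 : D k ≤ ∑ k ∈ range (N + 1), D k :=
      Finset.single_le_sum (f := D) (fun _ _ => Nat.zero_le _) (mem_range.2 (by omega))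
    omega
  obtain ⟨C, hC⟩ := zb_tgs Dr n (r + 1) (by omega)
  have hC0 : (0 : ℝ) ≤ C := Nat.cast_nonneg C
  obtain ⟨η₀, hη₀⟩ : ∃ η₀ : ℝ, η₀ = (1 - w₁) * h / (16 * (C + 1)) := ⟨_, rfl⟩
  have hη00 : 0 < η₀ := by rw [hη₀]; positivity
  have hη01 : C * (2 * η₀) ≤ (1 - w₁) * h / 8 := by
    have h2 : (C + 1) * (2 * η₀) = (1 - w₁) * h / 8 := by
      rw [hη₀]
      field_simp
      ring
    linarith
  refine ⟨Dr, η₀, hη00, hDk, fun p hp => ?_⟩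
  obtain ⟨ψ₁, hψ₁, hψk⟩ := fin_pos (N + 1) (f := fun k => (p k).ψ) fun k hk =>
    (hp k (by omega)).2.2.2.2.2.2.1
  obtain ⟨μ₁, hμ₁, hμk⟩ := fin_pos (N + 1) (f := fun k => (p k).μ) fun k hk =>
    (hp k (by omega)).2.2.2.2.2.2.2.2.1
  obtain ⟨J₁, hJ₁⟩ := share_ex (ψ := ψ₁ / 2) (κ := 1 / (15 ^ m * (11 ^ m * 19 ^ n) * 2 ^ n))
    (by positivity) (by positivity)
  obtain ⟨J₂, hJ₂⟩ := exists_nat_gt ((C + 4) / ((1 - w₁) * h / 4))
  obtain ⟨J₃, hJ₃⟩ := exists_nat_gt (8 / μ₁)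
  obtain ⟨J₄, hJ₄⟩ := exists_nat_gt ((a' + 1) / (aₜ - (w₁ + (1 - w₁) * a')))
  obtain ⟨J₅, hJ₅⟩ := exists_nat_gt ((w' + 1) / (wₜ - (w₁ + (1 - w₁) * w')))
  refine ⟨ψ₁ / 8, by positivity, max (max J₁ J₂) (max J₃ (max J₄ J₅)), ?_⟩
  intro J hJ F B V z z' cb Lt c hu M e lt he hlt hec hl₀ hLt hc hM1 hM2 hz hok hl J' hJJ B' hB'
    hPB'
  simp only [max_le_iff] at hJ
  obtain ⟨⟨j1, j2⟩, j3, j4, j5⟩ := hJ
  have hJr : (0 : ℝ) ≤ J := Nat.cast_nonneg J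
  have hJ'r : (0 : ℝ) ≤ J' := Nat.cast_nonneg J'
  have hj2 : C + 4 < (1 - w₁) * h / 4 * J := by
    have h3 := hJ₂.trans_le (show (J₂ : ℝ) ≤ J by exact_mod_cast j2)
    rw [div_lt_iff₀ (by positivity)] at h3
    linarith
  have hj3 : 8 < μ₁ * J := by
    have h3 := hJ₃.trans_le (show (J₃ : ℝ) ≤ J by exact_mod_cast j3)
    rw [div_lt_iff₀ hμ₁] at h3
    linarith
  have hj4 : a' + 1 < (aₜ - (w₁ + (1 - w₁) * a')) * J := by
    have h3 := hJ₄.trans_le (show (J₄ : ℝ) ≤ J by exact_mod_cast j4)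
    rw [div_lt_iff₀ (by linarith)] at h3
    linarith
  have hj5 : w' + 1 < (wₜ - (w₁ + (1 - w₁) * w')) * J := by
    have h3 := hJ₅.trans_le (show (J₅ : ℝ) ≤ J by exact_mod_cast j5)
    rw [div_lt_iff₀ (by linarith)] at h3
    linarith
  -- the scale
  have f1 : ((⌊w₁ * (J : ℝ)⌋₊ : ℕ) : ℝ) ≤ w₁ * J := Nat.floor_le (by positivity)
  have f2 := Nat.lt_floor_add_one (w₁ * (J : ℝ))
  have hsum : ((⌊w₁ * (J : ℝ)⌋₊ : ℕ) : ℝ) + J' = J := by exact_mod_cast hJJ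
  have g1 : (1 - w₁) * (J : ℝ) ≤ J' := by linarith
  have g2 : (J' : ℝ) ≤ (1 - w₁) * J + 1 := by linarith
  rintro ⟨l, hnd, hltl, a₀, w₀, e', g', hwa₀, ha₀, hw₀, hPg, -, hch⟩
  have ha₀r : (a₀ : ℝ) ≤ a' * J' := by
    have h3 : (a₀ : ℝ) ≤ (⌊a' * (J' : ℝ)⌋₊ : ℕ) := by exact_mod_cast ha₀
    exact h3.trans (Nat.floor_le (by positivity))
  have hw₀r : (w₀ : ℝ) ≤ w' * J' := by
    have h3 : (w₀ : ℝ) ≤ (⌊w' * (J' : ℝ)⌋₊ : ℕ) := by exact_mod_cast hw₀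
    exact h3.trans (Nat.floor_le (by positivity))
  have hwa₀r : (w₀ : ℝ) ≤ a₀ := by exact_mod_cast hwa₀
  obtain ⟨X, hX⟩ : ∃ X : ℝ, X = (⌊w₁ * (J : ℝ)⌋₊ : ℕ) + a₀ := ⟨_, rfl⟩
  have hXt : X ≤ aₜ * J := by
    have h3 : a' * (J' : ℝ) ≤ a' * ((1 - w₁) * J + 1) := mul_le_mul_of_nonneg_left g2 h0
    rw [hX]
    linarith
  -- the node
  obtain ⟨k, hkN, hk1, hk2⟩ : ∃ k ≤ N, X ≤ (w₁ + k * me) * J ∧
      (w₁ + k * me) * J ≤ X + me * J + 1 := by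
    classical
    have hex : ∃ k : ℕ, X ≤ (w₁ + k * me) * J := ⟨N, by
      have e1 : w₁ + N * me = aₜ := by linarith
      rw [e1]
      exact hXt⟩
    refine ⟨Nat.find hex, ?_, Nat.find_spec hex, ?_⟩
    · refine Nat.find_min' hex ?_
      have e1 : w₁ + N * me = aₜ := by linarith
      rw [e1]
      exact hXt
    · rcases Nat.eq_zero_or_pos (Nat.find hex) with h3 | h3
      · rw [h3, Nat.cast_zero, zero_mul, add_zero]
        have h4 : 0 ≤ me * (J : ℝ) := by positivity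
        have h5 : (0 : ℝ) ≤ a₀ := Nat.cast_nonneg _
        rw [hX]
        linarith
      · obtain ⟨q, hq⟩ : ∃ q, Nat.find hex = q + 1 := ⟨Nat.find hex - 1, by omega⟩
        have h4 := Nat.find_min hex (m := q) (by omega)
        push Not at h4
        rw [hq]
        push_cast
        have e1 : (w₁ + ((q : ℝ) + 1) * me) * J = (w₁ + q * me) * J + me * J := by ring
        rw [e1]
        linarith
  obtain ⟨pa, pw, pD, pDr, pη0, pη1, pψ, pd, pμ0, pμ1, pμT⟩ := hp k hkN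
  rw [← hme] at pa
  obtain ⟨T, TH, hNod, hShr⟩ := hok k hkN
  have hkme : (k : ℝ) * me ≤ aₜ - w₁ := by
    have h3 : (k : ℝ) ≤ N := by exact_mod_cast hkN
    have := mul_le_mul_of_nonneg_right h3 hme0.le
    linarith
  have hk0me : 0 ≤ (k : ℝ) * me := by positivity
  have hak1 : (p k).a ≤ aₜ := by rw [pa]; linarith
  have hak0 : w₁ ≤ (p k).a := by rw [pa]; linarith
  have hwk1 : (p k).w ≤ (p k).a := by rw [pw]; exact min_le_right _ _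
  have hwk2 : (p k).w ≤ wₜ := by rw [pw]; exact min_le_left _ _
  have hwt1 : w₁ < wₜ := by
    have : 0 ≤ (1 - w₁) * w' := by positivity
    linarith
  have hwk0 : w₁ ≤ (p k).w := by rw [pw]; exact le_min hwt1.le hak0
  -- the natural numbers
  have hak00 : 0 ≤ (p k).a := by linarith
  have n1 : ⌊w₁ * (J : ℝ)⌋₊ + a₀ ≤ ⌊(p k).a * (J : ℝ)⌋₊ := by
    rw [Nat.le_floor_iff (by positivity), pa]
    push_cast
    rw [← hX]
    exact hk1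
  have n2 : ⌊w₁ * (J : ℝ)⌋₊ + w₀ ≤ ⌊(p k).w * (J : ℝ)⌋₊ := by
    have hw00 : 0 ≤ (p k).w := by linarith
    rw [Nat.le_floor_iff (by positivity)]
    push_cast
    rcases min_choice wₜ (p k).a with h3 | h3
    · rw [pw, h3]
      have h4 : w' * (J' : ℝ) ≤ w' * ((1 - w₁) * J + 1) := mul_le_mul_of_nonneg_left g2 h0'
      linarith
    · rw [pw, h3, pa]
      rw [hX] at hk1
      linarith
  have n3 : ⌊(p k).w * (J : ℝ)⌋₊ ≤ J := by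
    refine Nat.floor_le_of_le ?_
    have h3 : (p k).w ≤ 1 := by linarith
    have := mul_le_mul_of_nonneg_right h3 hJr
    linarith
  have hμk' : μ₁ ≤ (p k).μ := hμk k (by omega)
  have hμJ : 8 < (p k).μ * J := lt_of_lt_of_le hj3 (mul_le_mul_of_nonneg_right hμk' hJr)
  have n4 : ∀ l < r, ⌊(1 - (p k).μ) * (J : ℝ)⌋₊ + M (c l) + 3 ≤ J := by
    intro l hl
    have h3 := hM1 k hkN l hl
    have h4 : ((⌊(1 - (p k).μ) * (J : ℝ)⌋₊ : ℕ) : ℝ) ≤ (1 - (p k).μ) * J :=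
      Nat.floor_le (mul_nonneg (by linarith) hJr)
    have h5 : ((⌊(1 - (p k).μ) * (J : ℝ)⌋₊ + M (c l) + 3 : ℕ) : ℝ) ≤ J := by
      push_cast
      linarith
    exact_mod_cast h5
  have n5 : ⌊(1 - (p k).μT) * (J : ℝ)⌋₊ + M (c r) + 3 ≤ J := by
    have h3 := hM2 k hkN
    have h4 : ((⌊(1 - (p k).μT) * (J : ℝ)⌋₊ : ℕ) : ℝ) ≤ (1 - (p k).μT) * J :=
      Nat.floor_le (mul_nonneg (by linarith) hJr)
    have h5 : ((⌊(1 - (p k).μT) * (J : ℝ)⌋₊ + M (c r) + 3 : ℕ) : ℝ) ≤ J := by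
      push_cast
      linarith
    exact_mod_cast h5
  have hJ'J : (J' : ℝ) ≤ J := by
    have : (0 : ℝ) ≤ (⌊w₁ * (J : ℝ)⌋₊ : ℕ) := Nat.cast_nonneg _
    linarith
  have hψk' : ψ₁ ≤ (p k).ψ := hψk k (by omega)
  have n6 : Real.exp (-((p k).ψ * J)) * (15 ^ m * (11 ^ m * 19 ^ n) * 2 ^ n) ≤
      Real.exp (-(3 * (ψ₁ / 8) * J')) := by
    have h3 := hJ₁ J j1
    have h4 : Real.exp (-((p k).ψ * J)) ≤ Real.exp (-(ψ₁ / 2 * J)) *
        Real.exp (-(ψ₁ / 2 * J)) := by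
      rw [← Real.exp_add]
      refine Real.exp_le_exp.2 ?_
      have := mul_le_mul_of_nonneg_right hψk' hJr
      linarith
    have h5 : Real.exp (-(ψ₁ / 2 * (J : ℝ))) ≤ Real.exp (-(3 * (ψ₁ / 8) * J')) := by
      refine Real.exp_le_exp.2 ?_
      have := mul_le_mul_of_nonneg_left hJ'J hψ₁.le
      have h6 : 0 ≤ ψ₁ * (J : ℝ) := by positivity
      linarith
    have h7 : (0 : ℝ) < 15 ^ m * (11 ^ m * 19 ^ n) * 2 ^ n := by positivity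
    calc Real.exp (-((p k).ψ * J)) * (15 ^ m * (11 ^ m * 19 ^ n) * 2 ^ n) ≤
          Real.exp (-(ψ₁ / 2 * J)) * Real.exp (-(ψ₁ / 2 * J)) *
            (15 ^ m * (11 ^ m * 19 ^ n) * 2 ^ n) := mul_le_mul_of_nonneg_right h4 h7.le
      _ ≤ Real.exp (-(ψ₁ / 2 * J)) * (1 / (15 ^ m * (11 ^ m * 19 ^ n) * 2 ^ n)) *
            (15 ^ m * (11 ^ m * 19 ^ n) * 2 ^ n) :=
          mul_le_mul_of_nonneg_right (mul_le_mul_of_nonneg_left h3 (Real.exp_pos _).le) h7.le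
      _ = Real.exp (-(ψ₁ / 2 * J)) := by field_simp
      _ ≤ _ := h5
  obtain ⟨GG, HH, hGH⟩ := hch
  have hmain := hC (F := F) (z := z) (M := M) (u := c l₀) (hu := hu) (h := ⌊(p k).η * (J : ℝ)⌋₊)
    (x := ⌊(p k).η * (J : ℝ)⌋₊) (κ := Real.exp (-((p k).ψ * J)))
    (κ' := Real.exp (-(3 * (ψ₁ / 8) * J'))) hJJ hl (Nat.lt_succ_self r) he hlt hec hl₀ rfl hLt hc
    (fun y i => (hNod.top.degG y i).trans (by rw [pD]; exact hDk k hkN)) hNod.top.depG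
    (hNod.rlY.mono (by rw [pDr]) le_rfl le_rfl) hB' hPB' n6 (Real.exp_pos _) n4 n5 n3 hz hShr hnd
    hltl n1 n2 ⟨GG, HH, hGH.mono le_rfl (fun _ => by omega) le_rfl le_rfl⟩
  -- the real numbers
  have hmain' : ((⌊w₁ * (J : ℝ)⌋₊ : ℕ) : ℝ) + (g' l.length : ℝ) ≤
      β l₀ (p k).a (p k).w * J + C * (2 * (η₀ * J) + 1) := by
    have h3 : ((⌊w₁ * (J : ℝ)⌋₊ : ℕ) : ℝ) + (g' l.length : ℝ) ≤
        ((⌊(β l₀ (p k).a (p k).w - (p k).d l₀) * (J : ℝ)⌋₊ : ℕ) : ℝ) +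
          C * ((⌊(p k).η * (J : ℝ)⌋₊ : ℕ) + (⌊(p k).η * (J : ℝ)⌋₊ : ℕ) + 1) := by
      exact_mod_cast hmain
    have h4 : ((⌊(p k).η * (J : ℝ)⌋₊ : ℕ) : ℝ) ≤ η₀ * J :=
      (Nat.floor_le (by positivity)).trans (mul_le_mul_of_nonneg_right pη1 hJr)
    have h5 : 0 ≤ β l₀ (p k).a (p k).w := by
      have := hβa (p k).a (p k).w (by linarith) hwk1 (by linarith)
      linarith
    have h6 : ((⌊(β l₀ (p k).a (p k).w - (p k).d l₀) * (J : ℝ)⌋₊ : ℕ) : ℝ) ≤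
        β l₀ (p k).a (p k).w * J := by
      refine (fl_le_max _).trans (max_le ?_ (by positivity))
      exact mul_le_mul_of_nonneg_right (by linarith) hJr
    have h7 := mul_le_mul_of_nonneg_left (show ((⌊(p k).η * (J : ℝ)⌋₊ : ℕ) : ℝ) +
      (⌊(p k).η * (J : ℝ)⌋₊ : ℕ) + 1 ≤ 2 * (η₀ * J) + 1 by linarith) hC0
    linarith
  have hlaw : β l₀ (p k).a (p k).w + (aₜ - (p k).a) ≤ β l₀ aₜ wₜ := by
    have h3 := hβ.slope (p k).a (p k).w (aₜ - (p k).a) (by linarith) hwk1 (by linarith)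
      (by linarith)
    have e1 : (p k).a + (aₜ - (p k).a) = aₜ := by ring
    rw [e1] at h3
    have h4 := hβ.mono_w aₜ (p k).w wₜ (by linarith) hwk2 ht3 ht4.le
    have h5 := h3.trans h4
    rcases min_choice 1 (β l₀ (p k).a (p k).w + (aₜ - (p k).a)) with h6 | h6
    · rw [h6] at h5
      linarith
    · rwa [h6] at h5
  have hUh : 0 ≤ U + h := by
    have h3 := hβa aₜ wₜ (by linarith) ht3 ht4.le
    have h4 : 0 < (1 - w₁) * (U + h / 2) := by linarith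
    have h5 : 0 < U + h / 2 := by
      by_contra hcon
      push Not at hcon
      have := mul_nonpos_of_nonneg_of_nonpos h1w.le hcon
      linarith
    linarith
  have hP1 : (U + h) * J' - 1 < (g' l.length : ℝ) + a' * J' - a₀ := by
    have h3 := Nat.lt_floor_add_one ((U + h) * (J' : ℝ))
    have h4 : ((⌊(U + h) * (J' : ℝ)⌋₊ : ℕ) : ℝ) + a₀ ≤ (g' l.length : ℝ) +
        (⌊a' * (J' : ℝ)⌋₊ : ℕ) := by exact_mod_cast hPg
    have h5 : ((⌊a' * (J' : ℝ)⌋₊ : ℕ) : ℝ) ≤ a' * J' := Nat.floor_le (by positivity)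
    linarith
  have hP2 : (U + h) * ((1 - w₁) * J) ≤ (U + h) * J' := mul_le_mul_of_nonneg_left g1 hUh
  have hP3 : a' * (J' : ℝ) ≤ (aₜ - w₁) * J := by
    have h3 : a' * (J' : ℝ) ≤ a' * ((1 - w₁) * J + 1) := mul_le_mul_of_nonneg_left g2 h0
    have h4 : a' * ((1 - w₁) * J + 1) = (w₁ + (1 - w₁) * a') * J - w₁ * J + a' := by ring
    have h5 : (aₜ - (w₁ + (1 - w₁) * a')) * J = aₜ * J - (w₁ + (1 - w₁) * a') * J := by ring
    linarith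
  rw [← pa] at hk2
  have hP4 : (p k).a * J ≤ X + me * J + 1 := hk2
  have hP5 := mul_le_mul_of_nonneg_right hlaw hJr
  have hP6 := mul_le_mul_of_nonneg_right hU hJr
  have hP7 := mul_le_mul_of_nonneg_right hme1 hJr
  have hP8 := mul_le_mul_of_nonneg_right hη01 hJr
  rw [hX] at hP4
  linarith

end Pool.Z3
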