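import Pool.Agent.H77.Z3.Zgy
import Pool.Agent.H77.Z3.Zphi

/-!
# No label of the kept direction in the zoom, smaller steps

`NdY`: a node on an event, with closed linear coordinates and a direction along which only one
coordinate of the zoom moves; the labels move with it for steps of size `2 ^ (-(P + lam) J)`.
`phi1_y`: the list of nodes for a point of the zoom, and no label above the number of the
direction on all large subevents, if these nodes are given.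
-/

set_option autoImplicit false

namespace Pool.Z3

open Finset Real MvPolynomial
open Pool.Agent.H49.Ent Pool.Agent.H32.Dense Pool.STK Pool.KA Pool.KSAT Pool.K2S Pool.PB Pool.S6C
open Pool.GEN Pool.CHT Pool.CHX Pool.ZLC Pool.ZCL Pool.SHR
open Pool.LBN (Tch cof cof_len)
open Pool.ONE (tgs)

variable {m n J : ℕ}

/-- **The node on an event**, for closed linear coordinates: the direction `v` moves only the
coordinate `lt` of the zoom, by at least `2 ^ (q J)`; the labels after the one of `c l₀` move with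
`v`, for steps of size `2 ^ (-(P + lam) J)`; the inverse of the coordinates is bounded. -/
def NdY (p : NdP) (lam w₁ : ℝ) (c : ℕ → Fin m) (r l₀ : ℕ) (β : ℕ → ℝ → ℝ → ℝ) (e : Fin n → Fin m)
    (lt : Fin n) (q : ℝ) : DtP m := fun J F B _ Cr z' =>
  ∃ (v : PtT F → Fin m → ℝ) (T : PtT F → ℕ → MvPolynomial (Option (Fin m)) ℝ)
    (TH : LnT F → ℕ → MvPolynomial (Option (Fin m)) ℝ),
    Nod F c r p.D p.Dr ⌊p.a * J⌋₊ ⌊p.w * J⌋₊ ⌊p.e * J⌋₊ ⌊p.E * J⌋₊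
      (fun l => ⌊(β l p.a p.w - p.d l) * J⌋₊) ⌊p.η * J⌋₊ ⌊(1 - p.μ) * J⌋₊ ⌊(1 - p.μT) * J⌋₊
      (Real.exp (-(p.ψ * J))) B T TH ∧
    (∀ ω, B ω → v (ptr F J ω) (c l₀) = 1 ∧ (∀ j < l₀, v (ptr F J ω) (c j) = 0) ∧
      (∀ k, k ≠ lt → Cr.L (z' (slam F ⌊w₁ * J⌋₊ ω)) (v (ptr F J ω)) (e k) = 0) ∧
      2 ^ ⌊q * J⌋₊ ≤ |Cr.L (z' (slam F ⌊w₁ * J⌋₊ ω)) (v (ptr F J ω)) (e lt)|) ∧
    (∀ ω, B ω → ∀ y : Fin m → ℝ, (∀ i, |Cr.L (z' (slam F ⌊w₁ * J⌋₊ ω)) y i| ≤ 1) →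
      (∀ l < r, |y (c l)| ≤ 2 ^ ⌊p.μ / 2 * J⌋₊) ∧ |y (c r)| ≤ 2 ^ ⌊(p.μT - p.μ / 2) * J⌋₊) ∧
    ∀ ω, B ω → ∀ i, l₀ < i → i < r + 1 → ShY F c l₀ ⌊p.a * J⌋₊ ⌊(β l₀ p.a p.w + lam) * J⌋₊
      (fun l => ⌊(β l p.a p.w - p.d l) * J⌋₊) T v ⌊p.η * J⌋₊ i ω

/-- **No label of the kept direction** in the zoom. -/
theorem phi1_y {n m r l₀ : ℕ} {c : ℕ → Fin m} {e : Fin n → Fin m} {lt : Fin n}
    (he : Function.Injective e) (hcov : ∀ i, ∃ l < r + 1, c l = i) (hl₀ : l₀ < r + 1)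
    (hc : Set.InjOn c (Set.Iio (r + 1))) {β : ℕ → ℝ → ℝ → ℝ} {w₁ a' w' q U h aₜ wₜ : ℝ}
    (hw0 : 0 < w₁) (hw1 : w₁ < 1) (h0 : 0 ≤ a') (h0' : 0 ≤ w') (hh : 0 < h)
    (ht1 : w₁ + (1 - w₁) * a' < aₜ) (ht2 : w₁ + (1 - w₁) * w' < wₜ) (ht4 : aₜ < 1)
    (hUh : 0 ≤ U + h) (K : ℕ) :
    ∃ N : ℕ, 1 ≤ N ∧ ∀ D : ℕ → ℕ, ∃ (Dr : ℕ) (η₀ : ℝ), 0 < η₀ ∧ (∀ k ≤ N, D k ≤ Dr) ∧
      ∀ (p : ℕ → NdP) (lam : ℕ → ℝ), (∀ k ≤ N, (p k).a = w₁ + k * ((aₜ - w₁) / N) ∧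
        (p k).w = min wₜ (p k).a ∧
        (p k).D = D k ∧ (p k).Dr = Dr ∧ 0 ≤ (p k).η ∧ (p k).η ≤ η₀ ∧ 0 < (p k).ψ ∧
        0 ≤ (p k).d l₀ ∧ 0 < (p k).μ ∧ (p k).μ ≤ (p k).μT ∧ (p k).μT ≤ 1) →
      (∀ k ≤ N, 0 ≤ lam k ∧ 0 ≤ β l₀ (p k).a (p k).w ∧
        β l₀ (p k).a (p k).w + lam k + (aₜ - (p k).a) - w₁ - q ≤ (1 - w₁) * (U + h / 2)) →
      ∃ ψ : ℝ, 0 < ψ ∧ ∃ J₀ : ℕ, ∀ J : ℕ, J₀ ≤ J → ∀ (F : Fam m J) (B : F.Ω → Prop) (V : Type)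
        (Cr : Crd m V) (z : PtT F → V) (z' : LnT F → V), Cr.Bd 0 2 →
        (∀ ω, B ω → z (ptr F J ω) = z' (slam F ⌊w₁ * J⌋₊ ω)) →
        (∀ k ≤ N, NdY (p k) (lam k) w₁ c r l₀ β e lt q J F B V Cr z') →
        ∀ (hl : IsLaw (cond F.p B True)) (J' : ℕ) (hJ : ⌊w₁ * J⌋₊ + J' = J) (B' : F.Ω → Prop),
          Sub B' B → Real.exp (-(3 * ψ * J')) * Pe F.p B ≤ Pe F.p B' →
          ¬ (tgs lt).T () K ⌊a' * J'⌋₊ ⌊w' * J'⌋₊ ⌊(U + h) * J'⌋₊ J'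
            (zfc (F.res B True hl) ⌊w₁ * J⌋₊ J' hJ.le Cr
              (fun ω => z' (slam F ⌊w₁ * J⌋₊ ω)) e) B' := by
  have h1w : 0 < 1 - w₁ := by linarith
  have hat : w₁ < aₜ := by
    have : 0 ≤ (1 - w₁) * a' := by positivity
    linarith
  obtain ⟨N, hN⟩ := exists_nat_gt ((aₜ - w₁) / ((1 - w₁) * h / 8))
  have hN0 : (0 : ℝ) < N := lt_trans (div_pos (by linarith) (by positivity)) hN
  have hN1 : 1 ≤ N := by
    have : (0 : ℕ) < N := by exact_mod_cast hN0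
    omega
  obtain ⟨me, hme⟩ : ∃ me : ℝ, me = (aₜ - w₁) / N := ⟨_, rfl⟩
  have hme0 : 0 < me := by rw [hme]; exact div_pos (by linarith) hN0
  have hme1 : me ≤ (1 - w₁) * h / 8 := by
    rw [div_lt_iff₀ (by positivity)] at hN
    rw [hme, div_le_iff₀ hN0]
    linarith
  have hmeN : N * me = aₜ - w₁ := by
    rw [hme]
    field_simp
  refine ⟨N, hN1, fun D => ?_⟩
  obtain ⟨Dr, hDr⟩ : ∃ Dr, Dr = ∑ k ∈ range (N + 1), D k + K + 1 := ⟨_, rfl⟩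
  have hDk : ∀ k ≤ N, D k ≤ Dr := fun k hk => by
    have h2 : D k ≤ ∑ k ∈ range (N + 1), D k :=
      Finset.single_le_sum (f := D) (fun _ _ => Nat.zero_le _) (mem_range.2 (by omega))
    omega
  obtain ⟨C, hC⟩ := zgy_tgs Dr n (r + 1) (by omega)
  have hC0 : (0 : ℝ) ≤ C := Nat.cast_nonneg C
  obtain ⟨η₀, hη₀⟩ : ∃ η₀ : ℝ, η₀ = (1 - w₁) * h / (16 * (C + 1)) := ⟨_, rfl⟩
  have hη00 : 0 < η₀ := by rw [hη₀]; positivity
  have hη01 : C * (2 * η₀) ≤ (1 - w₁) * h / 8 := by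
    have h2 : (C + 1) * (2 * η₀) = (1 - w₁) * h / 8 := by
      rw [hη₀]
      field_simp
      ring
    linarith
  refine ⟨Dr, η₀, hη00, hDk, fun p lam hp hlm => ?_⟩
  obtain ⟨ψ₁, hψ₁, hψk⟩ := fin_pos (N + 1) (f := fun k => (p k).ψ) fun k hk =>
    (hp k (by omega)).2.2.2.2.2.2.1
  obtain ⟨μ₁, hμ₁, hμk⟩ := fin_pos (N + 1) (f := fun k => (p k).μ) fun k hk =>
    (hp k (by omega)).2.2.2.2.2.2.2.2.1
  obtain ⟨J₁, hJ₁⟩ := share_ex (ψ := ψ₁ / 2) (κ := 1 / (15 ^ m * (11 ^ m * 19 ^ n) * 2 ^ n))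
    (by positivity) (by positivity)
  obtain ⟨J₂, hJ₂⟩ := exists_nat_gt ((C + 4) / ((1 - w₁) * h / 4))
  obtain ⟨J₃, hJ₃⟩ := exists_nat_gt (8 / μ₁)
  obtain ⟨J₄, hJ₄⟩ := exists_nat_gt ((a' + 1) / (aₜ - (w₁ + (1 - w₁) * a')))
  obtain ⟨J₅, hJ₅⟩ := exists_nat_gt ((w' + 1) / (wₜ - (w₁ + (1 - w₁) * w')))
  refine ⟨ψ₁ / 8, by positivity, max (max J₁ J₂) (max J₃ (max J₄ J₅)), ?_⟩
  intro J hJ F B V Cr z z' hBd hz hok hl J' hJJ B' hB' hPB'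
  simp only [max_le_iff] at hJ
  obtain ⟨⟨j1, j2⟩, j3, j4, j5⟩ := hJ
  have hJr : (0 : ℝ) ≤ J := Nat.cast_nonneg J
  have hJ'r : (0 : ℝ) ≤ J' := Nat.cast_nonneg J'
  have hj2 : C + 4 < (1 - w₁) * h / 4 * J := by
    have h3 := hJ₂.trans_le (show (J₂ : ℝ) ≤ J by exact_mod_cast j2)
    rw [div_lt_iff₀ (by positivity)] at h3
    linarith
  have hj3 : 8 < μ₁ * J := by
    have h3 := hJ₃.trans_le (show (J₃ : ℝ) ≤ J by exact_mod_cast j3)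
    rw [div_lt_iff₀ hμ₁] at h3
    linarith
  have hj4 : a' + 1 < (aₜ - (w₁ + (1 - w₁) * a')) * J := by
    have h3 := hJ₄.trans_le (show (J₄ : ℝ) ≤ J by exact_mod_cast j4)
    rw [div_lt_iff₀ (by linarith)] at h3
    linarith
  have hj5 : w' + 1 < (wₜ - (w₁ + (1 - w₁) * w')) * J := by
    have h3 := hJ₅.trans_le (show (J₅ : ℝ) ≤ J by exact_mod_cast j5)
    rw [div_lt_iff₀ (by linarith)] at h3
    linarith
  -- the scale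
  have f1 : ((⌊w₁ * (J : ℝ)⌋₊ : ℕ) : ℝ) ≤ w₁ * J := Nat.floor_le (by positivity)
  have f2 := Nat.lt_floor_add_one (w₁ * (J : ℝ))
  have hsum : ((⌊w₁ * (J : ℝ)⌋₊ : ℕ) : ℝ) + J' = J := by exact_mod_cast hJJ
  have g1 : (1 - w₁) * (J : ℝ) ≤ J' := by linarith
  have g2 : (J' : ℝ) ≤ (1 - w₁) * J + 1 := by linarith
  rintro ⟨l, hnd, hltl, a₀, w₀, e', g', hwa₀, ha₀, hw₀, hPg, -, hch⟩
  have ha₀r : (a₀ : ℝ) ≤ a' * J' := by
    have h3 : (a₀ : ℝ) ≤ (⌊a' * (J' : ℝ)⌋₊ : ℕ) := by exact_mod_cast ha₀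
    exact h3.trans (Nat.floor_le (by positivity))
  have hw₀r : (w₀ : ℝ) ≤ w' * J' := by
    have h3 : (w₀ : ℝ) ≤ (⌊w' * (J' : ℝ)⌋₊ : ℕ) := by exact_mod_cast hw₀
    exact h3.trans (Nat.floor_le (by positivity))
  have hwa₀r : (w₀ : ℝ) ≤ a₀ := by exact_mod_cast hwa₀
  obtain ⟨X, hX⟩ : ∃ X : ℝ, X = (⌊w₁ * (J : ℝ)⌋₊ : ℕ) + a₀ := ⟨_, rfl⟩
  have hXt : X ≤ aₜ * J := by
    have h3 : a' * (J' : ℝ) ≤ a' * ((1 - w₁) * J + 1) := mul_le_mul_of_nonneg_left g2 h0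
    rw [hX]
    linarith
  -- the node
  obtain ⟨k, hkN, hk1, hk2⟩ : ∃ k ≤ N, X ≤ (w₁ + k * me) * J ∧
      (w₁ + k * me) * J ≤ X + me * J + 1 := by
    classical
    have hex : ∃ k : ℕ, X ≤ (w₁ + k * me) * J := ⟨N, by
      have e1 : w₁ + N * me = aₜ := by linarith
      rw [e1]
      exact hXt⟩
    refine ⟨Nat.find hex, ?_, Nat.find_spec hex, ?_⟩
    · refine Nat.find_min' hex ?_
      have e1 : w₁ + N * me = aₜ := by linarith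
      rw [e1]
      exact hXt
    · rcases Nat.eq_zero_or_pos (Nat.find hex) with h3 | h3
      · rw [h3, Nat.cast_zero, zero_mul, add_zero]
        have h4 : 0 ≤ me * (J : ℝ) := by positivity
        have h5 : (0 : ℝ) ≤ a₀ := Nat.cast_nonneg _
        rw [hX]
        linarith
      · obtain ⟨q, hq⟩ : ∃ q, Nat.find hex = q + 1 := ⟨Nat.find hex - 1, by omega⟩
        have h4 := Nat.find_min hex (m := q) (by omega)
        push Not at h4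
        rw [hq]
        push_cast
        have e1 : (w₁ + ((q : ℝ) + 1) * me) * J = (w₁ + q * me) * J + me * J := by ring
        rw [e1]
        linarith
  obtain ⟨pa, pw, pD, pDr, pη0, pη1, pψ, pd, pμ0, pμ1, pμT⟩ := hp k hkN
  rw [← hme] at pa
  obtain ⟨v, T, TH, hNod, hv, hInv, hShr⟩ := hok k hkN
  have hkme : (k : ℝ) * me ≤ aₜ - w₁ := by
    have h3 : (k : ℝ) ≤ N := by exact_mod_cast hkN
    have := mul_le_mul_of_nonneg_right h3 hme0.le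
    linarith
  have hk0me : 0 ≤ (k : ℝ) * me := by positivity
  have hak1 : (p k).a ≤ aₜ := by rw [pa]; linarith
  have hak0 : w₁ ≤ (p k).a := by rw [pa]; linarith
  have hwk1 : (p k).w ≤ (p k).a := by rw [pw]; exact min_le_right _ _
  have hwk2 : (p k).w ≤ wₜ := by rw [pw]; exact min_le_left _ _
  have hwt1 : w₁ < wₜ := by
    have : 0 ≤ (1 - w₁) * w' := by positivity
    linarith
  have hwk0 : w₁ ≤ (p k).w := by rw [pw]; exact le_min hwt1.le hak0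
  -- the natural numbers
  have hak00 : 0 ≤ (p k).a := by linarith
  have n1 : ⌊w₁ * (J : ℝ)⌋₊ + a₀ ≤ ⌊(p k).a * (J : ℝ)⌋₊ := by
    rw [Nat.le_floor_iff (by positivity), pa]
    push_cast
    rw [← hX]
    exact hk1
  have n2 : ⌊w₁ * (J : ℝ)⌋₊ + w₀ ≤ ⌊(p k).w * (J : ℝ)⌋₊ := by
    have hw00 : 0 ≤ (p k).w := by linarith
    rw [Nat.le_floor_iff (by positivity)]
    push_cast
    rcases min_choice wₜ (p k).a with h3 | h3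
    · rw [pw, h3]
      have h4 : w' * (J' : ℝ) ≤ w' * ((1 - w₁) * J + 1) := mul_le_mul_of_nonneg_left g2 h0'
      linarith
    · rw [pw, h3, pa]
      rw [hX] at hk1
      linarith
  have n3 : ⌊(p k).w * (J : ℝ)⌋₊ ≤ J := by
    refine Nat.floor_le_of_le ?_
    have h3 : (p k).w ≤ 1 := by linarith
    have := mul_le_mul_of_nonneg_right h3 hJr
    linarith
  have hμk' : μ₁ ≤ (p k).μ := hμk k (by omega)
  have hμJ : 8 < (p k).μ * J := lt_of_lt_of_le hj3 (mul_le_mul_of_nonneg_right hμk' hJr)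
  obtain ⟨M, hM⟩ : ∃ M : Fin m → ℕ, M = fun i => if i = c r then
    ⌊((p k).μT - (p k).μ / 2) * (J : ℝ)⌋₊ else ⌊(p k).μ / 2 * (J : ℝ)⌋₊ := ⟨_, rfl⟩
  have hMr : M (c r) = ⌊((p k).μT - (p k).μ / 2) * (J : ℝ)⌋₊ := by
    rw [hM]
    exact if_pos rfl
  have hMl : ∀ l < r, M (c l) = ⌊(p k).μ / 2 * (J : ℝ)⌋₊ := fun l hl => by
    rw [hM]
    refine if_neg fun h3 => ?_
    have := hc (show l < r + 1 by omega) (show r < r + 1 by omega) h3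
    omega
  have hInv' : ∀ ω, B ω → ∀ y : Fin m → ℝ,
      (∀ i, |Cr.L (z' (slam F ⌊w₁ * J⌋₊ ω)) y i| ≤ 1) → ∀ i, |y i| ≤ 2 ^ M i := by
    intro ω hω y hy i
    obtain ⟨l, h3, h4⟩ := hcov i
    obtain ⟨h5, h6⟩ := hInv ω hω y hy
    rw [← h4]
    rcases Nat.lt_or_ge l r with h7 | h7
    · rw [hMl l h7]
      exact h5 l h7
    · have h8 : l = r := by omega
      rw [h8, hMr]
      exact h6
  have n4 : ∀ l < r, ⌊(1 - (p k).μ) * (J : ℝ)⌋₊ + M (c l) + 2 ≤ J := by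
    intro l hl
    rw [hMl l hl]
    have h3 : ((⌊(p k).μ / 2 * (J : ℝ)⌋₊ : ℕ) : ℝ) ≤ (p k).μ / 2 * J :=
      Nat.floor_le (by positivity)
    have h4 : ((⌊(1 - (p k).μ) * (J : ℝ)⌋₊ : ℕ) : ℝ) ≤ (1 - (p k).μ) * J :=
      Nat.floor_le (mul_nonneg (by linarith) hJr)
    have h5 : ((⌊(1 - (p k).μ) * (J : ℝ)⌋₊ + ⌊(p k).μ / 2 * (J : ℝ)⌋₊ + 2 : ℕ) : ℝ) ≤ J := by
      push_cast
      linarith
    exact_mod_cast h5
  have n5 : ⌊(1 - (p k).μT) * (J : ℝ)⌋₊ + M (c r) + 2 ≤ J := by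
    rw [hMr]
    have h3 : ((⌊((p k).μT - (p k).μ / 2) * (J : ℝ)⌋₊ : ℕ) : ℝ) ≤
        ((p k).μT - (p k).μ / 2) * J := Nat.floor_le (mul_nonneg (by linarith) hJr)
    have h4 : ((⌊(1 - (p k).μT) * (J : ℝ)⌋₊ : ℕ) : ℝ) ≤ (1 - (p k).μT) * J :=
      Nat.floor_le (mul_nonneg (by linarith) hJr)
    have h5 : ((⌊(1 - (p k).μT) * (J : ℝ)⌋₊ + ⌊((p k).μT - (p k).μ / 2) * (J : ℝ)⌋₊ + 2 : ℕ) : ℝ) ≤
        J := by
      push_cast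
      linarith
    exact_mod_cast h5
  have hJ'J : (J' : ℝ) ≤ J := by
    have : (0 : ℝ) ≤ (⌊w₁ * (J : ℝ)⌋₊ : ℕ) := Nat.cast_nonneg _
    linarith
  have hψk' : ψ₁ ≤ (p k).ψ := hψk k (by omega)
  have n6 : Real.exp (-((p k).ψ * J)) * (15 ^ m * (11 ^ m * 19 ^ n) * 2 ^ n) ≤
      Real.exp (-(3 * (ψ₁ / 8) * J')) := by
    have h3 := hJ₁ J j1
    have h4 : Real.exp (-((p k).ψ * J)) ≤ Real.exp (-(ψ₁ / 2 * J)) *
        Real.exp (-(ψ₁ / 2 * J)) := by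
      rw [← Real.exp_add]
      refine Real.exp_le_exp.2 ?_
      have := mul_le_mul_of_nonneg_right hψk' hJr
      linarith
    have h5 : Real.exp (-(ψ₁ / 2 * (J : ℝ))) ≤ Real.exp (-(3 * (ψ₁ / 8) * J')) := by
      refine Real.exp_le_exp.2 ?_
      have := mul_le_mul_of_nonneg_left hJ'J hψ₁.le
      have h6 : 0 ≤ ψ₁ * (J : ℝ) := by positivity
      linarith
    have h7 : (0 : ℝ) < 15 ^ m * (11 ^ m * 19 ^ n) * 2 ^ n := by positivity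
    calc Real.exp (-((p k).ψ * J)) * (15 ^ m * (11 ^ m * 19 ^ n) * 2 ^ n) ≤
          Real.exp (-(ψ₁ / 2 * J)) * Real.exp (-(ψ₁ / 2 * J)) *
            (15 ^ m * (11 ^ m * 19 ^ n) * 2 ^ n) := mul_le_mul_of_nonneg_right h4 h7.le
      _ ≤ Real.exp (-(ψ₁ / 2 * J)) * (1 / (15 ^ m * (11 ^ m * 19 ^ n) * 2 ^ n)) *
            (15 ^ m * (11 ^ m * 19 ^ n) * 2 ^ n) :=
          mul_le_mul_of_nonneg_right (mul_le_mul_of_nonneg_left h3 (Real.exp_pos _).le) h7.le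
      _ = Real.exp (-(ψ₁ / 2 * J)) := by field_simp
      _ ≤ _ := h5
  obtain ⟨GG, HH, hGH⟩ := hch
  obtain ⟨hl0, hb0, hnum⟩ := hlm k hkN
  have hmain := hC (F := F) (z := z) (z' := z') (Cr := Cr) (M := M) (v := v)
    (h := ⌊(p k).η * (J : ℝ)⌋₊) (x := ⌊(p k).η * (J : ℝ)⌋₊) (q := ⌊q * (J : ℝ)⌋₊)
    (y := ⌊(β l₀ (p k).a (p k).w + lam k) * (J : ℝ)⌋₊)
    (κ := Real.exp (-((p k).ψ * J))) (κ' := Real.exp (-(3 * (ψ₁ / 8) * J'))) hJJ hl hBd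
    (Nat.lt_succ_self r) he hcov hl₀ hc
    (fun y i => (hNod.top.degG y i).trans (by rw [pD]; exact hDk k hkN)) hNod.top.depG
    (hNod.rlY.mono (by rw [pDr]) le_rfl le_rfl) hB' hPB' n6 (Real.exp_pos _) n4 n5 n3 hz hInv' hv
    (Nat.floor_le_floor (mul_le_mul_of_nonneg_right (by linarith) hJr)) hShr hnd hltl n1 n2 ⟨GG, HH, hGH.mono le_rfl (fun _ => by omega) le_rfl le_rfl⟩
  -- the real numbers
  have hqJ := Nat.lt_floor_add_one (q * (J : ℝ))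
  have hmain' : ((⌊w₁ * (J : ℝ)⌋₊ : ℕ) : ℝ) + (⌊q * (J : ℝ)⌋₊ : ℕ) + (g' l.length : ℝ) ≤
      (β l₀ (p k).a (p k).w + lam k) * J + C * (2 * (η₀ * J) + 1) := by
    have h3 : ((⌊w₁ * (J : ℝ)⌋₊ : ℕ) : ℝ) + (⌊q * (J : ℝ)⌋₊ : ℕ) + (g' l.length : ℝ) ≤
        ((⌊(β l₀ (p k).a (p k).w + lam k) * (J : ℝ)⌋₊ : ℕ) : ℝ) +
          C * ((⌊(p k).η * (J : ℝ)⌋₊ : ℕ) + (⌊(p k).η * (J : ℝ)⌋₊ : ℕ) + 1) := by
      exact_mod_cast hmain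
    have h4 : ((⌊(p k).η * (J : ℝ)⌋₊ : ℕ) : ℝ) ≤ η₀ * J :=
      (Nat.floor_le (by positivity)).trans (mul_le_mul_of_nonneg_right pη1 hJr)
    have h6 : ((⌊(β l₀ (p k).a (p k).w + lam k) * (J : ℝ)⌋₊ : ℕ) : ℝ) ≤
        (β l₀ (p k).a (p k).w + lam k) * J := Nat.floor_le (mul_nonneg (by linarith) hJr)
    have h7 := mul_le_mul_of_nonneg_left (show ((⌊(p k).η * (J : ℝ)⌋₊ : ℕ) : ℝ) +
      (⌊(p k).η * (J : ℝ)⌋₊ : ℕ) + 1 ≤ 2 * (η₀ * J) + 1 by linarith) hC0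
    linarith
  have hP1 : (U + h) * J' - 1 < (g' l.length : ℝ) + a' * J' - a₀ := by
    have h3 := Nat.lt_floor_add_one ((U + h) * (J' : ℝ))
    have h4 : ((⌊(U + h) * (J' : ℝ)⌋₊ : ℕ) : ℝ) + a₀ ≤ (g' l.length : ℝ) +
        (⌊a' * (J' : ℝ)⌋₊ : ℕ) := by exact_mod_cast hPg
    have h5 : ((⌊a' * (J' : ℝ)⌋₊ : ℕ) : ℝ) ≤ a' * J' := Nat.floor_le (by positivity)
    linarith
  have hP2 : (U + h) * ((1 - w₁) * J) ≤ (U + h) * J' := mul_le_mul_of_nonneg_left g1 hUh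
  have hP3 : a' * (J' : ℝ) ≤ (aₜ - w₁) * J := by
    have h3 : a' * (J' : ℝ) ≤ a' * ((1 - w₁) * J + 1) := mul_le_mul_of_nonneg_left g2 h0
    have h4 : a' * ((1 - w₁) * J + 1) = (w₁ + (1 - w₁) * a') * J - w₁ * J + a' := by ring
    have h5 : (aₜ - (w₁ + (1 - w₁) * a')) * J = aₜ * J - (w₁ + (1 - w₁) * a') * J := by ring
    linarith
  rw [← pa] at hk2
  have hP4 : (p k).a * J ≤ X + me * J + 1 := hk2
  have hP6 := mul_le_mul_of_nonneg_right hnum hJr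
  have hP7 := mul_le_mul_of_nonneg_right hme1 hJr
  have hP8 := mul_le_mul_of_nonneg_right hη01 hJr
  rw [hX] at hP4
  linarith

end Pool.Z3
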